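import Mathlib

set_option autoImplicit false

namespace Pool.Agent.Helper851

open Subgroup

/-- One step of a normal series with cyclic factors. -/
def Step {G : Type} [Group G] (A B : Subgroup G) : Prop :=
  A.Normal ∧ B.Normal ∧ A ≤ B ∧ ∃ g ∈ B, ∀ x ∈ B, ∃ k : ℤ, x * (g ^ k)⁻¹ ∈ A

/-- Supersoluble groups (a finite series of normal subgroups with cyclic factors). -/
def SS (G : Type) [Group G] : Prop := Relation.ReflTransGen (Step (G := G)) ⊥ ⊤

theorem chain_of_rtg {G : Type} [Group G] (B : Subgroup G)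
    (h : Relation.ReflTransGen (Step (G := G)) ⊥ B) :
    ∃ (n : ℕ) (s : Fin (n + 1) → Subgroup G), s 0 = ⊥ ∧ s (Fin.last n) = B ∧
      (∀ i, (s i).Normal) ∧
      ∀ i : Fin n, s i.castSucc ≤ s i.succ ∧
        ∃ g ∈ s i.succ, ∀ x ∈ s i.succ, ∃ k : ℤ, x * (g ^ k)⁻¹ ∈ s i.castSucc := by
  induction h with
  | refl =>
    exact ⟨0, fun _ => ⊥, rfl, rfl, fun _ => inferInstance, fun i => i.elim0⟩
  | @tail B C _ hstep ih =>
    obtain ⟨n, s, h0, hl, hn, hs⟩ := ih
    obtain ⟨hB, hC, hle, g, hg, hx⟩ := hstep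
    refine ⟨n + 1, Fin.snoc (α := fun _ => Subgroup G) s C, ?_, ?_, ?_, ?_⟩
    · rw [← Fin.castSucc_zero, Fin.snoc_castSucc]; exact h0
    · rw [Fin.snoc_last]
    · intro i
      refine Fin.lastCases ?_ (fun j => ?_) i
      · rw [Fin.snoc_last]; exact hC
      · rw [Fin.snoc_castSucc]; exact hn j
    · intro i
      refine Fin.lastCases ?_ (fun j => ?_) i
      · rw [Fin.snoc_castSucc, Fin.succ_last, Fin.snoc_last, hl]
        exact ⟨hle, g, hg, hx⟩
      · rw [Fin.snoc_castSucc, Fin.succ_castSucc, Fin.snoc_castSucc]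
        exact hs j

theorem SS_iff (G : Type) [Group G] : SS G ↔
    ∃ (n : ℕ) (s : Fin (n + 1) → Subgroup G), s 0 = ⊥ ∧ s (Fin.last n) = ⊤ ∧
      (∀ i, (s i).Normal) ∧
      ∀ i : Fin n, s i.castSucc ≤ s i.succ ∧
        ∃ g ∈ s i.succ, ∀ x ∈ s i.succ, ∃ k : ℤ, x * (g ^ k)⁻¹ ∈ s i.castSucc := by
  constructor
  · intro h
    exact chain_of_rtg ⊤ h
  · rintro ⟨n, s, h0, hl, hn, hs⟩
    have key : ∀ i : Fin (n + 1), Relation.ReflTransGen (Step (G := G)) (s 0) (s i) := by
      intro i
      induction i using Fin.induction with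
      | zero => exact Relation.ReflTransGen.refl
      | succ i ih =>
        obtain ⟨hle, g, hg, hx⟩ := hs i
        exact Relation.ReflTransGen.tail ih ⟨hn _, hn _, hle, g, hg, hx⟩
    have := key (Fin.last n)
    rw [h0, hl] at this
    exact this

theorem SS.map {G K : Type} [Group G] [Group K] (f : G →* K) (hf : Function.Surjective f)
    (h : SS G) : SS K := by
  have h2 : Relation.ReflTransGen (Step (G := K)) ((⊥ : Subgroup G).map f)
      ((⊤ : Subgroup G).map f) := by
    refine Relation.ReflTransGen.lift (fun A : Subgroup G => A.map f) ?_ _ _ h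
    rintro A B ⟨hA, hB, hle, g, hg, hx⟩
    refine ⟨hA.map f hf, hB.map f hf, Subgroup.map_mono hle, f g, Subgroup.mem_map_of_mem f hg, ?_⟩
    rintro y ⟨x, hxB, rfl⟩
    obtain ⟨k, hk⟩ := hx x hxB
    refine ⟨k, x * (g ^ k)⁻¹, hk, ?_⟩
    simp
  rwa [Subgroup.map_bot, ← MonoidHom.range_eq_map, MonoidHom.range_eq_top.mpr hf] at h2

theorem SS.of_cyclic_ker {G K : Type} [Group G] [Group K] (f : G →* K)
    (hf : Function.Surjective f) (c : G) (hc : f.ker = zpowers c) (h : SS K) : SS G := by
  have h2 : Relation.ReflTransGen (Step (G := G)) ((⊥ : Subgroup K).comap f)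
      ((⊤ : Subgroup K).comap f) := by
    refine Relation.ReflTransGen.lift (fun A : Subgroup K => A.comap f) ?_ _ _ h
    rintro A B ⟨hA, hB, hle, g, hg, hx⟩
    obtain ⟨g', rfl⟩ := hf g
    refine ⟨hA.comap f, hB.comap f, Subgroup.comap_mono hle, g', hg, ?_⟩
    intro x hxB
    obtain ⟨k, hk⟩ := hx (f x) hxB
    refine ⟨k, ?_⟩
    rw [Subgroup.mem_comap]
    simpa using hk
  rw [Subgroup.comap_top] at h2
  refine Relation.ReflTransGen.head ?_ h2
  refine ⟨inferInstance, inferInstance, bot_le, c, ?_, ?_⟩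
  · rw [Subgroup.mem_comap, Subgroup.mem_bot, ← MonoidHom.mem_ker, hc]
    exact mem_zpowers c
  · intro x hx
    rw [Subgroup.mem_comap, Subgroup.mem_bot, ← MonoidHom.mem_ker, hc] at hx
    obtain ⟨k, rfl⟩ := hx
    exact ⟨k, by simp⟩

theorem SS.of_quot_zpowers {G : Type} [Group G] (c : G) [hn : (zpowers c).Normal]
    (h : SS (G ⧸ zpowers c)) : SS G :=
  SS.of_cyclic_ker (QuotientGroup.mk' (zpowers c)) (QuotientGroup.mk'_surjective _) c
    (QuotientGroup.ker_mk' _) h

theorem SS.of_subsingleton {G : Type} [Group G] [Subsingleton G] : SS G := by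
  have : (⊥ : Subgroup G) = ⊤ := Subsingleton.elim _ _
  unfold SS
  rw [this]

/-- A normal cyclic subgroup has all its subgroups normal. -/
theorem zpowers_normal_of_mem {G : Type} [Group G] (w : G) (hw : (zpowers w).Normal) (v : G)
    (hv : v ∈ zpowers w) : (zpowers v).Normal := by
  obtain ⟨m, rfl⟩ := hv
  constructor
  intro n hn g
  obtain ⟨k, rfl⟩ := hn
  obtain ⟨j, hj⟩ := hw.conj_mem w (mem_zpowers w) g
  simp only at hj
  refine ⟨k * j, ?_⟩
  simp only
  have : g * ((w ^ m) ^ k) * g⁻¹ = (w ^ j) ^ (m * k) := by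
    rw [hj, conj_zpow, ← zpow_mul]
  rw [this, ← zpow_mul, ← zpow_mul]
  congr 1
  ring

theorem SS.exists_zpowers_normal {G : Type} [Group G] (h : SS G) (V : Subgroup G) [hV : V.Normal]
    (hne : V ≠ ⊥) : ∃ v ∈ V, v ≠ 1 ∧ (zpowers v).Normal := by
  have key : ∀ B : Subgroup G, Relation.ReflTransGen (Step (G := G)) ⊥ B → V ⊓ B ≠ ⊥ →
      ∃ v ∈ V, v ≠ 1 ∧ (zpowers v).Normal := by
    intro B hB
    induction hB with
    | refl => intro h; simp at h
    | @tail B C _ hstep ih =>
      intro hC
      by_cases hVB : V ⊓ B = ⊥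
      · obtain ⟨hBn, hCn, hle, g, hg, hx⟩ := hstep
        -- the hom from `V ⊓ C` to `G ⧸ B`
        let φ : ↥(V ⊓ C) →* G ⧸ B := (QuotientGroup.mk' B).comp (V ⊓ C).subtype
        have hφ : ∀ x : ↥(V ⊓ C), φ x ∈ zpowers (QuotientGroup.mk' B g) := by
          intro x
          obtain ⟨k, hk⟩ := hx x.1 x.2.2
          refine ⟨k, ?_⟩
          simp only
          rw [← map_zpow]
          symm
          change QuotientGroup.mk' B x.1 = QuotientGroup.mk' B (g ^ k)
          rw [QuotientGroup.mk'_eq_mk']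
          refine ⟨(x.1 : G)⁻¹ * g ^ k, ?_, by group⟩
          have h1 := hBn.conj_mem _ (inv_mem hk) (x.1⁻¹ : G)
          have h2 : (x.1 : G)⁻¹ * (x.1 * (g ^ k)⁻¹)⁻¹ * (x.1⁻¹)⁻¹ = (x.1 : G)⁻¹ * g ^ k := by
            group
          rwa [h2] at h1
        let ψ : ↥(V ⊓ C) →* ↥(zpowers (QuotientGroup.mk' B g)) := φ.codRestrict _ hφ
        have hψ : Function.Injective ψ := by
          rw [injective_iff_map_eq_one]
          intro a ha
          have h1 : φ a = 1 := congrArg Subtype.val ha
          have h2 : (a : G) ∈ B := (QuotientGroup.eq_one_iff (a : G)).mp h1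
          have h3 : (a : G) ∈ V ⊓ B := ⟨a.2.1, h2⟩
          rw [hVB, Subgroup.mem_bot] at h3
          exact Subtype.ext h3
        have hcyc : IsCyclic ↥(V ⊓ C) := isCyclic_of_injective ψ hψ
        obtain ⟨w, hw⟩ := hcyc.exists_generator
        have hWeq : V ⊓ C = zpowers (w : G) := by
          apply le_antisymm
          · intro x hxm
            obtain ⟨k, hk⟩ := hw ⟨x, hxm⟩
            refine ⟨k, ?_⟩
            have := congrArg Subtype.val hk
            simpa using this
          · rw [zpowers_le]; exact w.2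
        have hWn : (zpowers (w : G)).Normal := by
          rw [← hWeq]; infer_instance
        refine ⟨w, w.2.1, ?_, hWn⟩
        intro hw1
        apply hC
        rw [hWeq, hw1, zpowers_one_eq_bot]
      · exact ih hVB
  exact key ⊤ h (by simpa using hne)

/-- Strong induction on the order of a finite group, pattern for later use. -/
theorem SS.of_isPGroup_aux (r : ℕ) (hr : r.Prime) (n : ℕ) :
    ∀ (G : Type) [Group G] [Finite G], Nat.card G = n → IsPGroup r G → SS G := by
  have : Fact r.Prime := ⟨hr⟩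
  induction n using Nat.strong_induction_on with
  | _ n ih =>
    intro G _ _ hn hG
    rcases subsingleton_or_nontrivial G with hs | hnt
    · exact SS.of_subsingleton
    · have hc := hG.center_nontrivial
      obtain ⟨z, hz⟩ := exists_ne (1 : ↥(center G))
      have hz1 : (z : G) ≠ 1 := fun h => hz (Subtype.ext h)
      have hzn : (zpowers (z : G)).Normal := by
        constructor
        intro x hx g
        have hxc : x ∈ center G := (zpowers_le.mpr z.2) hx
        rw [(mem_center_iff.mp hxc g), mul_inv_cancel_right]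
        exact hx
      apply SS.of_quot_zpowers (z : G)
      refine ih _ ?_ (G ⧸ zpowers (z : G)) rfl (hG.to_quotient _)
      rw [← hn, ← Subgroup.index_eq_card]
      have h1 := Subgroup.card_mul_index (zpowers (z : G))
      have h2 : 1 < Nat.card (zpowers (z : G)) := by
        rw [Nat.card_zpowers]
        have := orderOf_pos (z : G)
        have h3 : orderOf (z : G) ≠ 1 := by
          rw [Ne, orderOf_eq_one_iff]; exact hz1
        omega
      have h3 : 0 < (zpowers (z : G)).index := Nat.pos_of_ne_zero (Subgroup.index_ne_zero_of_finite)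
      rw [← h1]
      nlinarith

theorem SS.of_isPGroup (r : ℕ) (hr : r.Prime) (G : Type) [Group G] [Finite G]
    (hG : IsPGroup r G) : SS G :=
  SS.of_isPGroup_aux r hr _ G rfl hG

end Pool.Agent.Helper851
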