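import Mathlib
import Pool.Agent.Helper851.SS

set_option autoImplicit false

namespace Pool.Agent.Helper851

open Subgroup

/-- Lifting `r`-subgroups along surjections. -/
theorem lift_pGroup {E G : Type} [Group E] [Group G] [Finite E] (f : E →* G)
    (hf : Function.Surjective f) (r : ℕ) (hr : r.Prime) (R : Subgroup G) (hR : IsPGroup r R) :
    ∃ S : Subgroup E, IsPGroup r S ∧ S.map f = R := by
  have : Fact r.Prime := ⟨hr⟩
  have : Finite G := Finite.of_surjective f hf
  obtain ⟨P, hP⟩ := hR.exists_le_sylow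
  obtain ⟨P', hP'⟩ := Sylow.mapSurjective_surjective hf r P
  refine ⟨P'.1 ⊓ R.comap f, P'.2.to_inf_left, ?_⟩
  ext y
  constructor
  · rintro ⟨x, ⟨_, hx⟩, rfl⟩
    exact hx
  · intro hy
    have h1 : y ∈ P.1 := hP hy
    rw [← hP'] at h1
    obtain ⟨x, hx, rfl⟩ := h1
    exact ⟨x, ⟨hx, hy⟩, rfl⟩

open scoped IsMulCommutative in
/-- If `x ^ k = 1` and the part of the normal closure `N` of `x` killed by `f` is central in `N`,
then every element of `N` has order dividing `|f(N)| * k`. -/
theorem transfer_lemma {G K : Type} [Group G] [Finite G] [Group K] (f : G →* K) (x : G) (k : ℕ)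
    (hx : x ^ k = 1)
    (hc : ∀ u ∈ normalClosure {x}, ∀ v ∈ normalClosure {x}, f u = 1 → u * v = v * u)
    (u : G) (hu : u ∈ normalClosure {x}) :
    u ^ (Nat.card ((normalClosure {x}).map f) * k) = 1 := by
  set N := normalClosure {x} with hN
  let fN : ↥N →* K := f.comp N.subtype
  have hker : fN.ker ≤ center ↥N := by
    intro z hz
    rw [mem_center_iff]
    intro g
    apply Subtype.ext
    exact (hc z.1 z.2 g.1 g.2 hz).symm
  have hidx : (center ↥N).index ∣ Nat.card (N.map f) := by
    have h1 : (center ↥N).index ∣ fN.ker.index := index_dvd_of_le hker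
    rw [index_ker] at h1
    have h2 : fN.range = N.map f := by
      rw [MonoidHom.range_comp, range_subtype]
    rwa [h2] at h1
  let θ : ↥N →* center ↥N := (powMonoidHom k).comp (MonoidHom.transferCenterPow ↥N)
  have hle : N ≤ θ.ker.map N.subtype := by
    conv_lhs => rw [hN]
    unfold normalClosure
    rw [closure_le]
    intro y hy
    have hyN : y ∈ N := by
      rw [hN]; exact subset_closure hy
    rw [Group.mem_conjugatesOfSet_iff] at hy
    obtain ⟨a, ha, hay⟩ := hy
    rw [Set.mem_singleton_iff] at ha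
    subst ha
    rw [isConj_iff] at hay
    obtain ⟨c, rfl⟩ := hay
    refine ⟨⟨c * a * c⁻¹, hyN⟩, ?_, rfl⟩
    change MonoidHom.transferCenterPow ↥N _ ^ k = 1
    rw [← map_pow]
    have : (⟨c * a * c⁻¹, hyN⟩ : ↥N) ^ k = 1 := by
      apply Subtype.ext
      simp [conj_pow, hx]
    rw [this, map_one]
  obtain ⟨u', hu', rfl⟩ := hle hu
  have h1 : MonoidHom.transferCenterPow ↥N u' ^ k = 1 := hu'
  have h2 : (u' ^ (center ↥N).index) ^ k = 1 := by
    have := congrArg (Subtype.val : center ↥N → ↥N) h1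
    simpa using this
  rw [← pow_mul] at h2
  obtain ⟨m, hm⟩ := hidx
  have h3 : u' ^ (Nat.card (N.map f) * k) = 1 := by
    rw [hm, show (center ↥N).index * m * k = (center ↥N).index * k * m by ring, pow_mul, h2,
      one_pow]
  have := congrArg (Subtype.val : ↥N → G) h3
  simpa using this

theorem exists_eigen {F M : Type} [Field F] [AddCommGroup M] [Module F M] (T : Module.End F M)
    (s : Finset F) : ∀ (w : M), w ≠ 0 →
    (Polynomial.aeval T (∏ j ∈ s, (Polynomial.X - Polynomial.C j))) w = 0 →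
    ∃ j ∈ s, ∃ u : M, u ≠ 0 ∧ T u = j • u := by
  classical
  induction s using Finset.induction_on with
  | empty => intro w hw h; simp at h; exact absurd h hw
  | insert a s ha ih =>
    intro w hw h
    rw [Finset.prod_insert ha, map_mul, Module.End.mul_apply] at h
    by_cases hy : (Polynomial.aeval T (∏ j ∈ s, (Polynomial.X - Polynomial.C j))) w = 0
    · obtain ⟨j, hj, u, hu, hTu⟩ := ih w hw hy
      exact ⟨j, Finset.mem_insert_of_mem hj, u, hu, hTu⟩
    · refine ⟨a, Finset.mem_insert_self _ _, _, hy, ?_⟩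
      simp only [map_sub, Polynomial.aeval_X, Polynomial.aeval_C, LinearMap.sub_apply] at h
      rw [sub_eq_zero] at h
      rw [h]
      rfl

theorem prod_univ_X_sub (p : ℕ) [Fact p.Prime] :
    (∏ j : ZMod p, (Polynomial.X - Polynomial.C j)) = (Polynomial.X ^ p - Polynomial.X) := by
  have h := FiniteField.roots_X_pow_card_sub_X (ZMod p)
  rw [ZMod.card] at h
  have hp : 1 < p := (Fact.out : p.Prime).one_lt
  have hmonic : (Polynomial.X ^ p - Polynomial.X : Polynomial (ZMod p)).Monic := by
    apply Polynomial.monic_X_pow_sub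
    rw [Polynomial.degree_X]
    exact_mod_cast hp
  have hdeg : (Polynomial.X ^ p - Polynomial.X : Polynomial (ZMod p)).natDegree = p :=
    FiniteField.X_pow_card_sub_X_natDegree_eq (ZMod p) hp
  have h2 := Polynomial.prod_multiset_X_sub_C_of_monic_of_roots_card_eq hmonic (by
    rw [h, hdeg]
    simp)
  rw [h] at h2
  exact h2

theorem exists_eigen_add_aux (p : ℕ) [Fact p.Prime] {M : Type} [AddCommGroup M]
    [Module (ZMod p) M] (T : AddMonoid.End M) (hT : T ^ (p - 1) = 1) (v : M) (hv : v ≠ 0) :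
    (∃ j : ℕ, ∃ u : M, u ≠ 0 ∧ T u = j • u) ∧
    (T v ≠ v → ∃ j : ℕ, ¬ (j ≡ 1 [MOD p]) ∧ ∃ u : M, u ≠ 0 ∧ T u = j • u) := by
  classical
  have hp : p.Prime := Fact.out
  let T' : M →ₗ[ZMod p] M := AddMonoidHom.toZModLinearMap p (T : M →+ M)
  have hT' : ∀ m, T' m = T m := fun _ => rfl
  have hpow : ∀ n : ℕ, ∀ m, (T' ^ n) m = (T ^ n) m := by
    intro n
    induction n with
    | zero => intro m; rfl
    | succ n ih =>
      intro m
      rw [pow_succ, pow_succ, Module.End.mul_apply, ih]
      rfl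
  have hTp : T' ^ p = T' := by
    apply LinearMap.ext
    intro m
    have h1 : T ^ p = T := by
      obtain ⟨q, hq⟩ : ∃ q, p = q + 1 := ⟨p - 1, (Nat.succ_pred_eq_of_pos hp.pos).symm⟩
      have h2 : T ^ q = 1 := by
        have : q = p - 1 := by omega
        rw [this]; exact hT
      have h3 : T ^ p = T ^ (q + 1) := congrArg (fun n => T ^ n) hq
      rw [h3, pow_succ, h2, one_mul]
    rw [hpow, h1]
    rfl
  have hall : Polynomial.aeval T' (∏ j : ZMod p, (Polynomial.X - Polynomial.C j)) = 0 := by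
    rw [prod_univ_X_sub]
    simp [hTp]
  constructor
  · obtain ⟨j, _, u, hu, hTu⟩ := exists_eigen T' Finset.univ v hv (by rw [hall]; rfl)
    refine ⟨j.val, u, hu, ?_⟩
    have h1 : T u = j • u := hTu
    rw [h1]
    have h2 : ((j.val : ℕ) : ZMod p) • u = j.val • u := Nat.cast_smul_eq_nsmul _ _ _
    rw [← h2, ZMod.natCast_zmod_val]
  · intro hne
    have hw : T' v - v ≠ 0 := by
      rw [sub_ne_zero]; exact hne
    obtain ⟨j, hj, u, hu, hTu⟩ := exists_eigen T' (Finset.univ.erase 1) (T' v - v) hw (by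
      have h1 : (∏ j ∈ Finset.univ.erase (1 : ZMod p), (Polynomial.X - Polynomial.C j)) *
          (Polynomial.X - Polynomial.C (1 : ZMod p)) =
          (∏ j : ZMod p, (Polynomial.X - Polynomial.C j)) := by
        rw [mul_comm]
        exact Finset.mul_prod_erase Finset.univ _ (Finset.mem_univ 1)
      have h2 := congrArg (fun P => Polynomial.aeval T' P v) h1
      simp only [hall] at h2
      rw [map_mul, Module.End.mul_apply] at h2
      simpa using h2)
    refine ⟨j.val, ?_, u, hu, ?_⟩
    · intro hmod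
      have h3 : ((j.val : ℕ) : ZMod p) = ((1 : ℕ) : ZMod p) :=
        (ZMod.natCast_eq_natCast_iff _ _ _).mpr hmod
      rw [ZMod.natCast_zmod_val] at h3
      rw [Finset.mem_erase] at hj
      exact hj.1 (by simpa using h3)
    · have h1 : T u = j • u := hTu
      rw [h1]
      have h2 : ((j.val : ℕ) : ZMod p) • u = j.val • u := Nat.cast_smul_eq_nsmul _ _ _
      rw [← h2, ZMod.natCast_zmod_val]

/-- eigenvectors on elementary abelian groups. -/
theorem exists_eigen_add (p : ℕ) (hp : p.Prime) {M : Type} [AddCommGroup M]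
    (hM : ∀ m : M, p • m = 0) (T : AddMonoid.End M) (hT : T ^ (p - 1) = 1) (v : M) (hv : v ≠ 0) :
    (∃ j : ℕ, ∃ u : M, u ≠ 0 ∧ T u = j • u) ∧
    (T v ≠ v → ∃ j : ℕ, ¬ (j ≡ 1 [MOD p]) ∧ ∃ u : M, u ≠ 0 ∧ T u = j • u) := by
  have : Fact p.Prime := ⟨hp⟩
  let _ : Module (ZMod p) M := AddCommGroup.zmodModule hM
  exact exists_eigen_add_aux p T hT v hv

end Pool.Agent.Helper851
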