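import Mathlib
import Pool.Agent.Helper851.Tools

set_option autoImplicit false

namespace Pool.Agent.Helper851

open Subgroup
open scoped commutatorElement

/-- conjugation by `g` on the normal subgroup `V`, additively. -/
def conjEnd {X : Type} [Group X] (V : Subgroup X) [V.Normal] :
    X →* AddMonoid.End (Additive ↥V) where
  toFun g :=
    { toFun := fun v => Additive.ofMul ((MulAut.conjNormal g : MulAut ↥V) v.toMul)
      map_zero' := by
        change Additive.ofMul ((MulAut.conjNormal g : MulAut ↥V) 1) = 0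
        rw [map_one]; rfl
      map_add' := by
        intro a b
        change Additive.ofMul ((MulAut.conjNormal g : MulAut ↥V) (a.toMul * b.toMul)) = _
        rw [map_mul]; rfl }
  map_one' := by
    ext v
    change ((MulAut.conjNormal (1 : X) : MulAut ↥V) v.toMul : X) = (v.toMul : X)
    simp
  map_mul' g h := by
    ext v
    change ((MulAut.conjNormal (g * h) : MulAut ↥V) v.toMul : X) = _
    rw [map_mul]
    rfl

theorem conjEnd_apply {X : Type} [Group X] (V : Subgroup X) [V.Normal] (g : X)
    (v : Additive ↥V) : ((conjEnd V g v).toMul : X) = g * (v.toMul : X) * g⁻¹ := by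
  change ((MulAut.conjNormal g : MulAut ↥V) v.toMul : X) = _
  simp

theorem exists_eigen_grp (p : ℕ) (hp : p.Prime) {X : Type} [Group X] (V : Subgroup X)
    [hV : V.Normal] (hab : ∀ u ∈ V, ∀ v ∈ V, u * v = v * u) (hexp : ∀ u ∈ V, u ^ p = 1) (g : X)
    (hg : ∀ u ∈ V, g ^ (p - 1) * u = u * g ^ (p - 1)) (v : X) (hv : v ∈ V) (hv1 : v ≠ 1) :
    (∃ j : ℕ, ∃ u ∈ V, u ≠ 1 ∧ g * u * g⁻¹ = u ^ j) ∧
    (g * v ≠ v * g → ∃ j : ℕ, ¬ (j ≡ 1 [MOD p]) ∧ ∃ u ∈ V, u ≠ 1 ∧ g * u * g⁻¹ = u ^ j) := by
  let _ : CommGroup ↥V :=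
    { (inferInstance : Group ↥V) with
      mul_comm := fun a b => Subtype.ext (hab a.1 a.2 b.1 b.2) }
  have hM : ∀ m : Additive ↥V, p • m = 0 := by
    intro m
    have h1 : (m.toMul) ^ p = 1 := Subtype.ext (hexp m.toMul.1 m.toMul.2)
    exact congrArg Additive.ofMul h1
  have hT : (conjEnd V g) ^ (p - 1) = 1 := by
    rw [← map_pow]
    apply AddMonoidHom.ext
    intro m
    have h2 := conjEnd_apply V (g ^ (p - 1)) m
    rw [hg _ m.toMul.2, mul_inv_cancel_right] at h2
    have h3 : (conjEnd V (g ^ (p - 1)) m).toMul = m.toMul := Subtype.ext h2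
    exact h3
  have hne : Additive.ofMul (⟨v, hv⟩ : ↥V) ≠ 0 := by
    intro h
    apply hv1
    have h1 : (⟨v, hv⟩ : ↥V) = 1 := h
    exact congrArg Subtype.val h1
  obtain ⟨h1, h2⟩ := exists_eigen_add p hp hM (conjEnd V g) hT (Additive.ofMul (⟨v, hv⟩ : ↥V)) hne
  have trans : ∀ (j : ℕ) (u : Additive ↥V), u ≠ 0 → conjEnd V g u = j • u →
      ∃ u' ∈ V, u' ≠ 1 ∧ g * u' * g⁻¹ = u' ^ j := by
    intro j u hu hTu
    refine ⟨u.toMul.1, u.toMul.2, ?_, ?_⟩
    · intro h
      apply hu
      have h3 : u.toMul = 1 := Subtype.ext h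
      exact h3
    · have h3 := conjEnd_apply V g u
      rw [hTu] at h3
      rw [← h3]
      rfl
  constructor
  · obtain ⟨j, u, hu, hTu⟩ := h1
    exact ⟨j, trans j u hu hTu⟩
  · intro hgv
    obtain ⟨j, hj, u, hu, hTu⟩ := h2 (by
      intro h
      apply hgv
      have h3 := conjEnd_apply V g (Additive.ofMul (⟨v, hv⟩ : ↥V))
      rw [h] at h3
      have h4 : v = g * v * g⁻¹ := h3
      calc g * v = (g * v * g⁻¹) * g := by group
        _ = v * g := by rw [← h4])
    exact ⟨j, hj, trans j u hu hTu⟩

/-- A common eigenvector. -/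
theorem exists_common_eigen (p : ℕ) (hp : p.Prime) {X : Type} [Group X] [Finite X] (n : ℕ) :
    ∀ (V : Subgroup X) (_ : V.Normal) (_ : Nat.card V = n)
    (_ : ∀ u ∈ V, ∀ v ∈ V, u * v = v * u) (_ : ∀ u ∈ V, u ^ p = 1)
    (_ : ∀ g h : X, ∀ u ∈ V, ⁅g, h⁆ * u = u * ⁅g, h⁆)
    (_ : ∀ g : X, ∀ u ∈ V, g ^ (p - 1) * u = u * g ^ (p - 1)) (_ : V ≠ ⊥),
    ∃ v ∈ V, v ≠ 1 ∧ (zpowers v).Normal := by
  induction n using Nat.strong_induction_on with
  | _ n ih =>
    intro V hV hn hab hexp hcomm hpow hne
    obtain ⟨⟨v, hv⟩, hv1⟩ := (nontrivial_iff_exists_ne (1 : ↥V)).mp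
      ((Subgroup.nontrivial_iff_ne_bot V).mpr hne)
    have hv1' : v ≠ 1 := fun h => hv1 (Subtype.ext h)
    by_cases hall : ∀ g : X, ∃ j : ℕ, ∀ w ∈ V, g * w * g⁻¹ = w ^ j
    · refine ⟨v, hv, hv1', ?_⟩
      constructor
      intro x hx g
      obtain ⟨k, rfl⟩ := hx
      obtain ⟨j, hj⟩ := hall g
      simp only
      rw [← conj_zpow, hj v hv]
      exact zpow_mem (pow_mem (mem_zpowers v) j) k
    · push Not at hall
      obtain ⟨g, hg⟩ := hall
      obtain ⟨⟨j, u, huV, hu1, huj⟩, _⟩ :=
        exists_eigen_grp p hp V hab hexp g (hpow g) v hv hv1'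
      let V1 : Subgroup X :=
        { carrier := {w | w ∈ V ∧ g * w * g⁻¹ = w ^ j}
          mul_mem' := by
            rintro a b ⟨ha, ha'⟩ ⟨hb, hb'⟩
            refine ⟨mul_mem ha hb, ?_⟩
            have h1 : g * (a * b) * g⁻¹ = (g * a * g⁻¹) * (g * b * g⁻¹) := by group
            rw [h1, ha', hb']
            exact ((show Commute a b from hab a ha b hb).mul_pow j).symm
          one_mem' := ⟨one_mem _, by simp⟩
          inv_mem' := by
            rintro a ⟨ha, ha'⟩
            refine ⟨inv_mem ha, ?_⟩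
            have h1 : g * a⁻¹ * g⁻¹ = (g * a * g⁻¹)⁻¹ := by group
            rw [h1, ha', inv_pow] }
      have hV1le : V1 ≤ V := fun w hw => hw.1
      have hV1n : V1.Normal := by
        constructor
        rintro w ⟨hw, hw'⟩ h
        refine ⟨hV.conj_mem w hw h, ?_⟩
        have h1 : g * (h * w * h⁻¹) * g⁻¹ = ⁅g, h⁆ * (h * (g * w * g⁻¹) * h⁻¹) * ⁅g, h⁆⁻¹ := by
          rw [commutatorElement_def]; group
        rw [h1, hw', hcomm g h _ (hV.conj_mem _ (pow_mem hw j) h), mul_inv_cancel_right]
        rw [conj_pow]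
      obtain ⟨w0, hw0, hw0'⟩ := hg j
      have hlt : V1 < V := by
        refine lt_of_le_of_ne hV1le ?_
        intro h
        rw [← h] at hw0
        exact hw0' hw0.2
      have hcard : Nat.card V1 < n := by
        rw [← hn]
        exact Set.ncard_lt_ncard hlt (Set.toFinite _)
      obtain ⟨v', hv', h1, h2⟩ := ih _ hcard V1 hV1n rfl
        (fun u hu v hv => hab u (hV1le hu) v (hV1le hv)) (fun u hu => hexp u (hV1le hu))
        (fun g h u hu => hcomm g h u (hV1le hu)) (fun g u hu => hpow g u (hV1le hu))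
        (by
          intro h
          have : u ∈ V1 := ⟨huV, huj⟩
          rw [h, mem_bot] at this
          exact hu1 this)
      exact ⟨v', hV1le hv', h1, h2⟩

/-- If `X` acts on the elementary abelian kernel of `π` through an abelian group of exponent
dividing `p - 1`, and the image is supersoluble, then `X` is supersoluble. -/
theorem SS.diag (p : ℕ) (hp : p.Prime) (n : ℕ) :
    ∀ (X Y : Type) [Group X] [Finite X] [Group Y] (π : X →* Y) (_ : Function.Surjective π)
    (_ : Nat.card X = n) (_ : SS Y)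
    (_ : ∀ u v, π u = 1 → π v = 1 → u * v = v * u) (_ : ∀ u, π u = 1 → u ^ p = 1)
    (_ : ∀ g h u : X, π u = 1 → ⁅g, h⁆ * u = u * ⁅g, h⁆)
    (_ : ∀ g u : X, π u = 1 → g ^ (p - 1) * u = u * g ^ (p - 1)), SS X := by
  induction n using Nat.strong_induction_on with
  | _ n ih =>
    intro X Y _ _ _ π hπ hn hY hab hexp hcomm hpow
    by_cases hbot : π.ker = ⊥
    · refine SS.of_cyclic_ker π hπ 1 ?_ hY
      rw [hbot, zpowers_one_eq_bot]
    · obtain ⟨v, hv, hv1, hvn⟩ := exists_common_eigen p hp _ π.ker inferInstance rfl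
        (fun u hu v hv => hab u v hu hv) (fun u hu => hexp u hu)
        (fun g h u hu => hcomm g h u hu) (fun g u hu => hpow g u hu) hbot
      have hle : zpowers v ≤ π.ker := by rw [zpowers_le]; exact hv
      apply SS.of_quot_zpowers v
      let π' : X ⧸ zpowers v →* Y := QuotientGroup.lift (zpowers v) π hle
      have hπ'mk : ∀ x : X, π' (x : X ⧸ zpowers v) = π x := fun x => rfl
      have hsurj : Function.Surjective π' := by
        intro y
        obtain ⟨x, rfl⟩ := hπ y
        exact ⟨x, rfl⟩
      refine ih _ ?_ (X ⧸ zpowers v) Y π' hsurj rfl hY ?_ ?_ ?_ ?_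
      · rw [← hn, ← Subgroup.index_eq_card]
        have h1 := Subgroup.card_mul_index (zpowers v)
        have h2 : 1 < Nat.card (zpowers v) := by
          rw [Nat.card_zpowers]
          have := orderOf_pos v
          have h3 : orderOf v ≠ 1 := by
            rw [Ne, orderOf_eq_one_iff]; exact hv1
          omega
        have h3 : 0 < (zpowers v).index := Nat.pos_of_ne_zero (Subgroup.index_ne_zero_of_finite)
        rw [← h1]
        nlinarith
      · intro a b
        induction a using QuotientGroup.induction_on with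
        | H a =>
          induction b using QuotientGroup.induction_on with
          | H b =>
            intro ha hb
            rw [← QuotientGroup.mk_mul, ← QuotientGroup.mk_mul, hab a b ha hb]
      · intro a
        induction a using QuotientGroup.induction_on with
        | H a =>
          intro ha
          rw [← QuotientGroup.mk_pow, hexp a ha]
          rfl
      · intro g h a
        induction g using QuotientGroup.induction_on with
        | H g =>
          induction h using QuotientGroup.induction_on with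
          | H h =>
            induction a using QuotientGroup.induction_on with
            | H a =>
              intro ha
              exact congrArg (QuotientGroup.mk : X → X ⧸ zpowers v) (hcomm g h a ha)
      · intro g a
        induction g using QuotientGroup.induction_on with
        | H g =>
          induction a using QuotientGroup.induction_on with
          | H a =>
            intro ha
            exact congrArg (QuotientGroup.mk : X → X ⧸ zpowers v) (hpow g a ha)

/-- In a nonabelian finite `r`-group there are `a, b` whose commutator is a nontrivial element of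
order `r` commuting with both. -/
theorem exists_heis (r : ℕ) (hr : r.Prime) {S : Type} [Group S] [Finite S] (hS : IsPGroup r S)
    (hne : ∃ a b : S, a * b ≠ b * a) :
    ∃ a b : S, ⁅a, b⁆ ≠ 1 ∧ ⁅a, b⁆ ^ r = 1 ∧ Commute ⁅a, b⁆ a ∧ Commute ⁅a, b⁆ b := by
  have : Fact r.Prime := ⟨hr⟩
  have hQ : IsPGroup r (S ⧸ center S) := hS.to_quotient _
  have hnt : Nontrivial (S ⧸ center S) := by
    rw [nontrivial_iff_exists_ne (1 : S ⧸ center S)]
    by_contra hcon
    push Not at hcon
    obtain ⟨a, b, hab⟩ := hne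
    apply hab
    have h1 : a ∈ center S := (QuotientGroup.eq_one_iff a).mp (hcon a)
    exact (mem_center_iff.mp h1 b).symm
  have hc := hQ.center_nontrivial
  obtain ⟨⟨q, hq⟩, hq1⟩ := exists_ne (1 : ↥(center (S ⧸ center S)))
  obtain ⟨b, rfl⟩ := QuotientGroup.mk_surjective q
  have hb : b ∉ center S := by
    intro h
    apply hq1
    apply Subtype.ext
    exact (QuotientGroup.eq_one_iff b).mpr h
  rw [mem_center_iff] at hb
  push Not at hb
  obtain ⟨a, hab⟩ := hb
  have hz : ⁅a, b⁆ ∈ center S := by
    rw [← QuotientGroup.eq_one_iff]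
    have h1 := mem_center_iff.mp hq (a : S ⧸ center S)
    rw [commutatorElement_def]
    change (a : S ⧸ center S) * (b : S ⧸ center S) * (a : S ⧸ center S)⁻¹ *
      (b : S ⧸ center S)⁻¹ = 1
    rw [h1]; group
  set z := ⁅a, b⁆ with hzdef
  have hz1 : z ≠ 1 := by
    rw [hzdef, Ne, commutatorElement_eq_one_iff_mul_comm]
    exact hab
  obtain ⟨k, hk⟩ := (IsPGroup.iff_orderOf.mp hS) z
  have hk0 : k ≠ 0 := by
    rintro rfl
    rw [pow_zero, orderOf_eq_one_iff] at hk
    exact hz1 hk
  have hcz : ∀ g, g * z = z * g := mem_center_iff.mp hz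
  have hpow : ∀ j : ℕ, a ^ j * b = z ^ j * (b * a ^ j) := by
    intro j
    induction j with
    | zero => simp
    | succ j ih =>
      have h1 : a * b = z * (b * a) := by
        rw [hzdef, commutatorElement_def]; group
      have hcj : a * z ^ j = z ^ j * a := (show Commute a z from hcz a).pow_right j
      calc a ^ (j + 1) * b = a * (a ^ j * b) := by rw [pow_succ', mul_assoc]
        _ = a * (z ^ j * (b * a ^ j)) := by rw [ih]
        _ = (a * z ^ j) * (b * a ^ j) := by rw [mul_assoc]
        _ = z ^ j * (a * b) * a ^ j := by rw [hcj]; group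
        _ = z ^ j * (z * (b * a)) * a ^ j := by rw [h1]
        _ = z ^ (j + 1) * (b * a ^ (j + 1)) := by rw [pow_succ, pow_succ']; group
  have hcomm : ∀ j : ℕ, ⁅a ^ j, b⁆ = z ^ j := by
    intro j
    rw [commutatorElement_def, hpow]; group
  refine ⟨a ^ (r ^ (k - 1)), b, ?_, ?_, ?_, ?_⟩
  · rw [hcomm]
    intro h
    have h1 := orderOf_dvd_of_pow_eq_one h
    rw [hk] at h1
    have h2 := (Nat.pow_dvd_pow_iff_le_right hr.one_lt).mp h1
    omega
  · rw [hcomm, ← pow_mul, ← pow_succ, Nat.sub_add_cancel (Nat.one_le_iff_ne_zero.mpr hk0), ← hk]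
    exact pow_orderOf_eq_one z
  · rw [hcomm]
    exact Commute.pow_left (Commute.pow_right (hcz a).symm _) _
  · rw [hcomm]
    exact Commute.pow_left (hcz b).symm _

end Pool.Agent.Helper851
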