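import Mathlib
import Pool.Agent.Helper851.Eigen

set_option autoImplicit false

namespace Pool.Agent.Helper851

open Subgroup
open scoped commutatorElement

/-- The candidate for the largest class. -/
def H0 (G : Type) [Group G] : Prop :=
  ∀ p r : ℕ, p.Prime → r.Prime → r ∣ p - 1 → ∀ R : Subgroup G, IsPGroup r R →
    ∀ a ∈ R, ∀ b ∈ R, ∀ c ∈ normalClosure {⁅a, b⁆}, c ^ p = 1 → c = 1

theorem ne_of_dvd_sub_one {p r : ℕ} (hp : p.Prime) (_ : r.Prime) (h : r ∣ p - 1) : r ≠ p := by
  rintro rfl
  have h1 := hp.two_le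
  have := Nat.le_of_dvd (by omega) h
  omega

theorem eq_one_of_pow_coprime {G : Type} [Group G] (c : G) (m n : ℕ) (h : m.Coprime n)
    (h1 : c ^ m = 1) (h2 : c ^ n = 1) : c = 1 := by
  have h3 := orderOf_dvd_of_pow_eq_one h1
  have h4 := orderOf_dvd_of_pow_eq_one h2
  have h5 := Nat.dvd_gcd h3 h4
  rw [h, Nat.dvd_one, orderOf_eq_one_iff] at h5
  exact h5

theorem H0.map {G K : Type} [Group G] [Finite G] [Group K] (f : G →* K)
    (hf : Function.Surjective f) (h : H0 G) : H0 K := by
  intro p r hp hr hrp R hR a ha b hb c hc hcp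
  have : Fact p.Prime := ⟨hp⟩
  obtain ⟨S, hS, rfl⟩ := lift_pGroup f hf r hr R hR
  obtain ⟨a, ha, rfl⟩ := ha
  obtain ⟨b, hb, rfl⟩ := hb
  have h1 : normalClosure {⁅f a, f b⁆} = (normalClosure {⁅a, b⁆}).map f := by
    rw [Subgroup.map_normalClosure _ f hf, Set.image_singleton, map_commutatorElement]
  rw [h1] at hc
  obtain ⟨c, hc, rfl⟩ := hc
  by_contra hne
  have h2 : orderOf (f c) = p := orderOf_eq_prime hcp hne
  have h3 : p ∣ orderOf c := by rw [← h2]; exact orderOf_map_dvd f c
  obtain ⟨m, hm⟩ := h3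
  have h4 : c ^ m = 1 := by
    apply h p r hp hr hrp S hS a ha b hb (c ^ m) (pow_mem hc m)
    rw [← pow_mul, mul_comm, ← hm]
    exact pow_orderOf_eq_one c
  have h5 := orderOf_dvd_of_pow_eq_one h4
  have h6 : 0 < orderOf c := orderOf_pos c
  have h7 : 0 < m := by
    rcases Nat.eq_zero_or_pos m with h | h
    · rw [h] at hm; omega
    · exact h
  have h8 := Nat.le_of_dvd h7 h5
  rw [hm] at h8
  have := hp.two_le
  nlinarith

theorem H0.of_injective {G K : Type} [Group G] [Group K] (f : G →* K)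
    (hf : Function.Injective f) (h : H0 K) : H0 G := by
  intro p r hp hr hrp R hR a ha b hb c hc hcp
  have h1 := h p r hp hr hrp (R.map f) (hR.map f) (f a) (mem_map_of_mem f ha) (f b)
    (mem_map_of_mem f hb) (f c) ?_ (by rw [← map_pow, hcp, map_one])
  · exact hf (by rw [h1, map_one])
  · have h2 := Subgroup.map_normalClosure_le {⁅a, b⁆} f (mem_map_of_mem f hc)
    rwa [Set.image_singleton, map_commutatorElement] at h2

theorem H0.of_inf {G : Type} [Group G] (N₁ N₂ : Subgroup G) [N₁.Normal] [N₂.Normal]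
    (hN : N₁ ⊓ N₂ = ⊥) (h1 : H0 (G ⧸ N₁)) (h2 : H0 (G ⧸ N₂)) : H0 G := by
  intro p r hp hr hrp R hR a ha b hb c hc hcp
  have key : ∀ (N : Subgroup G) [N.Normal], H0 (G ⧸ N) → c ∈ N := by
    intro N _ hN
    have h1 := hN p r hp hr hrp (R.map (QuotientGroup.mk' N)) (hR.map _) (QuotientGroup.mk' N a)
      (mem_map_of_mem _ ha) (QuotientGroup.mk' N b) (mem_map_of_mem _ hb) (QuotientGroup.mk' N c)
      ?_ (by rw [← map_pow, hcp, map_one])
    · exact (QuotientGroup.eq_one_iff c).mp h1
    · have h2 := Subgroup.map_normalClosure_le {⁅a, b⁆} (QuotientGroup.mk' N)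
        (mem_map_of_mem _ hc)
      rwa [Set.image_singleton, map_commutatorElement] at h2
  have h3 : c ∈ N₁ ⊓ N₂ := ⟨key N₁ h1, key N₂ h2⟩
  rwa [hN, mem_bot] at h3

/-- Commutators centralise normal cyclic subgroups. -/
theorem comm_centralizes {G : Type} [Group G] (c : G) (hn : (zpowers c).Normal) (g h : G) :
    ⁅g, h⁆ * c = c * ⁅g, h⁆ := by
  obtain ⟨i, hi⟩ := hn.conj_mem c (mem_zpowers c) g⁻¹
  obtain ⟨j, hj⟩ := hn.conj_mem c (mem_zpowers c) h⁻¹
  simp only [inv_inv] at hi hj
  have h1 : (h * g)⁻¹ * c * (h * g) = c ^ (i * j) := by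
    calc (h * g)⁻¹ * c * (h * g) = g⁻¹ * (h⁻¹ * c * h) * g := by group
      _ = g⁻¹ * c ^ j * g := by rw [← hj]
      _ = (g⁻¹ * c * g) ^ j := by
          have := conj_zpow (a := g⁻¹) (b := c) (i := j)
          rw [inv_inv] at this
          exact this.symm
      _ = c ^ (i * j) := by rw [← hi, zpow_mul]
  have h2 : (g * h)⁻¹ * c * (g * h) = c ^ (i * j) := by
    calc (g * h)⁻¹ * c * (g * h) = h⁻¹ * (g⁻¹ * c * g) * h := by group
      _ = h⁻¹ * c ^ i * h := by rw [← hi]
      _ = (h⁻¹ * c * h) ^ i := by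
          have := conj_zpow (a := h⁻¹) (b := c) (i := i)
          rw [inv_inv] at this
          exact this.symm
      _ = c ^ (i * j) := by rw [← hj, ← zpow_mul, mul_comm]
  have h3 : (g * h)⁻¹ * c * (g * h) = (h * g)⁻¹ * c * (h * g) := h2.trans h1.symm
  rw [commutatorElement_def]
  calc g * h * g⁻¹ * h⁻¹ * c = (g * h) * ((h * g)⁻¹ * c * (h * g)) * (h * g)⁻¹ := by group
    _ = (g * h) * ((g * h)⁻¹ * c * (g * h)) * (h * g)⁻¹ := by rw [h3]
    _ = c * (g * h * g⁻¹ * h⁻¹) := by group

theorem SS.normalClosure_isPGroup (r : ℕ) (hr : r.Prime) (n : ℕ) :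
    ∀ (G : Type) [Group G] [Finite G], Nat.card G = n → SS G →
    ∀ R : Subgroup G, IsPGroup r R → ∀ a ∈ R, ∀ b ∈ R, IsPGroup r (normalClosure {⁅a, b⁆}) := by
  have : Fact r.Prime := ⟨hr⟩
  induction n using Nat.strong_induction_on with
  | _ n ih =>
    intro G _ _ hn hG R hR a ha b hb
    rcases subsingleton_or_nontrivial G with hs | hnt
    · exact IsPGroup.of_subsingleton _ _
    · obtain ⟨c, _, hc1, hcn⟩ := hG.exists_zpowers_normal ⊤ (by
        intro h
        exact (bot_ne_top (α := Subgroup G)) h.symm)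
      have hK : SS (G ⧸ zpowers c) := hG.map (QuotientGroup.mk' _) (QuotientGroup.mk'_surjective _)
      set f := QuotientGroup.mk' (zpowers c) with hf
      have hfs : Function.Surjective f := QuotientGroup.mk'_surjective _
      have hcard : Nat.card (G ⧸ zpowers c) < n := by
        rw [← hn, ← Subgroup.index_eq_card]
        have h1 := Subgroup.card_mul_index (zpowers c)
        have h2 : 1 < Nat.card (zpowers c) := by
          rw [Nat.card_zpowers]
          have := orderOf_pos c
          have h3 : orderOf c ≠ 1 := by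
            rw [Ne, orderOf_eq_one_iff]; exact hc1
          omega
        have h3 : 0 < (zpowers c).index := Nat.pos_of_ne_zero (Subgroup.index_ne_zero_of_finite)
        rw [← h1]
        nlinarith
      have h1 := ih _ hcard (G ⧸ zpowers c) rfl hK (R.map f) (hR.map f) (f a)
        (mem_map_of_mem f ha) (f b) (mem_map_of_mem f hb)
      have h2 : normalClosure {⁅f a, f b⁆} = (normalClosure {⁅a, b⁆}).map f := by
        rw [Subgroup.map_normalClosure _ f hfs, Set.image_singleton, map_commutatorElement]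
      rw [h2] at h1
      obtain ⟨k, hk⟩ := IsPGroup.iff_card.mp h1
      have hx : ⁅a, b⁆ ∈ R := by
        rw [commutatorElement_def]
        exact mul_mem (mul_mem (mul_mem ha hb) (inv_mem ha)) (inv_mem hb)
      obtain ⟨j, hj⟩ := hR ⟨_, hx⟩
      have hj' : ⁅a, b⁆ ^ r ^ j = 1 := congrArg Subtype.val hj
      have hle : normalClosure {⁅a, b⁆} ≤ centralizer (zpowers c : Set G) := by
        have : (centralizer (zpowers c : Set G)).Normal := inferInstance
        apply normalClosure_le_normal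
        rw [Set.singleton_subset_iff]
        change ⁅a, b⁆ ∈ centralizer (zpowers c : Set G)
        rw [mem_centralizer_iff]
        rintro _ ⟨m, rfl⟩
        exact (Commute.zpow_right (show Commute ⁅a, b⁆ c from comm_centralizes c hcn a b) m).symm
      intro u
      refine ⟨k + j, ?_⟩
      apply Subtype.ext
      have h3 := transfer_lemma f ⁅a, b⁆ (r ^ j) hj' (by
        intro u hu v hv hfu
        have h4 : u ∈ zpowers c := (QuotientGroup.eq_one_iff u).mp hfu
        exact mem_centralizer_iff.mp (hle hv) u h4) u.1 u.2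
      rw [hk, ← pow_add] at h3
      exact h3

theorem H0.of_SS {G : Type} [Group G] [Finite G] (h : SS G) : H0 G := by
  intro p r hp hr hrp R hR a ha b hb c hc hcp
  have h1 := SS.normalClosure_isPGroup r hr _ G rfl h R hR a ha b hb
  obtain ⟨k, hk⟩ := h1 ⟨c, hc⟩
  have hk' : c ^ r ^ k = 1 := congrArg Subtype.val hk
  refine eq_one_of_pow_coprime c p (r ^ k) ?_ hcp hk'
  apply Nat.Coprime.pow_right
  exact (Nat.coprime_primes hp hr).mpr (ne_of_dvd_sub_one hp hr hrp).symm

end Pool.Agent.Helper851
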