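import Mathlib
import Pool.Agent.Helper851.HZero

set_option autoImplicit false

namespace Pool.Agent.Helper851

open Subgroup
open scoped commutatorElement Pointwise

/-- Complements of an abelian normal Hall subgroup are conjugate. -/
theorem compl_conj {N : Type} [Group N] [Finite N] (H : Subgroup N) [H.Normal]
    [IsMulCommutative ↥H] (hH : Nat.Coprime (Nat.card H) H.index) (K1 K2 : Subgroup N)
    (h1 : IsComplement' H K1) (h2 : IsComplement' H K2) :
    ∃ h ∈ H, K2 = K1.map (MulAut.conj h).toMonoidHom := by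
  have key : ∀ K : Subgroup N, IsComplement' H K → ∃ α : H.QuotientDiff,
      MulAction.stabilizer N α = K := by
    intro K hK
    let T : H.LeftTransversal := ⟨(K : Set N), hK.symm⟩
    let α : H.QuotientDiff := Quotient.mk'' T
    refine ⟨α, ?_⟩
    symm
    have hle : K ≤ MulAction.stabilizer N α := by
      intro k hk
      rw [MulAction.mem_stabilizer_iff]
      change Quotient.mk'' (MulOpposite.op k⁻¹ • T) = Quotient.mk'' T
      congr 1
      apply Subtype.ext
      change MulOpposite.op k⁻¹ • (K : Set N) = (K : Set N)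
      ext x
      rw [Set.mem_smul_set]
      constructor
      · rintro ⟨y, hy, rfl⟩
        exact mul_mem hy (inv_mem hk)
      · intro hx
        exact ⟨x * k, mul_mem hx hk, by simp⟩
    apply Subgroup.eq_of_le_of_card_ge hle
    have h3 := hK.card_mul_card
    have h4 := (isComplement'_stabilizer_of_coprime (α := α) hH).card_mul_card
    rw [← h3] at h4
    have h5 : 0 < Nat.card H := Nat.card_pos
    exact (Nat.eq_of_mul_eq_mul_left h5 h4).le
  obtain ⟨α, hα⟩ := key K1 h1
  obtain ⟨β, hβ⟩ := key K2 h2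
  obtain ⟨h, hh⟩ := exists_smul_eq hH α β
  refine ⟨h, h.2, ?_⟩
  rw [← hα, ← hβ, ← hh]
  exact MulAction.stabilizer_smul_eq_stabilizer_map_conj (h : N) α

theorem card_map_conjNormal {G : Type} [Group G] (N : Subgroup G) [N.Normal] (g : G)
    (K : Subgroup ↥N) :
    Nat.card (K.map (MulAut.conjNormal g : MulAut ↥N).toMonoidHom) = Nat.card K :=
  Subgroup.card_map_of_injective (MulAut.conjNormal g : MulAut ↥N).injective

theorem H0.sat_step {G : Type} [Group G] [Finite G] (A0 : Subgroup G) [hA : A0.Normal]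
    (hΦ : A0 ≤ frattini G) (hab : ∀ u ∈ A0, ∀ v ∈ A0, u * v = v * u) (q : ℕ) (hq : q.Prime)
    (hexp : ∀ u ∈ A0, u ^ q = 1) (h : H0 (G ⧸ A0)) : H0 G := by
  intro p r hp hr hrp R hR a ha b hb c hc hcp
  by_contra hc1
  have : Fact p.Prime := ⟨hp⟩
  have hrne := ne_of_dvd_sub_one hp hr hrp
  set N := normalClosure {⁅a, b⁆} with hN
  have hNn : N.Normal := by rw [hN]; infer_instance
  -- elements of order `p` in the image of `N` are trivial
  have himg : ∀ y ∈ N, y ^ p ∈ A0 → y ∈ A0 := by
    intro y hy hyp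
    have h1 := h p r hp hr hrp (R.map (QuotientGroup.mk' A0)) (hR.map _) (QuotientGroup.mk' A0 a)
      (mem_map_of_mem _ ha) (QuotientGroup.mk' A0 b) (mem_map_of_mem _ hb)
      (QuotientGroup.mk' A0 y) ?_ ?_
    · exact (QuotientGroup.eq_one_iff y).mp h1
    · have h2 := Subgroup.map_normalClosure_le {⁅a, b⁆} (QuotientGroup.mk' A0)
        (mem_map_of_mem _ hy)
      rwa [Set.image_singleton, map_commutatorElement] at h2
    · rw [← map_pow]
      exact (QuotientGroup.eq_one_iff (y ^ p)).mpr hyp
  have hcA : c ∈ A0 := himg c hc (by rw [hcp]; exact one_mem _)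
  have hpq : p = q := by
    by_contra hne
    exact hc1 (eq_one_of_pow_coprime c p q ((Nat.coprime_primes hp hq).mpr hne) hcp (hexp c hcA))
  subst hpq
  -- work inside `N`
  let P : Subgroup ↥N := A0.subgroupOf N
  have hPn : P.Normal := inferInstance
  have hPc : IsMulCommutative ↥P := by
    refine ⟨⟨fun x y => ?_⟩⟩
    apply Subtype.ext
    apply Subtype.ext
    exact hab _ x.2 _ y.2
  have hPp : IsPGroup p P := by
    intro x
    refine ⟨1, ?_⟩
    rw [pow_one]
    apply Subtype.ext
    apply Subtype.ext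
    exact hexp _ x.2
  have hidx : ¬ p ∣ P.index := by
    intro hdvd
    rw [Subgroup.index_eq_card] at hdvd
    obtain ⟨y, hy⟩ := exists_prime_orderOf_dvd_card' p hdvd
    obtain ⟨y, rfl⟩ := QuotientGroup.mk_surjective y
    have h1 : (y : ↥N ⧸ P) ^ p = 1 := by rw [← hy]; exact pow_orderOf_eq_one _
    have h2 : y ^ p ∈ P := (QuotientGroup.eq_one_iff (y ^ p)).mp h1
    have h3 : y ∈ P := himg y.1 y.2 h2
    have h4 : (y : ↥N ⧸ P) = 1 := (QuotientGroup.eq_one_iff y).mpr h3
    rw [h4, orderOf_one] at hy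
    exact hp.one_lt.ne hy
  obtain ⟨m, hm⟩ := IsPGroup.iff_card.mp hPp
  have hcop : Nat.Coprime (Nat.card P) P.index := by
    rw [hm]
    exact Nat.Coprime.pow_left m ((Nat.Prime.coprime_iff_not_dvd hp).mpr hidx)
  obtain ⟨K1, hK1⟩ := exists_right_complement'_of_coprime hcop
  let Q : Subgroup G := K1.map N.subtype
  have hQA : ∀ x ∈ Q, x ∈ A0 → x = 1 := by
    rintro _ ⟨x, hx, rfl⟩ hxA
    have h1 : x ∈ P ⊓ K1 := ⟨hxA, hx⟩
    rw [hK1.disjoint.eq_bot, mem_bot] at h1
    rw [h1]; rfl
  have hcard1 := hK1.card_mul_card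
  have hsup : normalizer Q ⊔ frattini G = ⊤ := by
    rw [eq_top_iff]
    intro g _
    let K2 := K1.map (MulAut.conjNormal g : MulAut ↥N).toMonoidHom
    have hcardK2 : Nat.card K2 = Nat.card K1 := card_map_conjNormal N g K1
    have hcopK : Nat.Coprime (Nat.card P) (Nat.card K1) := by
      have h1 := Subgroup.card_mul_index P
      rw [← hcard1] at h1
      have h5 : 0 < Nat.card P := Nat.card_pos
      rw [← Nat.eq_of_mul_eq_mul_left h5 h1]
      exact hcop
    have hK2 : IsComplement' P K2 := by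
      apply isComplement'_of_coprime
      · rw [hcardK2]; exact hcard1
      · rw [hcardK2]; exact hcopK
    obtain ⟨n, hnP, hn⟩ := compl_conj P hcop K1 K2 hK1 hK2
    -- `n⁻¹ g` normalises `Q`
    have h1 : (n : G)⁻¹ * g ∈ normalizer Q := by
      apply mem_normalizer_fintype
      rintro _ ⟨x, hx, rfl⟩
      have h2 : (MulAut.conjNormal g : MulAut ↥N) x ∈ K2 := mem_map_of_mem _ hx
      rw [hn] at h2
      obtain ⟨y, hy, hxy⟩ := h2
      refine ⟨y, hy, ?_⟩
      have h3 := congrArg (Subtype.val : ↥N → G) hxy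
      have h4 : (n : G) * (y : G) * (n : G)⁻¹ = g * (x : G) * g⁻¹ := by
        have h5 : (((MulAut.conjNormal g : MulAut ↥N) x : ↥N) : G) = g * (x : G) * g⁻¹ := by
          simp
        rw [← h5, ← h3]
        rfl
      change (y : G) = (n : G)⁻¹ * g * (x : G) * ((n : G)⁻¹ * g)⁻¹
      calc (y : G) = (n : G)⁻¹ * ((n : G) * (y : G) * (n : G)⁻¹) * n := by group
        _ = (n : G)⁻¹ * (g * (x : G) * g⁻¹) * n := by rw [h4]
        _ = (n : G)⁻¹ * g * (x : G) * ((n : G)⁻¹ * g)⁻¹ := by group
    have h2 : g = (n : G) * ((n : G)⁻¹ * g) := by group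
    rw [h2]
    exact mul_mem (mem_sup_right (hΦ hnP)) (mem_sup_left h1)
  have hQn : Q.Normal := normalizer_eq_top_iff.mp (frattini_nongenerating hsup)
  -- the commutator lies in `Q`
  have hxR : ⁅a, b⁆ ∈ R := by
    rw [commutatorElement_def]
    exact mul_mem (mul_mem (mul_mem ha hb) (inv_mem ha)) (inv_mem hb)
  obtain ⟨j, hj⟩ := hR ⟨_, hxR⟩
  have hj' : ⁅a, b⁆ ^ r ^ j = 1 := congrArg Subtype.val hj
  have hxN : ⁅a, b⁆ ∈ N := by rw [hN]; exact subset_normalClosure (Set.mem_singleton _)
  obtain ⟨⟨⟨u, hu⟩, ⟨k, hk⟩⟩, huk⟩ := hK1.2 ⟨⁅a, b⁆, hxN⟩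
  have huk' : (u : G) * (k : G) = ⁅a, b⁆ := congrArg (Subtype.val : ↥N → G) huk
  have huA : (u : G) ∈ A0 := hu
  have hkQ : (k : G) ∈ Q := mem_map_of_mem N.subtype hk
  have hcomm : Commute (u : G) (k : G) := by
    apply commute_of_normal_of_disjoint A0 Q hA hQn _ _ _ huA hkQ
    rw [disjoint_iff, eq_bot_iff]
    rintro x ⟨h1, h2⟩
    exact mem_bot.mpr (hQA x h2 h1)
  have h1 : (u : G) ^ r ^ j * (k : G) ^ r ^ j = 1 := by
    rw [← hcomm.mul_pow, huk']; exact hj'
  have h2 : (u : G) ^ r ^ j = 1 := by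
    apply hQA _ _ (pow_mem huA _)
    have h3 : (u : G) ^ r ^ j = ((k : G) ^ r ^ j)⁻¹ := eq_inv_of_mul_eq_one_left h1
    rw [h3]
    exact inv_mem (pow_mem hkQ _)
  have h3 : (u : G) = 1 := by
    refine eq_one_of_pow_coprime _ (r ^ j) p ?_ h2 (hexp _ huA)
    exact Nat.Coprime.pow_left _ ((Nat.coprime_primes hr hp).mpr hrne)
  have h4 : ⁅a, b⁆ ∈ Q := by
    rw [← huk', h3, one_mul]; exact hkQ
  have h5 : N ≤ Q := by
    rw [hN]
    apply normalClosure_le_normal
    rw [Set.singleton_subset_iff]
    exact h4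
  exact hc1 (hQA c (h5 hc) hcA)

theorem H0.saturated (n : ℕ) : ∀ (G : Type) [Group G] [Finite G], Nat.card G = n →
    H0 (G ⧸ frattini G) → H0 G := by
  induction n using Nat.strong_induction_on with
  | _ n ih =>
    intro G _ _ hn hG
    by_cases hbot : frattini G = ⊥
    · refine H0.of_injective (QuotientGroup.mk' (frattini G)) ?_ hG
      rw [← MonoidHom.ker_eq_bot_iff, QuotientGroup.ker_mk', hbot]
    · have hnil : Group.IsNilpotent (frattini G) := frattini_nilpotent
      have hnt : Nontrivial (frattini G) := (Subgroup.nontrivial_iff_ne_bot _).mpr hbot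
      have hcne : center ↥(frattini G) ≠ ⊥ := Group.IsNilpotent.center_ne_bot _
      obtain ⟨⟨z, hz⟩, hz1⟩ := (nontrivial_iff_exists_ne (1 : ↥(center ↥(frattini G)))).mp
        ((Subgroup.nontrivial_iff_ne_bot _).mpr hcne)
      have hz1' : (z : G) ≠ 1 := fun h => hz1 (Subtype.ext (Subtype.ext h))
      have hzc : ∀ y ∈ frattini G, (z : G) * y = y * z := by
        intro y hy
        exact congrArg Subtype.val (mem_center_iff.mp hz ⟨y, hy⟩).symm
      have ho1 : orderOf (z : G) ≠ 1 := by
        rw [Ne, orderOf_eq_one_iff]; exact hz1'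
      obtain ⟨q, hq, m, hm⟩ := Nat.exists_prime_and_dvd ho1
      let A0 : Subgroup G :=
        { carrier := {x | x ∈ frattini G ∧ (∀ y ∈ frattini G, x * y = y * x) ∧ x ^ q = 1}
          mul_mem' := by
            rintro x y ⟨hx, hx', hx''⟩ ⟨hy, hy', hy''⟩
            refine ⟨mul_mem hx hy, ?_, ?_⟩
            · intro w hw
              rw [mul_assoc, hy' w hw, ← mul_assoc, hx' w hw, mul_assoc]
            · rw [(show Commute x y from hx' y hy).mul_pow, hx'', hy'', one_mul]
          one_mem' := ⟨one_mem _, by simp, by simp⟩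
          inv_mem' := by
            rintro x ⟨hx, hx', hx''⟩
            refine ⟨inv_mem hx, ?_, ?_⟩
            · intro w hw
              exact ((show Commute x w from hx' w hw).inv_left)
            · rw [inv_pow, hx'', inv_one] }
      have hΦn : (frattini G).Normal := inferInstance
      have hA0n : A0.Normal := by
        constructor
        rintro x ⟨hx, hx', hx''⟩ g
        refine ⟨hΦn.conj_mem x hx g, ?_, ?_⟩
        · intro w hw
          have h1 := hx' (g⁻¹ * w * g) (by
            have := hΦn.conj_mem w hw g⁻¹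
            rwa [inv_inv] at this)
          calc g * x * g⁻¹ * w = g * (x * (g⁻¹ * w * g)) * g⁻¹ := by group
            _ = g * ((g⁻¹ * w * g) * x) * g⁻¹ := by rw [h1]
            _ = w * (g * x * g⁻¹) := by group
        · rw [conj_pow, hx'', mul_one, mul_inv_cancel]
      have hA0le : A0 ≤ frattini G := fun x hx => hx.1
      have hzA : (z : G) ^ m ∈ A0 := by
        refine ⟨pow_mem z.2 m, ?_, ?_⟩
        · intro y hy
          exact (show Commute (z : G) y from hzc y hy).pow_left m
        · rw [← pow_mul, mul_comm, ← hm]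
          exact pow_orderOf_eq_one _
      have hzm : (z : G) ^ m ≠ 1 := by
        intro h
        have h1 := orderOf_dvd_of_pow_eq_one h
        have h2 : 0 < orderOf (z : G) := orderOf_pos _
        have h3 : 0 < m := by
          rcases Nat.eq_zero_or_pos m with h | h
          · rw [h] at hm; omega
          · exact h
        have h4 := Nat.le_of_dvd h3 h1
        rw [hm] at h4
        have := hq.two_le
        nlinarith
      have hA0ne : A0 ≠ ⊥ := by
        intro h
        rw [h, mem_bot] at hzA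
        exact hzm hzA
      refine H0.sat_step A0 hA0le (fun u hu v hv => hu.2.1 v hv.1) q hq (fun u hu => hu.2.2) ?_
      refine ih _ ?_ (G ⧸ A0) rfl ?_
      · rw [← hn, ← Subgroup.index_eq_card]
        have h1 := Subgroup.card_mul_index A0
        have h2 : 1 < Nat.card A0 := by
          rw [Finite.one_lt_card_iff_nontrivial, Subgroup.nontrivial_iff_ne_bot]
          exact hA0ne
        have h3 : 0 < A0.index := Nat.pos_of_ne_zero (Subgroup.index_ne_zero_of_finite)
        rw [← h1]
        nlinarith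
      · let g : G →* (G ⧸ A0) ⧸ frattini (G ⧸ A0) :=
          (QuotientGroup.mk' _).comp (QuotientGroup.mk' A0)
        have hle : frattini G ≤ g.ker := by
          intro x hx
          have h1 := frattini_le_comap_frattini_of_surjective
            (QuotientGroup.mk'_surjective A0) hx
          exact (QuotientGroup.eq_one_iff _).mpr h1
        refine H0.map (QuotientGroup.lift (frattini G) g hle) ?_ hG
        intro y
        obtain ⟨y, rfl⟩ := QuotientGroup.mk_surjective y
        obtain ⟨y, rfl⟩ := QuotientGroup.mk_surjective y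
        exact ⟨(y : G ⧸ frattini G), rfl⟩

end Pool.Agent.Helper851
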