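import Mathlib
import Pool.Agent.Helper851.Sat

set_option autoImplicit false

namespace Pool.Agent.Helper851

open Subgroup
open scoped commutatorElement

/-- The conditions that the subgroup `A` acts on `V` through an abelian group of exponent `p-1`. -/
def ActsDiag {X : Type} [Group X] (p : ℕ) (V A : Subgroup X) : Prop :=
  (∀ g ∈ A, ∀ h ∈ A, ∀ u ∈ V, ⁅g, h⁆ * u = u * ⁅g, h⁆) ∧
  (∀ g ∈ A, ∀ u ∈ V, g ^ (p - 1) * u = u * g ^ (p - 1))

theorem half {X : Type} [Group X] [Finite X] (V : Subgroup X) (hVn : V.Normal)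
    (hmin : ∀ W : Subgroup X, W.Normal → W ≠ ⊥ → W ≤ V → W = V) (A : Subgroup X) (hAn : A.Normal)
    (hA : SS A) (hVA : V ⊓ A ≠ ⊥) :
    ∃ p : ℕ, p.Prime ∧ (∀ u ∈ V, ∀ v ∈ V, u * v = v * u) ∧ (∀ u ∈ V, u ^ p = 1) ∧
      ActsDiag p V A := by
  have hle : V ≤ A := by
    have h1 := hmin (V ⊓ A) inferInstance hVA inf_le_left
    rw [← h1]; exact inf_le_right
  have hVne : V ≠ ⊥ := by
    rintro rfl
    simp at hVA
  obtain ⟨v', hv'V, hv'1, hv'n⟩ := hA.exists_zpowers_normal (V.subgroupOf A) (by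
    intro h
    rw [subgroupOf_eq_bot, disjoint_iff] at h
    exact hVA h)
  have hvV : (v' : X) ∈ V := hv'V
  have hv1 : (v' : X) ≠ 1 := fun h => hv'1 (Subtype.ext h)
  -- commutators of `A` centralise `V`
  have hcomm : ∀ g ∈ A, ∀ h ∈ A, ∀ u ∈ V, ⁅g, h⁆ * u = u * ⁅g, h⁆ := by
    let W : Subgroup X :=
      { carrier := {u | u ∈ V ∧ ∀ g ∈ A, ∀ h ∈ A, ⁅g, h⁆ * u = u * ⁅g, h⁆}
        mul_mem' := by
          rintro x y ⟨hx, hx'⟩ ⟨hy, hy'⟩
          refine ⟨mul_mem hx hy, fun g hg h hh => ?_⟩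
          exact (show Commute ⁅g, h⁆ x from hx' g hg h hh).mul_right (hy' g hg h hh)
        one_mem' := ⟨one_mem _, by simp⟩
        inv_mem' := by
          rintro x ⟨hx, hx'⟩
          refine ⟨inv_mem hx, fun g hg h hh => ?_⟩
          exact (show Commute ⁅g, h⁆ x from hx' g hg h hh).inv_right }
    have hWn : W.Normal := by
      constructor
      rintro u ⟨hu, hu'⟩ k
      refine ⟨hVn.conj_mem u hu k, fun g hg h hh => ?_⟩
      have hg' : k⁻¹ * g * k ∈ A := by
        have := hAn.conj_mem g hg k⁻¹; rwa [inv_inv] at this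
      have hh' : k⁻¹ * h * k ∈ A := by
        have := hAn.conj_mem h hh k⁻¹; rwa [inv_inv] at this
      have h1 := hu' _ hg' _ hh'
      have h2 : ⁅k⁻¹ * g * k, k⁻¹ * h * k⁆ = k⁻¹ * ⁅g, h⁆ * k := by
        simp only [commutatorElement_def]; group
      rw [h2] at h1
      calc ⁅g, h⁆ * (k * u * k⁻¹) = k * ((k⁻¹ * ⁅g, h⁆ * k) * u) * k⁻¹ := by group
        _ = k * (u * (k⁻¹ * ⁅g, h⁆ * k)) * k⁻¹ := by rw [h1]
        _ = k * u * k⁻¹ * ⁅g, h⁆ := by group
    have hvW : (v' : X) ∈ W := by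
      refine ⟨hvV, fun g hg h hh => ?_⟩
      exact congrArg Subtype.val (comm_centralizes v' hv'n ⟨g, hg⟩ ⟨h, hh⟩)
    have hWV : W = V := by
      apply hmin W hWn _ (fun u hu => hu.1)
      intro h
      rw [h, mem_bot] at hvW
      exact hv1 hvW
    intro g hg h hh u hu
    rw [← hWV] at hu
    exact hu.2 g hg h hh
  -- `V` is abelian
  have hab : ∀ u ∈ V, ∀ v ∈ V, u * v = v * u := by
    let W : Subgroup X :=
      { carrier := {u | u ∈ V ∧ ∀ v ∈ V, u * v = v * u}
        mul_mem' := by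
          rintro x y ⟨hx, hx'⟩ ⟨hy, hy'⟩
          refine ⟨mul_mem hx hy, fun v hv => ?_⟩
          exact (show Commute x v from hx' v hv).mul_left (hy' v hv)
        one_mem' := ⟨one_mem _, by simp⟩
        inv_mem' := by
          rintro x ⟨hx, hx'⟩
          refine ⟨inv_mem hx, fun v hv => ?_⟩
          exact (show Commute x v from hx' v hv).inv_left }
    have hWn : W.Normal := by
      constructor
      rintro u ⟨hu, hu'⟩ k
      refine ⟨hVn.conj_mem u hu k, fun v hv => ?_⟩
      have h1 := hu' (k⁻¹ * v * k) (by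
        have := hVn.conj_mem v hv k⁻¹; rwa [inv_inv] at this)
      calc k * u * k⁻¹ * v = k * (u * (k⁻¹ * v * k)) * k⁻¹ := by group
        _ = k * ((k⁻¹ * v * k) * u) * k⁻¹ := by rw [h1]
        _ = v * (k * u * k⁻¹) := by group
    intro u hu w hw
    by_cases hWb : W = ⊥
    · have h1 : ⁅u, w⁆ ∈ W := by
        refine ⟨?_, fun v hv => hcomm u (hle hu) w (hle hw) v hv⟩
        rw [commutatorElement_def]
        exact mul_mem (mul_mem (mul_mem hu hw) (inv_mem hu)) (inv_mem hw)
      rw [hWb, mem_bot, commutatorElement_eq_one_iff_mul_comm] at h1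
      exact h1
    · have h1 := hmin W hWn hWb (fun u hu => hu.1)
      rw [← h1] at hu
      exact hu.2 w hw
  -- exponent `p`
  have ho1 : orderOf (v' : X) ≠ 1 := by
    rw [Ne, orderOf_eq_one_iff]; exact hv1
  obtain ⟨p, hp, m, hm⟩ := Nat.exists_prime_and_dvd ho1
  have hexp : ∀ u ∈ V, u ^ p = 1 := by
    let W : Subgroup X :=
      { carrier := {u | u ∈ V ∧ u ^ p = 1}
        mul_mem' := by
          rintro x y ⟨hx, hx'⟩ ⟨hy, hy'⟩
          refine ⟨mul_mem hx hy, ?_⟩
          rw [(show Commute x y from hab x hx y hy).mul_pow, hx', hy', one_mul]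
        one_mem' := ⟨one_mem _, by simp⟩
        inv_mem' := by
          rintro x ⟨hx, hx'⟩
          exact ⟨inv_mem hx, by rw [inv_pow, hx', inv_one]⟩ }
    have hWn : W.Normal := by
      constructor
      rintro u ⟨hu, hu'⟩ k
      refine ⟨hVn.conj_mem u hu k, ?_⟩
      rw [conj_pow, hu', mul_one, mul_inv_cancel]
    have hvm : (v' : X) ^ m ∈ W := by
      refine ⟨pow_mem hvV m, ?_⟩
      rw [← pow_mul, mul_comm, ← hm]
      exact pow_orderOf_eq_one _
    have hvm1 : (v' : X) ^ m ≠ 1 := by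
      intro h
      have h1 := orderOf_dvd_of_pow_eq_one h
      have h2 : 0 < orderOf (v' : X) := orderOf_pos _
      have h3 : 0 < m := by
        rcases Nat.eq_zero_or_pos m with h | h
        · rw [h] at hm; omega
        · exact h
      have h4 := Nat.le_of_dvd h3 h1
      rw [hm] at h4
      have := hp.two_le
      nlinarith
    have hWV : W = V := by
      apply hmin W hWn _ (fun u hu => hu.1)
      intro h
      rw [h, mem_bot] at hvm
      exact hvm1 hvm
    intro u hu
    rw [← hWV] at hu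
    exact hu.2
  have hvp : (v' : X) ^ p = 1 := hexp _ hvV
  refine ⟨p, hp, hab, hexp, hcomm, ?_⟩
  -- powers
  let W : Subgroup X :=
    { carrier := {u | u ∈ V ∧ ∀ g ∈ A, g ^ (p - 1) * u = u * g ^ (p - 1)}
      mul_mem' := by
        rintro x y ⟨hx, hx'⟩ ⟨hy, hy'⟩
        refine ⟨mul_mem hx hy, fun g hg => ?_⟩
        exact (show Commute (g ^ (p - 1)) x from hx' g hg).mul_right (hy' g hg)
      one_mem' := ⟨one_mem _, by simp⟩
      inv_mem' := by
        rintro x ⟨hx, hx'⟩
        refine ⟨inv_mem hx, fun g hg => ?_⟩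
        exact (show Commute (g ^ (p - 1)) x from hx' g hg).inv_right }
  have hWn : W.Normal := by
    constructor
    rintro u ⟨hu, hu'⟩ k
    refine ⟨hVn.conj_mem u hu k, fun g hg => ?_⟩
    have h1 := hu' (k⁻¹ * g * k) (by
      have := hAn.conj_mem g hg k⁻¹; rwa [inv_inv] at this)
    have h2 : (k⁻¹ * g * k) ^ (p - 1) = k⁻¹ * g ^ (p - 1) * k := by
      have := conj_pow (a := k⁻¹) (b := g) (i := p - 1)
      rwa [inv_inv] at this
    rw [h2] at h1
    calc g ^ (p - 1) * (k * u * k⁻¹) = k * ((k⁻¹ * g ^ (p - 1) * k) * u) * k⁻¹ := by group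
      _ = k * (u * (k⁻¹ * g ^ (p - 1) * k)) * k⁻¹ := by rw [h1]
      _ = k * u * k⁻¹ * g ^ (p - 1) := by group
  have hvW : (v' : X) ∈ W := by
    refine ⟨hvV, fun g hg => ?_⟩
    obtain ⟨i, hi⟩ := hv'n.conj_mem v' (mem_zpowers v') ⟨g, hg⟩
    have hi' : (v' : X) ^ i = g * v' * g⁻¹ := congrArg Subtype.val hi
    have hpow : ∀ n : ℕ, g ^ n * (v' : X) * (g ^ n)⁻¹ = (v' : X) ^ (i ^ n) := by
      intro n
      induction n with
      | zero => simp
      | succ n ih =>
        calc g ^ (n + 1) * (v' : X) * (g ^ (n + 1))⁻¹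
            = g ^ n * (g * v' * g⁻¹) * (g ^ n)⁻¹ := by rw [pow_succ]; group
          _ = g ^ n * ((v' : X) ^ i) * (g ^ n)⁻¹ := by rw [hi']
          _ = (g ^ n * (v' : X) * (g ^ n)⁻¹) ^ i := by rw [conj_zpow]
          _ = (v' : X) ^ (i ^ (n + 1)) := by rw [ih, ← zpow_mul, pow_succ]
    have hcop : IsCoprime i (p : ℤ) := by
      rw [isCoprime_comm, Prime.coprime_iff_not_dvd (Nat.prime_iff_prime_int.mp hp)]
      rintro ⟨t, rfl⟩
      rw [zpow_mul, zpow_natCast, hvp, one_zpow] at hi'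
      have h3 : (v' : X) = 1 := by
        calc (v' : X) = g⁻¹ * (g * v' * g⁻¹) * g := by group
          _ = 1 := by rw [← hi']; group
      exact hv1 h3
    have h4 := Int.ModEq.pow_card_sub_one_eq_one hp hcop
    have h5 : (v' : X) ^ (i ^ (p - 1)) = v' := by
      obtain ⟨t, ht⟩ := h4.symm.dvd
      have h6 : i ^ (p - 1) = 1 + p * t := by linarith
      rw [h6, zpow_add, zpow_one, zpow_mul, zpow_natCast, hvp, one_zpow, mul_one]
    have h6 := hpow (p - 1)
    rw [h5] at h6
    calc g ^ (p - 1) * (v' : X) = (g ^ (p - 1) * (v' : X) * (g ^ (p - 1))⁻¹) * g ^ (p - 1) := by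
          group
      _ = (v' : X) * g ^ (p - 1) := by rw [h6]
  have hWV : W = V := by
    apply hmin W hWn _ (fun u hu => hu.1)
    intro h
    rw [h, mem_bot] at hvW
    exact hv1 hvW
  intro g hg u hu
  rw [← hWV] at hu
  exact hu.2 g hg

theorem other {X : Type} [Group X] [Finite X] (V : Subgroup X) (hVn : V.Normal)
    (hmin : ∀ W : Subgroup X, W.Normal → W ≠ ⊥ → W ≤ V → W = V) (hVne : V ≠ ⊥)
    (p : ℕ) (hp : p.Prime) (hexp : ∀ u ∈ V, u ^ p = 1)
    (B : Subgroup X) (hBn : B.Normal) (hB : SS B) : ActsDiag p V B := by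
  by_cases hVB : V ⊓ B = ⊥
  · have hd : ∀ g ∈ B, ∀ u ∈ V, g * u = u * g := by
      intro g hg u hu
      exact commute_of_normal_of_disjoint B V hBn hVn (disjoint_iff.mpr (by rw [inf_comm, hVB]))
        g u hg hu
    refine ⟨fun g hg h hh u hu => hd _ ?_ u hu, fun g hg u hu => hd _ (pow_mem hg _) u hu⟩
    rw [commutatorElement_def]
    exact mul_mem (mul_mem (mul_mem hg hh) (inv_mem hg)) (inv_mem hh)
  · obtain ⟨p', hp', _, hexp', hact⟩ := half V hVn hmin B hBn hB hVB
    obtain ⟨⟨v, hv⟩, hv1⟩ := (nontrivial_iff_exists_ne (1 : ↥V)).mp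
      ((Subgroup.nontrivial_iff_ne_bot V).mpr hVne)
    have hv1' : v ≠ 1 := fun h => hv1 (Subtype.ext h)
    have hpp : p = p' := by
      by_contra hne
      exact hv1' (eq_one_of_pow_coprime v p p' ((Nat.coprime_primes hp hp').mpr hne)
        (hexp v hv) (hexp' v hv))
    rw [hpp]; exact hact

/-- powers in a class two situation. -/
theorem comm_pow_pow {Q : Type} [Group Q] (a b : Q) (ha : Commute ⁅a, b⁆ a)
    (hb : Commute ⁅a, b⁆ b) (t : ℕ) : ⁅a ^ t, b ^ t⁆ = ⁅a, b⁆ ^ (t * t) := by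
  set z := ⁅a, b⁆ with hz
  have hab : a * b = z * (b * a) := by rw [hz, commutatorElement_def]; group
  have h1 : ∀ j : ℕ, a ^ j * b = z ^ j * (b * a ^ j) := by
    intro j
    induction j with
    | zero => simp
    | succ j ih =>
      have hcj : a * z ^ j = z ^ j * a := (ha.symm.pow_right j)
      calc a ^ (j + 1) * b = a * (a ^ j * b) := by rw [pow_succ', mul_assoc]
        _ = a * (z ^ j * (b * a ^ j)) := by rw [ih]
        _ = (a * z ^ j) * (b * a ^ j) := by rw [mul_assoc]
        _ = z ^ j * (a * b) * a ^ j := by rw [hcj]; group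
        _ = z ^ j * (z * (b * a)) * a ^ j := by rw [hab]
        _ = z ^ (j + 1) * (b * a ^ (j + 1)) := by rw [pow_succ, pow_succ']; group
  have hzb : ∀ j : ℕ, b * z ^ j = z ^ j * b := fun j => (hb.symm.pow_right j)
  have h2 : ∀ k j : ℕ, a ^ j * b ^ k = z ^ (j * k) * (b ^ k * a ^ j) := by
    intro k j
    induction k with
    | zero => simp
    | succ k ih =>
      have hcb : b ^ k * z ^ j = z ^ j * b ^ k := ((hb.symm.pow_right j).pow_left k)
      calc a ^ j * b ^ (k + 1) = (a ^ j * b ^ k) * b := by rw [pow_succ, mul_assoc]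
        _ = z ^ (j * k) * (b ^ k * a ^ j) * b := by rw [ih]
        _ = z ^ (j * k) * (b ^ k * (a ^ j * b)) := by group
        _ = z ^ (j * k) * (b ^ k * (z ^ j * (b * a ^ j))) := by rw [h1]
        _ = z ^ (j * k) * ((b ^ k * z ^ j) * (b * a ^ j)) := by group
        _ = z ^ (j * k) * ((z ^ j * b ^ k) * (b * a ^ j)) := by rw [hcb]
        _ = (z ^ (j * k) * z ^ j) * (b ^ k * b) * a ^ j := by group
        _ = z ^ (j * (k + 1)) * (b ^ (k + 1) * a ^ j) := by
            rw [← pow_add, ← pow_succ, mul_assoc, mul_add, mul_one]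
  rw [commutatorElement_def, h2]; group

theorem isPGroup_zpowers {Q : Type} [Group Q] (r k : ℕ) (x : Q) (h : x ^ r ^ k = 1) :
    IsPGroup r (zpowers x) := by
  rintro ⟨y, m, rfl⟩
  refine ⟨k, ?_⟩
  apply Subtype.ext
  change ((fun n : ℤ => x ^ n) m) ^ r ^ k = 1
  simp only
  rw [← zpow_natCast, ← zpow_mul, mul_comm, zpow_mul, zpow_natCast, h, one_zpow]

/-- Two `r`-elements in class two position generate an `r`-group. -/
theorem exists_rgroup {Q : Type} [Group Q] [Finite Q] (r : ℕ) (hr : r.Prime) (k : ℕ) (a b : Q)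
    (ha : a ^ r ^ k = 1) (hb : b ^ r ^ k = 1) (hz : ⁅a, b⁆ ^ r ^ k = 1)
    (hza : Commute ⁅a, b⁆ a) (hzb : Commute ⁅a, b⁆ b) :
    ∃ T : Subgroup Q, IsPGroup r T ∧ a ∈ T ∧ b ∈ T := by
  have : Fact r.Prime := ⟨hr⟩
  set z := ⁅a, b⁆ with hzdef
  have h1 : zpowers b ≤ normalizer (zpowers z) := by
    rw [zpowers_le]
    apply mem_normalizer_fintype
    rintro _ ⟨m, rfl⟩
    simp only
    rw [(hzb.symm.zpow_right m).eq, mul_inv_cancel_right]
    exact zpow_mem (mem_zpowers z) m
  have hP1 : IsPGroup r (zpowers b ⊔ zpowers z : Subgroup Q) :=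
    (isPGroup_zpowers r k b hb).to_sup_of_normal_right' (isPGroup_zpowers r k z hz) h1
  have h2 : zpowers a ≤ normalizer (zpowers b ⊔ zpowers z : Subgroup Q) := by
    rw [zpowers_le]
    apply mem_normalizer_fintype
    have hle : (zpowers b ⊔ zpowers z : Subgroup Q) ≤
        (zpowers b ⊔ zpowers z : Subgroup Q).comap (MulAut.conj a).toMonoidHom := by
      rw [sup_le_iff, zpowers_le, zpowers_le]
      constructor
      · change a * b * a⁻¹ ∈ (zpowers b ⊔ zpowers z : Subgroup Q)
        have h3 : a * b * a⁻¹ = z * b := by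
          rw [hzdef, commutatorElement_def]; group
        rw [h3]
        exact mul_mem (mem_sup_right (mem_zpowers z)) (mem_sup_left (mem_zpowers b))
      · change a * z * a⁻¹ ∈ (zpowers b ⊔ zpowers z : Subgroup Q)
        rw [hza.symm.eq, mul_inv_cancel_right]
        exact mem_sup_right (mem_zpowers z)
    intro n hn
    exact hle hn
  exact ⟨_, (isPGroup_zpowers r k a ha).to_sup_of_normal_right' hP1 h2,
    mem_sup_left (mem_zpowers a), mem_sup_right (mem_sup_left (mem_zpowers b))⟩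

/-- The commutators `⁅a, b⁆` with `a ∈ A`, `b ∈ B` centralise `V`. -/
theorem cross {X : Type} [Group X] [Finite X] (hX : H0 X) (V : Subgroup X) (hVn : V.Normal)
    (p : ℕ) (hp : p.Prime) (hexp : ∀ u ∈ V, u ^ p = 1) (A B : Subgroup X) (hAn : A.Normal)
    (hBn : B.Normal) (hA : ActsDiag p V A) (hB : ActsDiag p V B) :
    ∀ a ∈ A, ∀ b ∈ B, ⁅a, b⁆ ∈ centralizer (V : Set X) := by
  intro a ha b hb
  by_contra hcon
  have hCn : (centralizer (V : Set X)).Normal := inferInstance
  set C := centralizer (V : Set X) with hC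
  have hmemC : ∀ g : X, (∀ u ∈ V, g * u = u * g) → g ∈ C := by
    intro g hg
    rw [hC, mem_centralizer_iff]
    intro h hh
    exact (hg h hh).symm
  have hzA : ⁅a, b⁆ ∈ A := by
    have h1 : ⁅a, b⁆ = a * (b * a⁻¹ * b⁻¹) := by rw [commutatorElement_def]; group
    rw [h1]
    exact mul_mem ha (hAn.conj_mem _ (inv_mem ha) b)
  have hzB : ⁅a, b⁆ ∈ B := by
    rw [commutatorElement_def]
    exact mul_mem (hBn.conj_mem _ hb a) (inv_mem hb)
  let f := QuotientGroup.mk' C
  have hf1 : ∀ g : X, f g = 1 ↔ g ∈ C := fun g => QuotientGroup.eq_one_iff g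
  have hfs : Function.Surjective f := QuotientGroup.mk'_surjective C
  set z := ⁅f a, f b⁆ with hz
  have hzf : z = f ⁅a, b⁆ := (map_commutatorElement f a b).symm
  have hza : Commute z (f a) := by
    rw [hzf]
    have h1 : f ⁅⁅a, b⁆, a⁆ = 1 := (hf1 _).mpr (hmemC _ (hA.1 _ hzA _ ha))
    rw [map_commutatorElement, commutatorElement_eq_one_iff_mul_comm] at h1
    exact h1
  have hzb : Commute z (f b) := by
    rw [hzf]
    have h1 : f ⁅⁅a, b⁆, b⁆ = 1 := (hf1 _).mpr (hmemC _ (hB.1 _ hzB _ hb))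
    rw [map_commutatorElement, commutatorElement_eq_one_iff_mul_comm] at h1
    exact h1
  have hap : (f a) ^ (p - 1) = 1 := by
    rw [← map_pow]; exact (hf1 _).mpr (hmemC _ (hA.2 _ ha))
  have hbp : (f b) ^ (p - 1) = 1 := by
    rw [← map_pow]; exact (hf1 _).mpr (hmemC _ (hB.2 _ hb))
  have hzp : z ^ (p - 1) = 1 := by
    rw [hzf, ← map_pow]; exact (hf1 _).mpr (hmemC _ (hA.2 _ hzA))
  have hz1 : z ≠ 1 := by
    intro h
    rw [hzf, hf1] at h
    exact hcon h
  have ho : orderOf z ≠ 1 := by rw [Ne, orderOf_eq_one_iff]; exact hz1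
  obtain ⟨r, hr, hro⟩ := Nat.exists_prime_and_dvd ho
  have hrp : r ∣ p - 1 := hro.trans (orderOf_dvd_of_pow_eq_one hzp)
  have hp1 : p - 1 ≠ 0 := by have := hp.two_le; omega
  obtain ⟨s, t, htr, hst⟩ := Nat.exists_eq_pow_mul_and_not_dvd hp1 r hr.ne_one
  have h1 : ((f a) ^ t) ^ r ^ s = 1 := by rw [← pow_mul, mul_comm, ← hst]; exact hap
  have h2 : ((f b) ^ t) ^ r ^ s = 1 := by rw [← pow_mul, mul_comm, ← hst]; exact hbp
  have hcpp : ⁅(f a) ^ t, (f b) ^ t⁆ = z ^ (t * t) := comm_pow_pow (f a) (f b) hza hzb t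
  have h3 : ⁅(f a) ^ t, (f b) ^ t⁆ ^ r ^ s = 1 := by
    rw [hcpp, ← pow_mul, show t * t * r ^ s = (p - 1) * t by rw [hst]; ring, pow_mul, hzp, one_pow]
  have hne : ⁅(f a) ^ t, (f b) ^ t⁆ ≠ 1 := by
    rw [hcpp]
    intro h
    have h4 := hro.trans (orderOf_dvd_of_pow_eq_one h)
    rcases (Nat.Prime.dvd_mul hr).mp h4 with h5 | h5 <;> exact htr h5
  obtain ⟨T, hT, haT, hbT⟩ := exists_rgroup r hr s ((f a) ^ t) ((f b) ^ t) h1 h2 h3
    (by rw [hcpp]; exact (hza.pow_left _).pow_right _)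
    (by rw [hcpp]; exact (hzb.pow_left _).pow_right _)
  obtain ⟨R, hR, hRT⟩ := lift_pGroup f hfs r hr T hT
  rw [← hRT] at haT hbT
  obtain ⟨a', ha', haf⟩ := haT
  obtain ⟨b', hb', hbf⟩ := hbT
  have hL := hX p r hp hr hrp R hR a' ha' b' hb'
  have hdisj : Disjoint (normalClosure {⁅a', b'⁆}) V := by
    rw [disjoint_iff, eq_bot_iff]
    rintro c ⟨hc1, hc2⟩
    exact mem_bot.mpr (hL c hc1 (hexp c hc2))
  have h5 : ⁅a', b'⁆ ∈ C := by
    apply hmemC
    intro u hu
    exact commute_of_normal_of_disjoint _ V normalClosure_normal hVn hdisj _ _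
      (subset_normalClosure (Set.mem_singleton _)) hu
  rw [← hf1, map_commutatorElement, haf, hbf] at h5
  exact hne h5

theorem H0.radical (n : ℕ) : ∀ (X : Type) [Group X] [Finite X], Nat.card X = n → H0 X →
    ∀ A B : Subgroup X, A.Normal → B.Normal → SS A → SS B → A ⊔ B = ⊤ → SS X := by
  induction n using Nat.strong_induction_on with
  | _ n ih =>
    intro X _ _ hn hX A B hAn hBn hA hB hAB
    rcases subsingleton_or_nontrivial X with hs | hnt
    · exact SS.of_subsingleton
    suffices hv : ∃ v : X, v ≠ 1 ∧ (zpowers v).Normal by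
      obtain ⟨v, hv1, hvn⟩ := hv
      apply SS.of_quot_zpowers v
      set f := QuotientGroup.mk' (zpowers v) with hf
      have hfs : Function.Surjective f := QuotientGroup.mk'_surjective _
      refine ih _ ?_ (X ⧸ zpowers v) rfl (hX.map f hfs) (A.map f) (B.map f) (hAn.map f hfs)
        (hBn.map f hfs) ?_ ?_ ?_
      · rw [← hn, ← Subgroup.index_eq_card]
        have h1 := Subgroup.card_mul_index (zpowers v)
        have h2 : 1 < Nat.card (zpowers v) := by
          rw [Nat.card_zpowers]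
          have := orderOf_pos v
          have h3 : orderOf v ≠ 1 := by
            rw [Ne, orderOf_eq_one_iff]; exact hv1
          omega
        have h3 : 0 < (zpowers v).index := Nat.pos_of_ne_zero (Subgroup.index_ne_zero_of_finite)
        rw [← h1]
        nlinarith
      · exact hA.map (f.subgroupMap A) (f.subgroupMap_surjective A)
      · exact hB.map (f.subgroupMap B) (f.subgroupMap_surjective B)
      · rw [← Subgroup.map_sup, hAB, ← MonoidHom.range_eq_map, MonoidHom.range_eq_top.mpr hfs]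
    -- a minimal normal subgroup
    obtain ⟨V, hVmin⟩ := (Set.toFinite {V : Subgroup X | V.Normal ∧ V ≠ ⊥}).exists_minimal
      ⟨⊤, inferInstance, fun h => bot_ne_top (α := Subgroup X) h.symm⟩
    obtain ⟨hVn, hVne⟩ := hVmin.prop
    have hmin : ∀ W : Subgroup X, W.Normal → W ≠ ⊥ → W ≤ V → W = V := by
      intro W hW hWne hWV
      exact le_antisymm hWV (hVmin.le_of_le ⟨hW, hWne⟩ hWV)
    have habel : (∃ p : ℕ, p.Prime ∧ (∀ u ∈ V, ∀ v ∈ V, u * v = v * u) ∧ (∀ u ∈ V, u ^ p = 1)) →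
        ∃ v : X, v ≠ 1 ∧ (zpowers v).Normal := by
      rintro ⟨p, hp, hab, hexp⟩
      have hdA := other V hVn hmin hVne p hp hexp A hAn hA
      have hdB := other V hVn hmin hVne p hp hexp B hBn hB
      have hcross := cross hX V hVn p hp hexp A B hAn hBn hdA hdB
      have hCn : (centralizer (V : Set X)).Normal := inferInstance
      set C := centralizer (V : Set X) with hC
      have hmemC : ∀ g : X, (∀ u ∈ V, g * u = u * g) → g ∈ C := by
        intro g hg
        rw [hC, mem_centralizer_iff]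
        intro h hh
        exact (hg h hh).symm
      let f := QuotientGroup.mk' C
      have hf1 : ∀ g : X, f g = 1 ↔ g ∈ C := fun g => QuotientGroup.eq_one_iff g
      have hcAA : ∀ a ∈ A, ∀ a' ∈ A, Commute (f a) (f a') := by
        intro a ha a' ha'
        have h1 : f ⁅a, a'⁆ = 1 := (hf1 _).mpr (hmemC _ (hdA.1 _ ha _ ha'))
        rw [map_commutatorElement, commutatorElement_eq_one_iff_mul_comm] at h1
        exact h1
      have hcBB : ∀ a ∈ B, ∀ a' ∈ B, Commute (f a) (f a') := by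
        intro a ha a' ha'
        have h1 : f ⁅a, a'⁆ = 1 := (hf1 _).mpr (hmemC _ (hdB.1 _ ha _ ha'))
        rw [map_commutatorElement, commutatorElement_eq_one_iff_mul_comm] at h1
        exact h1
      have hcAB : ∀ a ∈ A, ∀ b ∈ B, Commute (f a) (f b) := by
        intro a ha b hb
        have h1 : f ⁅a, b⁆ = 1 := (hf1 _).mpr (hcross a ha b hb)
        rw [map_commutatorElement, commutatorElement_eq_one_iff_mul_comm] at h1
        exact h1
      have hdecomp : ∀ g : X, ∃ a ∈ A, ∃ b ∈ B, g = a * b := by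
        intro g
        have h1 : g ∈ A ⊔ B := by rw [hAB]; exact mem_top g
        obtain ⟨a, ha, b, hb, h⟩ := mem_sup_of_normal_right.mp h1
        exact ⟨a, ha, b, hb, h.symm⟩
      obtain ⟨v, hv, hv1, hvn⟩ := exists_common_eigen p hp _ V hVn rfl hab hexp (by
        intro g h u hu
        obtain ⟨a, ha, b, hb, rfl⟩ := hdecomp g
        obtain ⟨a', ha', b', hb', rfl⟩ := hdecomp h
        have h1 : f ⁅a * b, a' * b'⁆ = 1 := by
          rw [map_commutatorElement, commutatorElement_eq_one_iff_mul_comm, map_mul, map_mul]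
          have h2 : Commute (f a * f b) (f a' * f b') :=
            ((hcAA a ha a' ha').mul_right (hcAB a ha b' hb')).mul_left
              ((hcAB a' ha' b hb).symm.mul_right (hcBB b hb b' hb'))
          exact h2
        rw [hf1, hC, mem_centralizer_iff] at h1
        exact (h1 u hu).symm) (by
        intro g u hu
        obtain ⟨a, ha, b, hb, rfl⟩ := hdecomp g
        have h1 : f ((a * b) ^ (p - 1)) = 1 := by
          rw [map_pow, map_mul, (hcAB a ha b hb).mul_pow, ← map_pow, ← map_pow,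
            (hf1 _).mpr (hmemC _ (hdA.2 a ha)), (hf1 _).mpr (hmemC _ (hdB.2 b hb)), one_mul]
        rw [hf1, hC, mem_centralizer_iff] at h1
        exact (h1 u hu).symm) hVne
      exact ⟨v, hv1, hvn⟩
    by_cases hVA : V ⊓ A = ⊥
    · by_cases hVB : V ⊓ B = ⊥
      · obtain ⟨⟨v, hv⟩, hv1⟩ := (nontrivial_iff_exists_ne (1 : ↥V)).mp
          ((Subgroup.nontrivial_iff_ne_bot V).mpr hVne)
        have hv1' : v ≠ 1 := fun h => hv1 (Subtype.ext h)
        have hcA : ∀ a ∈ A, Commute a v := fun a ha =>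
          commute_of_normal_of_disjoint A V hAn hVn (disjoint_iff.mpr (by rw [inf_comm, hVA]))
            a v ha hv
        have hcB : ∀ a ∈ B, Commute a v := fun a ha =>
          commute_of_normal_of_disjoint B V hBn hVn (disjoint_iff.mpr (by rw [inf_comm, hVB]))
            a v ha hv
        have hall : ∀ g : X, Commute g v := by
          intro g
          have h1 : g ∈ A ⊔ B := by rw [hAB]; exact mem_top g
          obtain ⟨a, ha, b, hb, rfl⟩ := mem_sup_of_normal_right.mp h1
          exact (hcA a ha).mul_left (hcB b hb)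
        refine ⟨v, hv1', ⟨?_⟩⟩
        rintro _ ⟨m, rfl⟩ g
        simp only
        rw [((hall g).zpow_right m).eq, mul_inv_cancel_right]
        exact zpow_mem (mem_zpowers v) m
      · obtain ⟨p, hp, hab, hexp, _⟩ := half V hVn hmin B hBn hB hVB
        exact habel ⟨p, hp, hab, hexp⟩
    · obtain ⟨p, hp, hab, hexp, _⟩ := half V hVn hmin A hAn hA hVA
      exact habel ⟨p, hp, hab, hexp⟩

end Pool.Agent.Helper851
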