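import Mathlib
import Pool.Agent.Helper851.Rad

set_option autoImplicit false

namespace Pool.Agent.Helper851

open Subgroup
open scoped commutatorElement

/-- The closure properties of the classes in question (with `SS` for supersoluble). -/
structure Cls (H : (G : Type) → [Group G] → Prop) : Prop where
  iso : ∀ (G G' : Type) [Group G] [Group G'], Finite G → Nonempty (G ≃* G') → H G → H G'
  quot : ∀ (G : Type) [Group G] [Finite G] (N : Subgroup G) [N.Normal], H G → H (G ⧸ N)
  sdir : ∀ (G : Type) [Group G] [Finite G] (N₁ N₂ : Subgroup G) [N₁.Normal] [N₂.Normal],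
    N₁ ⊓ N₂ = ⊥ → H (G ⧸ N₁) → H (G ⧸ N₂) → H G
  sub : ∀ (G : Type) [Group G] [Finite G] (K : Subgroup G), H G → H ↥K
  sat : ∀ (G : Type) [Group G] [Finite G], H (G ⧸ frattini G) → H G
  ss : ∀ (G : Type) [Group G] [Finite G], SS G → H G
  rad : ∀ (G : Type) [Group G] [Finite G], H G → ∀ A B : Subgroup G, A.Normal → B.Normal →
    SS ↥A → SS ↥B → SS ↥(A ⊔ B)

variable {H : (G : Type) → [Group G] → Prop}

theorem Cls.surj (hH : Cls H) {G K : Type} [Group G] [Finite G] [Group K] (f : G →* K)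
    (hf : Function.Surjective f) (h : H G) : H K :=
  hH.iso (G ⧸ f.ker) K inferInstance ⟨QuotientGroup.quotientKerEquivOfSurjective f hf⟩
    (hH.quot G f.ker h)

theorem Cls.prod (hH : Cls H) {G K : Type} [Group G] [Finite G] [Group K] [Finite K]
    (hG : H G) (hK : H K) : H (G × K) := by
  refine hH.sdir (G × K) (MonoidHom.fst G K).ker (MonoidHom.snd G K).ker ?_ ?_ ?_
  · rw [eq_bot_iff]
    rintro ⟨g, k⟩ ⟨h1, h2⟩
    have h1' : g = 1 := h1
    have h2' : k = 1 := h2
    rw [h1', h2']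
    exact one_mem _
  · exact hH.iso G _ inferInstance
      ⟨(QuotientGroup.quotientKerEquivOfSurjective (MonoidHom.fst G K) Prod.fst_surjective).symm⟩ hG
  · exact hH.iso K _ inferInstance
      ⟨(QuotientGroup.quotientKerEquivOfSurjective (MonoidHom.snd G K) Prod.snd_surjective).symm⟩ hK

theorem Cls.frat (hH : Cls H) {G K : Type} [Group G] [Finite G] [Group K] [Finite K] (f : G →* K)
    (hf : f.ker ≤ frattini G) (hK : H K) : H G := by
  apply hH.sat
  have h1 : H ↥f.range := hH.sub K f.range hK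
  let g : G ⧸ f.ker →* G ⧸ frattini G :=
    QuotientGroup.map f.ker (frattini G) (MonoidHom.id G) hf
  have hg : Function.Surjective g := by
    intro y
    obtain ⟨y, rfl⟩ := QuotientGroup.mk_surjective y
    exact ⟨(y : G ⧸ f.ker), rfl⟩
  have h2 : H (G ⧸ f.ker) := hH.iso _ _ inferInstance
    ⟨(QuotientGroup.quotientKerEquivRange f).symm⟩ h1
  exact hH.surj g hg h2

theorem Cls.inj (hH : Cls H) {G K : Type} [Group G] [Group K] [Finite K] (f : G →* K)
    (hf : Function.Injective f) (hK : H K) : H G := by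
  have : Finite G := Finite.of_injective f hf
  refine hH.frat f ?_ hK
  rw [(MonoidHom.ker_eq_bot_iff f).mpr hf]
  exact bot_le

theorem le_frattini_iff {G : Type} [Group G] (T : Subgroup G)
    (h : ∀ M : Subgroup G, IsCoatom M → T ≤ M) : T ≤ frattini G := by
  unfold frattini Order.radical
  exact le_iInf₂ h

theorem le_frattini_of_central {G : Type} [Group G] (P T : Subgroup G) [hTn : T.Normal]
    (hTP : T ≤ P) (hc : ∀ t ∈ T, ∀ x ∈ P, t * x = x * t)
    (hgen : T ≤ closure {g | ∃ x ∈ P, ∃ y ∈ P, ⁅x, y⁆ = g}) : T ≤ frattini G := by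
  apply le_frattini_iff
  intro M hM
  by_contra hcon
  have htop : M ⊔ T = ⊤ := by
    apply hM.2
    refine lt_of_le_of_ne le_sup_left ?_
    intro h
    apply hcon
    rw [h]
    exact le_sup_right
  apply hcon
  refine hgen.trans ?_
  rw [closure_le]
  rintro _ ⟨x, hx, y, hy, rfl⟩
  have hx' : x ∈ M ⊔ T := by rw [htop]; exact mem_top x
  have hy' : y ∈ M ⊔ T := by rw [htop]; exact mem_top y
  obtain ⟨m, hm, t, ht, rfl⟩ := mem_sup_of_normal_right.mp hx'
  obtain ⟨m', hm', t', ht', rfl⟩ := mem_sup_of_normal_right.mp hy'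
  have hmP : m ∈ P := by
    have := mul_mem hx (inv_mem (hTP ht)); rwa [mul_inv_cancel_right] at this
  have hmP' : m' ∈ P := by
    have := mul_mem hy (inv_mem (hTP ht')); rwa [mul_inv_cancel_right] at this
  have c1 : Commute t m := hc t ht m hmP
  have c2 : Commute t m' := hc t ht m' hmP'
  have c3 : Commute t t' := hc t ht t' (hTP ht')
  have c4 : Commute t' m := hc t' ht' m hmP
  have c5 : Commute t' m' := hc t' ht' m' hmP'
  have h1 : ⁅m * t, m' * t'⁆ = ⁅m, m'⁆ := by
    rw [commutatorElement_def, commutatorElement_def]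
    calc m * t * (m' * t') * (m * t)⁻¹ * (m' * t')⁻¹
        = m * (t * m') * t' * (t⁻¹ * m⁻¹) * (t'⁻¹ * m'⁻¹) := by group
      _ = m * (m' * t) * t' * (t⁻¹ * m⁻¹) * (t'⁻¹ * m'⁻¹) := by rw [c2.eq]
      _ = m * m' * (t * t') * (t⁻¹ * m⁻¹) * (t'⁻¹ * m'⁻¹) := by group
      _ = m * m' * (t' * t) * (t⁻¹ * m⁻¹) * (t'⁻¹ * m'⁻¹) := by rw [c3.eq]
      _ = m * m' * (t' * m⁻¹) * t'⁻¹ * m'⁻¹ := by group
      _ = m * m' * (m⁻¹ * t') * t'⁻¹ * m'⁻¹ := by rw [c4.inv_right.eq]
      _ = m * m' * m⁻¹ * m'⁻¹ := by group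
  change ⁅m * t, m' * t'⁆ ∈ M
  rw [h1, commutatorElement_def]
  exact mul_mem (mul_mem (mul_mem hm hm') (inv_mem hm)) (inv_mem hm')

/-- Minimal supplements give Frattini extensions. -/
theorem exists_min_supp {W G : Type} [Group W] [Finite W] [Group G] (π : W →* G)
    (Y : Subgroup W) (hY : Y.map π = ⊤) :
    ∃ E : Subgroup W, E ≤ Y ∧ E.map π = ⊤ ∧ (π.comp E.subtype).ker ≤ frattini ↥E := by
  obtain ⟨E, hE⟩ := (Set.toFinite {E : Subgroup W | E ≤ Y ∧ E.map π = ⊤}).exists_minimal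
    ⟨Y, le_rfl, hY⟩
  obtain ⟨hEY, hEπ⟩ := hE.prop
  refine ⟨E, hEY, hEπ, ?_⟩
  apply le_frattini_iff
  intro M hM
  by_contra hcon
  have htop : M ⊔ (π.comp E.subtype).ker = ⊤ := by
    apply hM.2
    refine lt_of_le_of_ne le_sup_left ?_
    intro h
    apply hcon
    rw [h]
    exact le_sup_right
  have h1 : E ≤ M.map E.subtype := by
    apply hE.le_of_le
    · refine ⟨(map_subtype_le M).trans hEY, ?_⟩
      rw [eq_top_iff]
      intro g _
      have hg : g ∈ E.map π := by rw [hEπ]; exact mem_top g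
      obtain ⟨e, he, rfl⟩ := hg
      have he' : (⟨e, he⟩ : ↥E) ∈ M ⊔ (π.comp E.subtype).ker := by rw [htop]; exact mem_top _
      obtain ⟨m, hm, k, hk, hmk⟩ := mem_sup_of_normal_right.mp he'
      refine ⟨(m : W), mem_map_of_mem E.subtype hm, ?_⟩
      have h2 : (m : W) * (k : W) = e := congrArg Subtype.val hmk
      have h3 : π (k : W) = 1 := hk
      rw [← h2, map_mul, h3, mul_one]
    · exact map_subtype_le M
  apply hM.1
  rw [eq_top_iff]
  rintro ⟨e, he⟩ _
  obtain ⟨m, hm, hme⟩ := h1 he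
  have : m = ⟨e, he⟩ := Subtype.ext hme
  rwa [← this]

end Pool.Agent.Helper851
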