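import Mathlib
import Pool.Agent.Helper851.Cls

set_option autoImplicit false

namespace Pool.Agent.Helper851

open Subgroup
open scoped commutatorElement

/-- Pairs `(g, φ)` with twisted multiplication. -/
@[ext] structure WR (G : Type) (m : ℕ) where
  g : G
  φ : G → ZMod m

namespace WR

variable {G : Type} [Group G] {m : ℕ}

instance : Mul (WR G m) := ⟨fun a b => ⟨a.g * b.g, fun x => a.φ (b.g * x) + b.φ x⟩⟩
instance : One (WR G m) := ⟨⟨1, 0⟩⟩
instance : Inv (WR G m) := ⟨fun a => ⟨a.g⁻¹, fun x => - a.φ (a.g⁻¹ * x)⟩⟩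

@[simp] theorem mul_g (a b : WR G m) : (a * b).g = a.g * b.g := rfl
@[simp] theorem mul_φ (a b : WR G m) (x : G) : (a * b).φ x = a.φ (b.g * x) + b.φ x := rfl
@[simp] theorem one_g : (1 : WR G m).g = 1 := rfl
@[simp] theorem one_φ (x : G) : (1 : WR G m).φ x = 0 := rfl
@[simp] theorem inv_g (a : WR G m) : (a⁻¹).g = a.g⁻¹ := rfl
@[simp] theorem inv_φ (a : WR G m) (x : G) : (a⁻¹).φ x = - a.φ (a.g⁻¹ * x) := rfl

instance : Group (WR G m) :=
  Group.ofLeftAxioms
    (by intro a b c; ext x <;> simp [mul_assoc, add_assoc])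
    (by intro a; ext x <;> simp)
    (by intro a; ext x <;> simp)

instance [Finite G] [NeZero m] : Finite (WR G m) :=
  Finite.of_injective (fun a : WR G m => (a.g, a.φ)) (by
    intro a b h
    simp only [Prod.mk.injEq] at h
    exact WR.ext h.1 h.2)

/-- The projection. -/
def proj : WR G m →* G where
  toFun a := a.g
  map_one' := rfl
  map_mul' _ _ := rfl

theorem pow_of_g_one (a : WR G m) (ha : a.g = 1) (n : ℕ) :
    (a ^ n).g = 1 ∧ ∀ x, (a ^ n).φ x = n • a.φ x := by
  induction n with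
  | zero => simp
  | succ n ih =>
    refine ⟨by rw [pow_succ, mul_g, ih.1, ha, one_mul], fun x => ?_⟩
    rw [pow_succ, mul_φ, ha, one_mul, ih.2, succ_nsmul]

theorem pow_at_one (Y : Subgroup (WR G m)) (c : G) (hY : ∀ a ∈ Y, ∀ x, a.φ (x * c) = a.φ x)
    (a : WR G m) (haY : a ∈ Y) (ha : a.g = c) (n : ℕ) : (a ^ n).φ 1 = n • a.φ 1 := by
  induction n with
  | zero => simp
  | succ n ih =>
    have h4 := hY (a ^ n) (pow_mem haY n) 1
    rw [one_mul] at h4
    rw [pow_succ, mul_φ, ha, mul_one, h4, ih, succ_nsmul]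

end WR

theorem exists_e {G : Type} [Group G] (p : ℕ) (c : G) (hc : orderOf c = p) :
    ∃ e : G → ZMod p, ∀ x, e (x * c) = e x + 1 := by
  have h1 : ∀ x : G, ∃ n : ℤ, x = (x : G ⧸ zpowers c).out * c ^ n := by
    intro x
    have h2 : ((x : G ⧸ zpowers c).out)⁻¹ * x ∈ zpowers c := by
      rw [← QuotientGroup.eq, QuotientGroup.out_eq']
    obtain ⟨n, hn⟩ := h2
    refine ⟨n, ?_⟩
    simp only at hn
    rw [hn]; group
  choose n hn using h1
  refine ⟨fun x => (n x : ZMod p), ?_⟩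
  intro x
  have h2 : ((x * c : G) : G ⧸ zpowers c) = (x : G ⧸ zpowers c) :=
    QuotientGroup.mk_mul_of_mem x (mem_zpowers c)
  have h3 := hn (x * c)
  rw [h2] at h3
  have h4 := hn x
  have h5 : c ^ (n (x * c)) = c ^ (n x + 1) := by
    have h6 : (x : G ⧸ zpowers c).out * c ^ (n (x * c)) =
        (x : G ⧸ zpowers c).out * c ^ (n x + 1) := by
      rw [← h3, zpow_add_one, ← mul_assoc, ← h4]
    exact mul_left_cancel h6
  rw [zpow_eq_zpow_iff_modEq, hc] at h5
  have h7 := (ZMod.intCast_eq_intCast_iff _ _ _).mpr h5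
  simpa using h7

variable {H : (G : Type) → [Group G] → Prop}

theorem exists_ext (hH : Cls H) {G : Type} [Group G] [Finite G] (hG : H G) (p : ℕ)
    (hp : p.Prime) (c : G) (hc : orderOf c = p) (m : ℕ) :
    ∃ (E : Type) (_ : Group E) (_ : Finite E) (f : E →* G), Function.Surjective f ∧ H E ∧
      (∀ u v : E, f u = 1 → f v = 1 → u * v = v * u) ∧
      (∀ u : E, f u = 1 → u ^ p ^ (m + 1) = 1) ∧
      (∀ (u : E) (k : ℕ), f u = c → u ^ k = 1 → p ^ (m + 1) ∣ k) := by
  have : Fact p.Prime := ⟨hp⟩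
  have hne : NeZero (p ^ (m + 1)) := ⟨pow_ne_zero _ hp.ne_zero⟩
  obtain ⟨e, he⟩ := exists_e p c hc
  have hdvd : p ∣ p ^ (m + 1) := dvd_pow_self p (Nat.succ_ne_zero m)
  let red : ZMod (p ^ (m + 1)) →+* ZMod p := ZMod.castHom hdvd (ZMod p)
  let Y : Subgroup (WR G (p ^ (m + 1))) :=
    { carrier := {a | (∀ x, a.φ (x * c) = a.φ x) ∧ ∀ x, red (a.φ x) = e (a.g * x) - e x}
      mul_mem' := by
        rintro a b ⟨ha, ha'⟩ ⟨hb, hb'⟩
        refine ⟨fun x => ?_, fun x => ?_⟩
        · rw [WR.mul_φ, WR.mul_φ, ← mul_assoc, ha, hb]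
        · rw [WR.mul_φ, map_add, ha', hb', WR.mul_g, mul_assoc]
          ring
      one_mem' := by
        refine ⟨fun x => ?_, fun x => ?_⟩
        · simp
        · simp
      inv_mem' := by
        rintro a ⟨ha, ha'⟩
        refine ⟨fun x => ?_, fun x => ?_⟩
        · rw [WR.inv_φ, WR.inv_φ, ← mul_assoc, ha]
        · rw [WR.inv_φ, map_neg, ha', WR.inv_g]
          simp }
  have hY : Y.map WR.proj = ⊤ := by
    rw [eq_top_iff]
    intro g _
    refine ⟨⟨g, fun x => (((e (g * x) - e x).val : ℕ) : ZMod (p ^ (m + 1)))⟩, ⟨?_, ?_⟩, rfl⟩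
    · intro x
      simp only
      rw [← mul_assoc, he, he, add_sub_add_right_eq_sub]
    · intro x
      simp only
      rw [map_natCast, ZMod.natCast_zmod_val]
  obtain ⟨E, hEY, hEπ, hker⟩ := exists_min_supp WR.proj Y hY
  let f : ↥E →* G := WR.proj.comp E.subtype
  have hf : ∀ u : ↥E, f u = (u : WR G (p ^ (m + 1))).g := fun u => rfl
  refine ⟨↥E, inferInstance, inferInstance, f, ?_, ?_, ?_, ?_, ?_⟩
  · intro g
    have hg : g ∈ E.map WR.proj := by rw [hEπ]; exact mem_top g
    obtain ⟨e, he, rfl⟩ := hg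
    exact ⟨⟨e, he⟩, rfl⟩
  · exact hH.frat f hker hG
  · intro u v hu hv
    rw [hf] at hu hv
    apply Subtype.ext
    ext x
    · simp [hu, hv]
    · change (u : WR G (p ^ (m + 1))).φ (_ * x) + _ = (v : WR G (p ^ (m + 1))).φ (_ * x) + _
      rw [hu, hv, one_mul]
      exact add_comm _ _
  · intro u hu
    rw [hf] at hu
    have h1 := fun n => (WR.pow_of_g_one (u : WR G (p ^ (m + 1))) hu n).1
    have h2 := fun n => (WR.pow_of_g_one (u : WR G (p ^ (m + 1))) hu n).2
    apply Subtype.ext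
    rw [Subgroup.coe_pow]
    ext x
    · exact h1 _
    · rw [h2]
      simp
  · intro u k hu hk
    rw [hf] at hu
    have h2 := fun n => WR.pow_at_one Y c (fun a ha => ha.1) (u : WR G (p ^ (m + 1)))
      (hEY u.2) hu n
    have h3 := h2 k
    have h4 : (u : WR G (p ^ (m + 1))) ^ k = 1 := congrArg Subtype.val hk
    rw [h4, WR.one_φ] at h3
    have h5 := (hEY u.2).2 1
    rw [hu, mul_one, ← one_mul c, he] at h5
    set y := (u : WR G (p ^ (m + 1))).φ 1 with hy
    have h6 : ((y.val : ℕ) : ZMod (p ^ (m + 1))) = y := ZMod.natCast_zmod_val y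
    have h7 : ((k * y.val : ℕ) : ZMod (p ^ (m + 1))) = 0 := by
      rw [Nat.cast_mul, h6, ← nsmul_eq_mul, ← h3]
    rw [ZMod.natCast_eq_zero_iff] at h7
    have h8 : ¬ p ∣ y.val := by
      intro h
      have h9 : ((y.val : ℕ) : ZMod p) = 0 := (ZMod.natCast_eq_zero_iff _ _).mpr h
      have h10 : red y = ((y.val : ℕ) : ZMod p) := by
        conv_lhs => rw [← h6]
        rw [map_natCast]
      rw [← h10, h5] at h9
      simp at h9
    exact Nat.Coprime.dvd_of_dvd_mul_right
      (Nat.Coprime.pow_left _ ((Nat.Prime.coprime_iff_not_dvd hp).mpr h8)) h7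

/-- From a member violating `H0` we get an elementary abelian normal `p`-subgroup on which a
commutator of `r`-elements acts nontrivially. -/
theorem exists_bad (hH : Cls H) {G : Type} [Group G] [Finite G] (hG : H G) (hbad : ¬ H0 G) :
    ∃ (p r : ℕ), p.Prime ∧ r.Prime ∧ r ∣ p - 1 ∧
    ∃ (E : Type) (_ : Group E) (_ : Finite E), H E ∧ ∃ (V S : Subgroup E), V.Normal ∧
      (∀ u ∈ V, ∀ v ∈ V, u * v = v * u) ∧ (∀ u ∈ V, u ^ p = 1) ∧ IsPGroup r S ∧
      ∃ a ∈ S, ∃ b ∈ S, ∃ v ∈ V, ⁅a, b⁆ * v ≠ v * ⁅a, b⁆ := by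
  unfold H0 at hbad
  push Not at hbad
  obtain ⟨p, r, hp, hr, hrp, R, hR, a0, ha0, b0, hb0, c, hcN, hcp, hc1⟩ := hbad
  have : Fact p.Prime := ⟨hp⟩
  have hrne := ne_of_dvd_sub_one hp hr hrp
  have hco : orderOf c = p := orderOf_eq_prime hcp hc1
  obtain ⟨E, _, _, f, hf, hE, hkab, hkp, hkc⟩ :=
    exists_ext hH hG p hp c hco (Nat.card (normalClosure {⁅a0, b0⁆}))
  obtain ⟨S, hS, hSR⟩ := lift_pGroup f hf r hr R hR
  rw [← hSR] at ha0 hb0
  obtain ⟨a, ha, rfl⟩ := ha0
  obtain ⟨b, hb, rfl⟩ := hb0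
  have hN : (normalClosure {⁅a, b⁆}).map f = normalClosure {⁅f a, f b⁆} := by
    rw [Subgroup.map_normalClosure _ f hf, Set.image_singleton, map_commutatorElement]
  have hxS : ⁅a, b⁆ ∈ S := by
    rw [commutatorElement_def]
    exact mul_mem (mul_mem (mul_mem ha hb) (inv_mem ha)) (inv_mem hb)
  obtain ⟨j, hj⟩ := hS ⟨_, hxS⟩
  have hj' : ⁅a, b⁆ ^ r ^ j = 1 := congrArg Subtype.val hj
  refine ⟨p, r, hp, hr, hrp, E, inferInstance, inferInstance, hE, ?_⟩
  let V : Subgroup E :=
    { carrier := {u | f u = 1 ∧ u ^ p = 1}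
      mul_mem' := by
        rintro x y ⟨hx, hx'⟩ ⟨hy, hy'⟩
        refine ⟨by rw [map_mul, hx, hy, one_mul], ?_⟩
        rw [(show Commute x y from hkab x y hx hy).mul_pow, hx', hy', one_mul]
      one_mem' := ⟨map_one f, one_pow p⟩
      inv_mem' := by
        rintro x ⟨hx, hx'⟩
        exact ⟨by rw [map_inv, hx, inv_one], by rw [inv_pow, hx', inv_one]⟩ }
  have hVn : V.Normal := by
    constructor
    rintro u ⟨hu, hu'⟩ k
    refine ⟨by rw [map_mul, map_mul, hu, mul_one, ← map_mul, mul_inv_cancel, map_one], ?_⟩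
    rw [conj_pow, hu', mul_one, mul_inv_cancel]
  refine ⟨V, S, hVn, fun u hu v hv => hkab u v hu.1 hv.1, fun u hu => hu.2, hS, a, ha, b, hb, ?_⟩
  by_contra hcon
  push Not at hcon
  -- then `⁅a, b⁆` centralises the whole kernel
  have hall : ∀ n : ℕ, ∀ v : E, f v = 1 → v ^ p ^ n = 1 → ⁅a, b⁆ * v = v * ⁅a, b⁆ := by
    intro n
    induction n with
    | zero => intro v _ hv; rw [pow_zero, pow_one] at hv; rw [hv]; simp
    | succ n ih =>
      intro v hfv hv
      set x := ⁅a, b⁆ with hx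
      have h1 := ih (v ^ p) (by rw [map_pow, hfv, one_pow]) (by rw [← pow_mul, ← pow_succ']; exact hv)
      set w := x * v * x⁻¹ * v⁻¹ with hw
      have hfc : f (x * v * x⁻¹) = 1 := by
        rw [map_mul, map_mul, hfv, mul_one, ← map_mul, mul_inv_cancel, map_one]
      have hfw : f w = 1 := by
        rw [hw, map_mul, hfc, map_inv, hfv, inv_one, one_mul]
      have hwp : w ^ p = 1 := by
        have h2 : Commute (x * v * x⁻¹) v⁻¹ :=
          (show Commute (x * v * x⁻¹) v from hkab _ _ hfc hfv).inv_right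
        rw [hw, h2.mul_pow, conj_pow, h1, mul_inv_cancel_right, inv_pow, mul_inv_cancel]
      have h3 : x * w = w * x := hcon w ⟨hfw, hwp⟩
      have hvw : Commute w v := hkab _ _ hfw hfv
      have h4 : ∀ k : ℕ, x ^ k * v = w ^ k * (v * x ^ k) := by
        intro k
        induction k with
        | zero => simp
        | succ k ih =>
          have h5 : x * v = w * (v * x) := by rw [hw]; group
          have h6 : x * w ^ k = w ^ k * x := (show Commute x w from h3).pow_right k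
          calc x ^ (k + 1) * v = x * (x ^ k * v) := by rw [pow_succ', mul_assoc]
            _ = x * (w ^ k * (v * x ^ k)) := by rw [ih]
            _ = (x * w ^ k) * (v * x ^ k) := by rw [mul_assoc]
            _ = w ^ k * (x * v) * x ^ k := by rw [h6]; group
            _ = w ^ k * (w * (v * x)) * x ^ k := by rw [h5]
            _ = w ^ (k + 1) * (v * x ^ (k + 1)) := by rw [pow_succ, pow_succ']; group
      have h5 := h4 (r ^ j)
      rw [hj', one_mul, mul_one] at h5
      have h6 : w ^ r ^ j = 1 := by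
        have h7 : w ^ r ^ j * v = 1 * v := by rw [one_mul]; exact h5.symm
        exact mul_right_cancel h7
      have h7 : w = 1 := by
        refine eq_one_of_pow_coprime w (r ^ j) p ?_ h6 hwp
        exact Nat.Coprime.pow_left _ ((Nat.coprime_primes hr hp).mpr hrne)
      rw [hw] at h7
      calc x * v = (x * v * x⁻¹ * v⁻¹) * (v * x) := by group
        _ = v * x := by rw [h7, one_mul]
  have hker : ∀ v : E, f v = 1 → ⁅a, b⁆ * v = v * ⁅a, b⁆ := fun v hv =>
    hall _ v hv (hkp v hv)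
  have hle : normalClosure {⁅a, b⁆} ≤ centralizer (f.ker : Set E) := by
    have : (centralizer (f.ker : Set E)).Normal := inferInstance
    apply normalClosure_le_normal
    rw [Set.singleton_subset_iff]
    change ⁅a, b⁆ ∈ centralizer (f.ker : Set E)
    rw [mem_centralizer_iff]
    intro h hh
    exact (hker h hh).symm
  rw [← hN] at hcN
  obtain ⟨u, hu, rfl⟩ := hcN
  have h3 := transfer_lemma f ⁅a, b⁆ (r ^ j) hj' (by
    intro u hu v hv hfu
    exact mem_centralizer_iff.mp (hle hv) u hfu) u hu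
  have h4 := hkc u _ rfl h3
  rw [hN] at h4
  have h5 := Nat.Coprime.dvd_of_dvd_mul_right (Nat.Coprime.pow _ _
    ((Nat.coprime_primes hp hr).mpr hrne.symm)) h4
  have h6 : 0 < Nat.card (normalClosure {⁅f a, f b⁆}) := Nat.card_pos
  have h7 := Nat.le_of_dvd h6 h5
  have h8 : Nat.card (normalClosure {⁅f a, f b⁆}) <
      p ^ (Nat.card (normalClosure {⁅f a, f b⁆}) + 1) :=
    lt_trans (Nat.lt_succ_self _) (Nat.lt_pow_self hp.one_lt)
  omega

end Pool.Agent.Helper851
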