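import Mathlib
import Pool.Agent.Helper851.Ext

set_option autoImplicit false

namespace Pool.Agent.Helper851

open Subgroup
open scoped commutatorElement

theorem simple_quot (L M : Type) [CommRing L] [AddCommGroup M] [Module L M] [Finite M]
    [Nontrivial M] [Finite L] :
    ∃ (K : Type) (_ : Field K) (_ : Finite K) (f : M →+ K) (g : L →+* K), (∃ v, f v ≠ 0) ∧
      ∀ (l : L) (v : M), f (l • v) = g l * f v := by
  have : Finite (Submodule L M) :=
    Finite.of_injective (fun N : Submodule L M => (N : Set M)) SetLike.coe_injective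
  obtain ⟨N, hN⟩ : ∃ N : Submodule L M, IsCoatom N := by
    obtain h | ⟨N, hN, _⟩ := eq_top_or_exists_le_coatom (⊥ : Submodule L M)
    · exact absurd h bot_ne_top
    · exact ⟨N, hN⟩
  have hs : IsSimpleModule L (M ⧸ N) := isSimpleModule_iff_isCoatom.mpr hN
  obtain ⟨I, hI, ⟨e⟩⟩ := isSimpleModule_iff_quot_maximal.mp hs
  let f0 : M →ₗ[L] L ⧸ I := e.toLinearMap.comp N.mkQ
  refine ⟨L ⧸ I, Ideal.Quotient.field I, Finite.of_surjective _ Ideal.Quotient.mk_surjective,
    f0.toAddMonoidHom, Ideal.Quotient.mk I, ?_, ?_⟩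
  · by_contra hcon
    push Not at hcon
    apply hN.1
    rw [eq_top_iff]
    intro v _
    have h1 : e (N.mkQ v) = 0 := hcon v
    rw [LinearEquiv.map_eq_zero_iff] at h1
    simpa using h1
  · intro l v
    change f0 (l • v) = _
    rw [map_smul]
    rfl

open scoped IsMulCommutative in
theorem exists_functional {M : Type} [AddCommGroup M] [Finite M] [Nontrivial M]
    (P Q : AddMonoid.End M) (h : Commute P Q) :
    ∃ (K : Type) (_ : Field K) (_ : Finite K) (f : M →+ K) (a b : K), (∃ v, f v ≠ 0) ∧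
      (∀ v, f (P v) = a * f v) ∧ (∀ v, f (Q v) = b * f v) := by
  let L := Subring.closure ({P, Q} : Set (AddMonoid.End M))
  have : IsMulCommutative L := Subring.isMulCommutative_closure (by
    rintro a ha b hb
    simp only [Set.mem_insert_iff, Set.mem_singleton_iff] at ha hb
    rcases ha with rfl | rfl <;> rcases hb with rfl | rfl
    · rfl
    · exact h
    · exact h.symm
    · rfl)
  have : Finite L := by
    have : Finite (AddMonoid.End M) :=
      Finite.of_injective (fun f : AddMonoid.End M => (f : M → M)) DFunLike.coe_injective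
    infer_instance
  obtain ⟨K, _, hK, f, g, hf, hg⟩ := simple_quot L M
  refine ⟨K, inferInstance, hK, f, g ⟨P, Subring.subset_closure (by simp)⟩,
    g ⟨Q, Subring.subset_closure (by simp)⟩, hf, ?_, ?_⟩
  · intro v
    exact hg ⟨P, Subring.subset_closure (by simp)⟩ v
  · intro v
    exact hg ⟨Q, Subring.subset_closure (by simp)⟩ v

variable {H : (G : Type) → [Group G] → Prop}

theorem exists_core (hH : Cls H) {E : Type} [Group E] [Finite E] (hE : H E) (p r : ℕ)
    (hp : p.Prime) (hr : r.Prime) (hrp : r ∣ p - 1) (V S : Subgroup E) [hVn : V.Normal]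
    (hab : ∀ u ∈ V, ∀ v ∈ V, u * v = v * u) (hexp : ∀ u ∈ V, u ^ p = 1) (hS : IsPGroup r S)
    (a0 b0 : E) (ha0 : a0 ∈ S) (hb0 : b0 ∈ S) (hne : ∃ v ∈ V, ⁅a0, b0⁆ * v ≠ v * ⁅a0, b0⁆) :
    ∃ (E' : Type) (_ : Group E') (_ : Finite E'), H E' ∧ ∃ (V R : Subgroup E'), V.Normal ∧
      V ≠ ⊥ ∧ (∀ u ∈ V, ∀ v ∈ V, u * v = v * u) ∧ (∀ u ∈ V, u ^ p = 1) ∧ IsPGroup r R ∧
      ∃ a ∈ R, ∃ b ∈ R, ∃ ω : ℕ, (∀ v ∈ V, ⁅a, b⁆ * v * ⁅a, b⁆⁻¹ = v ^ ω) ∧
        ω ^ r ≡ 1 [MOD p] ∧ ¬ ω ≡ 1 [MOD p] := by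
  have hCn : (centralizer (V : Set E)).Normal := inferInstance
  set C := centralizer (V : Set E) with hC
  have hmemC : ∀ g : E, g ∈ C ↔ (∀ u ∈ V, g * u = u * g) := by
    intro g
    rw [hC, mem_centralizer_iff]
    exact ⟨fun h u hu => (h u hu).symm, fun h u hu => (h u hu).symm⟩
  let f := QuotientGroup.mk' C
  have hf1 : ∀ g : E, f g = 1 ↔ g ∈ C := fun g => QuotientGroup.eq_one_iff g
  have hS' : IsPGroup r (S.map f) := hS.map f
  obtain ⟨⟨_, a1, ha1, rfl⟩, ⟨_, b1, hb1, rfl⟩, h1, h2, h3, h4⟩ := exists_heis r hr hS'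
    ⟨⟨f a0, mem_map_of_mem f ha0⟩, ⟨f b0, mem_map_of_mem f hb0⟩, by
      intro h
      have h1 : f a0 * f b0 = f b0 * f a0 := congrArg Subtype.val h
      rw [← commutatorElement_eq_one_iff_mul_comm, ← map_commutatorElement, hf1, hmemC] at h1
      obtain ⟨v, hv, hne⟩ := hne
      exact hne (h1 v hv)⟩
  have h1' : ⁅a1, b1⁆ ∉ C := by
    intro h
    rw [← hf1, map_commutatorElement] at h
    exact h1 (Subtype.ext h)
  have h2' : ⁅a1, b1⁆ ^ r ∈ C := by
    have := congrArg Subtype.val h2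
    rw [← hf1, map_pow, map_commutatorElement]
    exact this
  have h3' : ⁅⁅a1, b1⁆, a1⁆ ∈ C := by
    have := congrArg Subtype.val h3.eq
    rw [← hf1, map_commutatorElement, map_commutatorElement, commutatorElement_eq_one_iff_mul_comm]
    exact this
  have h4' : ⁅⁅a1, b1⁆, b1⁆ ∈ C := by
    have := congrArg Subtype.val h4.eq
    rw [← hf1, map_commutatorElement, map_commutatorElement, commutatorElement_eq_one_iff_mul_comm]
    exact this
  set z := ⁅a1, b1⁆ with hz
  rw [hmemC] at h1'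
  push Not at h1'
  obtain ⟨v, hv, hvne⟩ := h1'
  have hzr : ∀ u ∈ V, z ^ (p - 1) * u = u * z ^ (p - 1) := by
    obtain ⟨t, ht⟩ := hrp
    have : z ^ (p - 1) ∈ C := by
      rw [ht, pow_mul]; exact pow_mem h2' t
    exact (hmemC _).mp this
  have hv1 : v ≠ 1 := by
    rintro rfl
    simp at hvne
  obtain ⟨_, hev⟩ := exists_eigen_grp p hp V hab hexp z hzr v hv hv1
  obtain ⟨ω, hω1, u, huV, hu1, hzu⟩ := hev hvne
  have hωr : ω ^ r ≡ 1 [MOD p] := by
    have h5 : ∀ n : ℕ, z ^ n * u * (z ^ n)⁻¹ = u ^ (ω ^ n) := by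
      intro n
      induction n with
      | zero => simp
      | succ n ih =>
        calc z ^ (n + 1) * u * (z ^ (n + 1))⁻¹ = z * (z ^ n * u * (z ^ n)⁻¹) * z⁻¹ := by
              rw [pow_succ']; group
          _ = z * (u ^ (ω ^ n)) * z⁻¹ := by rw [ih]
          _ = (z * u * z⁻¹) ^ (ω ^ n) := by rw [conj_pow]
          _ = u ^ (ω ^ (n + 1)) := by rw [hzu, ← pow_mul, pow_succ']
    have h6 := h5 r
    rw [(hmemC _).mp h2' u huV, mul_inv_cancel_right] at h6
    have : Fact p.Prime := ⟨hp⟩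
    have h7 : orderOf u = p := orderOf_eq_prime (hexp u huV) hu1
    have h8 : u ^ (ω ^ r) = u ^ 1 := by rw [pow_one]; exact h6.symm
    rw [pow_eq_pow_iff_modEq, h7] at h8
    exact h8
  let V1 : Subgroup E :=
    { carrier := {w | w ∈ V ∧ z * w * z⁻¹ = w ^ ω}
      mul_mem' := by
        rintro a b ⟨ha, ha'⟩ ⟨hb, hb'⟩
        refine ⟨mul_mem ha hb, ?_⟩
        have h1 : z * (a * b) * z⁻¹ = (z * a * z⁻¹) * (z * b * z⁻¹) := by group
        rw [h1, ha', hb']
        exact ((show Commute a b from hab a ha b hb).mul_pow ω).symm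
      one_mem' := ⟨one_mem _, by simp⟩
      inv_mem' := by
        rintro a ⟨ha, ha'⟩
        refine ⟨inv_mem ha, ?_⟩
        have h1 : z * a⁻¹ * z⁻¹ = (z * a * z⁻¹)⁻¹ := by group
        rw [h1, ha', inv_pow] }
  have hnorm : ∀ g : E, ⁅z, g⁆ ∈ C → g ∈ normalizer (V1 : Set E) := by
    intro g hg
    apply mem_normalizer_fintype
    rintro w ⟨hw, hw'⟩
    refine ⟨hVn.conj_mem w hw g, ?_⟩
    have h1 : z * (g * w * g⁻¹) * z⁻¹ = ⁅z, g⁆ * (g * (z * w * z⁻¹) * g⁻¹) * ⁅z, g⁆⁻¹ := by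
      rw [commutatorElement_def]; group
    rw [h1, hw', (hmemC _).mp hg _ (hVn.conj_mem _ (pow_mem hw ω) g), mul_inv_cancel_right,
      conj_pow]
  have haN := hnorm a1 h3'
  have hbN := hnorm b1 h4'
  refine ⟨↥(normalizer (V1 : Set E)), inferInstance, inferInstance, hH.sub E _ hE,
    V1.subgroupOf (normalizer (V1 : Set E)), S.subgroupOf (normalizer (V1 : Set E)),
    inferInstance, ?_, ?_, ?_, ?_, ?_⟩
  · intro hbot
    have huN : u ∈ normalizer (V1 : Set E) := le_normalizer ⟨huV, hzu⟩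
    have h5 : (⟨u, huN⟩ : ↥(normalizer (V1 : Set E))) ∈
        V1.subgroupOf (normalizer (V1 : Set E)) := ⟨huV, hzu⟩
    rw [hbot, mem_bot] at h5
    exact hu1 (congrArg Subtype.val h5)
  · intro x hx y hy
    exact Subtype.ext (hab _ hx.1 _ hy.1)
  · intro x hx
    exact Subtype.ext (hexp _ hx.1)
  · exact hS.comap_subtype
  · refine ⟨⟨a1, haN⟩, ha1, ⟨b1, hbN⟩, hb1, ω, ?_, hωr, hω1⟩
    intro x hx
    exact Subtype.ext hx.2

/-- The functional on `V`. -/
theorem exists_functional_grp {E : Type} [Group E] [Finite E] (V : Subgroup E) [hVn : V.Normal]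
    (hne : V ≠ ⊥) (hab : ∀ u ∈ V, ∀ v ∈ V, u * v = v * u) (a b : E)
    (hcomm : ∀ v ∈ V, (a * b) * v * (a * b)⁻¹ = (b * a) * v * (b * a)⁻¹) :
    ∃ (K : Type) (_ : Field K) (_ : Finite K) (f : ↥V → K) (x y : K), (∃ v, f v ≠ 0) ∧
      (∀ v w, f (v * w) = f v + f w) ∧
      (∀ v, f ((MulAut.conjNormal a : MulAut ↥V) v) = x * f v) ∧
      (∀ v, f ((MulAut.conjNormal b : MulAut ↥V) v) = y * f v) := by
  let _ : CommGroup ↥V :=
    { (inferInstance : Group ↥V) with
      mul_comm := fun a b => Subtype.ext (hab a.1 a.2 b.1 b.2) }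
  have : Nontrivial ↥V := (Subgroup.nontrivial_iff_ne_bot _).mpr hne
  have hPQ : Commute (conjEnd V a) (conjEnd V b) := by
    rw [Commute, SemiconjBy, ← map_mul, ← map_mul]
    apply AddMonoidHom.ext
    intro v
    have h1 := conjEnd_apply V (a * b) v
    have h2 := conjEnd_apply V (b * a) v
    rw [hcomm _ v.toMul.2, ← h2] at h1
    have h3 : (conjEnd V (a * b) v).toMul = (conjEnd V (b * a) v).toMul := Subtype.ext h1
    exact h3
  obtain ⟨K, _, hK, f, x, y, hf, hx, hy⟩ :=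
    exists_functional (M := Additive ↥V) (conjEnd V a) (conjEnd V b) hPQ
  refine ⟨K, inferInstance, hK, fun v => f (Additive.ofMul v), x, y, ?_, ?_, ?_, ?_⟩
  · obtain ⟨v, hv⟩ := hf
    exact ⟨v.toMul, hv⟩
  · intro v w
    exact f.map_add _ _
  · intro v
    exact hx (Additive.ofMul v)
  · intro v
    exact hy (Additive.ofMul v)

end Pool.Agent.Helper851
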