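import Mathlib
import Pool.Agent.Helper851.Core

set_option autoImplicit false

namespace Pool.Agent.Helper851

open Subgroup
open scoped commutatorElement

/-- Heisenberg-type group on functions. -/
@[ext] structure HG (Γ K : Type) where
  x : Γ → K
  y : Γ → K
  w : Γ → K
  g : Γ

namespace HG

variable {Γ K : Type} [Group Γ] [Field K]

instance : Mul (HG Γ K) := ⟨fun a b =>
  ⟨fun t => a.x t + b.x (t * a.g), fun t => a.y t + b.y (t * a.g),
    fun t => a.w t + b.w (t * a.g) + a.x t * b.y (t * a.g), a.g * b.g⟩⟩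
instance : One (HG Γ K) := ⟨⟨0, 0, 0, 1⟩⟩
instance : Inv (HG Γ K) := ⟨fun a =>
  ⟨fun t => - a.x (t * a.g⁻¹), fun t => - a.y (t * a.g⁻¹),
    fun t => - a.w (t * a.g⁻¹) + a.x (t * a.g⁻¹) * a.y (t * a.g⁻¹), a.g⁻¹⟩⟩

@[simp] theorem mul_g (a b : HG Γ K) : (a * b).g = a.g * b.g := rfl
@[simp] theorem mul_x (a b : HG Γ K) (t : Γ) : (a * b).x t = a.x t + b.x (t * a.g) := rfl
@[simp] theorem mul_y (a b : HG Γ K) (t : Γ) : (a * b).y t = a.y t + b.y (t * a.g) := rfl
@[simp] theorem mul_w (a b : HG Γ K) (t : Γ) :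
    (a * b).w t = a.w t + b.w (t * a.g) + a.x t * b.y (t * a.g) := rfl
@[simp] theorem one_g : (1 : HG Γ K).g = 1 := rfl
@[simp] theorem one_x : (1 : HG Γ K).x = 0 := rfl
@[simp] theorem one_y : (1 : HG Γ K).y = 0 := rfl
@[simp] theorem one_w : (1 : HG Γ K).w = 0 := rfl
@[simp] theorem inv_g (a : HG Γ K) : (a⁻¹).g = a.g⁻¹ := rfl
@[simp] theorem inv_x (a : HG Γ K) (t : Γ) : (a⁻¹).x t = - a.x (t * a.g⁻¹) := rfl
@[simp] theorem inv_y (a : HG Γ K) (t : Γ) : (a⁻¹).y t = - a.y (t * a.g⁻¹) := rfl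
@[simp] theorem inv_w (a : HG Γ K) (t : Γ) :
    (a⁻¹).w t = - a.w (t * a.g⁻¹) + a.x (t * a.g⁻¹) * a.y (t * a.g⁻¹) := rfl

instance : Group (HG Γ K) :=
  Group.ofLeftAxioms
    (by
      intro a b c
      ext t
      · simp [mul_assoc, add_assoc]
      · simp [mul_assoc, add_assoc]
      · simp [mul_assoc]; ring
      · simp [mul_assoc])
    (by intro a; ext t <;> simp)
    (by intro a; ext t <;> simp)

instance [Finite Γ] [Finite K] : Finite (HG Γ K) :=
  Finite.of_injective (fun a : HG Γ K => (a.x, a.y, a.w, a.g)) (by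
    intro a b h
    simp only [Prod.mk.injEq] at h
    exact HG.ext h.1 h.2.1 h.2.2.1 h.2.2.2)

end HG

variable {Γ K : Type} [Group Γ] [Field K]

/-- translation invariance -/
def TInv (U : AddSubgroup (Γ → K)) : Prop := ∀ u ∈ U, ∀ g : Γ, (fun t => u (t * g)) ∈ U

/-- span of products -/
def mulSub (U V : AddSubgroup (Γ → K)) : AddSubgroup (Γ → K) :=
  AddSubgroup.closure {f | ∃ u ∈ U, ∃ v ∈ V, (fun t => u t * v t) = f}

omit [Group Γ] in
theorem mulSub_mem {U V : AddSubgroup (Γ → K)} {u v : Γ → K} (hu : u ∈ U) (hv : v ∈ V) :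
    (fun t => u t * v t) ∈ mulSub U V :=
  AddSubgroup.subset_closure ⟨u, hu, v, hv, rfl⟩

theorem mulSub_inv {U V : AddSubgroup (Γ → K)} (hU : TInv U) (hV : TInv V) :
    TInv (mulSub U V) := by
  intro u hu g
  induction hu using AddSubgroup.closure_induction with
  | mem f hf =>
    obtain ⟨u, hu, v, hv, rfl⟩ := hf
    exact mulSub_mem (hU u hu g) (hV v hv g)
  | zero => exact AddSubgroup.zero_mem _
  | add f f' _ _ h h' => exact AddSubgroup.add_mem _ h h'
  | neg f _ h => exact AddSubgroup.neg_mem _ h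

/-- `U ⋊ Γ` -/
def SD (U : AddSubgroup (Γ → K)) (hU : TInv U) : Subgroup (HG Γ K) where
  carrier := {a | a.x = 0 ∧ a.y = 0 ∧ a.w ∈ U}
  mul_mem' := by
    rintro a b ⟨ha1, ha2, ha3⟩ ⟨hb1, hb2, hb3⟩
    refine ⟨?_, ?_, ?_⟩
    · ext t; simp [ha1, hb1]
    · ext t; simp [ha2, hb2]
    · have h1 : (a * b).w = a.w + fun t => b.w (t * a.g) := by
        ext t; simp [ha1]
      rw [h1]
      exact AddSubgroup.add_mem _ ha3 (hU _ hb3 _)
  one_mem' := ⟨rfl, rfl, AddSubgroup.zero_mem _⟩
  inv_mem' := by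
    rintro a ⟨ha1, ha2, ha3⟩
    refine ⟨?_, ?_, ?_⟩
    · ext t; simp [ha1]
    · ext t; simp [ha2]
    · have h1 : (a⁻¹).w = - fun t => a.w (t * a.g⁻¹) := by
        ext t; simp [ha1]
      rw [h1]
      exact AddSubgroup.neg_mem _ (hU _ ha3 _)

/-- The Heisenberg group of `U`, `V`. -/
def HU (U V : AddSubgroup (Γ → K)) (hU : TInv U) (hV : TInv V) : Subgroup (HG Γ K) where
  carrier := {a | a.x ∈ U ∧ a.y ∈ V ∧ a.w ∈ mulSub U V}
  mul_mem' := by
    rintro a b ⟨ha1, ha2, ha3⟩ ⟨hb1, hb2, hb3⟩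
    refine ⟨?_, ?_, ?_⟩
    · exact AddSubgroup.add_mem _ ha1 (hU _ hb1 _)
    · exact AddSubgroup.add_mem _ ha2 (hV _ hb2 _)
    · exact AddSubgroup.add_mem _ (AddSubgroup.add_mem _ ha3 (mulSub_inv hU hV _ hb3 _))
        (mulSub_mem ha1 (hV _ hb2 _))
  one_mem' := ⟨AddSubgroup.zero_mem _, AddSubgroup.zero_mem _, AddSubgroup.zero_mem _⟩
  inv_mem' := by
    rintro a ⟨ha1, ha2, ha3⟩
    refine ⟨?_, ?_, ?_⟩
    · exact AddSubgroup.neg_mem _ (hU _ ha1 _)
    · exact AddSubgroup.neg_mem _ (hV _ ha2 _)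
    · exact AddSubgroup.add_mem _ (AddSubgroup.neg_mem _ (mulSub_inv hU hV _ ha3 _))
        (mulSub_mem (hU _ ha1 _) (hV _ ha2 _))

variable {H : (G : Type) → [Group G] → Prop}

theorem heis (hH : Cls H) [Finite Γ] [Finite K] (U V : AddSubgroup (Γ → K)) (hU : TInv U)
    (hV : TInv V) (h1 : H (SD U hU)) (h2 : H (SD V hV)) :
    H (SD (mulSub U V) (mulSub_inv hU hV)) := by
  let p1 : ↥(HU U V hU hV) →* ↥(SD U hU) :=
    { toFun := fun a => ⟨⟨0, 0, a.1.x, a.1.g⟩, rfl, rfl, a.2.1⟩
      map_one' := rfl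
      map_mul' := by
        intro a b
        apply Subtype.ext
        ext t
        · simp
        · simp
        · simp
        · simp }
  let p2 : ↥(HU U V hU hV) →* ↥(SD V hV) :=
    { toFun := fun a => ⟨⟨0, 0, a.1.y, a.1.g⟩, rfl, rfl, a.2.2.1⟩
      map_one' := rfl
      map_mul' := by
        intro a b
        apply Subtype.ext
        ext t
        · simp
        · simp
        · simp
        · simp }
  have hker : ∀ a : ↥(HU U V hU hV), a ∈ (p1.prod p2).ker ↔
      (a.1.x = 0 ∧ a.1.y = 0 ∧ a.1.g = 1) := by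
    intro a
    rw [MonoidHom.mem_ker]
    constructor
    · intro h
      have h3 : p1 a = 1 := congrArg Prod.fst h
      have h4 : p2 a = 1 := congrArg Prod.snd h
      have h5 : (⟨0, 0, a.1.x, a.1.g⟩ : HG Γ K) = 1 := congrArg Subtype.val h3
      have h6 : (⟨0, 0, a.1.y, a.1.g⟩ : HG Γ K) = 1 := congrArg Subtype.val h4
      exact ⟨congrArg HG.w h5, congrArg HG.w h6, congrArg HG.g h5⟩
    · rintro ⟨hx, hy, hg⟩
      apply Prod.ext
      · apply Subtype.ext
        change (⟨0, 0, a.1.x, a.1.g⟩ : HG Γ K) = 1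
        rw [hx, hg]; rfl
      · apply Subtype.ext
        change (⟨0, 0, a.1.y, a.1.g⟩ : HG Γ K) = 1
        rw [hy, hg]; rfl
  let P : Subgroup ↥(HU U V hU hV) :=
    { carrier := {a | a.1.g = 1}
      mul_mem' := by
        intro a b ha hb
        change a.1.g * b.1.g = 1
        rw [show a.1.g = 1 from ha, show b.1.g = 1 from hb, one_mul]
      one_mem' := rfl
      inv_mem' := by
        intro a ha
        change (a.1.g)⁻¹ = 1
        rw [show a.1.g = 1 from ha, inv_one] }
  have hfr : (p1.prod p2).ker ≤ frattini ↥(HU U V hU hV) := by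
    apply le_frattini_of_central P
    · intro a ha
      exact ((hker a).mp ha).2.2
    · intro a ha b hb
      obtain ⟨hx, hy, hg⟩ := (hker a).mp ha
      have hbg : b.1.g = 1 := hb
      apply Subtype.ext
      ext t
      · simp [hx, hg]
      · simp [hy, hg]
      · simp [hx, hy, hg, hbg, add_comm]
      · simp [hg, hbg]
    · have key : ∀ w (hw : w ∈ mulSub U V),
          (⟨⟨0, 0, w, 1⟩, AddSubgroup.zero_mem _, AddSubgroup.zero_mem _, hw⟩ :
            ↥(HU U V hU hV)) ∈ closure {g | ∃ x ∈ P, ∃ y ∈ P, ⁅x, y⁆ = g} := by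
        intro w hw
        induction hw using AddSubgroup.closure_induction with
        | mem f hf =>
          obtain ⟨u, hu, v, hv, rfl⟩ := hf
          apply Subgroup.subset_closure
          refine ⟨⟨⟨u, 0, 0, 1⟩, hu, AddSubgroup.zero_mem _, AddSubgroup.zero_mem _⟩, rfl,
            ⟨⟨0, v, 0, 1⟩, AddSubgroup.zero_mem _, hv, AddSubgroup.zero_mem _⟩, rfl, ?_⟩
          apply Subtype.ext
          rw [commutatorElement_def]
          ext t
          · simp
          · simp
          · simp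
          · simp
        | zero => exact one_mem _
        | add f f' hf hf' h h' =>
          have h3 := mul_mem h h'
          convert! h3 using 1
          apply Subtype.ext
          ext t
          · simp
          · simp
          · simp
          · simp
        | neg f hf h =>
          have h3 := inv_mem h
          convert! h3 using 1
          apply Subtype.ext
          ext t
          · simp
          · simp
          · simp
          · simp
      intro a ha
      obtain ⟨hx, hy, hg⟩ := (hker a).mp ha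
      have h3 := key a.1.w a.2.2.2
      convert! h3 using 1
      apply Subtype.ext
      ext t
      · simp [hx]
      · simp [hy]
      · simp
      · simp [hg]
  have h3 : H ↥(HU U V hU hV) := hH.frat (p1.prod p2) hfr (hH.prod h1 h2)
  have hle : SD (mulSub U V) (mulSub_inv hU hV) ≤ HU U V hU hV := by
    rintro a ⟨hx, hy, hw⟩
    refine ⟨?_, ?_, hw⟩
    · rw [hx]; exact AddSubgroup.zero_mem _
    · rw [hy]; exact AddSubgroup.zero_mem _
  exact hH.inj (Subgroup.inclusion hle) (Subgroup.inclusion_injective hle) h3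

end Pool.Agent.Helper851
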