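import Mathlib
import Pool.Agent.Helper851.Heis

set_option autoImplicit false

namespace Pool.Agent.Helper851

open Subgroup
open scoped commutatorElement

variable {H : (G : Type) → [Group G] → Prop}

/-- `V ⋊ Γ` through `π`, mapped to functions. -/
theorem base (hH : Cls H) {Γ K E : Type} [Group Γ] [Field K] [Group E] [Finite Γ] [Finite K]
    [Finite E] (hE : H E) (hΓ : H Γ) (V : Subgroup E) [hVn : V.Normal] (f : ↥V → K)
    (hf : ∀ v w, f (v * w) = f v + f w) (π : Γ →* E) :
    ∃ (U : AddSubgroup (Γ → K)) (hU : TInv U), H (SD U hU) ∧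
      (∀ u, u ∈ U ↔ ∃ v, (fun t => f ((MulAut.conjNormal (π t) : MulAut ↥V) v)) = u) := by
  have hf1 : f 1 = 0 := by
    have := hf 1 1
    rw [one_mul] at this
    simpa using this
  have hfi : ∀ v, f v⁻¹ = - f v := by
    intro v
    have := hf v⁻¹ v
    rw [inv_mul_cancel, hf1] at this
    exact eq_neg_of_add_eq_zero_left this.symm
  let Φ : ↥V → (Γ → K) := fun v t => f ((MulAut.conjNormal (π t) : MulAut ↥V) v)
  let U : AddSubgroup (Γ → K) :=
    { carrier := Set.range Φ
      add_mem' := by
        rintro _ _ ⟨v, rfl⟩ ⟨w, rfl⟩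
        refine ⟨v * w, ?_⟩
        ext t
        simp only [Φ, map_mul, hf, Pi.add_apply]
      zero_mem' := ⟨1, by ext t; simp only [Φ, map_one, hf1, Pi.zero_apply]⟩
      neg_mem' := by
        rintro _ ⟨v, rfl⟩
        refine ⟨v⁻¹, ?_⟩
        ext t
        simp only [Φ, map_inv, hfi, Pi.neg_apply] }
  have hΦt : ∀ v (g t : Γ), Φ v (t * g) = Φ ((MulAut.conjNormal (π g) : MulAut ↥V) v) t := by
    intro v g t
    simp only [Φ]
    rw [map_mul, map_mul]
    rfl
  have hU : TInv U := by
    rintro _ ⟨v, rfl⟩ g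
    refine ⟨(MulAut.conjNormal (π g) : MulAut ↥V) v, ?_⟩
    ext t
    exact (hΦt v g t).symm
  refine ⟨U, hU, ?_, fun u => Iff.rfl⟩
  let D : Subgroup (E × Γ) :=
    { carrier := {a | a.1 * (π a.2)⁻¹ ∈ V}
      mul_mem' := by
        rintro ⟨e, g⟩ ⟨e', g'⟩ h h'
        change e * e' * (π (g * g'))⁻¹ ∈ V
        have h1 : e * e' * (π (g * g'))⁻¹ =
            (e * (π g)⁻¹) * (π g * (e' * (π g')⁻¹) * (π g)⁻¹) := by
          rw [map_mul]; group
        rw [h1]
        exact mul_mem h (hVn.conj_mem _ h' _)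
      one_mem' := by
        change (1 : E) * (π (1 : Γ))⁻¹ ∈ V
        simp
      inv_mem' := by
        rintro ⟨e, g⟩ h
        change e⁻¹ * (π (g⁻¹))⁻¹ ∈ V
        have h1 : e⁻¹ * (π (g⁻¹))⁻¹ = (π g)⁻¹ * (e * (π g)⁻¹)⁻¹ * ((π g)⁻¹)⁻¹ := by
          rw [map_inv]; group
        rw [h1]
        exact hVn.conj_mem _ (inv_mem h) _ }
  have hD : H ↥D := hH.sub _ D (hH.prod hE hΓ)
  let q : ↥D → ↥V := fun a => ⟨a.1.1 * (π a.1.2)⁻¹, a.2⟩
  have hq : ∀ a b : ↥D, q (a * b) = q a * (MulAut.conjNormal (π a.1.2) : MulAut ↥V) (q b) := by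
    intro a b
    apply Subtype.ext
    change a.1.1 * b.1.1 * (π (a.1.2 * b.1.2))⁻¹ = _
    rw [Subgroup.coe_mul, MulAut.conjNormal_apply, map_mul]
    simp only [q]
    group
  let p : ↥D →* ↥(SD U hU) :=
    { toFun := fun a => ⟨⟨0, 0, Φ (q a), a.1.2⟩, rfl, rfl, ⟨q a, rfl⟩⟩
      map_one' := by
        apply Subtype.ext
        ext t
        · rfl
        · rfl
        · change Φ (q 1) t = 0
          have h1 : q 1 = 1 := by
            apply Subtype.ext
            change (1 : E) * (π (1 : Γ))⁻¹ = 1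
            simp
          rw [h1]
          simp only [Φ, map_one, hf1]
        · rfl
      map_mul' := by
        intro a b
        apply Subtype.ext
        ext t
        · simp
        · simp
        · change Φ (q (a * b)) t = Φ (q a) t + Φ (q b) (t * a.1.2) + _
          rw [hΦt, hq]
          simp only [Φ, map_mul, hf]
          simp
        · rfl }
  refine hH.surj p ?_ hD
  rintro ⟨⟨x, y, w, g⟩, hx, hy, ⟨v, hv⟩⟩
  simp only at hx hy hv
  refine ⟨⟨((v : E) * π g, g), ?_⟩, ?_⟩
  · change (v : E) * π g * (π g)⁻¹ ∈ V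
    rw [mul_inv_cancel_right]
    exact v.2
  · apply Subtype.ext
    have h1 : q ⟨((v : E) * π g, g), by
        change (v : E) * π g * (π g)⁻¹ ∈ V
        rw [mul_inv_cancel_right]
        exact v.2⟩ = v := by
      apply Subtype.ext
      change (v : E) * π g * (π g)⁻¹ = v
      rw [mul_inv_cancel_right]
    change (⟨0, 0, Φ (q _), g⟩ : HG Γ K) = ⟨x, y, w, g⟩
    rw [h1, hx, hy, hv]

/-- scalar action -/
def Sc {Γ K : Type} [Group Γ] [Field K] (U : AddSubgroup (Γ → K)) (g : Γ) (c : K) : Prop :=
  ∀ u ∈ U, ∀ t, u (t * g) = c * u t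

theorem Sc.mulSub {Γ K : Type} [Group Γ] [Field K] {U V : AddSubgroup (Γ → K)} {g : Γ} {c d : K}
    (hU : Sc U g c) (hV : Sc V g d) : Sc (mulSub U V) g (c * d) := by
  intro u hu t
  induction hu using AddSubgroup.closure_induction with
  | mem f hf =>
    obtain ⟨u, hu, v, hv, rfl⟩ := hf
    simp only
    rw [hU u hu, hV v hv]; ring
  | zero => simp
  | add f f' _ _ h h' => simp only [Pi.add_apply]; rw [h, h']; ring
  | neg f _ h => simp only [Pi.neg_apply]; rw [h]; ring

theorem closure_pair_comm {Q : Type} [Group Q] (x z : Q) (hz : ∀ g : Q, z * g = g * z) :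
    ∀ g ∈ closure ({x, z} : Set Q), ∀ h ∈ closure ({x, z} : Set Q), g * h = h * g := by
  have h1 : ∀ g ∈ closure ({x, z} : Set Q), g * x = x * g := by
    intro g hg
    have h2 : closure ({x, z} : Set Q) ≤ centralizer {x} := by
      rw [closure_le]
      intro y hy
      rw [SetLike.mem_coe, mem_centralizer_iff]
      intro h hh
      rw [Set.mem_singleton_iff] at hh
      subst hh
      simp only [Set.mem_insert_iff, Set.mem_singleton_iff] at hy
      rcases hy with rfl | rfl
      · rfl
      · exact (hz _).symm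
    exact (mem_centralizer_iff.mp (h2 hg) x rfl).symm
  intro g hg h hh
  have h2 : closure ({x, z} : Set Q) ≤ centralizer {g} := by
    rw [closure_le]
    intro y hy
    rw [SetLike.mem_coe, mem_centralizer_iff]
    intro k hk
    rw [Set.mem_singleton_iff] at hk
    subst hk
    simp only [Set.mem_insert_iff, Set.mem_singleton_iff] at hy
    rcases hy with rfl | rfl
    · exact h1 _ hg
    · exact (hz _).symm
  exact mem_centralizer_iff.mp (h2 hh) g rfl

theorem closure_pair_pow {Q : Type} [Group Q] (x z : Q) (hz : ∀ g : Q, z * g = g * z) (r : ℕ)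
    (hx : x ^ r = 1) (hzr : z ^ r = 1) : ∀ g ∈ closure ({x, z} : Set Q), g ^ r = 1 := by
  intro g hg
  induction hg using Subgroup.closure_induction with
  | mem y hy =>
    simp only [Set.mem_insert_iff, Set.mem_singleton_iff] at hy
    rcases hy with rfl | rfl
    · exact hx
    · exact hzr
  | one => simp
  | mul a b ha hb h h' =>
    rw [(show Commute a b from closure_pair_comm x z hz a ha b hb).mul_pow, h, h', one_mul]
  | inv a _ h => rw [inv_pow, h, inv_one]

theorem closure_pair_normal {Q : Type} [Group Q] [Finite Q] (x y z : Q)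
    (hz : ∀ g : Q, z * g = g * z) (hxy : closure ({x, y} : Set Q) = ⊤)
    (hyx : y * x * y⁻¹ ∈ closure ({x, z} : Set Q)) : (closure ({x, z} : Set Q)).Normal := by
  rw [← normalizer_eq_top_iff, eq_top_iff, ← hxy, closure_le]
  intro g hg
  simp only [Set.mem_insert_iff, Set.mem_singleton_iff] at hg
  rcases hg with rfl | rfl
  · exact le_normalizer (subset_closure (by simp))
  · apply mem_normalizer_fintype
    have hle : closure ({x, z} : Set Q) ≤
        (closure ({x, z} : Set Q)).comap (MulAut.conj g).toMonoidHom := by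
      rw [closure_le]
      intro y hy
      simp only [Set.mem_insert_iff, Set.mem_singleton_iff] at hy
      rcases hy with rfl | rfl
      · exact hyx
      · change g * y * g⁻¹ ∈ closure ({x, y} : Set Q)
        rw [← hz, mul_inv_cancel_right]
        exact subset_closure (by simp)
    intro n hn
    exact hle hn

end Pool.Agent.Helper851
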