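import Mathlib
import Pool.Agent.Helper851.Final

set_option autoImplicit false

namespace Pool.Agent.Helper851

open Subgroup
open scoped commutatorElement

variable {H : (G : Type) → [Group G] → Prop}

theorem final_contra (hH : Cls H) {G Y : Type} [Group G] [Finite G] (hG : H G) (p r : ℕ)
    (hp : p.Prime) (hr : r.Prime) (hrp : r ∣ p - 1) [Group Y] [Finite Y] (hY : IsPGroup r Y)
    (π : G →* Y) (hab : ∀ u v : G, π u = 1 → π v = 1 → u * v = v * u)
    (hexp : ∀ u : G, π u = 1 → u ^ p = 1) (α β : G) (R : Subgroup G) (hR : IsPGroup r R)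
    (hαR : α ∈ R) (hβR : β ∈ R) (hgen : π.ker ⊔ closure ({α, β} : Set G) = ⊤) (ω : ℕ)
    (hω : ∀ u : G, π u = 1 → ⁅α, β⁆ * u * ⁅α, β⁆⁻¹ = u ^ ω) (hωr : ω ^ r ≡ 1 [MOD p])
    (hω1 : ¬ ω ≡ 1 [MOD p]) (hαr : ∀ u : G, π u = 1 → α ^ r * u = u * α ^ r)
    (hβr : ∀ u : G, π u = 1 → β ^ r * u = u * β ^ r) (hne : ∃ u : G, π u = 1 ∧ u ≠ 1) :
    False := by
  have : Fact p.Prime := ⟨hp⟩
  set z := ⁅α, β⁆ with hz
  have hCn : (centralizer (π.ker : Set G)).Normal := inferInstance
  set C := centralizer (π.ker : Set G) with hC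
  have hmemC : ∀ g : G, g ∈ C ↔ (∀ u, π u = 1 → g * u = u * g) := by
    intro g
    rw [hC, mem_centralizer_iff]
    exact ⟨fun h u hu => (h u hu).symm, fun h u hu => (h u hu).symm⟩
  let f := QuotientGroup.mk' C
  have hf1 : ∀ g : G, f g = 1 ↔ g ∈ C := fun g => QuotientGroup.eq_one_iff g
  have hfs : Function.Surjective f := QuotientGroup.mk'_surjective C
  have hkconj : ∀ g u : G, π u = 1 → π (g * u * g⁻¹) = 1 := by
    intro g u hu
    rw [map_mul, map_mul, hu, mul_one, ← map_mul, mul_inv_cancel, map_one]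
  have hzpow : ∀ n : ℕ, ∀ u : G, π u = 1 → z ^ n * u * (z ^ n)⁻¹ = u ^ (ω ^ n) := by
    intro n u hu
    induction n with
    | zero => simp
    | succ n ih =>
      calc z ^ (n + 1) * u * (z ^ (n + 1))⁻¹ = z * (z ^ n * u * (z ^ n)⁻¹) * z⁻¹ := by
            rw [pow_succ']; group
        _ = z * (u ^ (ω ^ n)) * z⁻¹ := by rw [ih]
        _ = (z * u * z⁻¹) ^ (ω ^ n) := by rw [conj_pow]
        _ = u ^ (ω ^ (n + 1)) := by rw [hω u hu, ← pow_mul, pow_succ']
  have hupow : ∀ u : G, π u = 1 → u ^ (ω ^ r) = u := by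
    intro u hu
    have h1 : u ^ (ω ^ r) = u ^ 1 := by
      rw [pow_eq_pow_iff_modEq]
      exact hωr.of_dvd (orderOf_dvd_of_pow_eq_one (hexp u hu))
    rwa [pow_one] at h1
  have hzr : f z ^ r = 1 := by
    rw [← map_pow, hf1, hmemC]
    intro u hu
    have h1 := hzpow r u hu
    rw [hupow u hu] at h1
    calc z ^ r * u = (z ^ r * u * (z ^ r)⁻¹) * z ^ r := by group
      _ = u * z ^ r := by rw [h1]
  have hzc : ∀ q : G ⧸ C, f z * q = q * f z := by
    intro q
    obtain ⟨g, rfl⟩ := hfs q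
    have h1 : f ⁅z, g⁆ = 1 := by
      rw [hf1, hmemC]
      intro u hu
      -- `(z g)` and `(g z)` act equally
      have key : ∀ w : G, π w = 1 → (z * g) * w * (z * g)⁻¹ = (g * z) * w * (g * z)⁻¹ := by
        intro w hw
        calc (z * g) * w * (z * g)⁻¹ = z * (g * w * g⁻¹) * z⁻¹ := by group
          _ = (g * w * g⁻¹) ^ ω := hω _ (hkconj g w hw)
          _ = g * (w ^ ω) * g⁻¹ := by rw [conj_pow]
          _ = g * (z * w * z⁻¹) * g⁻¹ := by rw [hω w hw]
          _ = (g * z) * w * (g * z)⁻¹ := by group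
      have h2 := key ((g * z)⁻¹ * u * (g * z)) (by
        have := hkconj (g * z)⁻¹ u hu
        rwa [inv_inv] at this)
      have h3 : ⁅z, g⁆ = (z * g) * (g * z)⁻¹ := by rw [commutatorElement_def]; group
      rw [h3]
      calc (z * g) * (g * z)⁻¹ * u
          = ((z * g) * ((g * z)⁻¹ * u * (g * z)) * (z * g)⁻¹) * ((z * g) * (g * z)⁻¹) := by group
        _ = ((g * z) * ((g * z)⁻¹ * u * (g * z)) * (g * z)⁻¹) * ((z * g) * (g * z)⁻¹) := by
            rw [h2]
        _ = u * ((z * g) * (g * z)⁻¹) := by group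
    rw [map_commutatorElement, commutatorElement_eq_one_iff_mul_comm] at h1
    exact h1
  have hαp : f α ^ r = 1 := by
    rw [← map_pow, hf1, hmemC]; exact hαr
  have hβp : f β ^ r = 1 := by
    rw [← map_pow, hf1, hmemC]; exact hβr
  have hkC : π.ker ≤ C := by
    intro u hu
    rw [hmemC]
    intro v hv
    exact hab u v hu hv
  have hgenQ : closure ({f α, f β} : Set (G ⧸ C)) = ⊤ := by
    have h1 : (π.ker ⊔ closure ({α, β} : Set G)).map f = ⊤ := by
      rw [hgen, ← MonoidHom.range_eq_map, MonoidHom.range_eq_top.mpr hfs]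
    rw [Subgroup.map_sup, MonoidHom.map_closure, Set.image_pair] at h1
    have h2 : π.ker.map f = ⊥ := by
      rw [eq_bot_iff]
      rintro _ ⟨u, hu, rfl⟩
      exact mem_bot.mpr ((hf1 u).mpr (hkC hu))
    rwa [h2, bot_sup_eq] at h1
  have hzf : f z = ⁅f α, f β⁆ := map_commutatorElement f α β
  -- the general supersolubility statement
  have hSS : ∀ x : G ⧸ C, x ^ r = 1 → (closure ({x, f z} : Set (G ⧸ C))).Normal →
      SS ↥((closure ({x, f z} : Set (G ⧸ C))).comap f) := by
    intro x hx hxn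
    set N := (closure ({x, f z} : Set (G ⧸ C))).comap f with hN
    have hYN : IsPGroup r ↥(N.map π) := hY.to_subgroup _
    refine SS.diag p hp _ ↥N ↥(N.map π) (π.subgroupMap N) (π.subgroupMap_surjective N) rfl
      (SS.of_isPGroup r hr _ hYN) ?_ ?_ ?_ ?_
    · intro u v hu hv
      exact Subtype.ext (hab _ _ (congrArg Subtype.val hu) (congrArg Subtype.val hv))
    · intro u hu
      exact Subtype.ext (hexp _ (congrArg Subtype.val hu))
    · intro g h u hu
      have h1 : (⁅(g : G), (h : G)⁆) ∈ C := by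
        rw [← hf1, map_commutatorElement, commutatorElement_eq_one_iff_mul_comm]
        exact closure_pair_comm x (f z) hzc _ g.2 _ h.2
      apply Subtype.ext
      exact (hmemC _).mp h1 _ (congrArg Subtype.val hu)
    · intro g u hu
      have h1 : (g : G) ^ (p - 1) ∈ C := by
        obtain ⟨t, ht⟩ := hrp
        rw [← hf1, map_pow, ht, pow_mul, closure_pair_pow x (f z) hzc r hx hzr _ g.2, one_pow]
      apply Subtype.ext
      exact (hmemC _).mp h1 _ (congrArg Subtype.val hu)
  have hn1 : (closure ({f α, f z} : Set (G ⧸ C))).Normal := by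
    apply closure_pair_normal (f α) (f β) (f z) hzc hgenQ
    have h1 : f β * f α * (f β)⁻¹ = (f z)⁻¹ * f α := by
      rw [hzf, commutatorElement_def]; group
    rw [h1]
    exact mul_mem (inv_mem (subset_closure (by simp))) (subset_closure (by simp))
  have hn2 : (closure ({f β, f z} : Set (G ⧸ C))).Normal := by
    apply closure_pair_normal (f β) (f α) (f z) hzc (by rw [Set.pair_comm]; exact hgenQ)
    have h1 : f α * f β * (f α)⁻¹ = f z * f β := by
      rw [hzf, commutatorElement_def]; group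
    rw [h1]
    exact mul_mem (subset_closure (by simp)) (subset_closure (by simp))
  have h1 := hH.rad G hG ((closure ({f α, f z} : Set (G ⧸ C))).comap f)
    ((closure ({f β, f z} : Set (G ⧸ C))).comap f) (hn1.comap f) (hn2.comap f)
    (hSS _ hαp hn1) (hSS _ hβp hn2)
  have htop : (closure ({f α, f z} : Set (G ⧸ C))).comap f ⊔
      (closure ({f β, f z} : Set (G ⧸ C))).comap f = ⊤ := by
    rw [eq_top_iff, ← hgen, sup_le_iff, closure_le]
    constructor
    · intro u hu
      apply mem_sup_left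
      rw [mem_comap, (hf1 u).mpr (hkC hu)]
      exact one_mem _
    · intro x hx
      simp only [Set.mem_insert_iff, Set.mem_singleton_iff] at hx
      rcases hx with rfl | rfl
      · exact mem_sup_left (subset_closure (by simp))
      · exact mem_sup_right (subset_closure (by simp))
  rw [htop] at h1
  have h2 : SS G := h1.map (Subgroup.topEquiv (G := G)).toMonoidHom
    (Subgroup.topEquiv (G := G)).surjective
  have h3 := H0.of_SS h2 p r hp hr hrp R hR α hαR β hβR
  obtain ⟨u, hu, hu1⟩ := hne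
  have h4 : z * u * z⁻¹ * u⁻¹ ∈ normalClosure {⁅α, β⁆} := by
    have h5 : z ∈ normalClosure {⁅α, β⁆} := subset_normalClosure (Set.mem_singleton _)
    have h6 : u * z⁻¹ * u⁻¹ ∈ normalClosure {⁅α, β⁆} :=
      normalClosure_normal.conj_mem _ (inv_mem h5) u
    have h7 := mul_mem h5 h6
    have h8 : z * (u * z⁻¹ * u⁻¹) = z * u * z⁻¹ * u⁻¹ := by group
    rwa [h8] at h7
  have h5 : π (z * u * z⁻¹ * u⁻¹) = 1 := by
    rw [map_mul, hkconj z u hu, map_inv, hu, inv_one, one_mul]
  have h6 := h3 _ h4 (hexp _ h5)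
  rw [hω u hu] at h6
  have h7 : u ^ ω = u ^ 1 := by
    rw [pow_one]
    exact mul_inv_eq_one.mp h6
  rw [pow_eq_pow_iff_modEq, orderOf_eq_prime (hexp u hu) hu1] at h7
  exact hω1 h7

theorem isPGroup_triple {E : Type} [Group E] (r : ℕ) (R : Subgroup E) (hR : IsPGroup r R)
    (D : Subgroup (E × E × E)) (hD : D ≤ R.prod (R.prod R)) : IsPGroup r D := by
  rintro ⟨⟨x, y, w⟩, hx⟩
  obtain ⟨hx1, hx2, hx3⟩ := hD hx
  obtain ⟨i, hi⟩ := hR ⟨x, hx1⟩
  obtain ⟨j, hj⟩ := hR ⟨y, hx2⟩
  obtain ⟨k, hk⟩ := hR ⟨w, hx3⟩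
  have hi' : x ^ r ^ i = 1 := congrArg Subtype.val hi
  have hj' : y ^ r ^ j = 1 := congrArg Subtype.val hj
  have hk' : w ^ r ^ k = 1 := congrArg Subtype.val hk
  refine ⟨i + j + k, ?_⟩
  apply Subtype.ext
  rw [Subgroup.coe_pow]
  change (x ^ _, y ^ _, w ^ _) = (1 : E × E × E)
  have e1 : x ^ r ^ (i + j + k) = 1 := by
    rw [add_assoc, pow_add, pow_mul, hi', one_pow]
  have e2 : y ^ r ^ (i + j + k) = 1 := by
    rw [show i + j + k = j + (i + k) by ring, pow_add, pow_mul, hj', one_pow]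
  have e3 : w ^ r ^ (i + j + k) = 1 := by
    rw [show i + j + k = k + (i + j) by ring, pow_add, pow_mul, hk', one_pow]
  rw [e1, e2, e3]
  rfl

end Pool.Agent.Helper851
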