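import Mathlib
import Pool.Agent.Helper851.Fin2

set_option autoImplicit false

namespace Pool.Agent.Helper851

open Subgroup
open scoped commutatorElement

variable {H : (G : Type) → [Group G] → Prop}

theorem comm_left_pow {Q : Type} [Group Q] (a b : Q) (ha : Commute ⁅a, b⁆ a) (j : ℕ) :
    a ^ j * b = ⁅a, b⁆ ^ j * (b * a ^ j) := by
  set z := ⁅a, b⁆ with hz
  have hab : a * b = z * (b * a) := by rw [hz, commutatorElement_def]; group
  induction j with
  | zero => simp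
  | succ j ih =>
    have hcj : a * z ^ j = z ^ j * a := (ha.symm.pow_right j)
    calc a ^ (j + 1) * b = a * (a ^ j * b) := by rw [pow_succ', mul_assoc]
      _ = a * (z ^ j * (b * a ^ j)) := by rw [ih]
      _ = (a * z ^ j) * (b * a ^ j) := by rw [mul_assoc]
      _ = z ^ j * (a * b) * a ^ j := by rw [hcj]; group
      _ = z ^ j * (z * (b * a)) * a ^ j := by rw [hab]
      _ = z ^ (j + 1) * (b * a ^ (j + 1)) := by rw [pow_succ, pow_succ']; group

theorem commute_pow_of_comm {Q : Type} [Group Q] (a b : Q) (ha : Commute ⁅a, b⁆ a) (r : ℕ)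
    (hr : ⁅a, b⁆ ^ r = 1) : Commute (a ^ r) b := by
  have h := comm_left_pow a b ha r
  rw [hr, one_mul] at h
  exact h

/-- elements of `U ⋊ Γ` -/
def mkSD {Γ K : Type} [Group Γ] [Field K] (U : AddSubgroup (Γ → K)) (hU : TInv U) (w : Γ → K)
    (hw : w ∈ U) (g : Γ) : ↥(SD U hU) := ⟨⟨0, 0, w, g⟩, rfl, rfl, hw⟩

/-- the section -/
def secSD {Γ K : Type} [Group Γ] [Field K] (U : AddSubgroup (Γ → K)) (hU : TInv U) :
    Γ →* ↥(SD U hU) where
  toFun g := mkSD U hU 0 (AddSubgroup.zero_mem _) g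
  map_one' := rfl
  map_mul' g h := by
    apply Subtype.ext
    ext t <;> simp [mkSD]

/-- the projection -/
def projSD {Γ K : Type} [Group Γ] [Field K] (U : AddSubgroup (Γ → K)) (hU : TInv U) :
    ↥(SD U hU) →* Γ where
  toFun a := a.1.g
  map_one' := rfl
  map_mul' _ _ := rfl

theorem SD_ext {Γ K : Type} [Group Γ] [Field K] {U : AddSubgroup (Γ → K)} {hU : TInv U}
    (a b : ↥(SD U hU)) (hw : ∀ t, a.1.w t = b.1.w t) (hg : a.1.g = b.1.g) : a = b := by
  apply Subtype.ext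
  apply HG.ext
  · rw [a.2.1, b.2.1]
  · rw [a.2.2.1, b.2.2.1]
  · exact funext hw
  · exact hg

theorem SD_mul_w {Γ K : Type} [Group Γ] [Field K] {U : AddSubgroup (Γ → K)} {hU : TInv U}
    (a b : ↥(SD U hU)) (t : Γ) : (a * b).1.w t = a.1.w t + b.1.w (t * a.1.g) := by
  change (a.1 * b.1).w t = _
  rw [HG.mul_w, a.2.1]
  simp

theorem SD_pow {Γ K : Type} [Group Γ] [Field K] {U : AddSubgroup (Γ → K)} {hU : TInv U}
    (a : ↥(SD U hU)) (ha : a.1.g = 1) (n : ℕ) :
    (a ^ n).1.g = 1 ∧ ∀ t, (a ^ n).1.w t = n * a.1.w t := by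
  induction n with
  | zero => exact ⟨rfl, fun t => by simp⟩
  | succ n ih =>
    refine ⟨?_, fun t => ?_⟩
    · rw [pow_succ]
      change (a ^ n).1.g * a.1.g = 1
      rw [ih.1, ha, one_mul]
    · rw [pow_succ, SD_mul_w, ih.1, mul_one, ih.2]
      push_cast; ring

theorem contra (hH : Cls H) {E : Type} [Group E] [Finite E] (hE : H E) (p r : ℕ)
    (hp : p.Prime) (hr : r.Prime) (hrp : r ∣ p - 1) (V R : Subgroup E) [hVn : V.Normal]
    (hVne : V ≠ ⊥) (hab : ∀ u ∈ V, ∀ v ∈ V, u * v = v * u) (hexp : ∀ u ∈ V, u ^ p = 1)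
    (hR : IsPGroup r R) (a b : E) (ha : a ∈ R) (hb : b ∈ R) (ω : ℕ)
    (hω : ∀ v ∈ V, ⁅a, b⁆ * v * ⁅a, b⁆⁻¹ = v ^ ω) (hωr : ω ^ r ≡ 1 [MOD p])
    (hω1 : ¬ ω ≡ 1 [MOD p]) : False := by
  have : Fact p.Prime := ⟨hp⟩
  let ρ : E →* MulAut ↥V := MulAut.conjNormal
  have hρz : ∀ v : ↥V, ρ ⁅a, b⁆ v = v ^ ω := by
    intro v
    apply Subtype.ext
    rw [MulAut.conjNormal_apply, Subgroup.coe_pow]
    exact hω v v.2
  have hρzc : ∀ g : E, Commute (ρ ⁅a, b⁆) (ρ g) := by
    intro g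
    apply MulEquiv.ext
    intro v
    rw [MulAut.mul_apply, MulAut.mul_apply, hρz, hρz, map_pow]
  have hρzr : (ρ ⁅a, b⁆) ^ r = 1 := by
    have h1 : ∀ (n : ℕ) (v : ↥V), ((ρ ⁅a, b⁆) ^ n) v = v ^ (ω ^ n) := by
      intro n
      induction n with
      | zero => intro v; simp
      | succ n ih =>
        intro v
        rw [pow_succ, MulAut.mul_apply, hρz, ih, ← pow_mul, pow_succ, mul_comm]
    apply MulEquiv.ext
    intro v
    rw [h1, MulAut.one_apply]
    have h2 : v ^ (ω ^ r) = v ^ 1 := by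
      rw [pow_eq_pow_iff_modEq]
      exact hωr.of_dvd (orderOf_dvd_of_pow_eq_one (Subtype.ext (hexp v v.2)))
    rwa [pow_one] at h2
  have hcz : ρ ⁅a, b⁆ = ⁅ρ a, ρ b⁆ := map_commutatorElement ρ a b
  have hAB : Commute (ρ (a ^ r)) (ρ b) := by
    rw [map_pow]
    apply commute_pow_of_comm
    · rw [← hcz]; exact hρzc a
    · rw [← hcz]; exact hρzr
  have hBA : Commute (ρ (b ^ r)) (ρ a) := by
    rw [map_pow]
    have h1 : ⁅ρ b, ρ a⁆ = (⁅ρ a, ρ b⁆)⁻¹ := (commutatorElement_inv _ _).symm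
    apply commute_pow_of_comm
    · rw [h1, ← hcz]; exact (hρzc b).inv_left
    · rw [h1, ← hcz, inv_pow, hρzr, inv_one]
  -- commuting with the whole of `closure {a, b}`
  have hS0 : ∀ e : E, Commute (ρ e) (ρ a) → Commute (ρ e) (ρ b) →
      ∀ s ∈ closure ({a, b} : Set E), Commute (ρ e) (ρ s) := by
    intro e hea heb s hs
    induction hs using Subgroup.closure_induction with
    | mem y hy =>
      simp only [Set.mem_insert_iff, Set.mem_singleton_iff] at hy
      rcases hy with rfl | rfl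
      · exact hea
      · exact heb
    | one => rw [map_one]; exact Commute.one_right _
    | mul x y _ _ hx hy => rw [map_mul]; exact hx.mul_right hy
    | inv x _ hx => rw [map_inv]; exact hx.inv_right
  have hcA := hS0 (a ^ r) (by rw [map_pow]; exact (Commute.refl _).pow_left r) hAB
  have hcB := hS0 (b ^ r) hBA (by rw [map_pow]; exact (Commute.refl _).pow_left r)
  have hcZ := hS0 ⁅a, b⁆ (hρzc a) (hρzc b)
  obtain ⟨K, _, hKf, f, x, y, ⟨v0, hv0⟩, hf, hfx, hfy⟩ :=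
    exists_functional_grp V hVne hab (a ^ r) (b ^ r) (by
      intro v hv
      have h1 : ρ (a ^ r) * ρ (b ^ r) = ρ (b ^ r) * ρ (a ^ r) := by
        rw [map_pow ρ b r]
        exact hAB.pow_right r
      rw [← map_mul, ← map_mul] at h1
      have h2 := congrArg (fun φ : MulAut ↥V => ((φ ⟨v, hv⟩ : ↥V) : E)) h1
      simp only [ρ, MulAut.conjNormal_apply] at h2
      exact h2)
  have hfx' : ∀ v, f (ρ (a ^ r) v) = x * f v := hfx
  have hfy' : ∀ v, f (ρ (b ^ r) v) = y * f v := hfy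
  have hf1 : f 1 = 0 := by
    have := hf 1 1
    rw [one_mul] at this
    simpa using this
  have hfn : ∀ (n : ℕ) (v : ↥V), f (v ^ n) = n * f v := by
    intro n v
    induction n with
    | zero => simp [hf1]
    | succ n ih => rw [pow_succ, hf, ih]; push_cast; ring
  have hpK : (p : K) = 0 := by
    have h1 := hfn p v0
    have h2 : v0 ^ p = 1 := Subtype.ext (hexp v0 v0.2)
    rw [h2, hf1] at h1
    rcases mul_eq_zero.mp h1.symm with h | h
    · exact h
    · exact absurd h hv0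
  have hx0 : x ≠ 0 := by
    rintro rfl
    have h1 := hfx' ((ρ (a ^ r))⁻¹ v0)
    rw [← MulAut.mul_apply, mul_inv_cancel, MulAut.one_apply, zero_mul] at h1
    exact hv0 h1
  have hy0 : y ≠ 0 := by
    rintro rfl
    have h1 := hfy' ((ρ (b ^ r))⁻¹ v0)
    rw [← MulAut.mul_apply, mul_inv_cancel, MulAut.one_apply, zero_mul] at h1
    exact hv0 h1
  -- the group `Γ`
  let α : E × E × E := (a, a⁻¹, 1)
  let β : E × E × E := (b, 1, b⁻¹)
  let Γ : Subgroup (E × E × E) := closure {α, β}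
  have hαΓ : α ∈ Γ := Subgroup.subset_closure (by simp)
  have hβΓ : β ∈ Γ := Subgroup.subset_closure (by simp)
  have hΓle : ∀ (S : Subgroup E), a ∈ S → b ∈ S → Γ ≤ S.prod (S.prod S) := by
    intro S haS hbS
    rw [closure_le]
    intro t ht
    simp only [Set.mem_insert_iff, Set.mem_singleton_iff] at ht
    rcases ht with rfl | rfl
    · exact ⟨haS, S.inv_mem haS, S.one_mem⟩
    · exact ⟨hbS, S.one_mem, S.inv_mem hbS⟩
  have hΓr : IsPGroup r Γ := isPGroup_triple r R hR Γ (hΓle R ha hb)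
  have hHΓ : H ↥Γ := hH.ss _ (SS.of_isPGroup r hr _ hΓr)
  have hΓS := hΓle (closure {a, b}) (Subgroup.subset_closure (by simp))
    (Subgroup.subset_closure (by simp))
  let α' : ↥Γ := ⟨α, hαΓ⟩
  let β' : ↥Γ := ⟨β, hβΓ⟩
  let π1 : ↥Γ →* E := (MonoidHom.fst E (E × E)).comp Γ.subtype
  let π2 : ↥Γ →* E := ((MonoidHom.fst E E).comp (MonoidHom.snd E (E × E))).comp Γ.subtype
  let π3 : ↥Γ →* E := ((MonoidHom.snd E E).comp (MonoidHom.snd E (E × E))).comp Γ.subtype
  have hπ1 : ∀ t, π1 t ∈ closure ({a, b} : Set E) := fun t => (hΓS t.2).1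
  have hπ2 : ∀ t, π2 t ∈ closure ({a, b} : Set E) := fun t => (hΓS t.2).2.1
  have hπ3 : ∀ t, π3 t ∈ closure ({a, b} : Set E) := fun t => (hΓS t.2).2.2
  obtain ⟨U1, hU1, hHU1, hU1m⟩ := base hH (K := K) hE hHΓ V f hf π1
  obtain ⟨U2, hU2, hHU2, hU2m⟩ := base hH (K := K) hE hHΓ V f hf π2
  obtain ⟨U3, hU3, hHU3, hU3m⟩ := base hH (K := K) hE hHΓ V f hf π3
  have hSc : ∀ (U : AddSubgroup (↥Γ → K)) (π : ↥Γ →* E)
      (_ : ∀ u, u ∈ U ↔ ∃ v, (fun t => f ((MulAut.conjNormal (π t) : MulAut ↥V) v)) = u)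
      (_ : ∀ t, π t ∈ closure ({a, b} : Set E)) (g : ↥Γ) (e : E) (_ : π g = e) (c : K)
      (_ : ∀ v, f (ρ e v) = c * f v)
      (_ : ∀ s ∈ closure ({a, b} : Set E), Commute (ρ e) (ρ s)), Sc U g c := by
    intro U π hU hπ g e hge c hc hcs u hu t
    obtain ⟨v, rfl⟩ := (hU u).mp hu
    have h1 : ρ (π (t * g)) v = ρ e (ρ (π t) v) := by
      rw [map_mul, map_mul, hge, ← (hcs _ (hπ t)).eq]; rfl
    change f (ρ (π (t * g)) v) = c * f (ρ (π t) v)
    rw [h1, hc]
  have hone : ∀ v, f (ρ 1 v) = 1 * f v := by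
    intro v; rw [map_one, MulAut.one_apply, one_mul]
  have honec : ∀ s ∈ closure ({a, b} : Set E), Commute (ρ (1 : E)) (ρ s) := by
    intro s _; rw [map_one]; exact Commute.one_left _
  have hinvx : ∀ v, f (ρ ((a ^ r)⁻¹) v) = x⁻¹ * f v := by
    intro v
    have h1 := hfx' (ρ ((a ^ r)⁻¹) v)
    rw [← MulAut.mul_apply, ← map_mul, mul_inv_cancel, map_one, MulAut.one_apply] at h1
    rw [h1, inv_mul_cancel_left₀ hx0]
  have hinvy : ∀ v, f (ρ ((b ^ r)⁻¹) v) = y⁻¹ * f v := by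
    intro v
    have h1 := hfy' (ρ ((b ^ r)⁻¹) v)
    rw [← MulAut.mul_apply, ← map_mul, mul_inv_cancel, map_one, MulAut.one_apply] at h1
    rw [h1, inv_mul_cancel_left₀ hy0]
  have hcAi : ∀ s ∈ closure ({a, b} : Set E), Commute (ρ ((a ^ r)⁻¹)) (ρ s) := by
    intro s hs; rw [map_inv]; exact (hcA s hs).inv_left
  have hcBi : ∀ s ∈ closure ({a, b} : Set E), Commute (ρ ((b ^ r)⁻¹)) (ρ s) := by
    intro s hs; rw [map_inv]; exact (hcB s hs).inv_left
  have hfz : ∀ v, f (ρ ⁅a, b⁆ v) = (ω : K) * f v := by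
    intro v; rw [hρz, hfn]
  -- scalar actions on `W`
  have hScα : Sc (mulSub (mulSub U1 U2) U3) (α' ^ r) (x * x⁻¹ * 1) := by
    refine Sc.mulSub (Sc.mulSub ?_ ?_) ?_
    · exact hSc U1 π1 hU1m hπ1 (α' ^ r) (a ^ r) (by rw [map_pow]; rfl) x hfx' hcA
    · exact hSc U2 π2 hU2m hπ2 (α' ^ r) ((a ^ r)⁻¹) (by rw [map_pow, ← inv_pow]; rfl) x⁻¹
        hinvx hcAi
    · exact hSc U3 π3 hU3m hπ3 (α' ^ r) 1 (by
        rw [map_pow]
        change (1 : E) ^ r = 1
        exact one_pow r) 1 hone honec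
  have hScβ : Sc (mulSub (mulSub U1 U2) U3) (β' ^ r) (y * 1 * y⁻¹) := by
    refine Sc.mulSub (Sc.mulSub ?_ ?_) ?_
    · exact hSc U1 π1 hU1m hπ1 (β' ^ r) (b ^ r) (by rw [map_pow]; rfl) y hfy' hcB
    · exact hSc U2 π2 hU2m hπ2 (β' ^ r) 1 (by
        rw [map_pow]
        change (1 : E) ^ r = 1
        exact one_pow r) 1 hone honec
    · exact hSc U3 π3 hU3m hπ3 (β' ^ r) ((b ^ r)⁻¹) (by rw [map_pow, ← inv_pow]; rfl) y⁻¹
        hinvy hcBi
  have hScz : Sc (mulSub (mulSub U1 U2) U3) ⁅α', β'⁆ ((ω : K) * 1 * 1) := by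
    refine Sc.mulSub (Sc.mulSub ?_ ?_) ?_
    · exact hSc U1 π1 hU1m hπ1 ⁅α', β'⁆ ⁅a, b⁆ (by rw [map_commutatorElement]; rfl) ω hfz hcZ
    · exact hSc U2 π2 hU2m hπ2 ⁅α', β'⁆ 1 (by
        rw [map_commutatorElement]
        change ⁅a⁻¹, (1 : E)⁆ = 1
        exact commutatorElement_one_right _) 1 hone honec
    · exact hSc U3 π3 hU3m hπ3 ⁅α', β'⁆ 1 (by
        rw [map_commutatorElement]
        change ⁅(1 : E), b⁻¹⁆ = 1
        exact commutatorElement_one_left _) 1 hone honec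
  rw [mul_inv_cancel₀ hx0, one_mul] at hScα
  rw [mul_one, mul_inv_cancel₀ hy0] at hScβ
  rw [mul_one, mul_one] at hScz
  -- the group
  set W := mulSub (mulSub U1 U2) U3 with hWdef
  have hW : TInv W := mulSub_inv (mulSub_inv hU1 hU2) hU3
  have hHG : H ↥(SD W hW) :=
    heis hH (mulSub U1 U2) U3 (mulSub_inv hU1 hU2) hU3 (heis hH U1 U2 hU1 hU2 hHU1 hHU2) hHU3
  have hker : ∀ u : ↥(SD W hW), projSD W hW u = 1 → u.1.g = 1 := fun u hu => hu
  have hsw : ∀ (g t : ↥Γ), (secSD W hW g).1.w t = 0 := fun g t => rfl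
  have hsg : ∀ (g : ↥Γ), (secSD W hW g).1.g = g := fun g => rfl
  have hscal : ∀ (g : ↥Γ) (c : ℕ), Sc W g (c : K) → ∀ u : ↥(SD W hW), projSD W hW u = 1 →
      secSD W hW g * u = u ^ c * secSD W hW g := by
    intro g c hc u hu
    have hug := hker u hu
    obtain ⟨h1, h2⟩ := SD_pow u hug c
    apply SD_ext
    · intro t
      rw [SD_mul_w, SD_mul_w, hsw, hsw, hsg, h2, hc _ u.2.2.2]
      simp
    · change g * u.1.g = (u ^ c).1.g * g
      rw [hug, h1, mul_one, one_mul]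
  refine final_contra hH (G := ↥(SD W hW)) (Y := ↥Γ) hHG p r hp hr hrp hΓr (projSD W hW)
    ?_ ?_ (secSD W hW α') (secSD W hW β') (secSD W hW).range ?_ ⟨α', rfl⟩ ⟨β', rfl⟩ ?_ ω
    ?_ hωr hω1 ?_ ?_ ?_
  · -- abelian
    intro u v hu hv
    apply SD_ext
    · intro t
      rw [SD_mul_w, SD_mul_w, hker u hu, hker v hv, mul_one, add_comm]
    · change u.1.g * v.1.g = v.1.g * u.1.g
      rw [hker u hu, hker v hv]
  · -- exponent
    intro u hu
    obtain ⟨h1, h2⟩ := SD_pow u (hker u hu) p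
    apply SD_ext
    · intro t
      rw [h2, hpK, zero_mul]; rfl
    · exact h1
  · -- r-group
    exact hΓr.of_surjective (secSD W hW).rangeRestrict (secSD W hW).rangeRestrict_surjective
  · -- generation
    rw [eq_top_iff]
    intro u _
    have h1 : u = u * (secSD W hW u.1.g)⁻¹ * secSD W hW u.1.g := by group
    rw [h1]
    refine mul_mem (mem_sup_left ?_) (mem_sup_right ?_)
    · rw [MonoidHom.mem_ker, map_mul, map_inv]
      change u.1.g * (u.1.g)⁻¹ = 1
      exact mul_inv_cancel _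
    · have h2 : (⊤ : Subgroup ↥Γ) = closure ({α', β'} : Set ↥Γ) := by
        have h3 := Subgroup.closure_closure_coe_preimage (k := ({α, β} : Set (E × E × E)))
        have h4 : (((↑) : ↥Γ → E × E × E) ⁻¹' {α, β}) = ({α', β'} : Set ↥Γ) := by
          ext t
          simp only [Set.mem_preimage, Set.mem_insert_iff, Set.mem_singleton_iff]
          constructor
          · rintro (h | h)
            · exact Or.inl (Subtype.ext h)
            · exact Or.inr (Subtype.ext h)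
          · rintro (h | h)
            · exact Or.inl (congrArg Subtype.val h)
            · exact Or.inr (congrArg Subtype.val h)
        rw [← h4]
        exact h3.symm
      have h5 : secSD W hW u.1.g ∈ (⊤ : Subgroup ↥Γ).map (secSD W hW) :=
        mem_map_of_mem _ (mem_top _)
      rw [h2, MonoidHom.map_closure, Set.image_pair] at h5
      exact h5
  · -- ω
    intro u hu
    rw [← map_commutatorElement, hscal _ ω hScz u hu, mul_inv_cancel_right]
  · intro u hu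
    rw [← map_pow]
    have h1 := hscal (α' ^ r) 1 (by rw [Nat.cast_one]; exact hScα) u hu
    rw [pow_one] at h1
    exact h1
  · intro u hu
    rw [← map_pow]
    have h1 := hscal (β' ^ r) 1 (by rw [Nat.cast_one]; exact hScβ) u hu
    rw [pow_one] at h1
    exact h1
  · -- nontrivial
    have hm : ∀ (U : AddSubgroup (↥Γ → K)) (π : ↥Γ →* E)
        (_ : ∀ u, u ∈ U ↔ ∃ v, (fun t => f ((MulAut.conjNormal (π t) : MulAut ↥V) v)) = u),
        ∃ u ∈ U, u 1 = f v0 := by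
      intro U π hU
      refine ⟨_, (hU _).mpr ⟨v0, rfl⟩, ?_⟩
      change f (ρ (π 1) v0) = f v0
      rw [map_one, map_one, MulAut.one_apply]
    obtain ⟨u1, hu1, hu1'⟩ := hm U1 π1 hU1m
    obtain ⟨u2, hu2, hu2'⟩ := hm U2 π2 hU2m
    obtain ⟨u3, hu3, hu3'⟩ := hm U3 π3 hU3m
    refine ⟨mkSD W hW _ (mulSub_mem (mulSub_mem hu1 hu2) hu3) 1, rfl, ?_⟩
    intro h
    have h1 := congrArg (fun s : ↥(SD W hW) => s.1.w 1) h
    have h2 : u1 1 * u2 1 * u3 1 = 0 := h1
    rw [hu1', hu2', hu3'] at h2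
    simp [hv0] at h2

theorem maximality (hH : Cls H) {G : Type} [Group G] [Finite G] (hG : H G) : H0 G := by
  by_contra hbad
  obtain ⟨p, r, hp, hr, hrp, E, _, _, hE, V, S, hVn, hab, hexp, hS, a, ha, b, hb, hne⟩ :=
    exists_bad hH hG hbad
  obtain ⟨E', _, _, hE', V', R, hV'n, hV'ne, hab', hexp', hR, a', ha', b', hb', ω, hω, hωr, hω1⟩ :=
    exists_core hH hE p r hp hr hrp V S hab hexp hS a b ha hb hne
  exact contra hH hE' p r hp hr hrp V' R hV'ne hab' hexp' hR a' b' ha' hb' ω hω hωr hω1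

theorem cls_H0 : Cls (fun G _ => H0 G) where
  iso := by
    rintro G G' _ _ _ ⟨e⟩ h
    exact H0.of_injective e.symm.toMonoidHom e.symm.injective h
  quot := by
    intro G _ _ N _ h
    exact h.map (QuotientGroup.mk' N) (QuotientGroup.mk'_surjective N)
  sdir := by
    intro G _ _ N₁ N₂ _ _ hN h1 h2
    exact H0.of_inf N₁ N₂ hN h1 h2
  sub := by
    intro G _ _ K h
    exact H0.of_injective K.subtype K.subtype_injective h
  sat := by
    intro G _ _ h
    exact H0.saturated _ G rfl h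
  ss := by
    intro G _ _ h
    exact H0.of_SS h
  rad := by
    intro G _ _ h A B hA hB hAs hBs
    have hX : H0 ↥(A ⊔ B) := H0.of_injective (A ⊔ B).subtype (A ⊔ B).subtype_injective h
    refine H0.radical _ ↥(A ⊔ B) rfl hX (A.subgroupOf (A ⊔ B)) (B.subgroupOf (A ⊔ B))
      inferInstance inferInstance ?_ ?_ ?_
    · exact hAs.map (Subgroup.subgroupOfEquivOfLe (le_sup_left : A ≤ A ⊔ B)).symm.toMonoidHom
        (Subgroup.subgroupOfEquivOfLe (le_sup_left : A ≤ A ⊔ B)).symm.surjective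
    · exact hBs.map (Subgroup.subgroupOfEquivOfLe (le_sup_right : B ≤ A ⊔ B)).symm.toMonoidHom
        (Subgroup.subgroupOfEquivOfLe (le_sup_right : B ≤ A ⊔ B)).symm.surjective
    · rw [eq_top_iff]
      rintro ⟨x, hx⟩ _
      obtain ⟨a, ha, b, hb, rfl⟩ := mem_sup_of_normal_right.mp hx
      exact mul_mem (S := Subgroup ↥(A ⊔ B))
        (mem_sup_left (show (⟨a, mem_sup_left ha⟩ : ↥(A ⊔ B)) ∈ A.subgroupOf (A ⊔ B) from ha))
        (mem_sup_right (show (⟨b, mem_sup_right hb⟩ : ↥(A ⊔ B)) ∈ B.subgroupOf (A ⊔ B) from hb))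

end Pool.Agent.Helper851
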