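import Mathlib

set_option autoImplicit false

/-! Coprime action and lifting tools. -/

namespace Pool.Agent.Helper851.R

open Subgroup
open scoped commutatorElement

/-- The Frattini-like subgroup: generated by commutators and `n`-th powers. -/
def Phi {G : Type} [Group G] (n : ℕ) (R : Subgroup G) : Subgroup G :=
  closure ({x | ∃ a ∈ R, ∃ b ∈ R, ⁅a, b⁆ = x} ∪ {x | ∃ a ∈ R, a ^ n = x})

variable {G : Type} [Group G]

theorem Phi_le (n : ℕ) (R : Subgroup G) : Phi n R ≤ R := by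
  rw [Phi, closure_le]
  rintro x (⟨a, ha, b, hb, rfl⟩ | ⟨a, ha, rfl⟩)
  · exact R.commutator_le_self (commutator_mem_commutator ha hb)
  · exact pow_mem ha n

theorem comm_mem_Phi {n : ℕ} {R : Subgroup G} {a b : G} (ha : a ∈ R) (hb : b ∈ R) :
    ⁅a, b⁆ ∈ Phi n R := subset_closure (Or.inl ⟨a, ha, b, hb, rfl⟩)

theorem pow_mem_Phi {n : ℕ} {R : Subgroup G} {a : G} (ha : a ∈ R) :
    a ^ n ∈ Phi n R := subset_closure (Or.inr ⟨a, ha, rfl⟩)

theorem commutator_le_Phi (n : ℕ) (R : Subgroup G) : ⁅R, R⁆ ≤ Phi n R := by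
  rw [commutator_le]
  intro a ha b hb
  exact comm_mem_Phi ha hb

theorem Phi_mono {n : ℕ} {R S : Subgroup G} (h : R ≤ S) : Phi n R ≤ Phi n S := by
  apply Subgroup.closure_mono
  rintro x (⟨a, ha, b, hb, rfl⟩ | ⟨a, ha, rfl⟩)
  · exact Or.inl ⟨a, h ha, b, h hb, rfl⟩
  · exact Or.inr ⟨a, h ha, rfl⟩

theorem Phi_map {H : Type} [Group H] (f : G →* H) (n : ℕ) (R : Subgroup G) :
    (Phi n R).map f = Phi n (R.map f) := by
  rw [Phi, Phi, MonoidHom.map_closure]
  congr 1
  ext x
  constructor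
  · rintro ⟨y, (⟨a, ha, b, hb, rfl⟩ | ⟨a, ha, rfl⟩), rfl⟩
    · exact Or.inl ⟨f a, mem_map_of_mem f ha, f b, mem_map_of_mem f hb,
        (map_commutatorElement f a b).symm⟩
    · exact Or.inr ⟨f a, mem_map_of_mem f ha, (map_pow f a n).symm⟩
  · rintro (⟨_, ⟨a, ha, rfl⟩, _, ⟨b, hb, rfl⟩, rfl⟩ | ⟨_, ⟨a, ha, rfl⟩, rfl⟩)
    · exact ⟨⁅a, b⁆, Or.inl ⟨a, ha, b, hb, rfl⟩, map_commutatorElement f a b⟩
    · exact ⟨a ^ n, Or.inr ⟨a, ha, rfl⟩, map_pow f a n⟩

theorem normalizer_le_normalizer_Phi (n : ℕ) (R : Subgroup G) :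
    normalizer (R : Set G) ≤ normalizer (Phi n R : Set G) := by
  intro g hg
  rw [mem_normalizer_iff_map_conj_eq] at hg ⊢
  have h := Phi_map (MulAut.conj g).toMonoidHom n R
  have h2 : R.map (MulAut.conj g).toMonoidHom = R := hg
  rw [h2] at h
  exact h

theorem zpowers_le_normalizer {y : G} {S : Set G} (h : y ∈ normalizer S) :
    zpowers y ≤ normalizer S := by rwa [zpowers_le]

theorem normalizer_commutator_le (A B : Subgroup G) :
    normalizer (A : Set G) ⊓ normalizer (B : Set G) ≤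
      normalizer ((⁅A, B⁆ : Subgroup G) : Set G) := by
  intro g hg
  have hA : g ∈ normalizer (A : Set G) := hg.1
  have hB : g ∈ normalizer (B : Set G) := hg.2
  rw [mem_normalizer_iff_map_conj_eq] at hA hB
  rw [mem_normalizer_iff_map_conj_eq]
  have h := Subgroup.map_commutator A B (MulAut.conj g).toMonoidHom
  have hA' : A.map (MulAut.conj g).toMonoidHom = A := hA
  have hB' : B.map (MulAut.conj g).toMonoidHom = B := hB
  rw [hA', hB'] at h
  exact h

theorem normalizer_centralizer_le (A : Subgroup G) :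
    normalizer (A : Set G) ≤ normalizer (centralizer (A : Set G) : Set G) := by
  rw [le_normalizer_iff]
  intro g hg c hc
  rw [mem_centralizer_iff] at hc ⊢
  intro a ha
  have hg' : g⁻¹ ∈ normalizer (A : Set G) := inv_mem hg
  have h1 : g⁻¹ * a * g⁻¹⁻¹ ∈ A := (mem_normalizer_iff.mp hg' a).mp ha
  have h2 := hc _ h1
  rw [inv_inv] at h2
  calc a * (g * c * g⁻¹) = g * ((g⁻¹ * a * g) * c) * g⁻¹ := by group
    _ = g * (c * (g⁻¹ * a * g)) * g⁻¹ := by rw [h2]
    _ = g * c * g⁻¹ * a := by group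

theorem not_dvd_card_of_isPGroup {p q : ℕ} (hp : p.Prime) (hq : q.Prime) (hne : p ≠ q)
    {P : Subgroup G} [Finite P] (hP : IsPGroup p P) : ¬ q ∣ Nat.card P := by
  have : Fact p.Prime := ⟨hp⟩
  obtain ⟨n, hn⟩ := IsPGroup.iff_card.mp hP
  rw [hn]
  intro h
  have := hq.dvd_of_dvd_pow h
  exact hne ((Nat.prime_dvd_prime_iff_eq hq hp).mp this).symm

/-- Coprime action: `P = [P, Q] C_P(Q)`. -/
theorem exists_cent [Finite G] {q : ℕ} (hq : q.Prime) {P Q : Subgroup G} (hQ : IsPGroup q Q)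
    (hP : ¬ q ∣ Nat.card P) (hn : Q ≤ normalizer (P : Set G)) {a : G} (ha : a ∈ P) :
    ∃ c ∈ P, c ∈ centralizer (Q : Set G) ∧ ∃ n ∈ ⁅P, Q⁆, a = n * c := by
  have : Fact q.Prime := ⟨hq⟩
  set N := ⁅P, Q⁆ with hN
  have hNP : N ≤ P := le_normalizer_iff_commutator_le_left.mp hn
  have hNQ : Q ≤ normalizer (N : Set G) := normalizer_commutator_ge_right P Q
  have hNP' : P ≤ normalizer (N : Set G) := normalizer_commutator_ge_left P Q
  -- the set `N a`
  let S : Type := {x : G // x * a⁻¹ ∈ N}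
  let act : MulAction ↥Q S :=
    { smul := fun g x => ⟨g.1 * x.1 * g.1⁻¹, by
        have hx := x.2
        have hxP : x.1 ∈ P := by
          have := mul_mem (hNP hx) ha
          simpa using this
        have h1 : ⁅g.1, x.1⁆ ∈ N := by
          have h2 : ⁅x.1, g.1⁆ ∈ N := commutator_mem_commutator hxP g.2
          rw [← commutatorElement_inv]
          exact inv_mem h2
        have h3 : g.1 * x.1 * g.1⁻¹ * a⁻¹ = ⁅g.1, x.1⁆ * (x.1 * a⁻¹) := by
          rw [commutatorElement_def]; group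
        rw [h3]
        exact mul_mem h1 hx⟩
      one_smul := by
        intro x
        apply Subtype.ext
        change (1 : ↥Q).1 * x.1 * (1 : ↥Q).1⁻¹ = x.1
        simp
      mul_smul := by
        intro g h x
        apply Subtype.ext
        change (g * h).1 * x.1 * (g * h).1⁻¹ = g.1 * (h.1 * x.1 * h.1⁻¹) * g.1⁻¹
        simp [mul_assoc] }
  have hcard : Nat.card S = Nat.card N := by
    refine Nat.card_congr ⟨fun x => ⟨x.1 * a⁻¹, x.2⟩, fun n => ⟨n.1 * a, by simp⟩, ?_, ?_⟩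
    · intro x; apply Subtype.ext; simp
    · intro x; apply Subtype.ext; simp
  have hnd : ¬ q ∣ Nat.card S := by
    rw [hcard]
    intro h
    exact hP (h.trans (Subgroup.card_dvd_of_le hNP))
  obtain ⟨x, hx⟩ := hQ.nonempty_fixed_point_of_prime_not_dvd_card S hnd
  refine ⟨x.1, ?_, ?_, (x.1 * a⁻¹)⁻¹, inv_mem x.2, by group⟩
  · have := mul_mem (hNP x.2) ha
    simpa using this
  · rw [mem_centralizer_iff]
    intro g hg
    have h1 := hx ⟨g, hg⟩
    have h2 : g * x.1 * g⁻¹ = x.1 := congrArg Subtype.val h1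
    calc g * x.1 = (g * x.1 * g⁻¹) * g := by group
      _ = x.1 * g := by rw [h2]

theorem comm_comm [Finite G] {q : ℕ} (hq : q.Prime) {P Q : Subgroup G} (hQ : IsPGroup q Q)
    (hP : ¬ q ∣ Nat.card P) (hn : Q ≤ normalizer (P : Set G)) : ⁅⁅P, Q⁆, Q⁆ = ⁅P, Q⁆ := by
  apply le_antisymm
  · exact commutator_mono (le_normalizer_iff_commutator_le_left.mp hn) le_rfl
  · rw [commutator_le]
    intro a ha g hg
    obtain ⟨c, hcP, hc, n, hn', rfl⟩ := exists_cent hq hQ hP hn ha
    have h1 : ⁅c, g⁆ = 1 := by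
      rw [commutatorElement_eq_one_iff_mul_comm]
      exact (mem_centralizer_iff.mp hc g hg).symm
    rw [commutatorElement_mul_left_eq_conj_mul, h1, mul_one, mul_inv_cancel, one_mul]
    exact commutator_mem_commutator hn' hg

/-- Fixed points map onto fixed points. -/
theorem map_cent [Finite G] {H : Type} [Group H] (f : G →* H) {q : ℕ} (hq : q.Prime)
    {P Q : Subgroup G} (hQ : IsPGroup q Q)
    (hP : ¬ q ∣ Nat.card P) (hn : Q ≤ normalizer (P : Set G)) (h : ⁅P, Q⁆.map f = ⊥) :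
    (P ⊓ centralizer (Q : Set G)).map f = P.map f := by
  apply le_antisymm (map_mono inf_le_left)
  rintro _ ⟨a, ha, rfl⟩
  obtain ⟨c, hcP, hc, n, hn', rfl⟩ := exists_cent hq hQ hP hn ha
  refine ⟨c, ⟨hcP, hc⟩, ?_⟩
  have h1 : f n ∈ ⁅P, Q⁆.map f := mem_map_of_mem f hn'
  rw [h, mem_bot] at h1
  rw [map_mul, h1, one_mul]

/-- Lifting a normal `p`-subgroup together with its normalizer. -/
theorem frat_step [Finite G] {H : Type} [Group H] (f : G →* H) {p : ℕ} (hp : p.Prime)
    (A : Subgroup H) (hA : IsPGroup p A) (h1 : A ≤ f.range) (h2 : f.range ≤ normalizer (A : Set H)) :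
    ∃ B : Subgroup G, IsPGroup p B ∧ B.map f = A ∧
      (normalizer (B : Set G)).map f = f.range := by
  have : Fact p.Prime := ⟨hp⟩
  set N := A.comap f with hN
  have hNn : N.Normal := by
    constructor
    intro n hn g
    have hg : f g ∈ normalizer (A : Set H) := h2 ⟨g, rfl⟩
    change f (g * n * g⁻¹) ∈ A
    rw [map_mul, map_mul, map_inv]
    exact (mem_normalizer_iff.mp hg (f n)).mp hn
  obtain ⟨P⟩ : Nonempty (Sylow p ↥N) := inferInstance
  let fN : ↥N →* ↥A := (f.comp N.subtype).codRestrict A (fun n => n.2)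
  have hfN : Function.Surjective fN := by
    rintro ⟨a, ha⟩
    obtain ⟨g, rfl⟩ := h1 ha
    exact ⟨⟨g, ha⟩, rfl⟩
  have hfin : Finite ↥A := Finite.of_surjective fN hfN
  have htop : (P.mapSurjective hfN : Subgroup ↥A) = ⊤ := by
    have hTop : IsPGroup p (⊤ : Subgroup ↥A) := hA.to_subgroup ⊤
    exact ((P.mapSurjective hfN).3 hTop le_top).symm
  rw [Sylow.coe_mapSurjective] at htop
  have hmap : (P.1.map N.subtype).map f = A := by
    have h3 : (P.1.map N.subtype).map f = (P.1.map fN).map A.subtype := by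
      rw [Subgroup.map_map, Subgroup.map_map]
      rfl
    rw [h3]
    have h4 : P.1.map fN = ⊤ := htop
    rw [h4, ← MonoidHom.range_eq_map, range_subtype]
  refine ⟨P.1.map N.subtype, P.2.map _, hmap, ?_⟩
  apply le_antisymm
  · rintro _ ⟨g, _, rfl⟩
    exact ⟨g, rfl⟩
  · have hfr := Sylow.normalizer_sup_eq_top P
    have h5 : (⊤ : Subgroup G).map f = f.range := (MonoidHom.range_eq_map f).symm
    rw [← hfr, Subgroup.map_sup] at h5
    rw [← h5, sup_le_iff]
    refine ⟨le_rfl, ?_⟩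
    have h6 : N.map f ≤ A := by
      rw [hN]; exact map_comap_le f A
    have h7 : A ≤ (normalizer ((P.1.map N.subtype : Subgroup G) : Set G)).map f := by
      conv_lhs => rw [← hmap]
      exact map_mono le_normalizer
    exact h6.trans h7

/-- Relative version of the lifting. -/
theorem frat_step' [Finite G] {H : Type} [Group H] (f : G →* H) {p : ℕ} (hp : p.Prime)
    (M : Subgroup G) (A : Subgroup H) (hA : IsPGroup p A) (h1 : A ≤ M.map f)
    (h2 : M.map f ≤ normalizer (A : Set H)) :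
    ∃ B : Subgroup G, B ≤ M ∧ IsPGroup p B ∧ B.map f = A ∧
      ∃ M' : Subgroup G, M' ≤ M ∧ M' ≤ normalizer (B : Set G) ∧ M'.map f = M.map f := by
  have hr : (f.comp M.subtype).range = M.map f := by
    rw [MonoidHom.range_comp, range_subtype]
  obtain ⟨B, hB, hBA, hn⟩ := frat_step (f.comp M.subtype) hp A hA (by rw [hr]; exact h1)
    (by rw [hr]; exact h2)
  refine ⟨B.map M.subtype, map_subtype_le B, hB.map _, by rw [Subgroup.map_map]; exact hBA,
    (normalizer (B : Set ↥M)).map M.subtype, map_subtype_le _, le_normalizer_map _, ?_⟩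
  rw [Subgroup.map_map, hn, hr]

end Pool.Agent.Helper851.R
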