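import Mathlib
import Pool.Agent.Helper851.R1

set_option autoImplicit false

/-! Configurations and their lifting. -/

namespace Pool.Agent.Helper851.R

open Subgroup
open scoped commutatorElement

/-- A configuration: a `2`-group `P`, an `11`-group `Q`, a `5`-group `R` and a `3`-element `y`,
each normalising the former ones. -/
structure Cfg {G : Type} [Group G] (P Q R : Subgroup G) (y : G) : Prop where
  hP : IsPGroup 2 P
  hQ : IsPGroup 11 Q
  hR : IsPGroup 5 R
  hy : IsPGroup 3 (zpowers y)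
  QP : Q ≤ normalizer (P : Set G)
  RP : R ≤ normalizer (P : Set G)
  yP : y ∈ normalizer (P : Set G)
  RQ : R ≤ normalizer (Q : Set G)
  yQ : y ∈ normalizer (Q : Set G)
  yR : y ∈ normalizer (R : Set G)
  Ry : ⁅R, zpowers y⁆ = R
  y3 : ⁅R, zpowers (y ^ 3)⁆ = ⊥
  cen : ⁅Q, ⁅Phi 5 R, R ⊔ zpowers y⁆⁆ = ⊥

variable {G : Type} [Group G]

theorem mem_normalizer_map {H : Type} [Group H] (f : G →* H) {A : Subgroup G} {y : G}
    (h : y ∈ normalizer (A : Set G)) : f y ∈ normalizer ((A.map f : Subgroup H) : Set H) :=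
  le_normalizer_map f (mem_map_of_mem f h)

theorem le_normalizer_map' {H : Type} [Group H] (f : G →* H) {A B : Subgroup G}
    (h : B ≤ normalizer (A : Set G)) : B.map f ≤ normalizer ((A.map f : Subgroup H) : Set H) :=
  (map_mono h).trans (le_normalizer_map f)

theorem Cfg.map {H : Type} [Group H] (f : G →* H) {P Q R : Subgroup G} {y : G}
    (h : Cfg P Q R y) : Cfg (P.map f) (Q.map f) (R.map f) (f y) where
  hP := h.hP.map f
  hQ := h.hQ.map f
  hR := h.hR.map f
  hy := by rw [← MonoidHom.map_zpowers]; exact h.hy.map f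
  QP := le_normalizer_map' f h.QP
  RP := le_normalizer_map' f h.RP
  yP := mem_normalizer_map f h.yP
  RQ := le_normalizer_map' f h.RQ
  yQ := mem_normalizer_map f h.yQ
  yR := mem_normalizer_map f h.yR
  Ry := by rw [← MonoidHom.map_zpowers, ← map_commutator, h.Ry]
  y3 := by
    rw [← map_pow, ← MonoidHom.map_zpowers, ← map_commutator, h.y3, Subgroup.map_bot]
  cen := by
    rw [← MonoidHom.map_zpowers, ← Phi_map, ← Subgroup.map_sup, ← map_commutator,
      ← map_commutator, h.cen, Subgroup.map_bot]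

theorem normalizer_of_map {H : Type} [Group H] (f : G →* H) (hf : Function.Injective f)
    {A : Subgroup G} {y : G} (h : f y ∈ normalizer ((A.map f : Subgroup H) : Set H)) :
    y ∈ normalizer (A : Set G) := by
  rw [mem_normalizer_iff] at h ⊢
  intro x
  have h1 := h (f x)
  rw [← map_inv, ← map_mul, ← map_mul, mem_map_iff_mem hf, mem_map_iff_mem hf] at h1
  exact h1

theorem Cfg.of_map {H : Type} [Group H] (f : G →* H) (hf : Function.Injective f)
    {P Q R : Subgroup G} {y : G} (h : Cfg (P.map f) (Q.map f) (R.map f) (f y)) : Cfg P Q R y where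
  hP := h.hP.of_equiv (P.equivMapOfInjective f hf).symm
  hQ := h.hQ.of_equiv (Q.equivMapOfInjective f hf).symm
  hR := h.hR.of_equiv (R.equivMapOfInjective f hf).symm
  hy := by
    have h1 := h.hy
    rw [← MonoidHom.map_zpowers] at h1
    exact h1.of_equiv ((zpowers y).equivMapOfInjective f hf).symm
  QP := fun x hx => normalizer_of_map f hf (h.QP (mem_map_of_mem f hx))
  RP := fun x hx => normalizer_of_map f hf (h.RP (mem_map_of_mem f hx))
  yP := normalizer_of_map f hf h.yP
  RQ := fun x hx => normalizer_of_map f hf (h.RQ (mem_map_of_mem f hx))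
  yQ := normalizer_of_map f hf h.yQ
  yR := normalizer_of_map f hf h.yR
  Ry := by
    have h1 := h.Ry
    rw [← MonoidHom.map_zpowers, ← map_commutator] at h1
    exact map_injective hf h1
  y3 := by
    have h1 := h.y3
    rw [← map_pow, ← MonoidHom.map_zpowers, ← map_commutator] at h1
    exact (map_eq_bot_iff_of_injective _ hf).mp h1
  cen := by
    have h1 := h.cen
    rw [← MonoidHom.map_zpowers, ← Phi_map, ← Subgroup.map_sup, ← map_commutator,
      ← map_commutator] at h1
    exact (map_eq_bot_iff_of_injective _ hf).mp h1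

/-- Replacing the `2`-group. -/
theorem Cfg.setP {P Q R : Subgroup G} {y : G} (h : Cfg P Q R y) (P' : Subgroup G)
    (hP : IsPGroup 2 P') (hQ : Q ≤ normalizer (P' : Set G)) (hR : R ≤ normalizer (P' : Set G))
    (hy : y ∈ normalizer (P' : Set G)) : Cfg P' Q R y :=
  { h with hP := hP, QP := hQ, RP := hR, yP := hy }

theorem zpowers_y3_le (y : G) : zpowers (y ^ 3) ≤ zpowers y := by
  rw [zpowers_le]; exact pow_mem (mem_zpowers y) 3

/-- Configurations lift along surjections. -/
theorem Cfg.lift [Finite G] {H : Type} [Group H] (f : G →* H) (hf : Function.Surjective f)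
    {P Q R : Subgroup H} {y : H} (h : Cfg P Q R y) :
    ∃ (P' Q' R' : Subgroup G) (y' : G), Cfg P' Q' R' y' ∧ P'.map f = P ∧ Q'.map f = Q ∧
      R'.map f = R ∧ f y' = y := by
  have p2 : Nat.Prime 2 := by norm_num
  have p3 : Nat.Prime 3 := by norm_num
  have p5 : Nat.Prime 5 := by norm_num
  have p11 : Nat.Prime 11 := by norm_num
  -- step 1
  obtain ⟨A, hAM, hA, hAP, M1, hM1, hM1A, hM1f⟩ := frat_step' f p2
    ((normalizer (P : Set H)).comap f) P h.hP
    (by rw [map_comap_eq_self_of_surjective hf]; exact le_normalizer)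
    (by rw [map_comap_eq_self_of_surjective hf])
  rw [map_comap_eq_self_of_surjective hf] at hM1f
  -- step 2
  have e2 : (M1 ⊓ (normalizer (Q : Set H)).comap f).map f =
      normalizer (P : Set H) ⊓ normalizer (Q : Set H) := by
    ext x
    constructor
    · rintro ⟨g, ⟨hg1, hg2⟩, rfl⟩
      refine ⟨?_, hg2⟩
      have := mem_map_of_mem f hg1
      rw [hM1f] at this
      exact this
    · rintro ⟨hx1, hx2⟩
      have hx1' : x ∈ M1.map f := by rw [hM1f]; exact hx1
      obtain ⟨g, hg, rfl⟩ := hx1'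
      exact ⟨g, ⟨hg, hx2⟩, rfl⟩
  obtain ⟨B, hBM, hB, hBQ, M2, hM2, hM2B, hM2f⟩ := frat_step' f p11
    (M1 ⊓ (normalizer (Q : Set H)).comap f) Q h.hQ
    (by rw [e2]; exact le_inf h.QP le_normalizer) (by rw [e2]; exact inf_le_right)
  rw [e2] at hM2f
  -- step 3
  have e3 : (M2 ⊓ (normalizer (R : Set H)).comap f).map f =
      normalizer (P : Set H) ⊓ normalizer (Q : Set H) ⊓ normalizer (R : Set H) := by
    ext x
    constructor
    · rintro ⟨g, ⟨hg1, hg2⟩, rfl⟩
      refine ⟨?_, hg2⟩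
      have := mem_map_of_mem f hg1
      rw [hM2f] at this
      exact this
    · rintro ⟨hx1, hx2⟩
      have hx1' : x ∈ M2.map f := by rw [hM2f]; exact hx1
      obtain ⟨g, hg, rfl⟩ := hx1'
      exact ⟨g, ⟨hg, hx2⟩, rfl⟩
  obtain ⟨C, hCM, hC, hCR, M3, hM3, hM3C, hM3f⟩ := frat_step' f p5
    (M2 ⊓ (normalizer (R : Set H)).comap f) R h.hR
    (by rw [e3]; exact le_inf (le_inf h.RP h.RQ) le_normalizer) (by rw [e3]; exact inf_le_right)
  rw [e3] at hM3f
  -- step 4
  have hy4 : zpowers y ≤ M3.map f := by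
    rw [hM3f, zpowers_le]
    exact ⟨⟨h.yP, h.yQ⟩, h.yR⟩
  obtain ⟨S, hSM, hS, hSy, -, -, -, -⟩ := frat_step' f p3 (M3 ⊓ (zpowers y).comap f) (zpowers y)
    h.hy (by
      rintro x hx
      obtain ⟨g, hg, rfl⟩ := hy4 hx
      exact ⟨g, ⟨hg, hx⟩, rfl⟩)
    (by
      refine le_trans ?_ (le_normalizer (H := zpowers y))
      rintro _ ⟨g, ⟨_, hg⟩, rfl⟩
      exact hg)
  obtain ⟨z, hzS, hz⟩ : y ∈ S.map f := by rw [hSy]; exact mem_zpowers y
  subst hz
  have hM32 : M3 ≤ M2 := hM3.trans inf_le_left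
  have hM21 : M2 ≤ M1 := hM2.trans inf_le_left
  have hzM3 : z ∈ M3 := (hSM hzS).1
  have hzC : z ∈ normalizer (C : Set G) := hM3C hzM3
  have hzB : z ∈ normalizer (B : Set G) := hM2B (hM32 hzM3)
  have hzA : z ∈ normalizer (A : Set G) := hM1A (hM21 (hM32 hzM3))
  have hCM2 : C ≤ M2 := hCM.trans inf_le_left
  have hCB : C ≤ normalizer (B : Set G) := hCM2.trans hM2B
  have hCA : C ≤ normalizer (A : Set G) := hCM2.trans (hM21.trans hM1A)
  have hBA : B ≤ normalizer (A : Set G) := (hBM.trans inf_le_left).trans hM1A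
  have hz3 : IsPGroup 3 (zpowers z) := hS.to_le (by rw [zpowers_le]; exact hzS)
  have hz33 : IsPGroup 3 (zpowers (z ^ 3)) := hz3.to_le (zpowers_y3_le z)
  -- centraliser of `z ^ 3` in `C`
  set R1 := C ⊓ centralizer (zpowers (z ^ 3) : Set G) with hR1
  have hR1C : R1 ≤ C := inf_le_left
  have h3n : zpowers (z ^ 3) ≤ normalizer (C : Set G) :=
    (zpowers_y3_le z).trans (zpowers_le_normalizer hzC)
  have hnd53 : ∀ X : Subgroup G, IsPGroup 5 X → ¬ 3 ∣ Nat.card X := fun X hX =>
    not_dvd_card_of_isPGroup p5 p3 (by norm_num) hX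
  have hR1f : R1.map f = R := by
    rw [hR1, map_cent f p3 hz33 (hnd53 C hC) h3n, hCR]
    rw [map_commutator, hCR, MonoidHom.map_zpowers, map_pow]
    exact h.y3
  have hzR1 : z ∈ normalizer (R1 : Set G) := by
    apply inf_normalizer_le_normalizer_inf
    refine ⟨hzC, ?_⟩
    apply normalizer_centralizer_le
    have : zpowers z ≤ normalizer (zpowers (z ^ 3) : Set G) := by
      rw [le_normalizer_iff]
      intro a ha b hb
      obtain ⟨m, rfl⟩ := ha
      obtain ⟨n, rfl⟩ := hb
      have hc : z ^ m * (z ^ 3) ^ n * (z ^ m)⁻¹ = (z ^ 3) ^ n := by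
        have h1 : Commute (z ^ m) ((z ^ 3) ^ n) :=
          (((Commute.refl z).pow_right 3).zpow_zpow m n)
        rw [h1.eq, mul_inv_cancel_right]
      simp only
      rw [hc]
      exact zpow_mem (mem_zpowers _) n
    exact this (mem_zpowers z)
  have hR1p : IsPGroup 5 R1 := hC.to_le hR1C
  -- `[R1, z]`
  set R2 := ⁅R1, zpowers z⁆ with hR2
  have hR2R1 : R2 ≤ R1 := le_normalizer_iff_commutator_le_left.mp (zpowers_le_normalizer hzR1)
  have hR2C : R2 ≤ C := hR2R1.trans hR1C
  have hR2p : IsPGroup 5 R2 := hC.to_le hR2C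
  have hR2f : R2.map f = R := by
    rw [hR2, map_commutator, hR1f, MonoidHom.map_zpowers, h.Ry]
  have hR2z : ⁅R2, zpowers z⁆ = R2 := comm_comm p3 hz3 (hnd53 R1 hR1p) (zpowers_le_normalizer hzR1)
  have hzR2 : z ∈ normalizer (R2 : Set G) :=
    (normalizer_commutator_ge_right R1 (zpowers z)) (mem_zpowers z)
  have hR2z3 : ⁅R2, zpowers (z ^ 3)⁆ = ⊥ := by
    rw [commutator_eq_bot_iff_le_centralizer]
    exact hR2R1.trans inf_le_right
  -- the central condition
  set E := ⁅Phi 5 R2, R2 ⊔ zpowers z⁆ with hE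
  have hPhin : R2 ⊔ zpowers z ≤ normalizer (Phi 5 R2 : Set G) := by
    rw [sup_le_iff]
    exact ⟨le_normalizer.trans (normalizer_le_normalizer_Phi 5 R2),
      zpowers_le_normalizer (normalizer_le_normalizer_Phi 5 R2 hzR2)⟩
  have hER2 : E ≤ R2 := (le_normalizer_iff_commutator_le_left.mp hPhin).trans (Phi_le 5 R2)
  have hEn : R2 ⊔ zpowers z ≤ normalizer (E : Set G) :=
    normalizer_commutator_ge_right (Phi 5 R2) (R2 ⊔ zpowers z)
  have hEp : IsPGroup 5 E := hR2p.to_le hER2
  have hEB : E ≤ normalizer (B : Set G) := (hER2.trans hR2C).trans hCB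
  set Q1 := B ⊓ centralizer (E : Set G) with hQ1
  have hQ1B : Q1 ≤ B := inf_le_left
  have hQ1f : Q1.map f = Q := by
    rw [hQ1, map_cent f p5 hEp (not_dvd_card_of_isPGroup p11 p5 (by norm_num) hB) hEB, hBQ]
    rw [map_commutator, hE, map_commutator, Phi_map, Subgroup.map_sup, MonoidHom.map_zpowers,
      hR2f, hBQ]
    exact h.cen
  have hQ1n : R2 ⊔ zpowers z ≤ normalizer (Q1 : Set G) := by
    refine le_trans (le_inf ?_ (hEn.trans (normalizer_centralizer_le E)))
      inf_normalizer_le_normalizer_inf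
    rw [sup_le_iff]
    exact ⟨hR2C.trans hCB, zpowers_le_normalizer hzB⟩
  refine ⟨A, Q1, R2, z, ?_, hAP, hQ1f, hR2f, rfl⟩
  exact
    { hP := hA
      hQ := hB.to_le hQ1B
      hR := hR2p
      hy := hz3
      QP := hQ1B.trans hBA
      RP := hR2C.trans hCA
      yP := hzA
      RQ := le_sup_left.trans hQ1n
      yQ := hQ1n (mem_sup_right (mem_zpowers z))
      yR := hzR2
      Ry := hR2z
      y3 := hR2z3
      cen := by
        rw [commutator_eq_bot_iff_le_centralizer]
        exact inf_le_right }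

end Pool.Agent.Helper851.R
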