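import Mathlib
import Pool.Agent.Helper851.R2

set_option autoImplicit false

/-! The classes and their closure properties. -/

namespace Pool.Agent.Helper851.R

open Subgroup
open scoped commutatorElement

/-- Finite soluble groups in which all test subgroups vanish. -/
def ClsOf (D : (G : Type) → [Group G] → Subgroup G → Prop) (G : Type) [Group G] : Prop :=
  Finite G ∧ Group.IsSolvable G ∧ ∀ X : Subgroup G, D G X → X = ⊥

structure Good (D : (G : Type) → [Group G] → Subgroup G → Prop) : Prop where
  map : ∀ (G H : Type) [Group G] [Group H] (f : G →* H) (X : Subgroup G), D G X → D H (X.map f)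
  lift : ∀ (G H : Type) [Group G] [Group H] [Finite G] (f : G →* H),
    Function.Surjective f → ∀ Y : Subgroup H, D H Y → ∃ X : Subgroup G, D G X ∧ X.map f = Y

variable {D : (G : Type) → [Group G] → Subgroup G → Prop}

theorem ClsOf.inj (hD : Good D) {G H : Type} [Group G] [Group H] (f : G →* H)
    (hf : Function.Injective f) (h : ClsOf D H) : ClsOf D G := by
  obtain ⟨h1, h2, h3⟩ := h
  refine ⟨Finite.of_injective f hf, Group.isSolvable_of_isSolvable_injective hf, ?_⟩
  intro X hX
  exact (map_eq_bot_iff_of_injective _ hf).mp (h3 _ (hD.map G H f X hX))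

theorem ClsOf.surj (hD : Good D) {G H : Type} [Group G] [Group H] (f : G →* H)
    (hf : Function.Surjective f) (h : ClsOf D G) : ClsOf D H := by
  obtain ⟨h1, h2, h3⟩ := h
  refine ⟨Finite.of_surjective f hf, Group.isSolvable_of_surjective hf, ?_⟩
  intro Y hY
  obtain ⟨X, hX, rfl⟩ := hD.lift G H f hf Y hY
  rw [h3 X hX, Subgroup.map_bot]

theorem ClsOf.inter (hD : Good D) {G : Type} [Group G] [Finite G] (M N : Subgroup G) [M.Normal]
    [N.Normal] (hM : ClsOf D (G ⧸ M)) (hN : ClsOf D (G ⧸ N)) : ClsOf D (G ⧸ (M ⊓ N)) := by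
  let f1 : G ⧸ (M ⊓ N) →* G ⧸ M := QuotientGroup.map (M ⊓ N) M (MonoidHom.id G) inf_le_left
  let f2 : G ⧸ (M ⊓ N) →* G ⧸ N := QuotientGroup.map (M ⊓ N) N (MonoidHom.id G) inf_le_right
  have hinj : Function.Injective (f1.prod f2) := by
    rw [← MonoidHom.ker_eq_bot_iff, eq_bot_iff]
    intro x hx
    obtain ⟨g, rfl⟩ := QuotientGroup.mk_surjective x
    rw [MonoidHom.mem_ker] at hx
    have h1 : ((g : G) : G ⧸ M) = 1 := congrArg Prod.fst hx
    have h2 : ((g : G) : G ⧸ N) = 1 := congrArg Prod.snd hx
    rw [QuotientGroup.eq_one_iff] at h1 h2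
    rw [mem_bot, QuotientGroup.eq_one_iff]
    exact ⟨h1, h2⟩
  refine ⟨inferInstance, ?_, ?_⟩
  · have := hM.2.1
    have := hN.2.1
    exact Group.isSolvable_of_isSolvable_injective hinj
  · intro X hX
    have h1 := hM.2.2 _ (hD.map _ _ f1 X hX)
    have h2 := hN.2.2 _ (hD.map _ _ f2 X hX)
    rw [eq_bot_iff]
    intro x hx
    have hx1 : f1 x = 1 := by
      have := mem_map_of_mem f1 hx
      rwa [h1, mem_bot] at this
    have hx2 : f2 x = 1 := by
      have := mem_map_of_mem f2 hx
      rwa [h2, mem_bot] at this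
    have hx3 : (f1.prod f2) x = 1 := Prod.ext hx1 hx2
    rw [mem_bot]
    exact hinj (hx3.trans (map_one _).symm)

theorem ClsOf.bot {G : Type} [Group G] [Subsingleton G] : ClsOf D G :=
  ⟨inferInstance, inferInstance, fun _ _ => Subsingleton.elim _ _⟩

/-- Tests for the main class. -/
def DF (G : Type) [Group G] (X : Subgroup G) : Prop :=
  ∃ (P Q R : Subgroup G) (y : G), Cfg P Q R y ∧ X = ⁅P, ⁅Q, ⁅R, R⁆⁆⁆

/-- Tests for the local value at `2`. -/
def DX (G : Type) [Group G] (X : Subgroup G) : Prop :=
  ∃ (Q R : Subgroup G) (y : G), Cfg ⊥ Q R y ∧ X = ⁅Q, ⁅R, R⁆⁆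

/-- No tests. -/
def DN (G : Type) [Group G] (_ : Subgroup G) : Prop := False

theorem good_DF : Good DF where
  map := by
    rintro G H _ _ f _ ⟨P, Q, R, y, h, rfl⟩
    refine ⟨P.map f, Q.map f, R.map f, f y, h.map f, ?_⟩
    rw [map_commutator, map_commutator, map_commutator]
  lift := by
    rintro G H _ _ _ f hf _ ⟨P, Q, R, y, h, rfl⟩
    obtain ⟨P', Q', R', y', h', rfl, rfl, rfl, rfl⟩ := h.lift f hf
    refine ⟨⁅P', ⁅Q', ⁅R', R'⁆⁆⁆, ⟨P', Q', R', y', h', rfl⟩, ?_⟩
    rw [map_commutator, map_commutator, map_commutator]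

theorem Cfg.setBot {G : Type} [Group G] {P Q R : Subgroup G} {y : G} (h : Cfg P Q R y) :
    Cfg ⊥ Q R y :=
  h.setP ⊥ IsPGroup.of_bot le_normalizer_of_normal le_normalizer_of_normal
    ((le_normalizer_of_normal (K := (⊤ : Subgroup G))) (mem_top y))

theorem good_DX : Good DX where
  map := by
    rintro G H _ _ f _ ⟨Q, R, y, h, rfl⟩
    refine ⟨Q.map f, R.map f, f y, (h.map f).setBot, ?_⟩
    rw [map_commutator, map_commutator]
  lift := by
    rintro G H _ _ _ f hf _ ⟨Q, R, y, h, rfl⟩
    obtain ⟨P', Q', R', y', h', -, rfl, rfl, rfl⟩ := h.lift f hf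
    refine ⟨⁅Q', ⁅R', R'⁆⁆, ⟨Q', R', y', h'.setBot, rfl⟩, ?_⟩
    rw [map_commutator, map_commutator]

theorem good_DN : Good DN where
  map := by
    rintro G H _ _ f _ ⟨⟩
  lift := by
    rintro G H _ _ _ f hf _ ⟨⟩

/-- The centraliser of the factor `H / K`. -/
def fcent {G : Type} [Group G] (H K : Subgroup G) [K.Normal] : Subgroup G :=
  (centralizer ((H.map (QuotientGroup.mk' K) : Subgroup (G ⧸ K)) : Set (G ⧸ K))).comap
    (QuotientGroup.mk' K)

theorem mem_fcent {G : Type} [Group G] (H K : Subgroup G) [K.Normal] (g : G) :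
    g ∈ fcent H K ↔ ∀ h ∈ H, ⁅h, g⁆ ∈ K := by
  rw [fcent, mem_comap, mem_centralizer_iff]
  constructor
  · intro h x hx
    have h1 := h (QuotientGroup.mk' K x) (mem_map_of_mem _ hx)
    rw [← QuotientGroup.eq_one_iff]
    change QuotientGroup.mk' K ⁅x, g⁆ = 1
    rw [map_commutatorElement, commutatorElement_eq_one_iff_mul_comm]
    exact h1
  · rintro h _ ⟨x, hx, rfl⟩
    have h1 := h x hx
    rw [← QuotientGroup.eq_one_iff] at h1
    change QuotientGroup.mk' K ⁅x, g⁆ = 1 at h1
    rw [map_commutatorElement, commutatorElement_eq_one_iff_mul_comm] at h1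
    exact h1

instance fcent_normal {G : Type} [Group G] (H K : Subgroup G) [H.Normal] [K.Normal] :
    (fcent H K).Normal := by
  have h1 : (H.map (QuotientGroup.mk' K)).Normal :=
    Subgroup.Normal.map inferInstance _ (QuotientGroup.mk'_surjective K)
  unfold fcent
  infer_instance

theorem commutator_le_of_le_fcent {G : Type} [Group G] {H K S : Subgroup G} [K.Normal]
    (h : S ≤ fcent H K) : ⁅H, S⁆ ≤ K := by
  rw [commutator_le]
  intro x hx g hg
  exact (mem_fcent H K g).mp (h hg) x hx

theorem le_fcent_of_commutator_le {G : Type} [Group G] {H K S : Subgroup G} [K.Normal]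
    (h : ⁅H, S⁆ ≤ K) : S ≤ fcent H K := by
  intro g hg
  rw [mem_fcent]
  intro x hx
  exact h (commutator_mem_commutator hx hg)

/-- Descent along a chief series. -/
theorem descend {G : Type} [Group G] [Finite G] (PP : Subgroup G → Prop) (h0 : PP ⊤)
    (h1 : ∀ H K : Subgroup G, H.Normal → K.Normal → K < H →
      (∀ L : Subgroup G, L.Normal → K ≤ L → L ≤ H → L = K ∨ L = H) → PP H → PP K) : PP ⊥ := by
  have key : ∀ n : ℕ, ∀ H : Subgroup G, H.Normal → Nat.card H = n → PP H → PP ⊥ := by
    intro n
    induction n using Nat.strong_induction_on with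
    | _ n ih =>
      intro H hH hn hP
      by_cases hb : H = ⊥
      · rw [hb] at hP; exact hP
      · have hfin : {L : Subgroup G | L.Normal ∧ L < H}.Finite := Set.toFinite _
        have hne : {L : Subgroup G | L.Normal ∧ L < H}.Nonempty :=
          ⟨⊥, inferInstance, bot_lt_iff_ne_bot.mpr hb⟩
        obtain ⟨K, hK⟩ := hfin.exists_maximal hne
        have hKn : K.Normal := hK.prop.1
        have hKH : K < H := hK.prop.2
        have hP' : PP K := by
          apply h1 H K hH hKn hKH ?_ hP
          intro L hL hKL hLH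
          by_cases hLH' : L = H
          · exact Or.inr hLH'
          · left
            have := hK.le_of_ge (y := L) ⟨hL, lt_of_le_of_ne hLH hLH'⟩ hKL
            exact le_antisymm this hKL
        have hcard : Nat.card K < n := by
          rw [← hn]
          have h2 := Subgroup.card_le_of_le hKH.le
          rcases h2.lt_or_eq with h3 | h3
          · exact h3
          · exact absurd (Subgroup.eq_of_le_of_card_ge hKH.le h3.ge) hKH.ne
        exact ih _ hcard K hKn rfl hP'
  exact key _ ⊤ inferInstance rfl h0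

/-- A minimal normal subgroup of a soluble group is a `p`-group. -/
theorem minimal_normal {X : Type} [Group X] [Finite X] [Group.IsSolvable X] (V : Subgroup X)
    [hV : V.Normal] (hne : V ≠ ⊥) (hmin : ∀ L : Subgroup X, L.Normal → L ≤ V → L = ⊥ ∨ L = V)
    (p : ℕ) (hp : p.Prime) (hpV : p ∣ Nat.card V) : IsPGroup p V := by
  have : Fact p.Prime := ⟨hp⟩
  have hab : ⁅V, V⁆ = ⊥ := by
    have h1 := Group.IsSolvable.commutator_lt_of_ne_bot hne
    rcases hmin ⁅V, V⁆ inferInstance h1.le with h2 | h2
    · exact h2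
    · exact absurd h2 h1.ne
  have hcomm : ∀ a ∈ V, ∀ b ∈ V, Commute a b := by
    intro a ha b hb
    rw [← commutatorElement_eq_one_iff_commute, ← mem_bot, ← hab]
    exact commutator_mem_commutator ha hb
  let W : Subgroup X :=
    { carrier := {v | v ∈ V ∧ v ^ p = 1}
      one_mem' := ⟨one_mem V, one_pow p⟩
      mul_mem' := by
        rintro a b ⟨ha, ha'⟩ ⟨hb, hb'⟩
        refine ⟨mul_mem ha hb, ?_⟩
        rw [(hcomm a ha b hb).mul_pow, ha', hb', one_mul]
      inv_mem' := by
        rintro a ⟨ha, ha'⟩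
        exact ⟨inv_mem ha, by rw [inv_pow, ha', inv_one]⟩ }
  have hWn : W.Normal := by
    constructor
    rintro a ⟨ha, ha'⟩ g
    exact ⟨hV.conj_mem a ha g, by rw [conj_pow, ha', mul_one, mul_inv_cancel]⟩
  have hW : W = V := by
    rcases hmin W hWn (fun a ha => ha.1) with h | h
    · exfalso
      obtain ⟨x, hx⟩ := exists_prime_orderOf_dvd_card' p hpV
      have h1 : (x : X) ∈ W := by
        refine ⟨x.2, ?_⟩
        have := pow_orderOf_eq_one x
        rw [hx] at this
        exact congrArg Subtype.val this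
      rw [h, mem_bot] at h1
      have h2 : x = 1 := Subtype.ext h1
      rw [h2, orderOf_one] at hx
      exact hp.one_lt.ne hx
    · exact h
  rintro ⟨v, hv⟩
  refine ⟨1, ?_⟩
  rw [pow_one]
  have h1 : v ∈ W := by rw [hW]; exact hv
  exact Subtype.ext h1.2

/-- The value of the local function. -/
def fval (p : ℕ) (G : Type) [Group G] : Prop := if p = 2 then ClsOf DX G else ClsOf DN G

theorem fval_solv {p : ℕ} {G : Type} [Group G] (h : fval p G) : Group.IsSolvable G := by
  unfold fval at h
  split_ifs at h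
  · exact h.2.1
  · exact h.2.1

theorem local_forward {G : Type} [Group G] (hG : ClsOf DF G) (H K : Subgroup G)
    [hH : H.Normal] [hK : K.Normal] (hlt : K < H)
    (hch : ∀ L : Subgroup G, L.Normal → K ≤ L → L ≤ H → L = K ∨ L = H) (p : ℕ) (hp : p.Prime)
    (hpd : p ∣ Nat.card (↥H ⧸ K.subgroupOf H)) : fval p (G ⧸ fcent H K) := by
  have hfin := hG.1
  have hsol := hG.2.1
  unfold fval
  split_ifs with h2
  · subst h2
    set X := G ⧸ K with hX
    set π := QuotientGroup.mk' K with hπ
    have hπs : Function.Surjective π := QuotientGroup.mk'_surjective K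
    have hXF : ClsOf DF X := hG.surj good_DF π hπs
    have hKf : K ≤ fcent H K := by
      intro k hk
      rw [mem_fcent]
      intro h hh
      rw [commutatorElement_def]
      exact mul_mem (hK.conj_mem k hk h) (inv_mem hk)
    let g : X →* G ⧸ fcent H K := QuotientGroup.map K (fcent H K) (MonoidHom.id G) hKf
    have hgs : Function.Surjective g := by
      intro y
      obtain ⟨y, rfl⟩ := QuotientGroup.mk_surjective y
      exact ⟨(y : X), rfl⟩
    set V := H.map π with hV
    have hVn : V.Normal := Subgroup.Normal.map hH _ hπs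
    have hker : ∀ x : X, x ∈ centralizer (V : Set X) → g x = 1 := by
      intro x hx
      obtain ⟨x, rfl⟩ := QuotientGroup.mk_surjective x
      have h3 : x ∈ fcent H K := hx
      exact (QuotientGroup.eq_one_iff x).mpr h3
    have hsolX : Group.IsSolvable X := hXF.2.1
    have hcomapV : V.comap π = H := by
      rw [hV, comap_map_eq, hπ, QuotientGroup.ker_mk', sup_eq_left]
      exact hlt.le
    have hVp : IsPGroup 2 V := by
      apply minimal_normal V ?_ ?_ 2 (by norm_num)
      · -- card
        have e : (↥H ⧸ K.subgroupOf H) ≃* ↥V := by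
          let φ : ↥H →* ↥V := (π.comp H.subtype).codRestrict V (fun n => mem_map_of_mem π n.2)
          have hφ : Function.Surjective φ := by
            rintro ⟨_, ⟨a, ha, rfl⟩⟩
            exact ⟨⟨a, ha⟩, rfl⟩
          have hφk : φ.ker = K.subgroupOf H := by
            ext x
            rw [MonoidHom.mem_ker, mem_subgroupOf, ← QuotientGroup.eq_one_iff]
            exact Subtype.ext_iff
          exact (QuotientGroup.quotientMulEquivOfEq hφk.symm).trans
            (QuotientGroup.quotientKerEquivOfSurjective φ hφ)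
        rw [← Nat.card_congr e.toEquiv]
        exact hpd
      · intro hb
        rw [hb] at hcomapV
        have h3 : (⊥ : Subgroup X).comap π = K := by
          rw [MonoidHom.comap_bot, hπ, QuotientGroup.ker_mk']
        rw [h3] at hcomapV
        exact hlt.ne hcomapV
      · intro L hL hLV
        have h3 : K ≤ L.comap π := by
          have : π.ker ≤ L.comap π := ker_le_comap π L
          rwa [hπ, QuotientGroup.ker_mk'] at this
        have h4 : L.comap π ≤ H := by
          rw [← hcomapV]
          exact comap_mono hLV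
        rcases hch (L.comap π) inferInstance h3 h4 with h5 | h5
        · left
          rw [← map_comap_eq_self_of_surjective hπs L, h5, Subgroup.map_eq_bot_iff, hπ,
            QuotientGroup.ker_mk']
        · right
          rw [← map_comap_eq_self_of_surjective hπs L, h5]
    refine ⟨inferInstance, inferInstance, ?_⟩
    rintro _ ⟨Q, R, y, hc, rfl⟩
    obtain ⟨P', Q', R', y', h', -, rfl, rfl, rfl⟩ := hc.lift g hgs
    have hc2 : Cfg V Q' R' y' := h'.setP V hVp le_normalizer_of_normal le_normalizer_of_normal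
      ((le_normalizer_of_normal (K := (⊤ : Subgroup X))) (mem_top y'))
    have h3 := hXF.2.2 _ ⟨V, Q', R', y', hc2, rfl⟩
    rw [commutator_comm, commutator_eq_bot_iff_le_centralizer] at h3
    rw [← map_commutator, ← map_commutator, eq_bot_iff]
    rintro _ ⟨x, hx, rfl⟩
    exact hker x (h3 hx)
  · exact ⟨inferInstance, inferInstance, fun X h => h.elim⟩

/-- A group all of whose chief factors have soluble automiser is soluble. -/
theorem solvable_of_fcent {G : Type} [Group G] [Finite G]
    (h : ∀ (H K : Subgroup G) [H.Normal] [K.Normal], K < H →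
      (∀ L : Subgroup G, L.Normal → K ≤ L → L ≤ H → L = K ∨ L = H) →
      Group.IsSolvable (G ⧸ fcent H K)) : Group.IsSolvable G := by
  -- stable term of the derived series
  have hst : ∃ n, derivedSeries G n = derivedSeries G (n + 1) := by
    by_contra hcon
    push Not at hcon
    have hlt : ∀ n, derivedSeries G (n + 1) < derivedSeries G n := fun n =>
      lt_of_le_of_ne (derivedSeries_antitone G (Nat.le_succ n)) (hcon n).symm
    have hsa : StrictAnti (derivedSeries G) := strictAnti_nat_of_succ_lt hlt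
    exact not_injective_infinite_finite _ hsa.injective
  obtain ⟨n, hn⟩ := hst
  have hSS : ⁅derivedSeries G n, derivedSeries G n⁆ = derivedSeries G n := by
    rw [derivedSeries_succ] at hn
    exact hn.symm
  have hstab : ∀ m, derivedSeries G n ≤ derivedSeries G m := by
    intro m
    induction m with
    | zero => exact le_top
    | succ m ih =>
      rw [derivedSeries_succ]
      conv_lhs => rw [← hSS]
      exact commutator_mono ih ih
  have key : derivedSeries G n ≤ ⊥ := by
    apply descend (fun H => derivedSeries G n ≤ H) le_top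
    intro H K hH hK hlt hch hle
    have hsol := h H K hlt hch
    obtain ⟨m, hm⟩ := hsol
    have h1 : derivedSeries G m ≤ fcent H K := by
      have h2 := map_derivedSeries_le_derivedSeries (QuotientGroup.mk' (fcent H K)) m
      rw [hm, le_bot_iff, Subgroup.map_eq_bot_iff, QuotientGroup.ker_mk'] at h2
      exact h2
    have h3 := commutator_le_of_le_fcent ((hstab m).trans h1)
    calc derivedSeries G n = ⁅derivedSeries G n, derivedSeries G n⁆ := hSS.symm
      _ ≤ ⁅H, derivedSeries G n⁆ := commutator_mono hle le_rfl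
      _ ≤ K := h3
  exact ⟨n, le_bot_iff.mp key⟩

theorem local_backward {G : Type} [Group G] [Finite G]
    (h : ∀ (H K : Subgroup G) [H.Normal] [K.Normal], K < H →
      (∀ L : Subgroup G, L.Normal → K ≤ L → L ≤ H → L = K ∨ L = H) → ∀ p : ℕ, p.Prime →
      p ∣ Nat.card (↥H ⧸ K.subgroupOf H) → fval p (G ⧸ fcent H K)) : ClsOf DF G := by
  have hsol : Group.IsSolvable G := by
    apply solvable_of_fcent
    intro H K hH hK hlt hch
    have hcard : Nat.card (↥H ⧸ K.subgroupOf H) ≠ 1 := by
      intro h1
      have h2 : (K.subgroupOf H).index = 1 := h1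
      rw [index_eq_one, subgroupOf_eq_top] at h2
      exact hlt.not_ge h2
    obtain ⟨p, hp, hpd⟩ := Nat.exists_prime_and_dvd hcard
    exact fval_solv (h H K hlt hch p hp hpd)
  refine ⟨inferInstance, hsol, ?_⟩
  rintro _ ⟨P, Q, R, y, hc, rfl⟩
  set D := ⁅Q, ⁅R, R⁆⁆ with hD
  have hRn : R ≤ normalizer (Q : Set G) := hc.RQ
  have hDQ : D ≤ Q := by
    rw [hD]
    exact le_normalizer_iff_commutator_le_left.mp ((commutator_le_self R).trans hc.RQ)
  have hDp : IsPGroup 11 D := hc.hQ.to_le hDQ
  have hDP : D ≤ normalizer (P : Set G) := hDQ.trans hc.QP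
  have hPD : ⁅P, D⁆ ≤ P := le_normalizer_iff_commutator_le_left.mp hDP
  have hcc : ⁅⁅P, D⁆, D⁆ = ⁅P, D⁆ := comm_comm (by norm_num) hDp
    (not_dvd_card_of_isPGroup (by norm_num) (by norm_num) (by norm_num) hc.hP) hDP
  rw [← le_bot_iff]
  apply descend (fun H => ⁅P, D⁆ ≤ H) le_top
  intro H K hH hK hlt hch hle
  by_cases h2 : 2 ∣ Nat.card (↥H ⧸ K.subgroupOf H)
  · have h3 := h H K hlt hch 2 (by norm_num) h2
    unfold fval at h3
    rw [if_pos rfl] at h3
    have h4 := h3.2.2 _ ⟨_, _, _, (hc.map (QuotientGroup.mk' (fcent H K))).setBot, rfl⟩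
    rw [← map_commutator, ← map_commutator, Subgroup.map_eq_bot_iff, QuotientGroup.ker_mk'] at h4
    calc ⁅P, D⁆ = ⁅⁅P, D⁆, D⁆ := hcc.symm
      _ ≤ ⁅H, D⁆ := commutator_mono hle le_rfl
      _ ≤ K := commutator_le_of_le_fcent h4
  · intro x hx
    have hxH : x ∈ H := hle hx
    have h3 : x ^ (K.subgroupOf H).index ∈ K := by
      have := (K.subgroupOf H).pow_index_mem (⟨x, hxH⟩ : ↥H)
      rw [mem_subgroupOf] at this
      exact this
    obtain ⟨k, hk⟩ := hc.hP ⟨x, hPD hx⟩
    have hk' : x ^ 2 ^ k = 1 := congrArg Subtype.val hk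
    have hcop : Nat.Coprime (2 ^ k) (K.subgroupOf H).index :=
      Nat.Coprime.pow_left k ((Nat.Prime.coprime_iff_not_dvd (by norm_num)).mpr h2)
    have h5 : (x : G ⧸ K) = 1 := by
      have e1 : (x : G ⧸ K) ^ 2 ^ k = 1 := by
        rw [← QuotientGroup.mk_pow, hk', QuotientGroup.mk_one]
      have e2 : (x : G ⧸ K) ^ (K.subgroupOf H).index = 1 := by
        rw [← QuotientGroup.mk_pow, QuotientGroup.eq_one_iff]
        exact h3
      have d1 := orderOf_dvd_of_pow_eq_one e1
      have d2 := orderOf_dvd_of_pow_eq_one e2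
      have d3 := Nat.dvd_gcd d1 d2
      rw [hcop, Nat.dvd_one, orderOf_eq_one_iff] at d3
      exact d3
    exact (QuotientGroup.eq_one_iff x).mp h5

end Pool.Agent.Helper851.R
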