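import Mathlib
import Pool.Agent.Helper851.R3

set_option autoImplicit false

/-! Nilpotent length. -/

namespace Pool.Agent.Helper851.R

open Subgroup
open scoped commutatorElement

/-- A normal series of length `k` with nilpotent factors. -/
def Chain (k : ℕ) (X : Type) [Group X] : Prop :=
  ∃ s : ℕ → Subgroup X, s 0 = ⊥ ∧ s k = ⊤ ∧ (∀ i, (s i).Normal) ∧
    ∀ i < k, s i ≤ s (i + 1) ∧ ∃ n, (s (i + 1)).lowerCentralSeries n ≤ s i

theorem nil_quot_iff {X : Type} [Group X] (H K : Subgroup X) [K.Normal] :
    Group.IsNilpotent (↥H ⧸ K.subgroupOf H) ↔ ∃ n, H.lowerCentralSeries n ≤ K := by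
  rw [Subgroup.nilpotent_iff_lowerCentralSeries]
  apply exists_congr
  intro n
  have h1 : (⊤ : Subgroup (↥H ⧸ K.subgroupOf H)) =
      (⊤ : Subgroup ↥H).map (QuotientGroup.mk' (K.subgroupOf H)) := by
    rw [← MonoidHom.range_eq_map, MonoidHom.range_eq_top.mpr (QuotientGroup.mk'_surjective _)]
  rw [h1, ← map_lowerCentralSeries, Subgroup.map_eq_bot_iff, QuotientGroup.ker_mk', subgroupOf,
    ← map_le_iff_le_comap, top_subtype_lowerCentralSeries]

theorem Chain.succ {k : ℕ} {X : Type} [Group X] (h : Chain k X) : Chain (k + 1) X := by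
  obtain ⟨s, h0, hk, hn, hs⟩ := h
  refine ⟨fun i => if i ≤ k then s i else ⊤, by simp [h0], by simp, ?_, ?_⟩
  · intro i
    simp only
    split_ifs
    · exact hn i
    · infer_instance
  · intro i hi
    rcases Nat.lt_or_ge i k with h1 | h1
    · simp only [h1.le, Nat.succ_le_of_lt h1, if_true]
      exact hs i h1
    · have h2 : i = k := by omega
      subst h2
      simp only [le_refl, if_true, Nat.not_succ_le_self, if_false, hk]
      exact ⟨trivial, 0, le_rfl⟩

theorem Chain.mono {k l : ℕ} (hkl : k ≤ l) {X : Type} [Group X] (h : Chain k X) : Chain l X := by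
  induction l, hkl using Nat.le_induction with
  | base => exact h
  | succ l _ ih => exact ih.succ

theorem chain_of_solvable {X : Type} [Group X] [hX : Group.IsSolvable X] : ∃ k, Chain k X := by
  obtain ⟨n, hn⟩ := hX
  refine ⟨n, fun i => derivedSeries X (n - i), by simpa using hn, by simp, fun i => ?_, ?_⟩
  · exact derivedSeries_normal X (n - i)
  · intro i hi
    refine ⟨derivedSeries_antitone X (by omega), 1, ?_⟩
    have h1 : n - i = (n - (i + 1)) + 1 := by omega
    simp only
    rw [h1, derivedSeries_succ]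
    simp

theorem chain3_of {G : Type} [Group G] (M : Subgroup G)
    (h : ∃ a b c, ((M.lowerCentralSeries a).lowerCentralSeries b).lowerCentralSeries c = ⊥) :
    Chain 3 ↥M := by
  obtain ⟨a, b, c, h⟩ := h
  set T : Subgroup ↥M := ⊤ with hT
  have hTM : T.map M.subtype = M := by
    rw [hT, ← MonoidHom.range_eq_map, range_subtype]
  have h' : ((T.lowerCentralSeries a).lowerCentralSeries b).lowerCentralSeries c = ⊥ := by
    rw [← map_eq_bot_iff_of_injective _ M.subtype_injective, map_lowerCentralSeries,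
      map_lowerCentralSeries, map_lowerCentralSeries, hTM]
    exact h
  have hn0 : T.Normal := by rw [hT]; infer_instance
  have hn1 : (T.lowerCentralSeries a).Normal := inferInstance
  have hn2 : ((T.lowerCentralSeries a).lowerCentralSeries b).Normal := inferInstance
  refine ⟨fun i => if i = 0 then ⊥ else if i = 1 then
    ((T.lowerCentralSeries a).lowerCentralSeries b) else if i = 2 then T.lowerCentralSeries a
    else T, by simp, by simp [hT], ?_, ?_⟩
  · intro i
    simp only
    split_ifs
    · infer_instance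
    · exact hn2
    · exact hn1
    · exact hn0
  · intro i hi
    interval_cases i
    · refine ⟨by simp, c, ?_⟩
      simp [h']
    · refine ⟨by simpa using lowerCentralSeries_le_self _ _, b, ?_⟩
      simp
    · refine ⟨by simpa using lowerCentralSeries_le_self _ _, a, ?_⟩
      simp

/-- Groups of nilpotent length at most three satisfy all the tests. -/
theorem chain3_test {G : Type} [Group G] [Finite G] (h : Chain 3 G) (P Q R : Subgroup G) (y : G)
    (hc : Cfg P Q R y) : ⁅P, ⁅Q, ⁅R, R⁆⁆⁆ = ⊥ := by
  obtain ⟨s, h0, h3, hn, hs⟩ := h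
  have hn1 := hn 1
  have hn2 := hn 2
  obtain ⟨-, c, hc1⟩ := hs 0 (by norm_num)
  obtain ⟨-, b, hb1⟩ := hs 1 (by norm_num)
  obtain ⟨-, a, ha1⟩ := hs 2 (by norm_num)
  simp only [zero_add] at hc1 hb1 ha1
  rw [h0] at hc1
  have e3 : s (2 + 1) = ⊤ := h3
  rw [e3] at ha1
  have e2 : s (1 + 1) = s 2 := rfl
  rw [e2] at hb1
  -- R
  have hR : ∀ n, R ≤ (⊤ : Subgroup G).lowerCentralSeries n := by
    intro n
    induction n with
    | zero => exact le_top
    | succ n ih =>
      rw [Subgroup.lowerCentralSeries_succ]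
      conv_lhs => rw [← hc.Ry]
      exact commutator_mono ih le_top
  have hR2 : R ≤ s 2 := (hR a).trans ha1
  set D := ⁅Q, ⁅R, R⁆⁆ with hD
  have hRR : ⁅R, R⁆ ≤ R := commutator_le_self R
  have hDQ : D ≤ Q := le_normalizer_iff_commutator_le_left.mp (hRR.trans hc.RQ)
  have hDD : ⁅D, ⁅R, R⁆⁆ = D := comm_comm (by norm_num) (hc.hR.to_le hRR)
    (not_dvd_card_of_isPGroup (p := 11) (by norm_num) (by norm_num) (by norm_num) hc.hQ)
    (hRR.trans hc.RQ)
  have hD2 : D ≤ s 2 := by
    rw [hD]
    exact (commutator_mono le_rfl (hRR.trans hR2)).trans (commutator_le_right Q (s 2))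
  have hDn : ∀ n, D ≤ (s 2).lowerCentralSeries n := by
    intro n
    induction n with
    | zero => exact hD2
    | succ n ih =>
      rw [Subgroup.lowerCentralSeries_succ]
      conv_lhs => rw [← hDD]
      exact commutator_mono ih (hRR.trans hR2)
  have hD1 : D ≤ s 1 := (hDn b).trans hb1
  have hPD : ⁅⁅P, D⁆, D⁆ = ⁅P, D⁆ := comm_comm (by norm_num) (hc.hQ.to_le hDQ)
    (not_dvd_card_of_isPGroup (p := 2) (by norm_num) (by norm_num) (by norm_num) hc.hP)
    (hDQ.trans hc.QP)
  have hX1 : ⁅P, D⁆ ≤ s 1 := (commutator_mono le_rfl hD1).trans (commutator_le_right P (s 1))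
  have hXn : ∀ n, ⁅P, D⁆ ≤ (s 1).lowerCentralSeries n := by
    intro n
    induction n with
    | zero => exact hX1
    | succ n ih =>
      rw [Subgroup.lowerCentralSeries_succ]
      conv_lhs => rw [← hPD]
      exact commutator_mono ih hD1
  rw [← le_bot_iff]
  exact (hXn c).trans hc1

end Pool.Agent.Helper851.R
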