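import Mathlib
import Pool.Agent.Helper851.R1
import Pool.Agent.Helper851.Rad

set_option autoImplicit false

/-! The action on the `11`-group. -/

namespace Pool.Agent.Helper851.R

open Subgroup
open scoped commutatorElement

instance Phi_top_normal {Q : Type} [Group Q] (n : ℕ) : (Phi n (⊤ : Subgroup Q)).Normal := by
  rw [← normalizer_eq_top_iff, eq_top_iff]
  have h : (⊤ : Subgroup Q) ≤ normalizer ((⊤ : Subgroup Q) : Set Q) := le_normalizer
  exact h.trans (normalizer_le_normalizer_Phi n ⊤)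

theorem Phi_top_map {Q : Type} [Group Q] (n : ℕ) (α : MulAut Q) {x : Q}
    (hx : x ∈ Phi n (⊤ : Subgroup Q)) : α x ∈ Phi n (⊤ : Subgroup Q) := by
  have h := mem_map_of_mem α.toMonoidHom hx
  rw [Phi_map] at h
  exact Phi_mono le_top h

theorem Phi_top_ne {Q : Type} [Group Q] [Finite Q] [Nontrivial Q] {p : ℕ} (hp : p.Prime)
    (hQ : IsPGroup p Q) : Phi p (⊤ : Subgroup Q) ≠ ⊤ := by
  have : Fact p.Prime := ⟨hp⟩
  obtain ⟨n, hn⟩ := IsPGroup.iff_card.mp hQ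
  have hn0 : n ≠ 0 := by
    rintro rfl
    rw [pow_zero] at hn
    have := Finite.one_lt_card (α := Q)
    omega
  obtain ⟨m, rfl⟩ : ∃ m, n = m + 1 := ⟨n - 1, by omega⟩
  obtain ⟨M, hM⟩ := Sylow.exists_subgroup_card_pow_prime p (n := m) (G := Q)
    (by rw [hn]; exact pow_dvd_pow p (Nat.le_succ m))
  have hidx : M.index = p := by
    have h1 := M.card_mul_index
    rw [hM, hn, pow_succ] at h1
    exact Nat.eq_of_mul_eq_mul_left (pow_pos hp.pos m) h1
  have hMn : M.Normal := by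
    apply Subgroup.normal_of_index_eq_minFac_card
    rw [hidx, hn, Nat.Prime.pow_minFac hp (Nat.succ_ne_zero m)]
  have hle : Phi p (⊤ : Subgroup Q) ≤ M := by
    rw [Phi, closure_le]
    have hcyc : IsCyclic (Q ⧸ M) := isCyclic_of_prime_card (p := p) hidx
    let _ : CommGroup (Q ⧸ M) := IsCyclic.commGroup
    rintro x (⟨a, _, b, _, rfl⟩ | ⟨a, _, rfl⟩)
    · have h1 : (QuotientGroup.mk' M) ⁅a, b⁆ = 1 := by
        rw [map_commutatorElement, commutatorElement_eq_one_iff_mul_comm]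
        exact mul_comm _ _
      exact (QuotientGroup.eq_one_iff _).mp h1
    · have := M.pow_index_mem a
      rw [hidx] at this
      exact this
  intro h
  rw [h, top_le_iff] at hle
  rw [hle, index_top] at hidx
  exact hp.one_lt.ne hidx

theorem pgroup_eq_one {Q : Type} [Group Q] {p n : ℕ} (hp : p.Prime) (hQ : IsPGroup p Q)
    (hpn : ¬ p ∣ n) {x : Q} (hx : x ^ n = 1) : x = 1 := by
  obtain ⟨k, hk⟩ := hQ x
  exact Pool.Agent.Helper851.eq_one_of_pow_coprime x (p ^ k) n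
    (Nat.Coprime.pow_left k ((Nat.Prime.coprime_iff_not_dvd hp).mpr hpn)) hk hx

theorem coreQ {Q : Type} [Group Q] [Finite Q] (hQ : IsPGroup 11 Q) (ζ : MulAut Q)
    (hζ5 : ζ ^ 5 = 1) (hζ1 : ζ ≠ 1) (A : Set (MulAut Q)) (hA : ∀ α ∈ A, ∀ x, α (ζ x) = ζ (α x))
    (hmin : ∀ Q₀ : Subgroup Q, (∀ α ∈ A, ∀ x ∈ Q₀, α x ∈ Q₀) → Q₀ ≠ ⊤ → ∀ x ∈ Q₀, ζ x = x) :
    ∀ Q₀ : Subgroup Q, (∀ α ∈ A, ∀ x ∈ Q₀, α x ∈ Q₀) → Q₀ ≠ ⊤ → Q₀ = ⊥ := by
  have p11 : Nat.Prime 11 := by norm_num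
  have : Fact (Nat.Prime 11) := ⟨p11⟩
  have hnt : Nontrivial Q := by
    by_contra hn
    rw [not_nontrivial_iff_subsingleton] at hn
    exact hζ1 (MulEquiv.ext fun x => Subsingleton.elim _ _)
  -- step 1
  set T : Subgroup Q := closure {x | ∃ r : Q, r * (ζ r)⁻¹ = x} with hT
  have hTinv : ∀ α ∈ A, ∀ x ∈ T, α x ∈ T := by
    intro α hα x hx
    have h1 : T ≤ T.comap α.toMonoidHom := by
      rw [hT, closure_le]
      rintro _ ⟨r, rfl⟩
      apply Subgroup.subset_closure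
      refine ⟨α r, ?_⟩
      change α r * (ζ (α r))⁻¹ = α (r * (ζ r)⁻¹)
      rw [map_mul, map_inv, hA α hα]
    exact h1 hx
  have hTtop : T = ⊤ := by
    by_contra hne
    have hfix := hmin T hTinv hne
    apply hζ1
    apply MulEquiv.ext
    intro x
    have ht : x * (ζ x)⁻¹ ∈ T := Subgroup.subset_closure ⟨x, rfl⟩
    set t := x * (ζ x)⁻¹ with htdef
    have h1 : ζ t = t := hfix t ht
    have h2 : ζ x = t⁻¹ * x := by rw [htdef]; group
    have h3 : ∀ n : ℕ, (ζ ^ n) x = (t⁻¹) ^ n * x := by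
      intro n
      induction n with
      | zero => simp
      | succ n ih =>
        rw [pow_succ', MulAut.mul_apply, ih, map_mul, map_pow, map_inv, h1, h2, ← mul_assoc,
          ← pow_succ]
    have h4 := h3 5
    rw [hζ5, MulAut.one_apply] at h4
    have h5 : (t⁻¹) ^ 5 = 1 := by
      have : (t⁻¹) ^ 5 * x = 1 * x := by rw [← h4, one_mul]
      exact mul_right_cancel this
    have h6 : t⁻¹ = 1 := pgroup_eq_one p11 hQ (by norm_num) h5
    rw [h2, h6, one_mul]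
    rfl
  -- step 2
  set Φ : Subgroup Q := Phi 11 (⊤ : Subgroup Q) with hΦ
  have hΦne : Φ ≠ ⊤ := Phi_top_ne p11 hQ
  have hΦfix : ∀ x ∈ Φ, ζ x = x := hmin Φ (fun α _ x hx => Phi_top_map 11 α hx) hΦne
  -- step 3
  have hΦcen : ∀ x ∈ Φ, ∀ q : Q, x * q = q * x := by
    intro x hx q
    have h1 : T ≤ centralizer {x} := by
      rw [hT, closure_le]
      rintro _ ⟨r, rfl⟩
      have h2 : ζ ⁅x, r⁻¹⁆ = ⁅x, r⁻¹⁆ := hΦfix _ (comm_mem_Phi (mem_top _) (mem_top _))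
      rw [map_commutatorElement, hΦfix x hx, map_inv] at h2
      rw [SetLike.mem_coe, mem_centralizer_singleton_iff]
      simp only [commutatorElement_def, inv_inv] at h2
      have h3 : (ζ r)⁻¹ * x⁻¹ * ζ r = r⁻¹ * x⁻¹ * r := by
        have h4 : x * ((ζ r)⁻¹ * x⁻¹ * ζ r) = x * (r⁻¹ * x⁻¹ * r) := by
          simpa [mul_assoc] using h2
        exact mul_left_cancel h4
      have h5 : (ζ r)⁻¹ * x * ζ r = r⁻¹ * x * r := by
        have h6 := congrArg (fun g => g⁻¹) h3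
        simpa [mul_assoc] using h6
      calc r * (ζ r)⁻¹ * x = r * ((ζ r)⁻¹ * x * ζ r) * (ζ r)⁻¹ := by group
        _ = r * (r⁻¹ * x * r) * (ζ r)⁻¹ := by rw [h5]
        _ = x * (r * (ζ r)⁻¹) := by group
    rw [hTtop] at h1
    have h2 := h1 (mem_top q)
    rw [mem_centralizer_singleton_iff] at h2
    exact h2.symm
  -- step 4
  let cg : CommGroup (Q ⧸ Φ) :=
    { (inferInstance : Group (Q ⧸ Φ)) with
      mul_comm := by
        intro a b
        obtain ⟨a, rfl⟩ := QuotientGroup.mk_surjective a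
        obtain ⟨b, rfl⟩ := QuotientGroup.mk_surjective b
        have h1 : (QuotientGroup.mk' Φ) ⁅a, b⁆ = 1 :=
          (QuotientGroup.eq_one_iff _).mpr (comm_mem_Phi (mem_top _) (mem_top _))
        rw [map_commutatorElement, commutatorElement_eq_one_iff_mul_comm] at h1
        exact h1 }
  let π : Q →* Q ⧸ Φ := QuotientGroup.mk' Φ
  have hπ1 : ∀ x, π x = 1 ↔ x ∈ Φ := fun x => QuotientGroup.eq_one_iff x
  have hπ11 : ∀ v : Q ⧸ Φ, v ^ 11 = 1 := by
    intro v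
    obtain ⟨x, rfl⟩ := QuotientGroup.mk_surjective v
    change π x ^ 11 = 1
    rw [← map_pow, hπ1]
    exact pow_mem_Phi (mem_top x)
  let ζb : (Q ⧸ Φ) →* (Q ⧸ Φ) := QuotientGroup.map Φ Φ ζ.toMonoidHom
    (fun x hx => Phi_top_map 11 ζ hx)
  have hζb : ∀ x, ζb (π x) = π (ζ x) := fun _ => rfl
  let Tb : AddMonoid.End (Additive (Q ⧸ Φ)) := MonoidHom.toAdditive ζb
  have hTb : ∀ x : Q, Tb (Additive.ofMul (π x)) = Additive.ofMul (π (ζ x)) := fun _ => rfl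
  have hTpow : ∀ n : ℕ, ∀ x : Q, (Tb ^ n) (Additive.ofMul (π x)) =
      Additive.ofMul (π ((ζ ^ n) x)) := by
    intro n
    induction n with
    | zero => intro x; rfl
    | succ n ih =>
      intro x
      rw [pow_succ, pow_succ]
      change (Tb ^ n) (Tb (Additive.ofMul (π x))) = _
      rw [hTb, ih]
      rfl
  have hζ10 : ζ ^ (11 - 1) = 1 := by
    have : (11 - 1 : ℕ) = 5 * 2 := by norm_num
    rw [this, pow_mul, hζ5, one_pow]
  have hT10 : Tb ^ (11 - 1) = 1 := by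
    apply AddMonoidHom.ext
    intro v
    obtain ⟨x, rfl⟩ := QuotientGroup.mk_surjective v.toMul
    change (Tb ^ (11 - 1)) (Additive.ofMul (π x)) = Additive.ofMul (π x)
    rw [hTpow, hζ10]
    rfl
  obtain ⟨x1, hx1⟩ : ∃ x : Q, π (ζ x) ≠ π x := by
    by_contra hcon
    push Not at hcon
    apply hΦne
    rw [eq_top_iff, ← hTtop, hT, closure_le]
    rintro _ ⟨r, rfl⟩
    rw [SetLike.mem_coe, ← hπ1, map_mul, map_inv, hcon r, mul_inv_cancel]
  have hx1' : Additive.ofMul (π x1) ≠ 0 := by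
    intro h
    apply hx1
    have h1 : π x1 = 1 := h
    have h2 : x1 ∈ Φ := (hπ1 x1).mp h1
    rw [hΦfix x1 h2]
  obtain ⟨j, hj, u, hu, hTu⟩ := (Pool.Agent.Helper851.exists_eigen_add 11 p11
    (fun m => congrArg Additive.ofMul (hπ11 m.toMul)) Tb hT10 (Additive.ofMul (π x1)) hx1').2
    (fun h => hx1 h)
  obtain ⟨x0, hx0⟩ := QuotientGroup.mk_surjective u.toMul
  have hu' : u = Additive.ofMul (π x0) := by
    apply Additive.toMul.injective
    exact hx0.symm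
  subst hu'
  have hx0ne : π x0 ≠ 1 := fun h => hu h
  have hord : orderOf (π x0) = 11 := orderOf_eq_prime (hπ11 _) hx0ne
  have hTn : ∀ n : ℕ, π ((ζ ^ n) x0) = π x0 ^ (j ^ n) := by
    intro n
    induction n with
    | zero => simp
    | succ n ih =>
      have h1 : π (ζ x0) = π x0 ^ j := hTu
      have h2 : π ((ζ ^ (n + 1)) x0) = ζb (π ((ζ ^ n) x0)) := by
        rw [pow_succ', MulAut.mul_apply]; rfl
      rw [h2, ih, map_pow, hζb, h1, ← pow_mul, ← pow_succ']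
  have hj5 : j ^ 5 ≡ 1 [MOD 11] := by
    have h1 := hTn 5
    rw [hζ5, MulAut.one_apply] at h1
    have h2 : π x0 ^ (j ^ 5) = π x0 ^ 1 := by rw [← h1, pow_one]
    have h3 := pow_eq_pow_iff_modEq.mp h2
    rwa [hord] at h3
  have hjj : ¬ (j * j ≡ 1 [MOD 11]) := by
    intro h
    apply hj
    have h1 : j ^ 5 = (j * j) * (j * j) * j := by ring
    rw [h1] at hj5
    have h2 : (j * j) * (j * j) * j ≡ 1 * 1 * j [MOD 11] := (h.mul h).mul_right j
    rw [one_mul, one_mul] at h2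
    exact h2.symm.trans hj5
  -- step 5
  let Qj : Subgroup Q := MonoidHom.eqLocus (π.comp ζ.toMonoidHom) ((powMonoidHom j).comp π)
  have hQj : ∀ x, x ∈ Qj ↔ π (ζ x) = π x ^ j := fun _ => Iff.rfl
  have hQjinv : ∀ α ∈ A, ∀ x ∈ Qj, α x ∈ Qj := by
    intro α hα x hx
    rw [hQj] at hx ⊢
    rw [← hA α hα, ← map_pow, ← map_pow]
    rw [← map_pow] at hx
    have h1 : (ζ x) * (x ^ j)⁻¹ ∈ Φ := by
      rw [← hπ1, map_mul, map_inv, hx, mul_inv_cancel]
    have h2 := (hπ1 _).mpr (Phi_top_map 11 α h1)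
    rw [map_mul, map_inv, map_mul, map_inv] at h2
    exact mul_inv_eq_one.mp h2
  have hQjtop : Qj = ⊤ := by
    by_contra hne
    have h1 : ζ x0 = x0 := hmin Qj hQjinv hne x0 ((hQj x0).mpr hTu)
    have h2 : π (ζ x0) = π x0 ^ j := hTu
    rw [h1] at h2
    have h3 : π x0 ^ 1 = π x0 ^ j := by rw [pow_one]; exact h2
    have h4 := pow_eq_pow_iff_modEq.mp h3
    rw [hord] at h4
    exact hj h4.symm
  -- step 6
  have hcomm : ∀ x y : Q, x * y = y * x := by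
    intro x y
    rw [← commutatorElement_eq_one_iff_mul_comm]
    by_contra hne
    have hcΦ : ⁅x, y⁆ ∈ Φ := comm_mem_Phi (mem_top _) (mem_top _)
    have hdec : ∀ x : Q, ∃ φ ∈ Φ, ζ x = x ^ j * φ := by
      intro x
      have h1 : x ∈ Qj := by rw [hQjtop]; exact mem_top x
      rw [hQj, ← map_pow] at h1
      refine ⟨(x ^ j)⁻¹ * ζ x, ?_, by group⟩
      rw [← hπ1, map_mul, map_inv, h1, inv_mul_cancel]
    obtain ⟨φ, hφ, hx⟩ := hdec x
    obtain ⟨φ', hφ', hy⟩ := hdec y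
    have h1 : ζ ⁅x, y⁆ = ⁅x, y⁆ := hΦfix _ hcΦ
    rw [map_commutatorElement, hx, hy] at h1
    have h2 : ⁅x ^ j * φ, y ^ j * φ'⁆ = ⁅x ^ j, y ^ j⁆ := by
      simp only [commutatorElement_def, mul_inv_rev]
      have e1 := hΦcen φ hφ
      have e2 := hΦcen φ' hφ'
      calc x ^ j * φ * (y ^ j * φ') * (φ⁻¹ * (x ^ j)⁻¹) * (φ'⁻¹ * (y ^ j)⁻¹)
          = x ^ j * (φ * (y ^ j * φ')) * (φ⁻¹ * (x ^ j)⁻¹) * (φ'⁻¹ * (y ^ j)⁻¹) := by group
        _ = x ^ j * ((y ^ j * φ') * φ) * (φ⁻¹ * (x ^ j)⁻¹) * (φ'⁻¹ * (y ^ j)⁻¹) := by rw [e1]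
        _ = x ^ j * y ^ j * (φ' * (x ^ j)⁻¹) * (φ'⁻¹ * (y ^ j)⁻¹) := by group
        _ = x ^ j * y ^ j * ((x ^ j)⁻¹ * φ') * (φ'⁻¹ * (y ^ j)⁻¹) := by rw [e2]
        _ = x ^ j * y ^ j * (x ^ j)⁻¹ * (y ^ j)⁻¹ := by group
    rw [h2, Pool.Agent.Helper851.comm_pow_pow x y (hΦcen _ hcΦ x) (hΦcen _ hcΦ y)] at h1
    have h3 : ⁅x, y⁆ ^ (j * j) = ⁅x, y⁆ ^ 1 := by rw [pow_one]; exact h1
    have h4 := pow_eq_pow_iff_modEq.mp h3
    obtain ⟨k, hk⟩ := IsPGroup.iff_orderOf.mp hQ ⁅x, y⁆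
    have hk0 : k ≠ 0 := by
      rintro rfl
      rw [pow_zero, orderOf_eq_one_iff] at hk
      exact hne hk
    rw [hk] at h4
    exact hjj (h4.of_dvd (dvd_pow_self 11 hk0))
  -- step 7
  intro Q₀ hinv hne
  have hfix := hmin Q₀ hinv hne
  let δ : Q →* Q :=
    { toFun := fun a => a * (ζ a)⁻¹
      map_one' := by simp
      map_mul' := by
        intro a b
        rw [map_mul, mul_inv_rev]
        calc a * b * ((ζ b)⁻¹ * (ζ a)⁻¹) = a * (b * (ζ b)⁻¹) * (ζ a)⁻¹ := by group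
          _ = a * ((ζ a)⁻¹ * (b * (ζ b)⁻¹)) := by
            rw [mul_assoc, hcomm (b * (ζ b)⁻¹)]
          _ = a * (ζ a)⁻¹ * (b * (ζ b)⁻¹) := by group }
  have hδs : Function.Surjective δ := by
    rw [← MonoidHom.range_eq_top, eq_top_iff, ← hTtop, hT, closure_le]
    rintro _ ⟨r, rfl⟩
    exact ⟨r, rfl⟩
  have hδi : Function.Injective δ := Finite.injective_iff_surjective.mpr hδs
  rw [eq_bot_iff]
  intro x hx
  rw [mem_bot]
  apply hδi
  rw [map_one]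
  change x * (ζ x)⁻¹ = 1
  rw [hfix x hx, mul_inv_cancel]

end Pool.Agent.Helper851.R
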