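import Mathlib
import Pool.Agent.Helper851.R5

set_option autoImplicit false

/-! The action on the `5`-group. -/

namespace Pool.Agent.Helper851.R

open Subgroup
open scoped commutatorElement

/-- The subgroup generated by the elements `r α(r)⁻¹`, `r ∈ W`. -/
def Dl {R : Type} [Group R] (α : MulAut R) (W : Subgroup R) : Subgroup R :=
  closure {x | ∃ r ∈ W, r * (α r)⁻¹ = x}

theorem coreR {R L : Type} [Group R] [Group L] (α : MulAut R)
    (h3 : ∀ x, α (α (α x)) = x) (hgen : Dl α ⊤ = ⊤) (ψ : R →* L)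
    (hψ1 : ∀ x ∈ Phi 5 (⊤ : Subgroup R), ∀ r, ψ x * ψ r = ψ r * ψ x)
    (hψ2 : ∀ x ∈ Phi 5 (⊤ : Subgroup R), ψ (α x) = ψ x)
    (hmin : ∀ W : Subgroup R, (∀ x ∈ W, α x ∈ W) → Dl α W ≠ ⊤ →
      ∀ a ∈ Dl α W, ∀ b ∈ Dl α W, ψ ⁅a, b⁆ = 1) (hbad : ∃ a b : R, ψ ⁅a, b⁆ ≠ 1) :
    ∀ W : Subgroup R, (∀ x ∈ W, α x ∈ W) → W ≠ ⊤ → W ≤ Phi 5 ⊤ := by
  set Φ : Subgroup R := Phi 5 (⊤ : Subgroup R) with hΦ
  let cg : CommGroup (R ⧸ Φ) :=
    { (inferInstance : Group (R ⧸ Φ)) with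
      mul_comm := by
        intro a b
        obtain ⟨a, rfl⟩ := QuotientGroup.mk_surjective a
        obtain ⟨b, rfl⟩ := QuotientGroup.mk_surjective b
        have h1 : (QuotientGroup.mk' Φ) ⁅a, b⁆ = 1 :=
          (QuotientGroup.eq_one_iff _).mpr (comm_mem_Phi (mem_top _) (mem_top _))
        rw [map_commutatorElement, commutatorElement_eq_one_iff_mul_comm] at h1
        exact h1 }
  let π : R →* R ⧸ Φ := QuotientGroup.mk' Φ
  have hπ1 : ∀ x, π x = 1 ↔ x ∈ Φ := fun x => QuotientGroup.eq_one_iff x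
  have hπ5 : ∀ x : R, (π x) ^ 5 = 1 := by
    intro x
    rw [← map_pow, hπ1]
    exact pow_mem_Phi (mem_top x)
  have hπeq : ∀ x y : R, π x = π y → ∃ φ ∈ Φ, x = y * φ := by
    intro x y h
    refine ⟨y⁻¹ * x, ?_, by group⟩
    rw [← hπ1, map_mul, map_inv, h, inv_mul_cancel]
  -- trace
  let ν : R →* R ⧸ Φ :=
    { toFun := fun r => π r * π (α r) * π (α (α r))
      map_one' := by simp
      map_mul' := by
        intro a b
        simp only [map_mul]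
        rw [mul_mul_mul_comm (π a), mul_mul_mul_comm (π a * π (α a))] }
  have hν : ∀ r, π r * π (α r) * π (α (α r)) = 1 := by
    have h1 : (⊤ : Subgroup R) ≤ ν.ker := by
      rw [← hgen, Dl, closure_le]
      rintro _ ⟨r, _, rfl⟩
      rw [SetLike.mem_coe, MonoidHom.mem_ker]
      change π (r * (α r)⁻¹) * π (α (r * (α r)⁻¹)) * π (α (α (r * (α r)⁻¹))) = 1
      simp only [map_mul, map_inv, h3]
      calc π r * (π (α r))⁻¹ * (π (α r) * (π (α (α r)))⁻¹) * (π (α (α r)) * (π r)⁻¹)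
          = π r * ((π (α r))⁻¹ * π (α r)) * ((π (α (α r)))⁻¹ * π (α (α r))) * (π r)⁻¹ := by group
        _ = 1 := by group
    intro r
    exact h1 (mem_top r)
  have hα2 : ∀ r, π (α (α r)) = (π r)⁻¹ * (π (α r))⁻¹ := by
    intro r
    have h1 := hν r
    rw [← mul_inv_rev, mul_comm (π (α r)) (π r)]
    exact (inv_eq_of_mul_eq_one_right h1).symm
  have hαΦ : ∀ x ∈ Φ, α x ∈ Φ := fun x hx => Phi_top_map 5 α hx
  -- Dl properties
  have hDle : ∀ W : Subgroup R, (∀ x ∈ W, α x ∈ W) → Dl α W ≤ W := by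
    intro W hW
    rw [Dl, closure_le]
    rintro _ ⟨r, hr, rfl⟩
    exact mul_mem hr (inv_mem (hW r hr))
  have hDinv : ∀ W : Subgroup R, (∀ x ∈ W, α x ∈ W) → ∀ x ∈ Dl α W, α x ∈ Dl α W := by
    intro W hW x hx
    have h1 : Dl α W ≤ (Dl α W).comap α.toMonoidHom := by
      conv_lhs => rw [Dl]
      rw [closure_le]
      rintro _ ⟨r, hr, rfl⟩
      apply Subgroup.subset_closure
      refine ⟨α r, hW r hr, ?_⟩
      change α r * (α (α r))⁻¹ = α (r * (α r)⁻¹)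
      rw [map_mul, map_inv]
    exact h1 hx
  have hDlift : ∀ W : Subgroup R, (∀ x ∈ W, α x ∈ W) → ∀ w ∈ W, ∃ w' ∈ Dl α W, π w' = π w := by
    intro W hW w hw
    set r := w ^ 4 * (α w) ^ 2 with hr
    have hrW : r ∈ W := mul_mem (pow_mem hw 4) (pow_mem (hW w hw) 2)
    refine ⟨r * (α r)⁻¹, Subgroup.subset_closure ⟨r, hrW, rfl⟩, ?_⟩
    rw [hr]
    simp only [map_mul, map_pow, map_inv, hα2]
    set a := π w
    set b := π (α w)
    have ha : a ^ 5 = 1 := hπ5 w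
    have hb : b ^ 5 = 1 := hπ5 (α w)
    have h1 : a ^ 4 * b ^ 2 * (b ^ 4 * (a⁻¹ * b⁻¹) ^ 2)⁻¹ = a ^ 5 * a := by
      rw [mul_pow, mul_inv_rev, mul_inv_rev, inv_pow, inv_pow, inv_inv, inv_inv]
      calc a ^ 4 * b ^ 2 * (b ^ 2 * a ^ 2 * (b ^ 4)⁻¹)
          = (a ^ 4 * a ^ 2) * (b ^ 2 * b ^ 2 * (b ^ 4)⁻¹) := by
            rw [mul_assoc (b ^ 2) (a ^ 2), mul_comm (a ^ 2) ((b ^ 4)⁻¹)]
            rw [mul_assoc, ← mul_assoc (b ^ 2) (b ^ 2), ← mul_assoc (b ^ 2 * b ^ 2)]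
            rw [mul_comm (b ^ 2 * b ^ 2 * (b ^ 4)⁻¹) (a ^ 2), ← mul_assoc]
        _ = a ^ 5 * a := by
            rw [← pow_add, ← pow_add, mul_inv_cancel, mul_one, ← pow_succ]
    rw [h1, ha, one_mul]
  -- the pairing
  have hB : ∀ a b c : R, ψ ⁅a * b, c⁆ = ψ ⁅a, c⁆ * ψ ⁅b, c⁆ := by
    intro a b c
    have hz : ψ ⁅b, c⁆ * ψ a = ψ a * ψ ⁅b, c⁆ := hψ1 _ (comm_mem_Phi (mem_top _) (mem_top _)) a
    have hz2 : ψ ⁅b, c⁆ * ψ ⁅a, c⁆ = ψ ⁅a, c⁆ * ψ ⁅b, c⁆ :=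
      hψ1 _ (comm_mem_Phi (mem_top _) (mem_top _)) _
    rw [commutatorElement_mul_left_eq_conj_mul, map_mul, map_mul, map_mul, map_inv, ← hz,
      mul_inv_cancel_right, hz2]
  have hBsymm : ∀ a b : R, ψ ⁅a, b⁆ = (ψ ⁅b, a⁆)⁻¹ := by
    intro a b
    rw [← commutatorElement_inv b a, map_inv]
  have hB' : ∀ a b c : R, ψ ⁅a, b * c⁆ = ψ ⁅a, b⁆ * ψ ⁅a, c⁆ := by
    intro a b c
    have hz2 : ψ ⁅b, a⁆ * ψ ⁅c, a⁆ = ψ ⁅c, a⁆ * ψ ⁅b, a⁆ :=
      hψ1 _ (comm_mem_Phi (mem_top _) (mem_top _)) _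
    rw [hBsymm a (b * c), hB, hz2, mul_inv_rev, ← hBsymm, ← hBsymm]
  have hBα : ∀ a b : R, ψ ⁅α a, α b⁆ = ψ ⁅a, b⁆ := by
    intro a b
    rw [← map_commutatorElement]
    exact hψ2 _ (comm_mem_Phi (mem_top _) (mem_top _))
  have hBΦ : ∀ x ∈ Φ, ∀ a : R, ψ ⁅x, a⁆ = 1 := by
    intro x hx a
    rw [map_commutatorElement, commutatorElement_eq_one_iff_mul_comm]
    exact hψ1 x hx a
  have hBΦ' : ∀ x ∈ Φ, ∀ a : R, ψ ⁅a, x⁆ = 1 := by
    intro x hx a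
    rw [hBsymm, hBΦ x hx, inv_one]
  have hBmod : ∀ a b φ φ' : R, φ ∈ Φ → φ' ∈ Φ → ψ ⁅a * φ, b * φ'⁆ = ψ ⁅a, b⁆ := by
    intro a b φ φ' hφ hφ'
    rw [hB, hBΦ φ hφ, mul_one, hB', hBΦ' φ' hφ', mul_one]
  -- existence of `u`
  obtain ⟨u, hu⟩ : ∃ u : R, ψ ⁅u, α u⁆ ≠ 1 := by
    by_contra hcon
    push Not at hcon
    obtain ⟨a, b, hab⟩ := hbad
    apply hab
    have h1 : ∀ u v : R, ψ ⁅u, α v⁆ = ψ ⁅α u, v⁆ := by
      intro u v
      have h2 := hcon (u * v)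
      rw [map_mul, hB, hB', hB', hcon u, hcon v, one_mul, mul_one] at h2
      rw [hBsymm (α u) v]
      exact eq_inv_of_mul_eq_one_left h2
    have h2 : ∀ u v : R, ψ ⁅u, α v⁆ = ψ ⁅α (α u), α v⁆ := by
      intro u v
      rw [h1, ← hBα]
    have h4 : ∀ u v : R, ψ ⁅u, v⁆ = ψ ⁅α (α u), v⁆ := by
      intro u v
      have := h2 u (α.symm v)
      rwa [MulEquiv.apply_symm_apply] at this
    -- `B(·, v)` is a hom
    let Bv : R →* L :=
      { toFun := fun a => ψ ⁅a, b⁆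
        map_one' := by simp
        map_mul' := fun a c => hB a c b }
    have h5 : (⊤ : Subgroup R) ≤ Bv.ker := by
      rw [← hgen, Dl, closure_le]
      rintro _ ⟨r, _, rfl⟩
      rw [SetLike.mem_coe, MonoidHom.mem_ker]
      change Bv (r * (α r)⁻¹) = 1
      rw [map_mul, map_inv, mul_inv_eq_one]
      change ψ ⁅r, b⁆ = ψ ⁅α r, b⁆
      rw [h4 (α r) b, h3]
    exact h5 (mem_top a)
  have hfull : ∀ W : Subgroup R, (∀ x ∈ W, α x ∈ W) → ∀ w ∈ W, ψ ⁅w, α w⁆ ≠ 1 → W = ⊤ := by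
    intro W hW w hw hne
    by_contra hWt
    have h1 : Dl α W ≠ ⊤ := by
      intro h
      exact hWt (top_le_iff.mp (h ▸ hDle W hW))
    obtain ⟨w', hw', hww'⟩ := hDlift W hW w hw
    obtain ⟨φ, hφ, rfl⟩ := hπeq w' w hww'
    apply hne
    have h2 := hmin W hW h1 _ hw' _ (hDinv W hW _ hw')
    rw [map_mul, hBmod _ _ _ _ hφ (hαΦ φ hφ)] at h2
    exact h2
  -- generation
  have hu3 : closure {π u, π (α u)} = ⊤ := by
    set U : Subgroup R := (closure {π u, π (α u)}).comap π with hU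
    have hUu : u ∈ U := Subgroup.subset_closure (Or.inl rfl)
    have hUinv : ∀ x ∈ U, α x ∈ U := by
      intro x hx
      have hx' : π x ∈ closure {π u, π (α u)} := hx
      rw [mem_closure_pair] at hx'
      obtain ⟨m, n, hmn⟩ := hx'
      have h1 : π x = π (u ^ m * (α u) ^ n) := by
        rw [← hmn, map_mul, map_zpow, map_zpow]
      obtain ⟨φ, hφ, hxφ⟩ := hπeq _ _ h1
      change π (α x) ∈ closure {π u, π (α u)}
      rw [hxφ, map_mul, map_mul, (hπ1 _).mpr (hαΦ φ hφ), mul_one, map_mul, map_mul, map_zpow,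
        map_zpow, map_zpow, map_zpow, hα2]
      have a1 : π u ∈ closure {π u, π (α u)} := Subgroup.subset_closure (Or.inl rfl)
      have a2 : π (α u) ∈ closure {π u, π (α u)} := Subgroup.subset_closure (Or.inr rfl)
      exact mul_mem (zpow_mem a2 m) (zpow_mem (mul_mem (inv_mem a1) (inv_mem a2)) n)
    have h1 := hfull U hUinv u hUu hu
    have h2 : (⊤ : Subgroup R).map π = (closure {π u, π (α u)}) := by
      rw [← h1, hU, map_comap_eq_self_of_surjective (QuotientGroup.mk'_surjective Φ)]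
    rw [← h2, ← MonoidHom.range_eq_map, MonoidHom.range_eq_top.mpr (QuotientGroup.mk'_surjective Φ)]
  -- conclusion
  intro W hW hWne w hw
  by_contra hwΦ
  have h1 : π w ∈ closure {π u, π (α u)} := by rw [hu3]; exact mem_top _
  rw [mem_closure_pair] at h1
  obtain ⟨a, b, hab⟩ := h1
  have h2 : π (α w) = (π u) ^ (-b) * (π (α u)) ^ (a - b) := by
    have e1 : π w = π (u ^ a * (α u) ^ b) := by
      rw [← hab, map_mul, map_zpow, map_zpow]
    obtain ⟨φ, hφ, hxφ⟩ := hπeq _ _ e1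
    rw [hxφ, map_mul, map_mul, (hπ1 _).mpr (hαΦ φ hφ), mul_one, map_mul, map_mul, map_zpow,
      map_zpow, map_zpow, map_zpow, hα2, mul_zpow, inv_zpow, inv_zpow, zpow_neg, zpow_sub,
      mul_left_comm]
  have h5z : ∀ (x : R) (n : ℤ), (5 : ℤ) ∣ n → π x ^ n = 1 := by
    rintro x n ⟨k, rfl⟩
    rw [zpow_mul]
    have : π x ^ (5 : ℤ) = 1 := by exact_mod_cast hπ5 x
    rw [this, one_zpow]
  set N : ℤ := a * (a - b) + b * b with hN
  have hN5 : ¬ (5 : ℤ) ∣ N := by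
    intro h
    apply hwΦ
    rw [← hπ1, ← hab]
    have h3' : (5 : ℤ) ∣ a ∧ (5 : ℤ) ∣ b := by
      have h4 : ((a * (a - b) + b * b : ℤ) : ZMod 5) = 0 := by
        rw [← hN]
        exact (ZMod.intCast_zmod_eq_zero_iff_dvd N 5).mpr (by exact_mod_cast h)
      push_cast at h4
      have h5 : ∀ x y : ZMod 5, x * (x - y) + y * y = 0 → x = 0 ∧ y = 0 := by decide
      obtain ⟨h6, h7⟩ := h5 _ _ h4
      exact ⟨by exact_mod_cast (ZMod.intCast_zmod_eq_zero_iff_dvd a 5).mp h6,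
        by exact_mod_cast (ZMod.intCast_zmod_eq_zero_iff_dvd b 5).mp h7⟩
    rw [h5z _ _ h3'.1, h5z _ _ h3'.2, one_mul]
  obtain ⟨m, hm⟩ : ∃ m : ℤ, (5 : ℤ) ∣ N * m - 1 := by
    have hcop : IsCoprime N 5 := by
      have : Prime (5 : ℤ) := by
        have := Nat.prime_iff_prime_int.mp (show Nat.Prime 5 by norm_num)
        exact_mod_cast this
      exact ((Prime.coprime_iff_not_dvd this).mpr hN5).symm
    obtain ⟨x, y, hxy⟩ := hcop
    exact ⟨x, -y, by linarith⟩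
  set w2 := (w ^ (a - b) * (α w) ^ (-b)) ^ m with hw2
  have hw2W : w2 ∈ W := zpow_mem (mul_mem (zpow_mem hw _) (zpow_mem (hW w hw) _)) m
  have hw2π : π w2 = π u := by
    rw [hw2, map_zpow, map_mul, map_zpow, map_zpow, h2, ← hab]
    have e1 : ((π u) ^ a * (π (α u)) ^ b) ^ (a - b) *
        ((π u) ^ (-b) * (π (α u)) ^ (a - b)) ^ (-b) = (π u) ^ N := by
      rw [mul_zpow, mul_zpow, ← zpow_mul, ← zpow_mul, ← zpow_mul, ← zpow_mul,
        mul_mul_mul_comm, ← zpow_add, ← zpow_add]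
      have e2 : a * (a - b) + -b * -b = N := by rw [hN]; ring
      have e3 : b * (a - b) + (a - b) * -b = 0 := by ring
      rw [e2, e3, zpow_zero, mul_one]
    rw [e1, ← zpow_mul]
    have e4 : N * m = (N * m - 1) + 1 := by ring
    rw [e4, zpow_add, h5z u _ hm, one_mul, zpow_one]
  obtain ⟨φ, hφ, hwφ⟩ := hπeq _ _ hw2π
  apply hWne
  apply hfull W hW w2 hw2W
  rw [hwφ, map_mul, hBmod _ _ _ _ hφ (hαΦ φ hφ)]
  exact hu

end Pool.Agent.Helper851.R
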