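import Mathlib
import Pool.Agent.Helper851.R4
import Pool.Agent.Helper851.R6

set_option autoImplicit false

/-! Tools on lower central series and orders. -/

namespace Pool.Agent.Helper851.R

open Subgroup
open scoped commutatorElement

variable {G : Type} [Group G]

theorem card_sup_dvd [Finite G] {A B : Subgroup G} (h : B ≤ normalizer (A : Set G)) :
    Nat.card (A ⊔ B : Subgroup G) ∣ Nat.card A * Nat.card B := by
  set S := A ⊔ B with hS
  have hA : A ≤ S := le_sup_left
  have hB : B ≤ S := le_sup_right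
  have hn : (A.subgroupOf S).Normal := by
    rw [normal_subgroupOf_iff_le_normalizer hA, hS, sup_le_iff]
    exact ⟨le_normalizer, h⟩
  have htop : A.subgroupOf S ⊔ B.subgroupOf S = ⊤ := by
    rw [← map_injective S.subtype_injective |>.eq_iff, Subgroup.map_sup, subgroupOf_map_subtype,
      subgroupOf_map_subtype, inf_eq_left.mpr hA, inf_eq_left.mpr hB, ← MonoidHom.range_eq_map,
      range_subtype]
  have h1 : (A.subgroupOf S).index ∣ Nat.card B := by
    rw [← relIndex_top_right, ← htop, relIndex_sup_left]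
    refine (relIndex_dvd_card _ _).trans ?_
    rw [Nat.card_congr (subgroupOfEquivOfLe hB).toEquiv]
  have h2 := (A.subgroupOf S).card_mul_index
  rw [Nat.card_congr (subgroupOfEquivOfLe hA).toEquiv] at h2
  rw [← h2]
  exact Nat.mul_dvd_mul_left _ h1

/-- Two commuting nilpotent subgroups generate a nilpotent subgroup. -/
theorem nil_sup {A C : Subgroup G} (h : ⁅A, C⁆ = ⊥) (hA : ∃ n, A.lowerCentralSeries n = ⊥)
    (hC : ∃ n, C.lowerCentralSeries n = ⊥) : ∃ n, (A ⊔ C).lowerCentralSeries n = ⊥ := by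
  rw [← isNilpotent_iff_lowerCentralSeries] at hA hC
  have hcomm : ∀ (m : ↥A) (n : ↥C), Commute (A.subtype m) (C.subtype n) := by
    intro m n
    rw [← commutatorElement_eq_one_iff_commute, ← mem_bot, ← h]
    exact commutator_mem_commutator m.2 n.2
  have h1 : ((⊤ : Subgroup (↥A × ↥C)).map (A.subtype.noncommCoprod C.subtype hcomm)) = A ⊔ C := by
    rw [← MonoidHom.range_eq_map, MonoidHom.noncommCoprod_range, range_subtype, range_subtype]
  obtain ⟨n, hn⟩ := Subgroup.nilpotent_iff_lowerCentralSeries.mp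
    (inferInstance : Group.IsNilpotent (↥A × ↥C))
  refine ⟨n, ?_⟩
  rw [← h1, ← map_lowerCentralSeries, hn, Subgroup.map_bot]

theorem nil_of_isPGroup [Finite G] {p : ℕ} (hp : p.Prime) {A : Subgroup G} (hA : IsPGroup p A) :
    ∃ n, A.lowerCentralSeries n = ⊥ := by
  have : Fact p.Prime := ⟨hp⟩
  rw [← isNilpotent_iff_lowerCentralSeries]
  exact hA.isNilpotent

theorem lcs_sup_le {A B : Subgroup G} [hA : A.Normal] (hB : ∃ n, B.lowerCentralSeries n = ⊥) :
    ∃ n, (A ⊔ B).lowerCentralSeries n ≤ A := by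
  obtain ⟨n, hn⟩ := hB
  refine ⟨n, ?_⟩
  have h1 : (A ⊔ B).map (QuotientGroup.mk' A) = B.map (QuotientGroup.mk' A) := by
    rw [Subgroup.map_sup, QuotientGroup.map_mk'_self, bot_sup_eq]
  have h2 : ((A ⊔ B).lowerCentralSeries n).map (QuotientGroup.mk' A) = ⊥ := by
    rw [map_lowerCentralSeries, h1, ← map_lowerCentralSeries, hn, Subgroup.map_bot]
  rw [Subgroup.map_eq_bot_iff, QuotientGroup.ker_mk'] at h2
  exact h2

theorem lcs_le {A B : Subgroup G} (n : ℕ) (h : A ≤ B) :
    A.lowerCentralSeries n ≤ B.lowerCentralSeries n := lowerCentralSeries_mono n h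

/-- A maximal subgroup meets a normal subgroup in a normal subgroup, under a nilpotency
condition. -/
theorem normal_inter [Finite G] {M N K : Subgroup G} (hM : IsCoatom M) [hN : N.Normal]
    (hK : K ≤ M) (hnil : ∃ n, N.lowerCentralSeries n ≤ K) (hNM : ¬ N ≤ M) : (M ⊓ N).Normal := by
  classical
  have hMle : M ≤ normalizer ((M ⊓ N : Subgroup G) : Set G) := by
    rw [le_normalizer_iff]
    intro g hg x hx
    exact ⟨M.mul_mem (M.mul_mem hg hx.1) (M.inv_mem hg), hN.conj_mem x hx.2 g⟩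
  rw [← normalizer_eq_top_iff]
  by_contra hne
  have heq : normalizer ((M ⊓ N : Subgroup G) : Set G) = M := by
    rcases hM.le_iff.mp hMle with h | h
    · exact absurd h hne
    · exact h
  have hex : ∃ n, N.lowerCentralSeries n ≤ M := by
    obtain ⟨n, hn⟩ := hnil
    exact ⟨n, hn.trans hK⟩
  have h0 : Nat.find hex ≠ 0 := by
    intro h
    have := Nat.find_spec hex
    rw [h] at this
    exact hNM this
  obtain ⟨i, hi⟩ : ∃ i, Nat.find hex = i + 1 := ⟨Nat.find hex - 1, by omega⟩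
  have hspec := Nat.find_spec hex
  rw [hi] at hspec
  have hmin : ¬ N.lowerCentralSeries i ≤ M := Nat.find_min hex (by omega)
  apply hmin
  rw [← heq, le_normalizer_iff]
  rintro x hx m ⟨hm1, hm2⟩
  have hxN : x ∈ N := lowerCentralSeries_le_self N i hx
  refine ⟨?_, hN.conj_mem m hm2 x⟩
  have h1 : x * m * x⁻¹ = ⁅x, m⁆ * m := by rw [commutatorElement_def]; group
  rw [h1]
  refine mul_mem (hspec ?_) hm1
  rw [Subgroup.lowerCentralSeries_succ]
  exact commutator_mem_commutator hx hm2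

/-- The commutator subgroup with a cyclic group. -/
theorem comm_zpowers [Finite G] {W : Subgroup G} {y : G} (hy : y ∈ normalizer (W : Set G)) :
    ⁅W, zpowers y⁆ = closure {x | ∃ r ∈ W, ⁅r, y⁆ = x} := by
  apply le_antisymm
  · rw [commutator_le]
    intro r hr g hg
    rw [← mem_powers_iff_mem_zpowers] at hg
    obtain ⟨n, rfl⟩ := hg
    simp only
    induction n with
    | zero => simp
    | succ n ih =>
      have h1 : ⁅r, y ^ (n + 1)⁆ = ⁅r, y ^ n⁆ * ⁅y ^ n * r * (y ^ n)⁻¹, y⁆ := by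
        have e : y ^ (n + 1) = y ^ n * y := pow_succ y n
        rw [e]
        simp only [commutatorElement_def]
        have e2 : Commute (y ^ n) y := (Commute.refl y).pow_left n
        have e3 : y⁻¹ * (y ^ n)⁻¹ = (y ^ n)⁻¹ * y⁻¹ := by
          rw [← mul_inv_rev, ← mul_inv_rev, e2.eq]
        calc r * (y ^ n * y) * r⁻¹ * (y ^ n * y)⁻¹
            = r * y ^ n * r⁻¹ * (r * y * r⁻¹) * (y⁻¹ * (y ^ n)⁻¹) := by group
          _ = r * y ^ n * r⁻¹ * (r * y * r⁻¹) * ((y ^ n)⁻¹ * y⁻¹) := by rw [e3]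
          _ = r * y ^ n * r⁻¹ * (y ^ n)⁻¹ * (y ^ n * r * (y * (r⁻¹ * (y ^ n)⁻¹)) * y⁻¹) := by group
          _ = r * y ^ n * r⁻¹ * (y ^ n)⁻¹ *
              (y ^ n * r * ((y ^ n)⁻¹ * (y ^ n * y)) * r⁻¹ * (y ^ n)⁻¹ * y⁻¹) := by group
          _ = r * y ^ n * r⁻¹ * (y ^ n)⁻¹ *
              (y ^ n * r * ((y ^ n)⁻¹ * (y * y ^ n)) * r⁻¹ * (y ^ n)⁻¹ * y⁻¹) := by rw [e2.eq]
          _ = _ := by group
      rw [h1]
      refine mul_mem ih (Subgroup.subset_closure ⟨_, ?_, rfl⟩)
      exact (mem_normalizer_iff.mp (pow_mem hy n) r).mp hr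
  · rw [closure_le]
    rintro _ ⟨r, hr, rfl⟩
    exact commutator_mem_commutator hr (mem_zpowers y)

end Pool.Agent.Helper851.R
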