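import Mathlib
import Pool.Agent.Helper851.R7

set_option autoImplicit false

/-! Minimal bad configurations. -/

namespace Pool.Agent.Helper851.R

open Subgroup
open scoped commutatorElement

variable {G : Type} [Group G]

/-- A minimal bad configuration. -/
structure MB (P Q R : Subgroup G) (y : G) : Prop where
  cfg : Cfg P Q R y
  bad : ⁅P, ⁅Q, ⁅R, R⁆⁆⁆ ≠ ⊥
  gen : P ⊔ Q ⊔ R ⊔ zpowers y = ⊤
  mP : ∀ P' ≤ P, Q ≤ normalizer (P' : Set G) → R ≤ normalizer (P' : Set G) →
    y ∈ normalizer (P' : Set G) → P' ≠ P → ⁅P', ⁅Q, ⁅R, R⁆⁆⁆ = ⊥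
  mQ : ∀ Q' ≤ Q, R ≤ normalizer (Q' : Set G) → y ∈ normalizer (Q' : Set G) → Q' ≠ Q →
    ⁅P, ⁅Q', ⁅R, R⁆⁆⁆ = ⊥
  mR : ∀ R' ≤ R, y ∈ normalizer (R' : Set G) → ⁅R', zpowers y⁆ = R' → R' ≠ R →
    ⁅P, ⁅Q, ⁅R', R'⁆⁆⁆ = ⊥

theorem Cfg.sup_gen [Finite G] (hprop : ∀ M : Subgroup G, M ≠ ⊤ → ClsOf DF ↥M)
    {P Q R : Subgroup G} {y : G} (h : Cfg P Q R y) (hbad : ⁅P, ⁅Q, ⁅R, R⁆⁆⁆ ≠ ⊥) :
    P ⊔ Q ⊔ R ⊔ zpowers y = ⊤ := by
  by_contra hne
  set M := P ⊔ Q ⊔ R ⊔ zpowers y with hM
  have hPM : P ≤ M := le_sup_left.trans (le_sup_left.trans le_sup_left)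
  have hQM : Q ≤ M := le_sup_right.trans (le_sup_left.trans le_sup_left)
  have hRM : R ≤ M := le_sup_right.trans le_sup_left
  have hyM : y ∈ M := le_sup_right (a := P ⊔ Q ⊔ R) (mem_zpowers y)
  have eP : (P.subgroupOf M).map M.subtype = P := map_subgroupOf_eq_of_le hPM
  have eQ : (Q.subgroupOf M).map M.subtype = Q := map_subgroupOf_eq_of_le hQM
  have eR : (R.subgroupOf M).map M.subtype = R := map_subgroupOf_eq_of_le hRM
  have hc : Cfg (P.subgroupOf M) (Q.subgroupOf M) (R.subgroupOf M) (⟨y, hyM⟩ : ↥M) := by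
    apply Cfg.of_map M.subtype M.subtype_injective
    rw [eP, eQ, eR]
    exact h
  have h1 := (hprop M hne).2.2 _ ⟨_, _, _, _, hc, rfl⟩
  apply hbad
  have h2 : (⁅P.subgroupOf M, ⁅Q.subgroupOf M, ⁅R.subgroupOf M, R.subgroupOf M⁆⁆⁆).map M.subtype
      = ⊥ := by rw [h1, Subgroup.map_bot]
  rw [map_commutator, map_commutator, map_commutator, eP, eQ, eR] at h2
  exact h2

theorem mem_normalizer_sup {A B : Subgroup G} {g : G} (hA : g ∈ normalizer (A : Set G))
    (hB : g ∈ normalizer (B : Set G)) : g ∈ normalizer ((A ⊔ B : Subgroup G) : Set G) :=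
  normalizer_inf_normalizer_le_normalizer_sup A B ⟨hA, hB⟩

theorem Cfg.card_dvd [Finite G] {P Q R : Subgroup G} {y : G} (h : Cfg P Q R y)
    (hgen : P ⊔ Q ⊔ R ⊔ zpowers y = ⊤) :
    Nat.card G ∣ Nat.card P * Nat.card Q * Nat.card R * Nat.card (zpowers y) := by
  have h1 : Nat.card (P ⊔ Q ⊔ R ⊔ zpowers y : Subgroup G) ∣
      Nat.card (P ⊔ Q ⊔ R : Subgroup G) * Nat.card (zpowers y) := by
    apply card_sup_dvd
    apply zpowers_le_normalizer
    exact mem_normalizer_sup (mem_normalizer_sup h.yP h.yQ) h.yR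
  have h2 : Nat.card (P ⊔ Q ⊔ R : Subgroup G) ∣
      Nat.card (P ⊔ Q : Subgroup G) * Nat.card R := by
    apply card_sup_dvd
    intro r hr
    exact mem_normalizer_sup (h.RP hr) (h.RQ hr)
  have h3 : Nat.card (P ⊔ Q : Subgroup G) ∣ Nat.card P * Nat.card Q := card_sup_dvd h.QP
  rw [hgen, card_top] at h1
  exact h1.trans (Nat.mul_dvd_mul_right (h2.trans (Nat.mul_dvd_mul_right h3 _)) _)

theorem card_coprime [Finite G] {p q : ℕ} (hp : p.Prime) (hq : q.Prime) (hne : p ≠ q)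
    {A B : Subgroup G} (hA : IsPGroup p A) (hB : IsPGroup q B) :
    (Nat.card A).Coprime (Nat.card B) := by
  have : Fact p.Prime := ⟨hp⟩
  have : Fact q.Prime := ⟨hq⟩
  obtain ⟨n, hn⟩ := IsPGroup.iff_card.mp hA
  obtain ⟨m, hm⟩ := IsPGroup.iff_card.mp hB
  rw [hn, hm]
  exact Nat.Coprime.pow n m ((Nat.coprime_primes hp hq).mpr hne)

theorem eq_of_card_dvd [Finite G] {A B : Subgroup G} (h : A ≤ B) (hd : Nat.card B ∣ Nat.card A) :
    A = B := Subgroup.eq_of_le_of_card_ge h (Nat.le_of_dvd Nat.card_pos hd)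

theorem Cfg.toMB [Finite G] (hprop : ∀ M : Subgroup G, M ≠ ⊤ → ClsOf DF ↥M)
    {P Q R : Subgroup G} {y : G} (h : Cfg P Q R y) (hbad : ⁅P, ⁅Q, ⁅R, R⁆⁆⁆ ≠ ⊥) :
    MB P Q R y where
  cfg := h
  bad := hbad
  gen := h.sup_gen hprop hbad
  mP := by
    intro P' hP' h1 h2 h3 hne
    by_contra hb
    have hc : Cfg P' Q R y := h.setP P' (h.hP.to_le hP') h1 h2 h3
    have hd := hc.card_dvd (hc.sup_gen hprop hb)
    apply hne
    apply eq_of_card_dvd hP'
    have hPG : Nat.card P ∣ Nat.card G := card_subgroup_dvd_card P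
    have h4 := hPG.trans hd
    have c1 := card_coprime (by norm_num) (by norm_num) (by norm_num) h.hP h.hQ
    have c2 := card_coprime (by norm_num) (by norm_num) (by norm_num) h.hP h.hR
    have c3 := card_coprime (by norm_num) (by norm_num) (by norm_num) h.hP h.hy
    exact c1.dvd_of_dvd_mul_right (c2.dvd_of_dvd_mul_right (c3.dvd_of_dvd_mul_right h4))
  mQ := by
    intro Q' hQ' h2 h3 hne
    by_contra hb
    have hc : Cfg P Q' R y :=
      { h with
        hQ := h.hQ.to_le hQ'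
        QP := hQ'.trans h.QP
        RQ := h2
        yQ := h3
        cen := by
          rw [← le_bot_iff, ← h.cen]
          exact commutator_mono hQ' le_rfl }
    have hd := hc.card_dvd (hc.sup_gen hprop hb)
    apply hne
    apply eq_of_card_dvd hQ'
    have hPG : Nat.card Q ∣ Nat.card G := card_subgroup_dvd_card Q
    have h4 := hPG.trans hd
    have c1 := card_coprime (by norm_num) (by norm_num) (by norm_num) h.hQ h.hP
    have c2 := card_coprime (by norm_num) (by norm_num) (by norm_num) h.hQ h.hR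
    have c3 := card_coprime (by norm_num) (by norm_num) (by norm_num) h.hQ h.hy
    exact c1.dvd_of_dvd_mul_left (c2.dvd_of_dvd_mul_right (c3.dvd_of_dvd_mul_right h4))
  mR := by
    intro R' hR' h3 hRy hne
    by_contra hb
    have hc : Cfg P Q R' y :=
      { h with
        hR := h.hR.to_le hR'
        RP := hR'.trans h.RP
        RQ := hR'.trans h.RQ
        yR := h3
        Ry := hRy
        y3 := by
          rw [← le_bot_iff, ← h.y3]
          exact commutator_mono hR' le_rfl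
        cen := by
          rw [← le_bot_iff, ← h.cen]
          exact commutator_mono le_rfl (commutator_mono (Phi_mono hR')
            (sup_le_sup_right hR' _)) }
    have hd := hc.card_dvd (hc.sup_gen hprop hb)
    apply hne
    apply eq_of_card_dvd hR'
    have hPG : Nat.card R ∣ Nat.card G := card_subgroup_dvd_card R
    have h4 := hPG.trans hd
    have c1 := card_coprime (by norm_num) (by norm_num) (by norm_num) h.hR h.hP
    have c2 := card_coprime (by norm_num) (by norm_num) (by norm_num) h.hR h.hQ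
    have c3 := card_coprime (by norm_num) (by norm_num) (by norm_num) h.hR h.hy
    exact (Nat.Coprime.mul_right c1 c2).dvd_of_dvd_mul_left (c3.dvd_of_dvd_mul_right h4)

variable {P Q R : Subgroup G} {y : G}

theorem MB.P_normal (h : MB P Q R y) : P.Normal := by
  rw [← normalizer_eq_top_iff, eq_top_iff, ← h.gen]
  refine sup_le (sup_le (sup_le le_normalizer h.cfg.QP) h.cfg.RP) ?_
  exact zpowers_le_normalizer h.cfg.yP

theorem MB.T_normal (h : MB P Q R y) : (P ⊔ Q).Normal := by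
  rw [← normalizer_eq_top_iff, eq_top_iff, ← h.gen]
  refine sup_le (sup_le le_normalizer ?_) ?_
  · intro r hr
    exact mem_normalizer_sup (h.cfg.RP hr) (h.cfg.RQ hr)
  · exact zpowers_le_normalizer (mem_normalizer_sup h.cfg.yP h.cfg.yQ)

theorem MB.U_normal (h : MB P Q R y) : (P ⊔ Q ⊔ R).Normal := by
  rw [← normalizer_eq_top_iff, eq_top_iff, ← h.gen]
  refine sup_le le_normalizer ?_
  exact zpowers_le_normalizer (mem_normalizer_sup (mem_normalizer_sup h.cfg.yP h.cfg.yQ) h.cfg.yR)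

theorem MB.PD [Finite G] (h : MB P Q R y) : ⁅Q, ⁅R, R⁆⁆ = Q := by
  have hRR : ⁅R, R⁆ ≤ R := commutator_le_self R
  have hD : ⁅Q, ⁅R, R⁆⁆ ≤ Q := le_normalizer_iff_commutator_le_left.mp (hRR.trans h.cfg.RQ)
  by_contra hne
  have hn : ∀ g, g ∈ normalizer (Q : Set G) → g ∈ normalizer (R : Set G) →
      g ∈ normalizer ((⁅Q, ⁅R, R⁆⁆ : Subgroup G) : Set G) := fun g h1 h2 =>
    normalizer_commutator_le Q ⁅R, R⁆ ⟨h1, normalizer_commutator_le R R ⟨h2, h2⟩⟩
  have h1 := h.mQ _ hD (fun r hr => hn r (h.cfg.RQ hr) (le_normalizer hr))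
    (hn y h.cfg.yQ h.cfg.yR) hne
  rw [comm_comm (by norm_num) (h.cfg.hR.to_le hRR) (not_dvd_card_of_isPGroup (p := 11)
    (by norm_num) (by norm_num) (by norm_num) h.cfg.hQ) (hRR.trans h.cfg.RQ)] at h1
  exact h.bad h1

theorem MB.bad' [Finite G] (h : MB P Q R y) : ⁅P, Q⁆ ≠ ⊥ := by
  have := h.bad
  rwa [h.PD] at this

theorem MB.factA [Finite G] (h : MB P Q R y) {P₀ : Subgroup G} (hle : P₀ ≤ P)
    (hQ : Q ≤ normalizer (P₀ : Set G)) (hR : R ≤ normalizer (P₀ : Set G))
    (hy : y ∈ normalizer (P₀ : Set G)) (hne : P₀ ≠ P) : ⁅P₀, Q⁆ = ⊥ := by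
  have := h.mP P₀ hle hQ hR hy hne
  rwa [h.PD] at this

theorem K_inter [hPn : P.Normal] (hP : IsPGroup 2 P) {x : G}
    (hx : x ∈ P ⊔ centralizer (P : Set G)) (h11 : ∃ k, x ^ 11 ^ k = 1) :
    x ∈ centralizer (P : Set G) := by
  rw [mem_sup_of_normal_left] at hx
  obtain ⟨a, ha, c, hc, rfl⟩ := hx
  obtain ⟨k, hk⟩ := h11
  obtain ⟨m, hm⟩ := hP ⟨a, ha⟩
  have hm' : a ^ 2 ^ m = 1 := congrArg Subtype.val hm
  let φ : G →* MulAut ↥P := MulAut.conjNormal
  have hφ : ∀ g : G, φ g = 1 ↔ g ∈ centralizer (P : Set G) := by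
    intro g
    rw [mem_centralizer_iff]
    constructor
    · intro h1 p hp
      have h2 := congrArg (fun α : MulAut ↥P => ((α ⟨p, hp⟩ : ↥P) : G)) h1
      have h3 : g * p * g⁻¹ = p := h2
      calc p * g = (g * p * g⁻¹) * g := by rw [h3]
        _ = g * p := by group
    · intro h1
      apply MulEquiv.ext
      rintro ⟨p, hp⟩
      apply Subtype.ext
      change g * p * g⁻¹ = p
      rw [← h1 p hp, mul_inv_cancel_right]
  have h1 : φ (a * c) = φ a := by rw [map_mul, (hφ c).mpr hc, mul_one]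
  rw [← hφ]
  apply Pool.Agent.Helper851.eq_one_of_pow_coprime _ (11 ^ k) (2 ^ m)
  · exact Nat.Coprime.pow k m (by norm_num)
  · rw [← map_pow, hk, map_one]
  · rw [h1, ← map_pow, hm', map_one]

theorem MB.exists_f [Finite G] (h : MB P Q R y) : ∃ (H : Type) (_ : Group H) (f : G →* H),
    Function.Surjective f ∧ (Q.map f).Normal ∧ ∀ X ≤ Q, (⁅P, X⁆ = ⊥ ↔ X.map f = ⊥) := by
  have hPn := h.P_normal
  have hTn := h.T_normal
  have hK : (P ⊔ centralizer (P : Set G)).Normal := inferInstance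
  refine ⟨G ⧸ (P ⊔ centralizer (P : Set G)), inferInstance,
    QuotientGroup.mk' (P ⊔ centralizer (P : Set G)), QuotientGroup.mk'_surjective _, ?_, ?_⟩
  · have h1 : (P ⊔ Q).map (QuotientGroup.mk' (P ⊔ centralizer (P : Set G))) =
        Q.map (QuotientGroup.mk' (P ⊔ centralizer (P : Set G))) := by
      have h2 : P.map (QuotientGroup.mk' (P ⊔ centralizer (P : Set G))) = ⊥ := by
        rw [Subgroup.map_eq_bot_iff, QuotientGroup.ker_mk']
        exact le_sup_left
      rw [Subgroup.map_sup, h2, bot_sup_eq]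
    rw [← h1]
    exact Subgroup.Normal.map hTn _ (QuotientGroup.mk'_surjective _)
  · intro X hX
    rw [Subgroup.map_eq_bot_iff, QuotientGroup.ker_mk', commutator_comm,
      commutator_eq_bot_iff_le_centralizer]
    constructor
    · intro h1
      exact h1.trans le_sup_right
    · intro h1 x hx
      apply K_inter h.cfg.hP (h1 hx)
      obtain ⟨k, hk⟩ := h.cfg.hQ ⟨x, hX hx⟩
      exact ⟨k, congrArg Subtype.val hk⟩

/-- The action on a normal subgroup through a homomorphism. -/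
def act {H : Type} [Group H] (f : G →* H) (Qb : Subgroup H) [Qb.Normal] : G →* MulAut ↥Qb :=
  (MulAut.conjNormal : H →* MulAut ↥Qb).comp f

theorem act_apply {H : Type} [Group H] (f : G →* H) (Qb : Subgroup H) [Qb.Normal] (g : G)
    (x : ↥Qb) : ((act f Qb g x : ↥Qb) : H) = f g * x * (f g)⁻¹ := rfl

theorem act_eq_one_iff {H : Type} [Group H] (f : G →* H) (Qb : Subgroup H) [Qb.Normal] (g : G) :
    act f Qb g = 1 ↔ ∀ x ∈ Qb, x * f g = f g * x := by
  constructor
  · intro h1 x hx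
    have h2 := congrArg (fun α : MulAut ↥Qb => ((α ⟨x, hx⟩ : ↥Qb) : H)) h1
    have h3 : f g * x * (f g)⁻¹ = x := h2
    calc x * f g = (f g * x * (f g)⁻¹) * f g := by rw [h3]
      _ = f g * x := by group
  · intro h1
    apply MulEquiv.ext
    rintro ⟨x, hx⟩
    apply Subtype.ext
    change f g * x * (f g)⁻¹ = x
    rw [← h1 x hx, mul_inv_cancel_right]

theorem act_bot_iff {H : Type} [Group H] (f : G →* H) (Q : Subgroup G) [(Q.map f).Normal]
    (X : Subgroup G) : (∀ g ∈ X, act f (Q.map f) g = 1) ↔ (⁅Q, X⁆).map f = ⊥ := by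
  rw [map_commutator, commutator_eq_bot_iff_le_centralizer]
  constructor
  · rintro h1 x hx
    rw [mem_centralizer_iff]
    rintro _ ⟨g, hg, rfl⟩
    exact ((act_eq_one_iff f _ g).mp (h1 g hg) x hx).symm
  · intro h1 g hg
    rw [act_eq_one_iff]
    intro x hx
    have h2 := mem_centralizer_iff.mp (h1 hx) (f g) (mem_map_of_mem f hg)
    exact h2.symm

end Pool.Agent.Helper851.R
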