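import Mathlib
import Pool.Agent.Helper851.R8

set_option autoImplicit false

/-! Minimality of the action on `Q` and on `R`. -/

namespace Pool.Agent.Helper851.R

open Subgroup
open scoped commutatorElement

variable {G : Type} [Group G] {P Q R : Subgroup G} {y : G}

theorem comm_left_pow {L : Type} [Group L] (a b : L) (ha : ⁅a, b⁆ * a = a * ⁅a, b⁆) (j : ℕ) :
    a ^ j * b = ⁅a, b⁆ ^ j * (b * a ^ j) := by
  set z := ⁅a, b⁆ with hz
  have hab : a * b = z * (b * a) := by rw [hz, commutatorElement_def]; group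
  induction j with
  | zero => simp
  | succ j ih =>
    have hcj : a * z ^ j = z ^ j * a := ((show Commute z a from ha).symm.pow_right j)
    calc a ^ (j + 1) * b = a * (a ^ j * b) := by rw [pow_succ', mul_assoc]
      _ = a * (z ^ j * (b * a ^ j)) := by rw [ih]
      _ = (a * z ^ j) * (b * a ^ j) := by rw [mul_assoc]
      _ = z ^ j * (a * b) * a ^ j := by rw [hcj]; group
      _ = z ^ j * (z * (b * a)) * a ^ j := by rw [hab]
      _ = z ^ (j + 1) * (b * a ^ (j + 1)) := by rw [pow_succ, pow_succ']; group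

theorem MB.psi_comm (h : MB P Q R y) {H : Type} [Group H] (f : G →* H) [(Q.map f).Normal]
    {x g : G} (hx : x ∈ Phi 5 R) (hg : g ∈ R ⊔ zpowers y) :
    act f (Q.map f) x * act f (Q.map f) g = act f (Q.map f) g * act f (Q.map f) x := by
  rw [← commutatorElement_eq_one_iff_mul_comm, ← map_commutatorElement]
  apply (act_bot_iff f Q ⁅Phi 5 R, R ⊔ zpowers y⁆).mpr
  · rw [h.cfg.cen, Subgroup.map_bot]
  · exact commutator_mem_commutator hx hg

theorem MB.psi_ne [Finite G] (h : MB P Q R y) {H : Type} [Group H] (f : G →* H)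
    [(Q.map f).Normal] (hf : ∀ X ≤ Q, (⁅P, X⁆ = ⊥ ↔ X.map f = ⊥)) :
    ∃ a ∈ R, ∃ b ∈ R, act f (Q.map f) ⁅a, b⁆ ≠ 1 := by
  by_contra hcon
  push Not at hcon
  have h1 : ⁅R, R⁆ ≤ (act f (Q.map f)).ker := by
    rw [commutator_le]
    intro a ha b hb
    exact hcon a ha b hb
  have h2 : (⁅Q, ⁅R, R⁆⁆).map f = ⊥ := by
    rw [← act_bot_iff]
    intro g hg
    exact h1 hg
  rw [h.PD] at h2
  exact h.bad' ((hf Q le_rfl).mpr h2)

/-- The conjugation invariance gives membership in the normaliser. -/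
theorem mem_normalizer_of_conj [Finite G] {A : Subgroup G} {g : G}
    (hg : ∀ x ∈ A, g * x * g⁻¹ ∈ A) : g ∈ normalizer (A : Set G) := by
  rw [mem_normalizer_iff_map_conj_eq]
  apply Subgroup.eq_of_le_of_card_ge
  · rintro _ ⟨x, hx, rfl⟩
    exact hg x hx
  · exact (Subgroup.card_map_of_injective (MulAut.conj g).injective).ge

theorem MB.factB [Finite G] (h : MB P Q R y) {Q₂ : Subgroup G} (hle : Q₂ ≤ Q)
    (hR : R ≤ normalizer (Q₂ : Set G)) (hy : y ∈ normalizer (Q₂ : Set G)) (hne : Q₂ ≠ Q) :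
    ⁅P, Q₂⁆ = ⊥ := by
  obtain ⟨H, _, f, hfs, hQn, hf⟩ := h.exists_f
  have hfin : Finite H := Finite.of_surjective f hfs
  obtain ⟨a, ha, b, hb, hab⟩ := h.psi_ne f hf
  set ψ := act f (Q.map f) with hψ
  have hzΦ : ⁅a, b⁆ ∈ Phi 5 R := comm_mem_Phi ha hb
  have hzR : ⁅a, b⁆ ∈ ⁅R, R⁆ := commutator_mem_commutator ha hb
  have hRB : R ≤ R ⊔ zpowers y := le_sup_left
  have hyB : y ∈ R ⊔ zpowers y := mem_sup_right (mem_zpowers y)
  -- `ζ ^ 5 = 1`
  have hζ5 : (ψ ⁅a, b⁆) ^ 5 = 1 := by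
    have h1 : ⁅ψ a, ψ b⁆ * ψ a = ψ a * ⁅ψ a, ψ b⁆ := by
      rw [← map_commutatorElement]
      exact h.psi_comm f hzΦ (hRB ha)
    have h2 := comm_left_pow (ψ a) (ψ b) h1 5
    have h3 : ψ a ^ 5 * ψ b = ψ b * ψ a ^ 5 := by
      rw [← map_pow]
      exact h.psi_comm f (pow_mem_Phi ha) (hRB hb)
    rw [h3] at h2
    rw [map_commutatorElement]
    exact (mul_eq_right.mp h2.symm)
  -- the set of acting automorphisms
  set A : Set (MulAut ↥(Q.map f)) := {α | ∃ g ∈ (R : Set G) ∪ {y}, ψ g = α} with hA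
  have hcommA : ∀ α ∈ A, ∀ x, α (ψ ⁅a, b⁆ x) = ψ ⁅a, b⁆ (α x) := by
    rintro _ ⟨g, hg, rfl⟩ x
    have hg' : g ∈ R ⊔ zpowers y := by
      rcases hg with hg | hg
      · exact hRB hg
      · rw [Set.mem_singleton_iff] at hg
        rw [hg]; exact hyB
    have h1 := h.psi_comm f hzΦ hg'
    exact (DFunLike.congr_fun h1 x).symm
  have hQp : IsPGroup 11 ↥(Q.map f) := h.cfg.hQ.map f
  -- minimality
  have hmin : ∀ Q₀ : Subgroup ↥(Q.map f), (∀ α ∈ A, ∀ x ∈ Q₀, α x ∈ Q₀) → Q₀ ≠ ⊤ →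
      ∀ x ∈ Q₀, ψ ⁅a, b⁆ x = x := by
    intro Q₀ hinv hQ₀
    set Q₁ : Subgroup G := Q ⊓ (Q₀.map (Q.map f).subtype).comap f with hQ₁
    have hQ₁n : ∀ g ∈ (R : Set G) ∪ {y}, g ∈ normalizer (Q : Set G) →
        g ∈ normalizer (Q₁ : Set G) := by
      intro g hg hgQ
      apply mem_normalizer_of_conj
      rintro x ⟨hxQ, hx⟩
      refine ⟨(mem_normalizer_iff.mp hgQ x).mp hxQ, ?_⟩
      obtain ⟨x', hx', hxx'⟩ := hx
      refine ⟨ψ g x', hinv (ψ g) ⟨g, hg, rfl⟩ x' hx', ?_⟩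
      change ((ψ g x' : ↥(Q.map f)) : H) = f (g * x * g⁻¹)
      rw [hψ, act_apply, map_mul, map_mul, map_inv, ← hxx']
      rfl
    have hQ₁ne : Q₁ ≠ Q := by
      intro heq
      apply hQ₀
      rw [eq_top_iff]
      rintro ⟨_, ⟨q, hq, rfl⟩⟩ _
      have h1 : q ∈ Q₁ := by rw [heq]; exact hq
      obtain ⟨x', hx', hxx'⟩ := h1.2
      have h2 : x' = ⟨f q, mem_map_of_mem f hq⟩ := Subtype.ext hxx'
      rw [← h2]
      exact hx'
    have h1 := h.mQ Q₁ inf_le_left (fun r hr => hQ₁n r (Or.inl hr) (h.cfg.RQ hr))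
      (hQ₁n y (Or.inr rfl) h.cfg.yQ) hQ₁ne
    have hRR : ⁅R, R⁆ ≤ normalizer (Q₁ : Set G) := by
      refine (commutator_le_self R).trans ?_
      intro r hr
      exact hQ₁n r (Or.inl hr) (h.cfg.RQ hr)
    have h2 : ⁅Q₁, ⁅R, R⁆⁆ ≤ Q :=
      (le_normalizer_iff_commutator_le_left.mp hRR).trans inf_le_left
    have h3 := (hf _ h2).mp h1
    rintro ⟨_, ⟨q, hq, rfl⟩⟩ hx
    have hq1 : q ∈ Q₁ := ⟨hq, ⟨_, hx, rfl⟩⟩
    have h4 : f ⁅q, ⁅a, b⁆⁆ = 1 := by
      have := mem_map_of_mem f (commutator_mem_commutator hq1 hzR)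
      rwa [h3, mem_bot] at this
    apply Subtype.ext
    rw [hψ, act_apply]
    rw [map_commutatorElement, commutatorElement_eq_one_iff_mul_comm] at h4
    change f ⁅a, b⁆ * f q * (f ⁅a, b⁆)⁻¹ = f q
    rw [← h4, mul_inv_cancel_right]
  have hcore := coreQ hQp (ψ ⁅a, b⁆) hζ5 hab A hcommA hmin
  -- apply to the image of `Q₂`
  set Q₀ : Subgroup ↥(Q.map f) := (Q₂.map f).subgroupOf (Q.map f) with hQ₀
  have hQ₀map : Q₀.map (Q.map f).subtype = Q₂.map f := map_subgroupOf_eq_of_le (map_mono hle)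
  have hinv : ∀ α ∈ A, ∀ x ∈ Q₀, α x ∈ Q₀ := by
    rintro _ ⟨g, hg, rfl⟩ x hx
    have hgn : g ∈ normalizer (Q₂ : Set G) := by
      rcases hg with hg | hg
      · exact hR hg
      · rw [Set.mem_singleton_iff] at hg
        rw [hg]; exact hy
    rw [hQ₀, mem_subgroupOf] at hx ⊢
    rw [hψ, act_apply]
    obtain ⟨q, hq, hqx⟩ := hx
    rw [← hqx, ← map_inv, ← map_mul, ← map_mul]
    exact mem_map_of_mem f ((mem_normalizer_iff.mp hgn q).mp hq)
  have hQ₀ne : Q₀ ≠ ⊤ := by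
    intro htop
    have h1 : Q₂.map f = Q.map f := by
      rw [← hQ₀map, htop, ← MonoidHom.range_eq_map, range_subtype]
    have h2 := h.mQ Q₂ hle hR hy hne
    have hRR : ⁅R, R⁆ ≤ normalizer (Q₂ : Set G) := (commutator_le_self R).trans hR
    have h3 := (hf _ ((le_normalizer_iff_commutator_le_left.mp hRR).trans hle)).mp h2
    rw [map_commutator, h1, ← map_commutator, h.PD] at h3
    exact h.bad' ((hf Q le_rfl).mpr h3)
  have h1 := hcore Q₀ hinv hQ₀ne
  rw [h1, Subgroup.map_bot] at hQ₀map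
  exact (hf Q₂ hle).mpr hQ₀map.symm

theorem MB.factC [Finite G] (h : MB P Q R y) {W : Subgroup G} (hW : W ≤ R)
    (hy : y ∈ normalizer (W : Set G)) (hne : W ≠ R) : W ≤ Phi 5 R := by
  obtain ⟨H, _, f, hfs, hQn, hf⟩ := h.exists_f
  obtain ⟨a, ha, b, hb, hab⟩ := h.psi_ne f hf
  set ψ := act f (Q.map f) with hψ
  have hRB : R ≤ R ⊔ zpowers y := le_sup_left
  have hyB : y ∈ R ⊔ zpowers y := mem_sup_right (mem_zpowers y)
  let α : MulAut ↥R := R.normalizerMonoidHom ⟨y, h.cfg.yR⟩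
  have hα : ∀ x : ↥R, ((α x : ↥R) : G) = y * x * y⁻¹ := fun x => rfl
  have hPhi : ∀ x : ↥R, x ∈ Phi 5 (⊤ : Subgroup ↥R) ↔ (x : G) ∈ Phi 5 R := by
    intro x
    have h1 : (Phi 5 (⊤ : Subgroup ↥R)).map R.subtype = Phi 5 R := by
      rw [Phi_map, ← MonoidHom.range_eq_map, range_subtype]
    rw [← h1]
    exact (mem_map_iff_mem R.subtype_injective).symm
  have hDl : ∀ W : Subgroup ↥R, (∀ x ∈ W, α x ∈ W) →
      y ∈ normalizer ((W.map R.subtype : Subgroup G) : Set G) ∧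
      (Dl α W).map R.subtype = ⁅W.map R.subtype, zpowers y⁆ := by
    intro W hW
    have hyW : y ∈ normalizer ((W.map R.subtype : Subgroup G) : Set G) := by
      apply mem_normalizer_of_conj
      rintro _ ⟨x, hx, rfl⟩
      exact ⟨α x, hW x hx, rfl⟩
    refine ⟨hyW, ?_⟩
    rw [comm_zpowers hyW, Dl, MonoidHom.map_closure]
    congr 1
    ext x
    constructor
    · rintro ⟨_, ⟨r, hr, rfl⟩, rfl⟩
      refine ⟨r, mem_map_of_mem R.subtype hr, ?_⟩
      change (r : G) * y * (r : G)⁻¹ * y⁻¹ = (r : G) * (y * r * y⁻¹)⁻¹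
      group
    · rintro ⟨_, ⟨r, hr, rfl⟩, rfl⟩
      refine ⟨r * (α r)⁻¹, ⟨r, hr, rfl⟩, ?_⟩
      change (r : G) * (y * r * y⁻¹)⁻¹ = (r : G) * y * (r : G)⁻¹ * y⁻¹
      group
  have hrange : (⊤ : Subgroup ↥R).map R.subtype = R := by
    rw [← MonoidHom.range_eq_map, range_subtype]
  have hcore := coreR α ?_ ?_ (ψ.comp R.subtype) ?_ ?_ ?_ ?_
  · -- conclusion
    have h1 := hcore (W.subgroupOf R) ?_ ?_
    · intro w hw
      have h2 : (⟨w, hW hw⟩ : ↥R) ∈ W.subgroupOf R := hw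
      exact (hPhi _).mp (h1 h2)
    · intro x hx
      rw [mem_subgroupOf] at hx ⊢
      exact (mem_normalizer_iff.mp hy _).mp hx
    · intro h2
      apply hne
      rw [← map_subgroupOf_eq_of_le hW, h2, hrange]
  · intro x
    apply Subtype.ext
    have h1 : ⁅(x : G), y ^ 3⁆ = 1 := by
      rw [← mem_bot, ← h.cfg.y3]
      exact commutator_mem_commutator x.2 (mem_zpowers _)
    rw [commutatorElement_eq_one_iff_mul_comm] at h1
    change y * (y * (y * x * y⁻¹) * y⁻¹) * y⁻¹ = x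
    have e : (y ^ 3 : G) = y * y * y := by rw [pow_succ, pow_two]
    calc y * (y * (y * x * y⁻¹) * y⁻¹) * y⁻¹ = (y ^ 3 * x) * (y ^ 3)⁻¹ := by rw [e]; group
      _ = x := by rw [← h1, mul_inv_cancel_right]
  · apply map_injective R.subtype_injective
    rw [(hDl ⊤ (fun x _ => mem_top _)).2, hrange]
    exact h.cfg.Ry
  · intro x hx r
    exact h.psi_comm f ((hPhi x).mp hx) (hRB r.2)
  · intro x hx
    change ψ (y * x * y⁻¹) = ψ x
    rw [map_mul, map_mul, map_inv, ← h.psi_comm f ((hPhi x).mp hx) hyB, mul_inv_cancel_right]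
  · intro W hW hDne
    obtain ⟨h1, h2⟩ := hDl W hW
    set R₂ := ⁅W.map R.subtype, zpowers y⁆ with hR₂
    have hWR : W.map R.subtype ≤ R := map_subtype_le W
    have hR₂W : R₂ ≤ W.map R.subtype :=
      le_normalizer_iff_commutator_le_left.mp (zpowers_le_normalizer h1)
    have hR₂R : R₂ ≤ R := hR₂W.trans hWR
    have h3 : ⁅R₂, zpowers y⁆ = R₂ := comm_comm (by norm_num) h.cfg.hy
      (not_dvd_card_of_isPGroup (p := 5) (by norm_num) (by norm_num) (by norm_num)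
        (h.cfg.hR.to_le hWR)) (zpowers_le_normalizer h1)
    have h4 : R₂ ≠ R := by
      intro heq
      apply hDne
      apply map_injective R.subtype_injective
      rw [h2, hrange]
      exact heq
    have hyR₂ : y ∈ normalizer (R₂ : Set G) :=
      (normalizer_commutator_ge_right (W.map R.subtype) (zpowers y)) (mem_zpowers y)
    have h5 := h.mR R₂ hR₂R hyR₂ h3 h4
    have h6 : ⁅Q, ⁅R₂, R₂⁆⁆ ≤ Q := by
      apply le_normalizer_iff_commutator_le_left.mp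
      exact (commutator_le_self R₂).trans (hR₂R.trans h.cfg.RQ)
    have h7 := (hf _ h6).mp h5
    rw [← act_bot_iff] at h7
    intro x hx z hz
    apply h7
    rw [← h2]
    exact commutator_mem_commutator (mem_map_of_mem R.subtype hx) (mem_map_of_mem R.subtype hz)
  · exact ⟨⟨a, ha⟩, ⟨b, hb⟩, hab⟩

end Pool.Agent.Helper851.R
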