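import Mathlib
import Pool.Agent.Helper851.R9

set_option autoImplicit false

/-! Maximal subgroups of a minimal non-`F`-group. -/

namespace Pool.Agent.Helper851.R

open Subgroup
open scoped commutatorElement

variable {G : Type} [Group G] {P Q R : Subgroup G} {y : G}

/-- The triple lower central series. -/
def Tri (M : Subgroup G) : Prop :=
  ∃ a b c, ((M.lowerCentralSeries a).lowerCentralSeries b).lowerCentralSeries c = ⊥

theorem Tri.mono {M N : Subgroup G} (h : M ≤ N) (hN : Tri N) : Tri M := by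
  obtain ⟨a, b, c, h1⟩ := hN
  refine ⟨a, b, c, ?_⟩
  rw [← le_bot_iff, ← h1]
  exact lcs_le c (lcs_le b (lcs_le a h))

theorem Tri.of {M A B : Subgroup G} (hA : ∃ n, M.lowerCentralSeries n ≤ A)
    (hB : ∃ n, A.lowerCentralSeries n ≤ B) (hC : ∃ n, B.lowerCentralSeries n = ⊥) : Tri M := by
  obtain ⟨a, ha⟩ := hA
  obtain ⟨b, hb⟩ := hB
  obtain ⟨c, hc⟩ := hC
  refine ⟨a, b, c, ?_⟩
  rw [← le_bot_iff, ← hc]
  exact lcs_le c ((lcs_le b ha).trans hb)

theorem MB.nilQ [Finite G] (h : MB P Q R y) : ∃ n, Q.lowerCentralSeries n = ⊥ :=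
  nil_of_isPGroup (by norm_num) h.cfg.hQ

theorem MB.nilP [Finite G] (h : MB P Q R y) : ∃ n, P.lowerCentralSeries n = ⊥ :=
  nil_of_isPGroup (by norm_num) h.cfg.hP

theorem MB.lcsT [Finite G] (h : MB P Q R y) : ∃ n, (P ⊔ Q).lowerCentralSeries n ≤ P := by
  have := h.P_normal
  exact lcs_sup_le h.nilQ

theorem MB.lcsU [Finite G] (h : MB P Q R y) : ∃ n, (P ⊔ Q ⊔ R).lowerCentralSeries n ≤ P ⊔ Q := by
  have := h.T_normal
  exact lcs_sup_le (nil_of_isPGroup (by norm_num) h.cfg.hR)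

theorem MB.lcsG [Finite G] (h : MB P Q R y) :
    ∃ n, (⊤ : Subgroup G).lowerCentralSeries n ≤ P ⊔ Q ⊔ R := by
  have := h.U_normal
  rw [← h.gen]
  exact lcs_sup_le (nil_of_isPGroup (by norm_num) h.cfg.hy)

theorem lcs_inf {M A B : Subgroup G} {n : ℕ} (h : A.lowerCentralSeries n ≤ B) :
    (M ⊓ A).lowerCentralSeries n ≤ M ⊓ B :=
  le_inf ((lowerCentralSeries_le_self _ n).trans inf_le_left) ((lcs_le n inf_le_right).trans h)

/-- Cases one and two: the intersection with `T` is nilpotent. -/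
theorem MB.tri_of_nil [Finite G] (h : MB P Q R y) {M : Subgroup G}
    (hn : ∃ n, (M ⊓ (P ⊔ Q)).lowerCentralSeries n = ⊥) : Tri M := by
  obtain ⟨a, ha⟩ := h.lcsG
  obtain ⟨b, hb⟩ := h.lcsU
  refine Tri.of (A := M ⊓ (P ⊔ Q ⊔ R)) (B := M ⊓ (P ⊔ Q)) ⟨a, ?_⟩ ⟨b, lcs_inf hb⟩ hn
  have := lcs_inf (M := M) ha
  rwa [inf_top_eq] at this

theorem MB.case1 [Finite G] (h : MB P Q R y) {M : Subgroup G} (hM : IsCoatom M)
    (hP : ¬ P ≤ M) : Tri M := by
  have hPn := h.P_normal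
  have hn := normal_inter (N := P) (K := ⊥) hM bot_le (by simpa using h.nilP) hP
  have hne : M ⊓ P ≠ P := by
    intro he
    exact hP (he ▸ inf_le_left)
  have hA : ⁅M ⊓ P, Q⁆ = ⊥ := h.factA inf_le_right le_normalizer_of_normal
    le_normalizer_of_normal ((le_normalizer_of_normal (K := (⊤ : Subgroup G))) (mem_top y)) hne
  apply h.tri_of_nil
  obtain ⟨m, hm⟩ := h.lcsT
  obtain ⟨k, hk⟩ := h.nilP
  have hstep : ∀ i, (M ⊓ (P ⊔ Q)).lowerCentralSeries (m + i) ≤
      (M ⊓ P) ⊓ P.lowerCentralSeries i := by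
    intro i
    induction i with
    | zero =>
      have h1 := lcs_inf (M := M) hm
      exact le_inf h1 (h1.trans inf_le_right)
    | succ i ih =>
      rw [← add_assoc, Subgroup.lowerCentralSeries_succ, commutator_le]
      intro x hx t ht
      have hx1 := ih hx
      have ht2 : t ∈ P ⊔ Q := ht.2
      rw [mem_sup_of_normal_left] at ht2
      obtain ⟨p, hp, q, hq, rfl⟩ := ht2
      have hxq : ⁅x, q⁆ = 1 := by
        rw [← mem_bot, ← hA]
        exact commutator_mem_commutator hx1.1 hq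
      have h2 : ⁅x, p * q⁆ = ⁅x, p⁆ := by
        rw [commutatorElement_mul_right_eq_mul_conj, hxq]
        group
      rw [h2]
      refine ⟨?_, ?_⟩
      · have h3 : ⁅x, p⁆ = x * (p * x⁻¹ * p⁻¹) := by rw [commutatorElement_def]; group
        rw [h3]
        exact mul_mem hx1.1 (hn.conj_mem _ (inv_mem hx1.1) p)
      · exact commutator_mem_commutator hx1.2 hp
  refine ⟨m + k, ?_⟩
  rw [← le_bot_iff]
  refine (hstep k).trans ?_
  rw [hk]
  exact inf_le_right

theorem inf_sup_eq_of_le {M A B : Subgroup G} [A.Normal] (hA : A ≤ M) :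
    M ⊓ (A ⊔ B) = A ⊔ (M ⊓ B) := by
  apply le_antisymm
  · rintro x ⟨hxM, hx⟩
    have hx' : x ∈ A ⊔ B := hx
    rw [mem_sup_of_normal_left] at hx'
    obtain ⟨a, ha, b, hb, rfl⟩ := hx'
    have hbM : b ∈ M := by
      have := mul_mem (inv_mem (hA ha)) hxM
      rwa [inv_mul_cancel_left] at this
    exact mul_mem (mem_sup_left ha) (mem_sup_right ⟨hbM, hb⟩)
  · refine sup_le (le_inf hA le_sup_left) (le_inf inf_le_left (inf_le_right.trans le_sup_right))

theorem mem_normalizer_inf {A B : Subgroup G} {g : G} (hA : g ∈ normalizer (A : Set G))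
    (hB : g ∈ normalizer (B : Set G)) : g ∈ normalizer ((A ⊓ B : Subgroup G) : Set G) :=
  inf_normalizer_le_normalizer_inf ⟨hA, hB⟩

theorem MB.case2 [Finite G] (h : MB P Q R y) {M : Subgroup G} (hM : IsCoatom M)
    (hP : P ≤ M) (hT : ¬ P ⊔ Q ≤ M) : Tri M := by
  have hPn := h.P_normal
  have hTn := h.T_normal
  have hn := normal_inter (N := P ⊔ Q) (K := P) hM hP h.lcsT hT
  have hall : ∀ g : G, g ∈ normalizer ((M ⊓ (P ⊔ Q) : Subgroup G) : Set G) := fun g =>
    (le_normalizer_of_normal (K := (⊤ : Subgroup G))) (mem_top g)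
  have he : M ⊓ Q = Q ⊓ (M ⊓ (P ⊔ Q)) := by
    apply le_antisymm
    · exact le_inf inf_le_right (le_inf inf_le_left (inf_le_right.trans le_sup_right))
    · exact le_inf (inf_le_right.trans inf_le_left) inf_le_left
  have hnM : ∀ g : G, g ∈ normalizer (Q : Set G) →
      g ∈ normalizer ((M ⊓ Q : Subgroup G) : Set G) := by
    intro g hg
    rw [he]
    exact mem_normalizer_inf hg (hall g)
  have hne : M ⊓ Q ≠ Q := by
    intro h1
    exact hT (sup_le hP (h1 ▸ inf_le_left))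
  have hB : ⁅P, M ⊓ Q⁆ = ⊥ := h.factB inf_le_right (fun r hr => hnM r (h.cfg.RQ hr))
    (hnM y h.cfg.yQ) hne
  apply h.tri_of_nil
  rw [inf_sup_eq_of_le hP]
  apply nil_sup hB h.nilP
  exact nil_of_isPGroup (by norm_num) (h.cfg.hQ.to_le inf_le_right)

theorem MB.case3a [Finite G] (h : MB P Q R y) {M : Subgroup G} (hM : IsCoatom M)
    (hU : P ⊔ Q ⊔ R ≤ M) : Tri M := by
  have hPn := h.P_normal
  have hTn := h.T_normal
  have hUn := h.U_normal
  have hle : M ≤ (P ⊔ Q) ⊔ (R ⊔ zpowers (y ^ 3)) := by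
    intro m hm
    have h1 : m ∈ P ⊔ Q ⊔ R ⊔ zpowers y := by rw [h.gen]; exact mem_top m
    rw [mem_sup_of_normal_left] at h1
    obtain ⟨u, hu, z, hz, rfl⟩ := h1
    obtain ⟨k, rfl⟩ := hz
    simp only at hm ⊢
    have hyk : y ^ k ∈ M := by
      have := mul_mem (inv_mem (hU hu)) hm
      rwa [inv_mul_cancel_left] at this
    have h3 : (3 : ℤ) ∣ k := by
      by_contra hnd
      obtain ⟨n, hn⟩ := h.cfg.hy ⟨y, mem_zpowers y⟩
      have hn' : y ^ 3 ^ n = 1 := congrArg Subtype.val hn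
      have hcop : IsCoprime (k : ℤ) ((3 : ℤ) ^ n) := by
        have hp3 : Prime (3 : ℤ) := by
          have := Nat.prime_iff_prime_int.mp (show Nat.Prime 3 by norm_num)
          exact_mod_cast this
        exact (((Prime.coprime_iff_not_dvd hp3).mpr hnd).symm).pow_right
      obtain ⟨u', v', huv⟩ := hcop
      have hyM : y ∈ M := by
        have h4 : y = (y ^ k) ^ u' := by
          have h5 : y ^ (1 : ℤ) = y ^ (u' * k + v' * 3 ^ n) := by rw [huv]
          rw [zpow_one, zpow_add, mul_comm v', zpow_mul y (3 ^ n) v'] at h5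
          have h6 : y ^ ((3 : ℤ) ^ n) = 1 := by exact_mod_cast hn'
          rw [h6, one_zpow, mul_one, mul_comm, zpow_mul] at h5
          exact h5
        rw [h4]
        exact zpow_mem hyk u'
      apply hM.1
      rw [eq_top_iff, ← h.gen]
      exact sup_le hU (by rwa [zpowers_le])
    obtain ⟨j, rfl⟩ := h3
    have h7 : u * y ^ (3 * j) ∈ P ⊔ Q ⊔ R ⊔ zpowers (y ^ 3) := by
      apply mul_mem (mem_sup_left hu)
      apply mem_sup_right
      refine ⟨j, ?_⟩
      simp only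
      rw [zpow_mul]
      norm_cast
    rwa [sup_assoc (P ⊔ Q)] at h7
  have hnil : ∃ n, (R ⊔ zpowers (y ^ 3)).lowerCentralSeries n = ⊥ := by
    apply nil_sup h.cfg.y3 (nil_of_isPGroup (by norm_num) h.cfg.hR)
    exact nil_of_isPGroup (p := 3) (by norm_num) (h.cfg.hy.to_le (zpowers_y3_le y))
  exact Tri.mono hle (Tri.of (lcs_sup_le hnil) h.lcsT h.nilP)

theorem MB.case3b [Finite G] (h : MB P Q R y) {M : Subgroup G} (hM : IsCoatom M)
    (hT : P ⊔ Q ≤ M) (hU : ¬ P ⊔ Q ⊔ R ≤ M) : Tri M := by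
  have hPn := h.P_normal
  have hTn := h.T_normal
  have hUn := h.U_normal
  have hn := normal_inter (N := P ⊔ Q ⊔ R) (K := P ⊔ Q) hM hT h.lcsU hU
  have hall : ∀ g : G, g ∈ normalizer ((M ⊓ (P ⊔ Q ⊔ R) : Subgroup G) : Set G) := fun g =>
    (le_normalizer_of_normal (K := (⊤ : Subgroup G))) (mem_top g)
  set W := M ⊓ R with hW
  have he : W = R ⊓ (M ⊓ (P ⊔ Q ⊔ R)) := by
    apply le_antisymm
    · exact le_inf inf_le_right (le_inf inf_le_left (inf_le_right.trans le_sup_right))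
    · exact le_inf (inf_le_right.trans inf_le_left) inf_le_left
  have hnM : ∀ g : G, g ∈ normalizer (R : Set G) → g ∈ normalizer (W : Set G) := by
    intro g hg
    rw [he]
    exact mem_normalizer_inf hg (hall g)
  have hne : W ≠ R := by
    intro h1
    exact hU (sup_le hT (h1 ▸ inf_le_left))
  have hWR : W ≤ R := inf_le_right
  have hWΦ : W ≤ Phi 5 R := h.factC hWR (hnM y h.cfg.yR) hne
  set B := R ⊔ zpowers y with hB
  set E := ⁅W, B⁆ with hE
  have hEQ : ⁅Q, E⁆ = ⊥ := by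
    rw [← le_bot_iff, ← h.cfg.cen]
    exact commutator_mono le_rfl (commutator_mono hWΦ le_rfl)
  have hBW : B ≤ normalizer (W : Set G) := by
    rw [hB, sup_le_iff]
    exact ⟨fun r hr => hnM r (le_normalizer hr), zpowers_le_normalizer (hnM y h.cfg.yR)⟩
  have hER : E ≤ R := (le_normalizer_iff_commutator_le_left.mp hBW).trans hWR
  have hEnil : ∃ n, E.lowerCentralSeries n = ⊥ :=
    nil_of_isPGroup (by norm_num) (h.cfg.hR.to_le hER)
  have hQE : ∃ n, (Q ⊔ E).lowerCentralSeries n = ⊥ := nil_sup hEQ h.nilQ hEnil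
  have hMU : M ⊓ (P ⊔ Q ⊔ R) = (P ⊔ Q) ⊔ W := by
    rw [inf_sup_eq_of_le hT]
  obtain ⟨a, ha⟩ := h.lcsG
  have ha' : M.lowerCentralSeries a ≤ (P ⊔ Q) ⊔ W := by
    have := lcs_inf (M := M) ha
    rwa [inf_top_eq, hMU] at this
  have hgen' : (P ⊔ Q) ⊔ B = ⊤ := by
    rw [hB, ← sup_assoc, h.gen]
  have hA : M.lowerCentralSeries (a + 1) ≤ P ⊔ (Q ⊔ E) := by
    rw [Subgroup.lowerCentralSeries_succ]
    refine (commutator_mono ha' (le_top (a := M))).trans ?_
    have hmap : (⁅(P ⊔ Q) ⊔ W, (⊤ : Subgroup G)⁆).map (QuotientGroup.mk' (P ⊔ Q)) ≤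
        E.map (QuotientGroup.mk' (P ⊔ Q)) := by
      rw [map_commutator, Subgroup.map_sup, QuotientGroup.map_mk'_self, bot_sup_eq, ← hgen',
        Subgroup.map_sup _ B, QuotientGroup.map_mk'_self, bot_sup_eq, ← map_commutator]
    rw [Subgroup.map_le_map_iff, QuotientGroup.ker_mk'] at hmap
    refine hmap.trans ?_
    rw [sup_comm, sup_assoc]
  exact Tri.of ⟨a + 1, hA⟩ (lcs_sup_le hQE) h.nilP

theorem MB.tri [Finite G] (h : MB P Q R y) {M : Subgroup G} (hM : M ≠ ⊤) : Tri M := by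
  obtain ⟨M', hM', hle⟩ := (eq_top_or_exists_le_coatom M).resolve_left hM
  apply Tri.mono hle
  by_cases h1 : P ≤ M'
  · by_cases h2 : P ⊔ Q ≤ M'
    · by_cases h3 : P ⊔ Q ⊔ R ≤ M'
      · exact h.case3a hM' h3
      · exact h.case3b hM' h2 h3
    · exact h.case2 hM' h1 h2
  · exact h.case1 hM' h1

theorem min_main [Finite G] [Group.IsSolvable G] (hnF : ¬ ClsOf DF G)
    (hprop : ∀ M : Subgroup G, M ≠ ⊤ → ClsOf DF ↥M) (M : Subgroup G) (hM : M ≠ ⊤) :
    Chain 3 ↥M := by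
  have hex : ∃ X : Subgroup G, DF G X ∧ X ≠ ⊥ := by
    by_contra hcon
    push Not at hcon
    exact hnF ⟨inferInstance, inferInstance, hcon⟩
  obtain ⟨_, ⟨P, Q, R, y, hc, rfl⟩, hne⟩ := hex
  exact chain3_of M ((hc.toMB hprop hne).tri hM)

end Pool.Agent.Helper851.R
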