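import Mathlib
import Pool.Agent.Helper851.R3

set_option autoImplicit false

/-! The group showing that the class is not closed under normal products. -/

namespace Pool.Agent.Helper851.R

open Subgroup
open scoped commutatorElement

/-- Pairs `(g, φ)` with wreath multiplication. -/
@[ext] structure Wr (X : Type) (m : ℕ) where
  g : X
  φ : X → ZMod m

namespace Wr

variable {X : Type} [Group X] {m : ℕ}

instance : Mul (Wr X m) := ⟨fun a b => ⟨a.g * b.g, fun x => a.φ (b.g * x) + b.φ x⟩⟩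
instance : One (Wr X m) := ⟨⟨1, 0⟩⟩
instance : Inv (Wr X m) := ⟨fun a => ⟨a.g⁻¹, fun x => - a.φ (a.g⁻¹ * x)⟩⟩

@[simp] theorem mul_g (a b : Wr X m) : (a * b).g = a.g * b.g := rfl
@[simp] theorem mul_φ (a b : Wr X m) (x : X) : (a * b).φ x = a.φ (b.g * x) + b.φ x := rfl
@[simp] theorem one_g : (1 : Wr X m).g = 1 := rfl
@[simp] theorem one_φ (x : X) : (1 : Wr X m).φ x = 0 := rfl
@[simp] theorem inv_g (a : Wr X m) : (a⁻¹).g = a.g⁻¹ := rfl
@[simp] theorem inv_φ (a : Wr X m) (x : X) : (a⁻¹).φ x = - a.φ (a.g⁻¹ * x) := rfl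

instance : Group (Wr X m) :=
  Group.ofLeftAxioms
    (by intro a b c; ext x <;> simp [mul_assoc, add_assoc])
    (by intro a; ext x <;> simp)
    (by intro a; ext x <;> simp)

instance [Finite X] [NeZero m] : Finite (Wr X m) :=
  Finite.of_injective (fun a : Wr X m => (a.g, a.φ)) (by
    intro a b h
    simp only [Prod.mk.injEq] at h
    exact Wr.ext h.1 h.2)

/-- The projection. -/
def proj : Wr X m →* X where
  toFun a := a.g
  map_one' := rfl
  map_mul' _ _ := rfl

theorem proj_surj : Function.Surjective (proj (X := X) (m := m)) := fun x => ⟨⟨x, 0⟩, rfl⟩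

/-- The inclusion of the top group. -/
def ι : X →* Wr X m where
  toFun x := ⟨x, 0⟩
  map_one' := rfl
  map_mul' a b := by ext x <;> simp

theorem pow_of_g_one (a : Wr X m) (ha : a.g = 1) (n : ℕ) :
    (a ^ n).g = 1 ∧ ∀ x, (a ^ n).φ x = n • a.φ x := by
  induction n with
  | zero => simp
  | succ n ih =>
    refine ⟨by rw [pow_succ, mul_g, ih.1, ha, one_mul], fun x => ?_⟩
    rw [pow_succ, mul_φ, ha, one_mul, ih.2, succ_nsmul]

theorem base_pow {a : Wr X m} (ha : a ∈ (proj (X := X) (m := m)).ker) : a ^ m = 1 := by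
  have h1 : a.g = 1 := ha
  obtain ⟨h2, h3⟩ := pow_of_g_one a h1 m
  ext x
  · exact h2
  · rw [h3]; simp

theorem base_isPGroup : IsPGroup m ((proj (X := X) (m := m)).ker) := by
  rintro ⟨a, ha⟩
  refine ⟨1, ?_⟩
  apply Subtype.ext
  change a ^ m ^ 1 = 1
  rw [pow_one]
  exact base_pow ha

theorem base_ne (hm : 1 < m) {D : Subgroup X} (hD : D ≠ ⊥) :
    ⁅(proj (X := X) (m := m)).ker, D.map (ι (X := X) (m := m))⁆ ≠ ⊥ := by
  classical
  intro h
  obtain ⟨d, hd, hd1⟩ : ∃ d ∈ D, d ≠ 1 := by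
    by_contra hcon
    push Not at hcon
    exact hD (eq_bot_iff.mpr fun x hx => mem_bot.mpr (hcon x hx))
  let b : Wr X m := ⟨1, fun x => if x = 1 then 1 else 0⟩
  have hb : b ∈ (proj (X := X) (m := m)).ker := rfl
  let e : Wr X m := ι d
  have h1 : ⁅b, e⁆ = 1 := by
    rw [← mem_bot, ← h]
    exact commutator_mem_commutator hb (mem_map_of_mem _ hd)
  rw [commutatorElement_eq_one_iff_mul_comm] at h1
  have h2 := congrArg (fun w : Wr X m => w.φ 1) h1
  have h3 : (b * e).φ 1 = b.φ (d * 1) + 0 := rfl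
  have h4 : (e * b).φ 1 = 0 + b.φ 1 := rfl
  change (b * e).φ 1 = (e * b).φ 1 at h2
  rw [h3, h4] at h2
  have h5 : b.φ (d * 1) = 0 := by
    change (if d * 1 = 1 then (1 : ZMod m) else 0) = 0
    rw [mul_one, if_neg hd1]
  have h6 : b.φ 1 = 1 := by
    change (if (1 : X) = 1 then (1 : ZMod m) else 0) = 1
    rw [if_pos rfl]
  rw [h5, h6, add_zero, zero_add] at h2
  have : Fact (1 < m) := ⟨hm⟩
  exact zero_ne_one h2

theorem solvable [hX : Group.IsSolvable X] : Group.IsSolvable (Wr X m) := by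
  have h1 : Group.IsSolvable ↥(proj (X := X) (m := m)).ker := by
    apply Group.isSolvable_of_comm
    rintro ⟨a, ha⟩ ⟨b, hb⟩
    have ha' : a.g = 1 := ha
    have hb' : b.g = 1 := hb
    apply Subtype.ext
    change a * b = b * a
    ext x
    · simp [ha', hb']
    · simp [ha', hb', add_comm]
  exact Group.isSolvable_of_ker_le_range (proj (X := X) (m := m)).ker.subtype
    (proj (X := X) (m := m)) (by rw [range_subtype])

end Wr

/-- From a configuration in the top group to one in the double wreath product. -/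
theorem wreath_bad {X : Type} [Group X] {R : Subgroup X} {y : X} (h : Cfg ⊥ ⊥ R y)
    (hcen : ⁅Phi 5 R, R ⊔ zpowers y⁆ = ⊥) (hR : ⁅R, R⁆ ≠ ⊥) :
    ∃ Z : Subgroup (Wr (Wr X 11) 2), DF (Wr (Wr X 11) 2) Z ∧ Z ≠ ⊥ := by
  let ι1 : X →* Wr X 11 := Wr.ι
  let ι2 : Wr X 11 →* Wr (Wr X 11) 2 := Wr.ι
  let B1 : Subgroup (Wr X 11) := (Wr.proj (X := X) (m := 11)).ker
  let B2 : Subgroup (Wr (Wr X 11) 2) := (Wr.proj (X := Wr X 11) (m := 2)).ker
  have hm := h.map ι1
  have hn1 : ∀ g : Wr X 11, g ∈ normalizer (B1 : Set (Wr X 11)) := fun g =>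
    (le_normalizer_of_normal (K := (⊤ : Subgroup (Wr X 11)))) (mem_top g)
  have hn2 : ∀ g : Wr (Wr X 11) 2, g ∈ normalizer (B2 : Set (Wr (Wr X 11) 2)) := fun g =>
    (le_normalizer_of_normal (K := (⊤ : Subgroup (Wr (Wr X 11) 2)))) (mem_top g)
  have h1 : Cfg ⊥ B1 (R.map ι1) (ι1 y) :=
    { hP := IsPGroup.of_bot
      hQ := Wr.base_isPGroup
      hR := hm.hR
      hy := hm.hy
      QP := le_normalizer_of_normal
      RP := le_normalizer_of_normal
      yP := (le_normalizer_of_normal (K := (⊤ : Subgroup (Wr X 11)))) (mem_top _)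
      RQ := fun g _ => hn1 g
      yQ := hn1 _
      yR := hm.yR
      Ry := hm.Ry
      y3 := hm.y3
      cen := by
        rw [← MonoidHom.map_zpowers, ← Phi_map, ← Subgroup.map_sup, ← map_commutator, hcen,
          Subgroup.map_bot, commutator_bot_right] }
  have h2 := h1.map ι2
  have h3 : Cfg B2 (B1.map ι2) ((R.map ι1).map ι2) (ι2 (ι1 y)) :=
    h2.setP B2 Wr.base_isPGroup (fun g _ => hn2 g) (fun g _ => hn2 g) (hn2 _)
  refine ⟨_, ⟨_, _, _, _, h3, rfl⟩, ?_⟩
  rw [← map_commutator, ← map_commutator, ← map_commutator]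
  apply Wr.base_ne (by norm_num)
  exact Wr.base_ne (by norm_num) hR

/-- The quotient map of the double wreath product. -/
def dproj (X : Type) [Group X] : Wr (Wr X 11) 2 →* X :=
  (Wr.proj (X := X) (m := 11)).comp (Wr.proj (X := Wr X 11) (m := 2))

theorem dproj_surj (X : Type) [Group X] : Function.Surjective (dproj X) :=
  Wr.proj_surj.comp Wr.proj_surj

theorem dproj_ker {X : Type} [Group X] {w : Wr (Wr X 11) 2} (hw : dproj X w = 1) :
    w ^ 22 = 1 := by
  have h1 : Wr.proj w ∈ (Wr.proj (X := X) (m := 11)).ker := hw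
  have h2 := Wr.base_pow h1
  rw [← map_pow] at h2
  have h3 : w ^ 11 ∈ (Wr.proj (X := Wr X 11) (m := 2)).ker := h2
  have h4 := Wr.base_pow h3
  rw [← pow_mul] at h4
  exact h4

theorem comap_metab {X : Type} [Group X] [Finite X] [Group.IsSolvable X] (A : Subgroup X)
    (hA : ⁅⁅A, A⁆, ⁅A, A⁆⁆ = ⊥) : ClsOf DF ↥(A.comap (dproj X)) := by
  have h1 : Group.IsSolvable (Wr X 11) := Wr.solvable
  have h2 : Group.IsSolvable (Wr (Wr X 11) 2) := Wr.solvable
  refine ⟨inferInstance, inferInstance, ?_⟩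
  rintro _ ⟨P, Q, R, y, hc, rfl⟩
  have hRR : ⁅R, R⁆ = ⊥ := by
    let g : ↥(A.comap (dproj X)) →* X := (dproj X).comp (A.comap (dproj X)).subtype
    have hg : ∀ S : Subgroup ↥(A.comap (dproj X)), S.map g ≤ A := by
      rintro S _ ⟨x, _, rfl⟩
      exact x.2
    have h3 : R.map g ≤ ⁅A, A⁆ := by
      rw [← hc.Ry, map_commutator]
      exact commutator_mono (hg _) (hg _)
    have h4 : (⁅R, R⁆).map g = ⊥ := by
      rw [map_commutator, ← le_bot_iff, ← hA]
      exact commutator_mono h3 h3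
    rw [eq_bot_iff]
    intro r hr
    have h5 : g r = 1 := by
      have := mem_map_of_mem g hr
      rwa [h4, mem_bot] at this
    have h6 : r ^ 22 = 1 := Subtype.ext (dproj_ker h5)
    obtain ⟨k, hk⟩ := hc.hR ⟨r, commutator_le_self R hr⟩
    have hk' : r ^ 5 ^ k = 1 := congrArg Subtype.val hk
    rw [mem_bot]
    have d1 := orderOf_dvd_of_pow_eq_one h6
    have d2 := orderOf_dvd_of_pow_eq_one hk'
    have d3 := Nat.dvd_gcd d1 d2
    have hcop : Nat.Coprime 22 (5 ^ k) := Nat.Coprime.pow_right k (by norm_num)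
    rw [hcop, Nat.dvd_one, orderOf_eq_one_iff] at d3
    exact d3
  rw [hRR, commutator_bot_right, commutator_bot_right]

end Pool.Agent.Helper851.R
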