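import Mathlib
import Pool.Agent.Helper851.R11

set_option autoImplicit false

/-! The triangular group. -/

namespace Pool.Agent.Helper851.R

open Subgroup
open scoped commutatorElement

/-- Triangular matrices in coordinates. -/
@[ext] structure X1 (K : Type) [Field K] where
  a : K
  b : K
  c : K
  s : Kˣ
  t : Kˣ

namespace X1

variable {K : Type} [Field K]

instance : Mul (X1 K) := ⟨fun x y => ⟨x.a + x.s * y.a, x.b + x.t * y.b,
  x.c + x.s * x.t * y.c + x.a * x.t * y.b, x.s * y.s, x.t * y.t⟩⟩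
instance : One (X1 K) := ⟨⟨0, 0, 0, 1, 1⟩⟩
instance : Inv (X1 K) := ⟨fun x => ⟨-((x.s⁻¹ : Kˣ) : K) * x.a, -((x.t⁻¹ : Kˣ) : K) * x.b,
  ((x.s⁻¹ : Kˣ) : K) * ((x.t⁻¹ : Kˣ) : K) * (x.a * x.b - x.c), x.s⁻¹, x.t⁻¹⟩⟩

@[simp] theorem mul_a (x y : X1 K) : (x * y).a = x.a + x.s * y.a := rfl
@[simp] theorem mul_b (x y : X1 K) : (x * y).b = x.b + x.t * y.b := rfl
@[simp] theorem mul_c (x y : X1 K) :
    (x * y).c = x.c + x.s * x.t * y.c + x.a * x.t * y.b := rfl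
@[simp] theorem mul_s (x y : X1 K) : (x * y).s = x.s * y.s := rfl
@[simp] theorem mul_t (x y : X1 K) : (x * y).t = x.t * y.t := rfl
@[simp] theorem one_a : (1 : X1 K).a = 0 := rfl
@[simp] theorem one_b : (1 : X1 K).b = 0 := rfl
@[simp] theorem one_c : (1 : X1 K).c = 0 := rfl
@[simp] theorem one_s : (1 : X1 K).s = 1 := rfl
@[simp] theorem one_t : (1 : X1 K).t = 1 := rfl
@[simp] theorem inv_a (x : X1 K) : (x⁻¹).a = -((x.s⁻¹ : Kˣ) : K) * x.a := rfl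
@[simp] theorem inv_b (x : X1 K) : (x⁻¹).b = -((x.t⁻¹ : Kˣ) : K) * x.b := rfl
@[simp] theorem inv_c (x : X1 K) :
    (x⁻¹).c = ((x.s⁻¹ : Kˣ) : K) * ((x.t⁻¹ : Kˣ) : K) * (x.a * x.b - x.c) := rfl
@[simp] theorem inv_s (x : X1 K) : (x⁻¹).s = x.s⁻¹ := rfl
@[simp] theorem inv_t (x : X1 K) : (x⁻¹).t = x.t⁻¹ := rfl

instance : Group (X1 K) :=
  Group.ofLeftAxioms
    (by
      intro x y z
      ext
      · simp; ring
      · simp; ring
      · simp; ring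
      · simp [mul_assoc]
      · simp [mul_assoc])
    (by intro x; ext <;> simp)
    (by
      intro x
      ext
      · simp
      · simp
      · simp; ring
      · simp
      · simp)

instance [Finite K] : Finite (X1 K) :=
  Finite.of_injective (fun x : X1 K => (x.a, x.b, x.c, x.s, x.t)) (by
    intro x y h
    simp only [Prod.mk.injEq] at h
    exact X1.ext h.1 h.2.1 h.2.2.1 h.2.2.2.1 h.2.2.2.2)

/-- The projections. -/
def ps : X1 K →* Kˣ where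
  toFun x := x.s
  map_one' := rfl
  map_mul' _ _ := rfl

def pt : X1 K →* Kˣ where
  toFun x := x.t
  map_one' := rfl
  map_mul' _ _ := rfl

theorem comm_s (x y : X1 K) : (⁅x, y⁆).s = 1 := by
  have : ps ⁅x, y⁆ = 1 := by
    rw [map_commutatorElement, commutatorElement_eq_one_iff_mul_comm]
    exact mul_comm _ _
  exact this

theorem comm_t (x y : X1 K) : (⁅x, y⁆).t = 1 := by
  have : pt ⁅x, y⁆ = 1 := by
    rw [map_commutatorElement, commutatorElement_eq_one_iff_mul_comm]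
    exact mul_comm _ _
  exact this

/-- `s = t = 1`, `b = 0`. -/
def CA (K : Type) [Field K] : Subgroup (X1 K) where
  carrier := {x | x.b = 0 ∧ x.s = 1 ∧ x.t = 1}
  one_mem' := ⟨rfl, rfl, rfl⟩
  mul_mem' := by
    rintro x y ⟨h1, h2, h3⟩ ⟨h4, h5, h6⟩
    refine ⟨?_, ?_, ?_⟩ <;> simp [h1, h2, h3, h4, h5, h6]
  inv_mem' := by
    rintro x ⟨h1, h2, h3⟩
    refine ⟨?_, ?_, ?_⟩ <;> simp [h1, h2, h3]

/-- `s = t = 1`, `a = 0`. -/
def CB (K : Type) [Field K] : Subgroup (X1 K) where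
  carrier := {x | x.a = 0 ∧ x.s = 1 ∧ x.t = 1}
  one_mem' := ⟨rfl, rfl, rfl⟩
  mul_mem' := by
    rintro x y ⟨h1, h2, h3⟩ ⟨h4, h5, h6⟩
    refine ⟨?_, ?_, ?_⟩ <;> simp [h1, h2, h3, h4, h5, h6]
  inv_mem' := by
    rintro x ⟨h1, h2, h3⟩
    refine ⟨?_, ?_, ?_⟩ <;> simp [h1, h2, h3]

/-- `s = t = 1`, `a = b = 0`. -/
def CZ (K : Type) [Field K] : Subgroup (X1 K) where
  carrier := {x | x.a = 0 ∧ x.b = 0 ∧ x.s = 1 ∧ x.t = 1}
  one_mem' := ⟨rfl, rfl, rfl, rfl⟩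
  mul_mem' := by
    rintro x y ⟨h1, h2, h3, h4⟩ ⟨h5, h6, h7, h8⟩
    refine ⟨?_, ?_, ?_, ?_⟩ <;> simp [h1, h2, h3, h4, h5, h6, h7, h8]
  inv_mem' := by
    rintro x ⟨h1, h2, h3, h4⟩
    refine ⟨?_, ?_, ?_, ?_⟩ <;> simp [h1, h2, h3, h4]

/-- `s = t = 1`. -/
def CN (K : Type) [Field K] : Subgroup (X1 K) where
  carrier := {x | x.s = 1 ∧ x.t = 1}
  one_mem' := ⟨rfl, rfl⟩
  mul_mem' := by
    rintro x y ⟨h3, h4⟩ ⟨h7, h8⟩
    refine ⟨?_, ?_⟩ <;> simp [h3, h4, h7, h8]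
  inv_mem' := by
    rintro x ⟨h3, h4⟩
    refine ⟨?_, ?_⟩ <;> simp [h3, h4]

theorem comm_kert {x y : X1 K} (hx : x.t = 1) (hy : y.t = 1) : ⁅x, y⁆ ∈ CA K := by
  refine ⟨?_, comm_s x y, comm_t x y⟩
  rw [commutatorElement_def]
  simp [hx, hy]

theorem comm_kers {x y : X1 K} (hx : x.s = 1) (hy : y.s = 1) : ⁅x, y⁆ ∈ CB K := by
  refine ⟨?_, comm_s x y, comm_t x y⟩
  rw [commutatorElement_def]
  simp [hx, hy]

theorem comm_CN {x y : X1 K} (hx : x ∈ CN K) (hy : y ∈ CN K) :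
    ⁅x, y⁆ = ⟨0, 0, x.a * y.b - y.a * x.b, 1, 1⟩ := by
  obtain ⟨hx1, hx2⟩ := hx
  obtain ⟨hy1, hy2⟩ := hy
  rw [commutatorElement_def]
  ext
  · simp [hx1, hx2, hy1, hy2]
  · simp [hx1, hx2, hy1, hy2]
  · simp [hx1, hx2, hy1, hy2]; ring
  · simp [hx1, hx2, hy1, hy2]
  · simp [hx1, hx2, hy1, hy2]

theorem metabA : ⁅⁅(pt (K := K)).ker, (pt (K := K)).ker⁆, ⁅(pt (K := K)).ker, (pt (K := K)).ker⁆⁆
    = ⊥ := by
  have h1 : ⁅(pt (K := K)).ker, (pt (K := K)).ker⁆ ≤ CA K := by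
    rw [commutator_le]
    intro x hx y hy
    exact comm_kert hx hy
  rw [← le_bot_iff]
  refine (commutator_mono h1 h1).trans ?_
  rw [commutator_le]
  rintro x ⟨hx1, hx2, hx3⟩ y ⟨hy1, hy2, hy3⟩
  rw [comm_CN ⟨hx2, hx3⟩ ⟨hy2, hy3⟩, hx1, hy1, mul_zero, mul_zero, sub_zero]
  exact mem_bot.mpr rfl

theorem metabB : ⁅⁅(ps (K := K)).ker, (ps (K := K)).ker⁆, ⁅(ps (K := K)).ker, (ps (K := K)).ker⁆⁆
    = ⊥ := by
  have h1 : ⁅(ps (K := K)).ker, (ps (K := K)).ker⁆ ≤ CB K := by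
    rw [commutator_le]
    intro x hx y hy
    exact comm_kers hx hy
  rw [← le_bot_iff]
  refine (commutator_mono h1 h1).trans ?_
  rw [commutator_le]
  rintro x ⟨hx1, hx2, hx3⟩ y ⟨hy1, hy2, hy3⟩
  rw [comm_CN ⟨hx2, hx3⟩ ⟨hy2, hy3⟩, hx1, hy1, zero_mul, zero_mul, sub_zero]
  exact mem_bot.mpr rfl

theorem solvable : Group.IsSolvable (X1 K) := by
  refine ⟨3, ?_⟩
  rw [derivedSeries_succ, derivedSeries_succ, derivedSeries_succ, derivedSeries_zero]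
  have h1 : ⁅(⊤ : Subgroup (X1 K)), ⊤⁆ ≤ CN K := by
    rw [commutator_le]
    intro x _ y _
    exact ⟨comm_s x y, comm_t x y⟩
  have h2 : ⁅CN K, CN K⁆ ≤ CZ K := by
    rw [commutator_le]
    intro x hx y hy
    rw [comm_CN hx hy]
    exact ⟨rfl, rfl, rfl, rfl⟩
  have h3 : ⁅CZ K, CZ K⁆ ≤ ⊥ := by
    rw [commutator_le]
    rintro x ⟨hx1, hx2, hx3, hx4⟩ y ⟨hy1, hy2, hy3, hy4⟩
    rw [comm_CN ⟨hx3, hx4⟩ ⟨hy3, hy4⟩, hx1, hy1, zero_mul, zero_mul, sub_zero]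
    exact mem_bot.mpr rfl
  rw [← le_bot_iff]
  refine le_trans ?_ h3
  have h4 := (commutator_mono h1 h1).trans h2
  exact commutator_mono h4 h4

theorem sup_top : (pt (K := K)).ker ⊔ (ps (K := K)).ker = ⊤ := by
  rw [eq_top_iff]
  intro x _
  have h1 : (⟨0, 0, 0, x.s, 1⟩ : X1 K) ∈ (pt (K := K)).ker := rfl
  have h2 : (⟨0, 0, 0, x.s, 1⟩ : X1 K)⁻¹ * x ∈ (ps (K := K)).ker := by
    rw [MonoidHom.mem_ker]
    change (x.s)⁻¹ * x.s = 1
    exact inv_mul_cancel _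
  have h3 := mul_mem (mem_sup_left (T := (ps (K := K)).ker) h1) (mem_sup_right h2)
  rwa [mul_inv_cancel_left] at h3

/-- The unitary unipotent group. -/
def R0 (K : Type) [Field K] [CharP K 5] (hK : ∀ x : K, x ^ 25 = x) : Subgroup (X1 K) where
  carrier := {x | x.b = x.a ^ 5 ∧ x.c + x.c ^ 5 = x.a ^ 6 ∧ x.s = 1 ∧ x.t = 1}
  one_mem' := ⟨by simp, by simp, rfl, rfl⟩
  mul_mem' := by
    rintro x y ⟨h1, h2, h3, h4⟩ ⟨h5, h6, h7, h8⟩
    have : Fact (Nat.Prime 5) := ⟨by norm_num⟩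
    refine ⟨?_, ?_, ?_, ?_⟩
    · simp only [mul_b, mul_a, h3, h4, Units.val_one, one_mul, h1, h5]
      rw [add_pow_char]
    · simp only [mul_c, mul_a, h3, h4, Units.val_one, one_mul, mul_one, h5]
      have e1 : (x.c + y.c + x.a * y.a ^ 5) ^ 5 = x.c ^ 5 + y.c ^ 5 + x.a ^ 5 * y.a ^ 25 := by
        rw [add_pow_char, add_pow_char, mul_pow, ← pow_mul]
      have e2 : (x.a + y.a) ^ 6 = (x.a + y.a) * (x.a ^ 5 + y.a ^ 5) := by
        rw [pow_succ, add_pow_char, mul_comm]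
      rw [e1, e2, hK]
      linear_combination h2 + h6
    · simp [h3, h7]
    · simp [h4, h8]
  inv_mem' := by
    rintro x ⟨h1, h2, h3, h4⟩
    have : Fact (Nat.Prime 5) := ⟨by norm_num⟩
    refine ⟨?_, ?_, ?_, ?_⟩
    · simp only [inv_b, inv_a, h3, h4, inv_one, Units.val_one, neg_mul, one_mul, h1]
      ring
    · simp only [inv_c, inv_a, h3, h4, inv_one, Units.val_one, neg_mul, one_mul, h1]
      have e1 : (x.a * x.a ^ 5 - x.c) ^ 5 = x.a ^ 5 * x.a ^ 25 - x.c ^ 5 := by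
        rw [sub_pow_char, mul_pow, ← pow_mul]
      rw [e1, hK]
      linear_combination -h2
    · simp [h3]
    · simp [h4]

theorem R0_le_CN [CharP K 5] (hK : ∀ x : K, x ^ 25 = x) : R0 K hK ≤ CN K :=
  fun _ hx => ⟨hx.2.2.1, hx.2.2.2⟩

theorem CN_pow5 [CharP K 5] {x : X1 K} (hx : x ∈ CN K) : x ^ 5 = 1 := by
  obtain ⟨h1, h2⟩ := hx
  have h5 : (5 : K) = 0 := CharP.ofNat_eq_zero K 5
  have e : x ^ 5 = x * (x * (x * (x * x))) := by
    simp only [pow_succ, pow_zero, one_mul, mul_assoc]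
  rw [e]
  ext
  · simp [h1]; linear_combination x.a * h5
  · simp [h2]; linear_combination x.b * h5
  · simp [h1, h2]; linear_combination (x.c + 2 * x.a * x.b) * h5
  · simp [h1]
  · simp [h2]

theorem R0_isPGroup [CharP K 5] (hK : ∀ x : K, x ^ 25 = x) : IsPGroup 5 (R0 K hK) := by
  rintro ⟨x, hx⟩
  refine ⟨1, Subtype.ext ?_⟩
  change x ^ 5 ^ 1 = 1
  rw [pow_one]
  exact CN_pow5 (R0_le_CN hK hx)

/-- The diagonal element. -/
def dg (ω : Kˣ) : X1 K := ⟨0, 0, 0, ω, ω⁻¹⟩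

theorem dg_conj (ω : Kˣ) (x : X1 K) (hx : x ∈ CN K) :
    dg ω * x * (dg ω)⁻¹ = ⟨ω * x.a, ((ω⁻¹ : Kˣ) : K) * x.b, x.c, 1, 1⟩ := by
  obtain ⟨h1, h2⟩ := hx
  ext <;> simp [dg, h1, h2]

theorem dg_pow (ω : Kˣ) (n : ℕ) : (dg ω) ^ n = dg (ω ^ n) := by
  induction n with
  | zero => ext <;> simp [dg]
  | succ n ih =>
    rw [pow_succ, ih]
    ext <;> simp [dg, pow_succ, mul_comm]

end X1

end Pool.Agent.Helper851.R
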