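import Mathlib
import Pool.Agent.Helper851.R12

set_option autoImplicit false

/-! The counterexample to the product property. -/

namespace Pool.Agent.Helper851.R

open Subgroup
open scoped commutatorElement

theorem isPGroup_zpowers3 {L : Type} [Group L] (r k : ℕ) (x : L) (h : x ^ r ^ k = 1) :
    IsPGroup r (zpowers x) := by
  rintro ⟨y, m, rfl⟩
  refine ⟨k, ?_⟩
  apply Subtype.ext
  change ((fun n : ℤ => x ^ n) m) ^ r ^ k = 1
  simp only
  rw [← zpow_natCast, ← zpow_mul, mul_comm, zpow_mul, zpow_natCast, h, one_zpow]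

namespace X1

variable {K : Type} [Field K]

theorem exists_config [Finite K] [CharP K 5] (hK : ∀ x : K, x ^ 25 = x) (ω : Kˣ)
    (hω : ω ^ 3 = 1) (hω1 : ω ≠ 1) : ∃ (R : Subgroup (X1 K)) (y : X1 K), Cfg ⊥ ⊥ R y ∧
      ⁅Phi 5 R, R ⊔ zpowers y⁆ = ⊥ ∧ ⁅R, R⁆ ≠ ⊥ := by
  have hωK : ((ω : Kˣ) : K) ^ 3 = 1 := by
    have := congrArg (Units.val) hω
    simpa using this
  have hinv : ((ω⁻¹ : Kˣ) : K) = (ω : K) ^ 2 := by
    have h1 : ω⁻¹ = ω ^ 2 := by
      rw [inv_eq_iff_mul_eq_one, ← pow_succ']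
      exact hω
    rw [h1]; simp
  set y : X1 K := dg ω with hy
  have hy3 : y ^ 3 = 1 := by
    rw [hy, dg_pow, hω]
    rfl
  have hyp : IsPGroup 3 (zpowers y) := by
    apply isPGroup_zpowers3 3 1 y
    rw [pow_one]; exact hy3
  -- y normalises R0
  have hconj : ∀ x ∈ R0 K hK, y * x * y⁻¹ ∈ R0 K hK := by
    intro x hx
    rw [hy, dg_conj ω x (R0_le_CN hK hx)]
    obtain ⟨h1, h2, h3, h4⟩ := hx
    refine ⟨?_, ?_, rfl, rfl⟩
    · change ((ω⁻¹ : Kˣ) : K) * x.b = (ω * x.a) ^ 5
      rw [h1, mul_pow, hinv]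
      have : (ω : K) ^ 5 = (ω : K) ^ 3 * (ω : K) ^ 2 := by ring
      rw [this, hωK, one_mul]
    · change x.c + x.c ^ 5 = (ω * x.a) ^ 6
      rw [h2, mul_pow]
      have : (ω : K) ^ 6 = ((ω : K) ^ 3) ^ 2 := by ring
      rw [this, hωK, one_pow, one_mul]
  have hyn : y ∈ normalizer (R0 K hK : Set (X1 K)) := by
    rw [mem_normalizer_iff_map_conj_eq]
    apply Subgroup.eq_of_le_of_card_ge
    · rintro _ ⟨x, hx, rfl⟩
      exact hconj x hx
    · exact (Subgroup.card_map_of_injective (MulAut.conj y).injective).ge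
  have hyn' : zpowers y ≤ normalizer (R0 K hK : Set (X1 K)) := zpowers_le_normalizer hyn
  set R1 := ⁅R0 K hK, zpowers y⁆ with hR1
  have hR1R0 : R1 ≤ R0 K hK := le_normalizer_iff_commutator_le_left.mp hyn'
  have hR1y : ⁅R1, zpowers y⁆ = R1 := comm_comm (by norm_num) hyp
    (not_dvd_card_of_isPGroup (p := 5) (by norm_num) (by norm_num) (by norm_num)
      (R0_isPGroup hK)) hyn'
  have hyR1 : zpowers y ≤ normalizer (R1 : Set (X1 K)) :=
    normalizer_commutator_ge_right (R0 K hK) (zpowers y)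
  -- centrality
  have hPhi : Phi 5 R1 ≤ CZ K := by
    rw [Phi, closure_le]
    rintro x (⟨a, ha, b, hb, rfl⟩ | ⟨a, ha, rfl⟩)
    · rw [comm_CN (R0_le_CN hK (hR1R0 ha)) (R0_le_CN hK (hR1R0 hb))]
      exact ⟨rfl, rfl, rfl, rfl⟩
    · rw [CN_pow5 (R0_le_CN hK (hR1R0 ha))]
      exact one_mem _
  have hcen : R1 ⊔ zpowers y ≤ centralizer (CZ K : Set (X1 K)) := by
    rw [sup_le_iff, zpowers_le]
    constructor
    · intro x hx
      have hx' := R0_le_CN hK (hR1R0 hx)
      rw [mem_centralizer_iff]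
      rintro z ⟨h1, h2, h3, h4⟩
      rw [← commutatorElement_eq_one_iff_mul_comm, comm_CN ⟨h3, h4⟩ hx', h1, h2, mul_zero,
        zero_mul, sub_zero]
      rfl
    · rw [mem_centralizer_iff]
      rintro z ⟨h1, h2, h3, h4⟩
      have h5 := dg_conj ω z ⟨h3, h4⟩
      rw [h1, h2, mul_zero, mul_zero] at h5
      have h6 : (⟨0, 0, z.c, 1, 1⟩ : X1 K) = z := by
        ext
        · exact h1.symm
        · exact h2.symm
        · rfl
        · exact congrArg Units.val h3.symm
        · exact congrArg Units.val h4.symm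
      rw [h6] at h5
      calc z * y = (y * z * y⁻¹) * y := by rw [hy, h5]
        _ = y * z := by group
  have hE : ⁅Phi 5 R1, R1 ⊔ zpowers y⁆ = ⊥ := by
    rw [commutator_comm, commutator_eq_bot_iff_le_centralizer]
    exact hcen.trans (centralizer_le hPhi)
  refine ⟨R1, y, ?_, hE, ?_⟩
  · exact
      { hP := IsPGroup.of_bot
        hQ := IsPGroup.of_bot
        hR := (R0_isPGroup hK).to_le hR1R0
        hy := hyp
        QP := le_normalizer_of_normal
        RP := le_normalizer_of_normal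
        yP := (le_normalizer_of_normal (K := (⊤ : Subgroup (X1 K)))) (mem_top _)
        RQ := le_normalizer_of_normal
        yQ := (le_normalizer_of_normal (K := (⊤ : Subgroup (X1 K)))) (mem_top _)
        yR := hyR1 (mem_zpowers y)
        Ry := hR1y
        y3 := by rw [hy3, zpowers_one_eq_bot, commutator_bot_right]
        cen := by rw [commutator_bot_left] }
  · -- noncommutativity
    intro h
    have h5 : (5 : K) = 0 := CharP.ofNat_eq_zero K 5
    set r : X1 K := ⟨1, 1, 3, 1, 1⟩ with hr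
    have hrR0 : r ∈ R0 K hK := by
      refine ⟨?_, ?_, rfl, rfl⟩
      · change (1 : K) = 1 ^ 5
        rw [one_pow]
      · change (3 : K) + 3 ^ 5 = 1 ^ 6
        linear_combination 49 * h5
    set u := ⁅r, y⁆ with hu
    have huR1 : u ∈ R1 := commutator_mem_commutator hrR0 (mem_zpowers y)
    set v := y * u * y⁻¹ with hv
    have hvR1 : v ∈ R1 := (mem_normalizer_iff.mp (hyR1 (mem_zpowers y)) u).mp huR1
    have h1 : ⁅u, v⁆ = 1 := by
      rw [← mem_bot, ← h]
      exact commutator_mem_commutator huR1 hvR1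
    have huN := R0_le_CN hK (hR1R0 huR1)
    have hvN := R0_le_CN hK (hR1R0 hvR1)
    rw [comm_CN huN hvN] at h1
    have h2 : u.a * v.b - v.a * u.b = 0 := congrArg X1.c h1
    have hva : v.a = ω * u.a := by rw [hv, hy, dg_conj ω u huN]
    have hvb : v.b = ((ω⁻¹ : Kˣ) : K) * u.b := by rw [hv, hy, dg_conj ω u huN]
    have hua : u.a = 1 - ω := by
      rw [hu, commutatorElement_def]
      simp [hr, hy, dg]
      ring
    have hub : u.b = 1 - (ω : K) ^ 2 := by
      rw [hu, commutatorElement_def]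
      have hinv' : (ω : K)⁻¹ = (ω : K) ^ 2 := by
        rw [← hinv]; simp
      simp [hr, hy, dg, hinv']
      ring
    rw [hva, hvb, hua, hub, hinv] at h2
    have h3 : (1 - (ω : K)) ^ 3 * (1 + (ω : K)) * (ω : K) = 0 := by
      linear_combination (-1) * h2
    have hne1 : (1 - (ω : K)) ≠ 0 := by
      intro h4
      apply hω1
      apply Units.ext
      have := sub_eq_zero.mp h4
      simpa using this.symm
    have hne2 : (1 + (ω : K)) ≠ 0 := by
      intro h4
      have h6 : (ω : K) = -1 := by linear_combination h4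
      rw [h6] at hωK
      have h7 : (2 : K) = 0 := by linear_combination (-1) * hωK
      have h8 : (1 : K) = 0 := by linear_combination h5 - 2 * h7
      exact one_ne_zero h8
    have hne3 : (ω : K) ≠ 0 := Units.ne_zero ω
    exact (mul_ne_zero (mul_ne_zero (pow_ne_zero 3 hne1) hne2) hne3) h3

end X1

end Pool.Agent.Helper851.R
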