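import Mathlib
import Pool.Agent.Helper851.R10
import Pool.Agent.Helper851.R13

set_option autoImplicit false

/-! The class is not closed under normal products. -/

namespace Pool.Agent.Helper851.R

open Subgroup
open scoped commutatorElement

instance fact5 : Fact (Nat.Prime 5) := ⟨by norm_num⟩

/-- The field with 25 elements. -/
abbrev F25 : Type := GaloisField 5 2

theorem F25_card : Nat.card F25 = 25 := by
  have := GaloisField.card 5 2 (by norm_num)
  rw [this]; norm_num

theorem F25_pow (x : F25) : x ^ 25 = x := by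
  have : Fintype F25 := Fintype.ofFinite _
  have h := FiniteField.pow_card x
  rwa [← Nat.card_eq_fintype_card, F25_card] at h

theorem exists_omega : ∃ ω : F25ˣ, ω ^ 3 = 1 ∧ ω ≠ 1 := by
  have h1 : Nat.card F25ˣ = 24 := by
    rw [Nat.card_units, F25_card]
  have : Fact (Nat.Prime 3) := ⟨by norm_num⟩
  obtain ⟨ω, hω⟩ := exists_prime_orderOf_dvd_card' (G := F25ˣ) 3 (by rw [h1]; norm_num)
  refine ⟨ω, ?_, ?_⟩
  · rw [← hω]; exact pow_orderOf_eq_one ω
  · rintro rfl
    rw [orderOf_one] at hω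
    norm_num at hω

theorem not_product : ∃ (G : Type) (_ : Group G) (_ : Finite G) (A B : Subgroup G)
    (_ : A.Normal) (_ : B.Normal), ClsOf DF ↥A ∧ ClsOf DF ↥B ∧ ¬ ClsOf DF ↥(A ⊔ B) := by
  obtain ⟨ω, hω, hω1⟩ := exists_omega
  obtain ⟨R, y, hc, hcen, hR⟩ := X1.exists_config F25_pow ω hω hω1
  obtain ⟨Z, hZ, hZne⟩ := wreath_bad hc hcen hR
  have hsol : Group.IsSolvable (X1 F25) := X1.solvable
  refine ⟨Wr (Wr (X1 F25) 11) 2, inferInstance, inferInstance,
    ((X1.pt (K := F25)).ker).comap (dproj (X1 F25)),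
    ((X1.ps (K := F25)).ker).comap (dproj (X1 F25)), inferInstance, inferInstance,
    comap_metab _ X1.metabA, comap_metab _ X1.metabB, ?_⟩
  have htop : ((X1.pt (K := F25)).ker).comap (dproj (X1 F25)) ⊔
      ((X1.ps (K := F25)).ker).comap (dproj (X1 F25)) = ⊤ := by
    rw [comap_sup_eq _ _ _ (dproj_surj _), X1.sup_top, comap_top]
  rw [htop]
  intro h
  have h2 : ClsOf DF (Wr (Wr (X1 F25) 11) 2) :=
    ClsOf.inj good_DF (topEquiv (G := Wr (Wr (X1 F25) 11) 2)).symm.toMonoidHom
      (topEquiv (G := Wr (Wr (X1 F25) 11) 2)).symm.injective h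
  exact hZne (h2.2.2 Z hZ)

end Pool.Agent.Helper851.R
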